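import Pool.Agent.Work.MP_fe3720_an.NR.PrmA

/-! # LamQ: the group `Λ = {c | n c ∈ Aℤ for some odd n}` and the last step

PROOFS. `Lam`: closed under addition (`n m` is odd), negation. `noOdd_quot`: `n • [c] = [n c]`, `n c ∈ Λ`, `m n c ∈ Aℤ`, `m n` odd. `divFree2_Lam`: let `g k = 2 g (k+1)` in `Λ`; `g 0 = 2^k g k`. If `A = 0` then `n c ∈ 0ℤ` gives `c = 0` for all `c ∈ Λ`. Let `A ≠ 0`: `n₀ g 0 = m₀ A`, `n_k g k = m_k A` with `n₀, n_k` odd, `m₀, m_k : ℤ`; so `m₀ n_k A = n₀ n_k g 0 = 2^k n₀ n_k g k = 2^k n₀ m_k A`, `m₀ n_k = 2^k n₀ m_k`,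
`2^k ∣ m₀` for all `k` (`n_k` is coprime to `2^k`), `m₀ = 0`, `n₀ g 0 = 0`, `g 0 = 0`.

`prm_lift` (`W` is a primitive on the open set `Ω` of the classes mod `Λ` of the local system `w` with values in `ℂ`; `H1triv Ω Λ`): for `x ∈ Ω` choose `c x : ℂ` with class `W x` (`QuotientAddGroup.mk_surjective`). For `y` near `x`: `[w x y - w x x] = W y - W x = [c y - c x]`, so `g x y := (w x y - w x x) - (c y - c x) ∈ Λ` (for `y` near `x`; put `g x y = 0` otherwise).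
`g` is a local system on `Ω` with values in `Λ`: for `y` near `x`, `z` near `y`: `g x z - g y z = (w x z - w y z) - w x x + w y y + c x - c y` and `w x z - w y z` is constant in `z` near `y` (`IsLS Ω w`); so `g x z - g y z` is constant near `y`. Take a primitive `N` (values in `Λ`): `N y - N x = g x y - g x x = g x y` near `x`. Put `w₀ y = c y + N y`: `w₀ y - w₀ x = c y - c x + g x y = w x y - w x x`. -/

namespace Pool.Agent.MP_fe3720.NR

open Set Topology Filter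

/-- the numbers `c` with `n c ∈ Aℤ` for some odd `n` -/
def Lam (A : ℂ) : AddSubgroup ℂ where
  carrier := {c | ∃ n : ℕ, Odd n ∧ (n : ℂ) * c ∈ AddSubgroup.zmultiples A}
  add_mem' := by
    rintro a b ⟨n, hn, ha⟩ ⟨m, hm, hb⟩
    refine ⟨n * m, hn.mul hm, ?_⟩
    have h1 : ((n * m : ℕ) : ℂ) * (a + b) = m • ((n : ℂ) * a) + n • ((m : ℂ) * b) := by
      push_cast; simp only [nsmul_eq_mul]; ring
    rw [h1]
    exact add_mem (nsmul_mem ha m) (nsmul_mem hb n)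
  zero_mem' := ⟨1, odd_one, by simp⟩
  neg_mem' := by
    rintro a ⟨n, hn, ha⟩
    exact ⟨n, hn, by simpa using ha⟩

theorem zmultiples_le_Lam (A : ℂ) : AddSubgroup.zmultiples A ≤ Lam A := by
  rw [AddSubgroup.zmultiples_le]
  exact ⟨1, odd_one, by simp⟩

theorem noOdd_quot (A : ℂ) : NoOdd (ℂ ⧸ Lam A) := by
  intro n g hn hg
  obtain ⟨c, rfl⟩ := QuotientAddGroup.mk_surjective g
  rw [← QuotientAddGroup.mk_nsmul, QuotientAddGroup.eq_zero_iff] at hg
  rw [QuotientAddGroup.eq_zero_iff]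
  obtain ⟨m, hm, h⟩ := hg
  refine ⟨m * n, hm.mul hn, ?_⟩
  rw [nsmul_eq_mul, ← mul_assoc] at h
  rwa [Nat.cast_mul]

theorem divFree2_Lam (A : ℂ) : DivFree2 (Lam A) := by
  intro g hg
  have hg' : ∀ k, ((g k : Lam A) : ℂ) = 2 * ((g (k + 1) : Lam A) : ℂ) := by
    intro k
    have h1 := congrArg (Subtype.val) (hg k)
    rw [h1, two_nsmul, two_mul]
    rfl
  have h0 : ∀ k, ((g 0 : Lam A) : ℂ) = 2 ^ k * ((g k : Lam A) : ℂ) := by
    intro k
    induction k with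
    | zero => rw [pow_zero, one_mul]
    | succ k ih => rw [ih, hg' k, pow_succ, mul_assoc]
  obtain ⟨n, hn, hm⟩ : ∃ n : ℕ, Odd n ∧ (n : ℂ) * ((g 0 : Lam A) : ℂ) ∈
      AddSubgroup.zmultiples A := (g 0).2
  obtain ⟨m, hm⟩ := AddSubgroup.mem_zmultiples_iff.1 hm
  have hn0 : (n : ℂ) ≠ 0 := by
    exact_mod_cast hn.pos.ne'
  have key : (n : ℂ) * ((g 0 : Lam A) : ℂ) = 0 → g 0 = 0 := by
    intro h
    exact Subtype.ext ((mul_eq_zero.1 h).resolve_left hn0)
  apply key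
  rw [← hm, zsmul_eq_mul]
  by_cases hA : A = 0
  · rw [hA, mul_zero]
  have hdvd : ∀ k : ℕ, (2 : ℤ) ^ k ∣ m := by
    intro k
    obtain ⟨n', hn', hm'⟩ : ∃ n : ℕ, Odd n ∧ (n : ℂ) * ((g k : Lam A) : ℂ) ∈
      AddSubgroup.zmultiples A := (g k).2
    obtain ⟨m', hm'⟩ := AddSubgroup.mem_zmultiples_iff.1 hm'
    rw [zsmul_eq_mul] at hm hm'
    have h1 : ((m * n' : ℤ) : ℂ) * A = ((2 ^ k * n * m' : ℤ) : ℂ) * A := by
      push_cast
      have h2 := h0 k
      linear_combination (n' : ℂ) * hm + (n' : ℂ) * (n : ℂ) * h2 - (2 : ℂ) ^ k * n * hm'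
    have h2 : m * n' = 2 ^ k * n * m' := by
      exact_mod_cast mul_right_cancel₀ hA h1
    have h3 : (2 : ℤ) ^ k ∣ m * n' := ⟨n * m', by rw [h2, mul_assoc]⟩
    refine IsCoprime.dvd_of_dvd_mul_right ?_ h3
    apply IsCoprime.pow_left
    have h4 : Nat.Coprime 2 n' := Nat.coprime_two_left.2 hn'
    exact_mod_cast Nat.isCoprime_iff_coprime.2 h4
  have hm0 : m = 0 := by
    refine Int.eq_zero_of_dvd_of_natAbs_lt_natAbs (hdvd m.natAbs) ?_
    rw [Int.natAbs_pow]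
    exact Nat.lt_two_pow_self
  rw [hm0, Int.cast_zero, zero_mul]

theorem prm_lift {Ω : Set E2} (hΩ : IsOpen Ω) (A : ℂ) {w : E2 → E2 → ℂ} (hw : IsLS Ω w)
    {W : E2 → ℂ ⧸ Lam A} (hW : Prm (fun x y => (QuotientAddGroup.mk (w x y) : ℂ ⧸ Lam A)) Ω W)
    (hH : H1triv Ω (Lam A)) : ∃ w₀ : E2 → ℂ, Prm w Ω w₀ := by
  choose c hc using fun x => QuotientAddGroup.mk_surjective (W x)
  classical
  let g : E2 → E2 → Lam A := fun x y =>
    if h : (w x y - w x x) - (c y - c x) ∈ Lam A then ⟨_, h⟩ else 0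
  have hg : ∀ x ∈ Ω, ∀ᶠ y in 𝓝[Ω] x, ((g x y : Lam A) : ℂ) = (w x y - w x x) - (c y - c x) := by
    intro x hx
    filter_upwards [hW x hx] with y hy
    have h1 : (w x y - w x x) - (c y - c x) ∈ Lam A := by
      rw [← QuotientAddGroup.eq_zero_iff, QuotientAddGroup.mk_sub, QuotientAddGroup.mk_sub,
        QuotientAddGroup.mk_sub, hc, hc, hy, sub_self]
    show ((g x y : Lam A) : ℂ) = _
    have h2 : g x y = ⟨_, h1⟩ := dif_pos h1
    rw [h2]
  have hgg : ∀ x ∈ Ω, ((g x x : Lam A) : ℂ) = 0 := by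
    intro x hx
    have h1 := (hg x hx).self_of_nhdsWithin hx
    rw [h1, sub_self, sub_self, sub_self]
  have hLS : IsLS Ω g := by
    intro x hx
    filter_upwards [hw x hx, hg x hx, eventually_eventually_nhdsWithin.2 (hg x hx),
      self_mem_nhdsWithin] with y h1 h2 h3 hy
    filter_upwards [h1, h3, hg y hy] with z h4 h5 h6
    apply Subtype.ext
    show ((g x z : Lam A) : ℂ) - ((g y z : Lam A) : ℂ) =
      ((g x y : Lam A) : ℂ) - ((g y y : Lam A) : ℂ)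
    rw [h5, h6, h2, hgg y hy]
    linear_combination h4
  obtain ⟨N, hN⟩ := hH g hLS
  refine ⟨fun x => c x + ((N x : Lam A) : ℂ), fun x hx => ?_⟩
  filter_upwards [hN x hx, hg x hx] with y h1 h2
  have h3 : ((N y : Lam A) : ℂ) - ((N x : Lam A) : ℂ) =
      ((g x y : Lam A) : ℂ) - ((g x x : Lam A) : ℂ) := congrArg Subtype.val h1
  rw [h2, hgg x hx] at h3
  linear_combination h3

end Pool.Agent.MP_fe3720.NR
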