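import Pool.Agent.Work.MP_fe3720_an.NR.PrmA

/-! # H1conv: local systems on intervals and on star-shaped open sets have primitives

PROOFS. `h1triv_Icc`: continuous induction: `{t ∈ [a, b] | ∃ W, Prm P (Icc a t) W}` is closed and open to the right
(`IsClosed.Icc_subset_of_forall_mem_nhdsWithin` or with `sSup`). GLUING: if `W` is a primitive on `[a, t]` and `V` one on `[t', t'']`, `t' ≤ t < t''`,
then `W` on `[a, t]`, `V - V t + W t` on `(t, t'']` is a primitive on `[a, t'']`: at `t` itself both satisfy the condition from the two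
sides. Every `t` has a neighbourhood in `[a, b]` on which `P t` is a primitive (as in `IsLS.prm`, the same proof with
`𝓝[Icc a b]`).

`h1triv_ord`: `I` order-connected. If `I` is empty: trivial. Fix `t₀ ∈ I`. For `t ∈ I` let `W_t` be a primitive on `uIcc t₀ t` with
`W_t t₀ = 0`. Define `W t = W_t t`. By uniqueness (`Prm.sub_const`, `uIcc` is preconnected) `W t' = W_t t'` for `t' ∈ uIcc t₀ t`.
To check `Prm` at `t`: choose a compact interval `K = [c, d] ⊆ I` containing `t₀` and all points of `I` near `t` (if `t` is not the greatest element of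
`I` take `d > t` in `I`, otherwise `d = max t t₀`; same for `c`), a primitive `V` on `K` with `V t₀ = 0`; then `W = V` on `K`.

`h1triv_star`: `S` open, star-shaped around `x₀`. `Γ t y = x₀ + t • (y - x₀)`. For `y ∈ S` the local system
`(t, t') ↦ P (Γ t y) (Γ t' y)` on `[0, 1]` (`IsLS.comp`) has a primitive `N_y` with `N_y 0 = 0`. Put `W y = N_y 1`. FIX `x ∈ S`. Let
`T = {t ∈ [0, 1] | ∃ c, ∀ᶠ y in 𝓝 x, N_y t - P (Γ t x) (Γ t y) = c}`. `0 ∈ T`. CLAIM: every `t₀ ∈ [0, 1]` has a neighbourhood such that for `t ∈ [0, 1]` in it,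
`t ∈ T ↔ t₀ ∈ T`. Let `z = Γ t₀ x`; choose an open neighbourhood `U ⊆ S` of `z` on which `P z` is a primitive (`IsLS.prm`) and `ε > 0` with `Γ t y ∈ U`
for `|t - t₀| < ε`, `‖y - x‖ < ε`. For such `t, y`: `N_y t - P z (Γ t y) = N_y t₀ - P z (Γ t₀ y)` (two primitives on the interval between
`t₀` and `t`, `Prm.sub_const`); and `P z (Γ t y) - P (Γ t x) (Γ t y)` is constant for `y` near `x` (as `Γ t x ∈ U`: `P z` is a primitive at `Γ t x`, composed with
`y ↦ Γ t y`). So `T` is relatively clopen in `[0, 1]`, and `1 ∈ T`, which is the assertion at `x` (`Γ 1 y = y`). -/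

namespace Pool.Agent.MP_fe3720.NR

open Set Topology Filter

/-- near a point `x` of an order-connected set the function `P x` is a primitive -/
private theorem ord_loc {G : Type*} [AddCommGroup G] {I : Set ℝ} {P : ℝ → ℝ → G}
    (h : IsLS I P) {x : ℝ} (hx : x ∈ I) :
    ∃ ε > 0, Prm P (Ioo (x - ε) (x + ε) ∩ I) (P x) := by
  have h1 := h x hx
  rw [eventually_nhdsWithin_iff] at h1
  obtain ⟨ε, hε, h2⟩ := Metric.eventually_nhds_iff.1 h1
  refine ⟨ε, hε, fun y hy => ?_⟩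
  have h3 : dist y x < ε := by
    rw [Real.dist_eq, abs_lt]
    constructor <;> linarith [hy.1.1, hy.1.2]
  have h4 := h2 h3 hy.2
  have h5 : ∀ᶠ z in 𝓝[Ioo (x - ε) (x + ε) ∩ I] y, P x z - P y z = P x y - P y y :=
    h4.filter_mono (nhdsWithin_mono _ inter_subset_right)
  filter_upwards [h5] with z hz
  rw [sub_eq_sub_iff_add_eq_add] at hz ⊢
  rw [hz, add_comm]

/-- gluing at a common end point -/
private theorem glue {G : Type*} [AddCommGroup G] {P : ℝ → ℝ → G} {a c d : ℝ} (hac : a ≤ c)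
    (hcd : c ≤ d) {W V : ℝ → G} (hW : Prm P (Icc a c) W) (hV : Prm P (Icc c d) V) :
    ∃ U : ℝ → G, Prm P (Icc a d) U := by
  classical
  refine ⟨fun x => if x ≤ c then W x else V x - V c + W c, fun x hx => ?_⟩
  rcases lt_trichotomy x c with hxc | hxc | hxc
  · have h1 := hW x ⟨hx.1, hxc.le⟩
    rw [eventually_nhdsWithin_iff] at h1 ⊢
    filter_upwards [h1, Iio_mem_nhds hxc] with y hy hyc hy'
    have hyc' : y ≤ c := le_of_lt hyc
    rw [if_pos hyc', if_pos hxc.le]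
    exact hy ⟨hy'.1, hyc'⟩
  · subst hxc
    have h1 := hW x ⟨hac, le_refl _⟩
    have h2 := hV x ⟨le_refl _, hcd⟩
    rw [eventually_nhdsWithin_iff] at h1 h2 ⊢
    filter_upwards [h1, h2] with y hy1 hy2 hy
    rw [if_pos (le_refl x)]
    by_cases hyx : y ≤ x
    · rw [if_pos hyx]
      exact hy1 ⟨hy.1, hyx⟩
    · rw [if_neg hyx, add_sub_cancel_right]
      exact hy2 ⟨(not_le.1 hyx).le, hy.2⟩
  · have h1 := hV x ⟨hxc.le, hx.2⟩
    rw [eventually_nhdsWithin_iff] at h1 ⊢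
    filter_upwards [h1, Ioi_mem_nhds hxc] with y hy hyc hy'
    have hyc' : ¬ y ≤ c := not_le.2 hyc
    rw [if_neg hyc', if_neg (not_le.2 hxc), add_sub_add_right_eq_sub, sub_sub_sub_cancel_right]
    exact hy ⟨(not_le.1 hyc').le, hy'.2⟩

/-- transitivity -/
private theorem trans_aux {G : Type*} [AddCommGroup G] {P : ℝ → ℝ → G} {x y z : ℝ}
    (h1 : ∃ W : ℝ → G, Prm P (uIcc x y) W) (h2 : ∃ W : ℝ → G, Prm P (uIcc y z) W) :
    ∃ W : ℝ → G, Prm P (uIcc x z) W := by
  obtain ⟨W, hW⟩ := h1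
  obtain ⟨V, hV⟩ := h2
  rcases le_total x y with hxy | hxy <;> rcases le_total y z with hyz | hyz
  · rw [uIcc_of_le hxy] at hW
    rw [uIcc_of_le hyz] at hV
    rw [uIcc_of_le (hxy.trans hyz)]
    exact glue hxy hyz hW hV
  · rcases le_total x z with hxz | hxz
    · refine ⟨W, hW.mono ?_⟩
      rw [uIcc_of_le hxy, uIcc_of_le hxz]
      exact Icc_subset_Icc_right hyz
    · refine ⟨V, hV.mono ?_⟩
      rw [uIcc_of_ge hyz, uIcc_of_ge hxz]
      exact Icc_subset_Icc_right hxy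
  · rcases le_total x z with hxz | hxz
    · refine ⟨V, hV.mono ?_⟩
      rw [uIcc_of_le hyz, uIcc_of_le hxz]
      exact Icc_subset_Icc_left hxy
    · refine ⟨W, hW.mono ?_⟩
      rw [uIcc_of_ge hxy, uIcc_of_ge hxz]
      exact Icc_subset_Icc_left hyz
  · rw [uIcc_of_ge hxy] at hW
    rw [uIcc_of_ge hyz] at hV
    rw [uIcc_of_ge (hyz.trans hxy)]
    exact glue hyz hxy hV hW

private theorem ord_aux {G : Type*} [AddCommGroup G] {I : Set ℝ} (hI : I.OrdConnected)
    {P : ℝ → ℝ → G} (h : IsLS I P) {x y : ℝ} (hx : x ∈ I) (hy : y ∈ I) :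
    ∃ W : ℝ → G, Prm P (uIcc x y) W := by
  refine IsPreconnected.induction₂ hI.isPreconnected
    (fun x y => ∃ W : ℝ → G, Prm P (uIcc x y) W) ?_ ?_ ?_ hx hy
  · intro x hx
    obtain ⟨ε, hε, hP⟩ := ord_loc h hx
    rw [eventually_nhdsWithin_iff]
    filter_upwards [Ioo_mem_nhds (show x - ε < x by linarith) (show x < x + ε by linarith)]
      with y hy hyI
    refine ⟨P x, hP.mono (subset_inter ?_ (hI.uIcc_subset hx hyI))⟩
    exact (ordConnected_Ioo).uIcc_subset ⟨by linarith, by linarith⟩ hy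
  · intro x y z _ _ _ h1 h2
    exact trans_aux h1 h2
  · intro x y _ _ h1
    rw [uIcc_comm]
    exact h1

theorem h1triv_Icc {G : Type*} [AddCommGroup G] (a b : ℝ) : H1triv (Icc a b) G := by
  intro P h
  rcases le_or_gt a b with hab | hab
  · obtain ⟨W, hW⟩ := ord_aux ordConnected_Icc h (left_mem_Icc.2 hab) (right_mem_Icc.2 hab)
    rw [uIcc_of_le hab] at hW
    exact ⟨W, hW⟩
  · refine ⟨fun _ => 0, fun x hx => ?_⟩
    exact absurd (hx.1.trans hx.2) (not_le.2 hab)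

theorem h1triv_ord {G : Type*} [AddCommGroup G] {I : Set ℝ} (hI : I.OrdConnected) :
    H1triv I G := by
  classical
  intro P h
  rcases I.eq_empty_or_nonempty with rfl | ⟨t₀, ht₀⟩
  · exact ⟨fun _ => 0, fun x hx => absurd hx (notMem_empty x)⟩
  have hex : ∀ t : ℝ, ∃ W : ℝ → G, t ∈ I → (Prm P (uIcc t₀ t) W ∧ W t₀ = 0) := by
    intro t
    by_cases ht : t ∈ I
    · obtain ⟨W, hW⟩ := ord_aux hI h ht₀ ht
      refine ⟨fun x => W x + (- W t₀), fun _ => ⟨hW.add_const _, ?_⟩⟩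
      simp
    · exact ⟨fun _ => 0, fun h => absurd h ht⟩
  choose N hN using hex
  refine ⟨fun t => N t t, fun t ht => ?_⟩
  obtain ⟨ε, hε, hP⟩ := ord_loc h ht
  rw [eventually_nhdsWithin_iff]
  filter_upwards [Ioo_mem_nhds (show t - ε < t by linarith) (show t < t + ε by linarith)]
    with y hy hyI
  have hty : uIcc t y ⊆ Ioo (t - ε) (t + ε) ∩ I :=
    subset_inter ((ordConnected_Ioo).uIcc_subset ⟨by linarith, by linarith⟩ hy)
      (hI.uIcc_subset ht hyI)
  obtain ⟨hNt, hNt0⟩ := hN t ht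
  obtain ⟨hNy, hNy0⟩ := hN y hyI
  have key : ∀ {s s' : ℝ} {W V : ℝ → G} {A : Set ℝ}, Prm P A W → Prm P A V →
      uIcc s s' ⊆ A → W s' - V s' = W s - V s := by
    intro s s' W V A hW hV hA
    exact (hW.mono hA).sub_const (hV.mono hA) isPreconnected_uIcc left_mem_uIcc right_mem_uIcc
  have hcases : y ∈ uIcc t₀ t ∨ t ∈ uIcc t₀ y ∨ t₀ ∈ uIcc t y := by
    rcases le_total t₀ t with h1 | h1 <;> rcases le_total t y with h2 | h2 <;>
      rcases le_total t₀ y with h3 | h3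
    all_goals simp only [mem_uIcc]
    · exact Or.inr (Or.inl (Or.inl ⟨h1, h2⟩))
    · exact Or.inr (Or.inr (Or.inl ⟨by linarith, by linarith⟩))
    · exact Or.inl (Or.inl ⟨h3, h2⟩)
    · exact Or.inr (Or.inr (Or.inr ⟨h3, h1⟩))
    · exact Or.inr (Or.inr (Or.inl ⟨h1, h3⟩))
    · exact Or.inl (Or.inr ⟨h2, h3⟩)
    · exact Or.inr (Or.inr (Or.inl ⟨by linarith, by linarith⟩))
    · exact Or.inr (Or.inl (Or.inr ⟨h2, h1⟩))
  have hPty : Prm P (uIcc t y) (P t) := hP.mono hty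
  rcases hcases with hc | hc | hc
  · -- `y` between `t₀` and `t`
    have hs1 : uIcc t y ⊆ uIcc t₀ t := uIcc_subset_uIcc right_mem_uIcc hc
    have hs0 : uIcc t₀ y ⊆ uIcc t₀ t := uIcc_subset_uIcc left_mem_uIcc hc
    have e1 : N y y - N t y = N y t₀ - N t t₀ := key hNy (hNt.mono hs0) subset_rfl
    rw [hNt0, hNy0, sub_zero, sub_eq_zero] at e1
    have e2 : N t y - P t y = N t t - P t t := key (hNt.mono hs1) hPty subset_rfl
    show N y y - N t t = P t y - P t t
    rw [e1]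
    rw [sub_eq_sub_iff_add_eq_add] at e2 ⊢
    rw [e2, add_comm]
  · -- `t` between `t₀` and `y`
    have hs1 : uIcc t y ⊆ uIcc t₀ y := uIcc_subset_uIcc hc right_mem_uIcc
    have hs0 : uIcc t₀ t ⊆ uIcc t₀ y := uIcc_subset_uIcc left_mem_uIcc hc
    have e1 : N t t - N y t = N t t₀ - N y t₀ := key hNt (hNy.mono hs0) subset_rfl
    rw [hNt0, hNy0, sub_zero, sub_eq_zero] at e1
    have e2 : N y y - P t y = N y t - P t t := key (hNy.mono hs1) hPty subset_rfl
    show N y y - N t t = P t y - P t t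
    rw [e1]
    rw [sub_eq_sub_iff_add_eq_add] at e2 ⊢
    rw [e2, add_comm]
  · -- `t₀` between `t` and `y`
    have hs1 : uIcc t₀ t ⊆ uIcc t y := uIcc_subset_uIcc hc left_mem_uIcc
    have hs0 : uIcc t₀ y ⊆ uIcc t y := uIcc_subset_uIcc hc right_mem_uIcc
    have e1 : N t t - P t t = N t t₀ - P t t₀ := key hNt (hPty.mono hs1) subset_rfl
    have e2 : N y y - P t y = N y t₀ - P t t₀ := key hNy (hPty.mono hs0) subset_rfl
    rw [hNt0] at e1
    rw [hNy0, ← e1] at e2
    show N y y - N t t = P t y - P t t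
    rw [sub_eq_sub_iff_add_eq_add] at e2 ⊢
    rw [e2, add_comm]

theorem h1triv_star {E : Type*} [NormedAddCommGroup E] [NormedSpace ℝ E] {G : Type*}
    [AddCommGroup G] {S : Set E} (hS : IsOpen S) {x₀ : E} (hx₀ : x₀ ∈ S)
    (hst : StarConvex ℝ x₀ S) : H1triv S G := by
  classical
  intro P h
  have hcont : Continuous fun q : ℝ × E => x₀ + q.1 • (q.2 - x₀) := by fun_prop
  have hmem : ∀ y ∈ S, ∀ t ∈ Icc (0 : ℝ) 1, x₀ + t • (y - x₀) ∈ S := by
    intro y hy t ht
    have := hst hy (sub_nonneg.2 ht.2) ht.1 (by ring)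
    have e : (1 - t) • x₀ + t • y = x₀ + t • (y - x₀) := by
      rw [sub_smul, one_smul, smul_sub]; abel
    rwa [e] at this
  have hcy : ∀ y : E, Continuous fun t : ℝ => x₀ + t • (y - x₀) := fun y => by fun_prop
  have hct : ∀ t : ℝ, Continuous fun y : E => x₀ + t • (y - x₀) := fun t => by fun_prop
  have hex : ∀ y : E, ∃ N : ℝ → G, y ∈ S →
      (Prm (fun s t => P (x₀ + s • (y - x₀)) (x₀ + t • (y - x₀))) (Icc 0 1) N ∧ N 0 = 0) := by
    intro y
    by_cases hy : y ∈ S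
    · have hls : IsLS (Icc (0 : ℝ) 1) (fun s t => P (x₀ + s • (y - x₀)) (x₀ + t • (y - x₀))) :=
        h.comp (γ := fun t : ℝ => x₀ + t • (y - x₀)) (hcy y).continuousOn
          (fun t ht => hmem y hy t ht)
      obtain ⟨N, hN⟩ := h1triv_Icc (G := G) 0 1 _ hls
      refine ⟨fun t => N t + (- N 0), fun _ => ⟨hN.add_const _, ?_⟩⟩
      simp
    · exact ⟨fun _ => 0, fun h => absurd h hy⟩
  choose N hN using hex
  refine ⟨fun y => N y 1, fun x hx => ?_⟩
  rw [hS.nhdsWithin_eq hx]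
  -- the set of good times
  let T : ℝ → Prop := fun t => ∃ c : G, ∀ᶠ y in 𝓝 x,
    N y t - P (x₀ + t • (x - x₀)) (x₀ + t • (y - x₀)) = c
  have hT0 : T 0 := by
    refine ⟨- P x₀ x₀, ?_⟩
    filter_upwards [hS.mem_nhds hx] with y hy
    rw [(hN y hy).2]
    simp
  have hloc : ∀ t₀ ∈ Icc (0 : ℝ) 1, ∀ᶠ t in 𝓝[Icc (0 : ℝ) 1] t₀, T t = T t₀ := by
    intro t₀ ht₀
    have hz : x₀ + t₀ • (x - x₀) ∈ S := hmem x hx t₀ ht₀
    obtain ⟨U, hUS, hUo, hzU, hPU⟩ := h.prm hS hz
    have hnh : (fun q : ℝ × E => x₀ + q.1 • (q.2 - x₀)) ⁻¹' U ∈ 𝓝 (t₀, x) :=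
      (hUo.preimage hcont).mem_nhds hzU
    obtain ⟨ε, hε, hball⟩ := Metric.mem_nhds_iff.1 hnh
    have hin : ∀ t y, dist t t₀ < ε → dist y x < ε → x₀ + t • (y - x₀) ∈ U := by
      intro t y h1 h2
      have : ((t, y) : ℝ × E) ∈ Metric.ball (t₀, x) ε := by
        rw [Metric.mem_ball, Prod.dist_eq]
        exact max_lt h1 h2
      exact hball this
    rw [eventually_nhdsWithin_iff]
    filter_upwards [Metric.ball_mem_nhds t₀ hε] with t ht htI
    have hdt : dist t t₀ < ε := ht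
    -- the two identities
    have hA : ∀ᶠ y in 𝓝 x, N y t - P (x₀ + t₀ • (x - x₀)) (x₀ + t • (y - x₀)) =
        N y t₀ - P (x₀ + t₀ • (x - x₀)) (x₀ + t₀ • (y - x₀)) := by
      filter_upwards [hS.mem_nhds hx, Metric.ball_mem_nhds x hε] with y hyS hyb
      have hJ : uIcc t₀ t ⊆ Icc 0 1 := (ordConnected_Icc).uIcc_subset ht₀ htI
      have hJ' : ∀ s ∈ uIcc t₀ t, dist s t₀ < ε := by
        intro s hs
        have : uIcc t₀ t ⊆ Metric.ball t₀ ε := by
          rw [Real.ball_eq_Ioo]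
          refine (ordConnected_Ioo).uIcc_subset ⟨by linarith, by linarith⟩ ?_
          rw [← Real.ball_eq_Ioo]
          exact ht
        exact this hs
      have h1 : Prm (fun s t => P (x₀ + s • (y - x₀)) (x₀ + t • (y - x₀))) (uIcc t₀ t) (N y) :=
        (hN y hyS).1.mono hJ
      have h2 : Prm (fun s t => P (x₀ + s • (y - x₀)) (x₀ + t • (y - x₀))) (uIcc t₀ t)
          (fun s => P (x₀ + t₀ • (x - x₀)) (x₀ + s • (y - x₀))) :=
        hPU.comp (γ := fun t : ℝ => x₀ + t • (y - x₀)) (hcy y).continuousOn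
          (fun s hs => hin s y (hJ' s hs) hyb)
      exact h1.sub_const h2 isPreconnected_uIcc left_mem_uIcc right_mem_uIcc
    have hB : ∀ᶠ y in 𝓝 x, P (x₀ + t₀ • (x - x₀)) (x₀ + t • (y - x₀)) -
        P (x₀ + t₀ • (x - x₀)) (x₀ + t • (x - x₀)) =
        P (x₀ + t • (x - x₀)) (x₀ + t • (y - x₀)) -
          P (x₀ + t • (x - x₀)) (x₀ + t • (x - x₀)) := by
      have h1 := hPU.sub_of_open hUo (hin t x hdt (by simpa using hε))
      exact (hct t).continuousAt.eventually h1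
    have hpos : T t ↔ T t₀ := by
      constructor
      · rintro ⟨c, hc⟩
        refine ⟨c - (P (x₀ + t₀ • (x - x₀)) (x₀ + t • (x - x₀)) -
          P (x₀ + t • (x - x₀)) (x₀ + t • (x - x₀))), ?_⟩
        filter_upwards [hc, hA, hB] with y hc hA hB
        rw [← hA, ← hc]
        rw [sub_eq_sub_iff_add_eq_add] at hB
        rw [sub_eq_iff_eq_add] at hA
        have : P (x₀ + t₀ • (x - x₀)) (x₀ + t • (y - x₀)) =
            P (x₀ + t • (x - x₀)) (x₀ + t • (y - x₀)) +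
            (P (x₀ + t₀ • (x - x₀)) (x₀ + t • (x - x₀)) -
              P (x₀ + t • (x - x₀)) (x₀ + t • (x - x₀))) := by
          rw [← add_sub_assoc, eq_sub_iff_add_eq, hB]
        rw [this]
        abel
      · rintro ⟨c, hc⟩
        refine ⟨c + (P (x₀ + t₀ • (x - x₀)) (x₀ + t • (x - x₀)) -
          P (x₀ + t • (x - x₀)) (x₀ + t • (x - x₀))), ?_⟩
        filter_upwards [hc, hA, hB] with y hc hA hB
        rw [← hc, ← hA]
        rw [sub_eq_sub_iff_add_eq_add] at hB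
        have : P (x₀ + t₀ • (x - x₀)) (x₀ + t • (y - x₀)) =
            P (x₀ + t • (x - x₀)) (x₀ + t • (y - x₀)) +
            (P (x₀ + t₀ • (x - x₀)) (x₀ + t • (x - x₀)) -
              P (x₀ + t • (x - x₀)) (x₀ + t • (x - x₀))) := by
          rw [← add_sub_assoc, eq_sub_iff_add_eq, hB]
        rw [this]
        abel
    exact propext hpos
  have hT1 : T 1 := by
    have := const_of_loc (isPreconnected_Icc (a := (0 : ℝ)) (b := 1)) (F := T) hloc
      (left_mem_Icc.2 zero_le_one) (right_mem_Icc.2 zero_le_one)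
    rw [this]
    exact hT0
  obtain ⟨c, hc⟩ := hT1
  have e1 : ∀ y : E, x₀ + (1 : ℝ) • (y - x₀) = y := by intro y; rw [one_smul]; abel
  simp only [e1] at hc
  have hcx := hc.self_of_nhds
  filter_upwards [hc] with y hy
  rw [← hcx] at hy
  rw [sub_eq_sub_iff_add_eq_add] at hy ⊢
  rw [hy, add_comm]

end Pool.Agent.MP_fe3720.NR
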