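import Pool.Agent.Work.MP_fe3720_an.NR.Defs

/-! # PrmA: local systems and primitives, general lemmas

PROOFS. `const_of_loc`: `S` preconnected, `F` locally constant on `S` (relative neighbourhoods): for `x y ∈ S`, `F y = F x`.
The sets `{z ∈ S | F z = F x}` and `{z ∈ S | F z ≠ F x}` are relatively open; use `IsPreconnected` (e.g. `isPreconnected_iff_preconnectedSpace` and
`IsPreconnected.constant` for the subtype with the discrete topology, or `isPreconnected_iff_subset_of_disjoint`, or directly the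
definition with open sets `u, v` of `X`: for each `z ∈ S` choose an open neighbourhood `U z` with `F` constant on `U z ∩ S`, put
`u = ⋃ (z ∈ S, F z = F x) U z`, `v = ⋃ (z ∈ S, F z ≠ F x) U z`).

`Prm.mono`, `IsLS.mono`: `nhdsWithin_mono`. `Prm.add_const`, `Prm.congr`: `filter_upwards` (with `self_mem_nhdsWithin`).
`Prm.sub_loc`: `W y - W x = P x y - P x x` and `W' y - W' x = P x y - P x x` for `y` near `x` in `S`.
`Prm.sub_const`: `const_of_loc` for `F = W - W'`.
`Prm.sub_of_open`: for an open set `U` on which `p` is a primitive, `x ∈ U`: eventually `p y - p x = P x y - P x x` (`𝓝[U] x = 𝓝 x`).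
`IsLS.comp`: `γ` continuous on `T`, `MapsTo γ T S`: `ContinuousWithinAt.tendsto_nhdsWithin` (`Tendsto γ (𝓝[T] t) (𝓝[S] (γ t))`), first for the outer
and then (for every `t' ∈ T` near `t`) for the inner filter; note `eventually_mem_nhdsWithin`.
`Prm.comp`: same.
`IsLS.prm`: at `x ∈ S`, `S` open: there is an open neighbourhood `U ⊆ S` of `x` on which `P x` is a primitive of `P`: by
`IsLS` there is an open `U ∋ x`, `U ⊆ S`, with, for `y ∈ U`, `P x z - P y z = P x y - P y y` for all `z` near `y`, i.e.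
`P x z - P x y = P y z - P y y`. -/

namespace Pool.Agent.MP_fe3720.NR

open Set Topology Filter

variable {X : Type*} [TopologicalSpace X] {G : Type*} [AddCommGroup G]

theorem const_of_loc {α : Type*} {S : Set X} (hS : IsPreconnected S) {F : X → α}
    (h : ∀ x ∈ S, ∀ᶠ y in 𝓝[S] x, F y = F x) {x y : X} (hx : x ∈ S) (hy : y ∈ S) : F y = F x := by
  let _ : TopologicalSpace α := ⊥
  have : DiscreteTopology α := ⟨rfl⟩
  refine hS.constant (f := F) (fun z hz => ?_) hy hx
  exact tendsto_const_nhds.congr' ((h z hz).mono fun w hw => hw.symm)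

theorem IsLS.mono {P : X → X → G} {S T : Set X} (h : IsLS S P) (hT : T ⊆ S) : IsLS T P := by
  intro x hx
  exact ((h x (hT hx)).filter_mono (nhdsWithin_mono x hT)).mono fun y hy =>
    hy.filter_mono (nhdsWithin_mono y hT)

theorem Prm.mono {P : X → X → G} {S T : Set X} {W : X → G} (h : Prm P S W) (hT : T ⊆ S) :
    Prm P T W := by
  intro x hx
  exact (h x (hT hx)).filter_mono (nhdsWithin_mono x hT)

theorem Prm.add_const {P : X → X → G} {S : Set X} {W : X → G} (h : Prm P S W) (c : G) :
    Prm P S (fun x => W x + c) := by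
  intro x hx
  refine (h x hx).mono fun y hy => ?_
  rw [add_sub_add_right_eq_sub]
  exact hy

theorem Prm.congr {P : X → X → G} {S : Set X} {W W' : X → G} (h : Prm P S W)
    (h' : ∀ x ∈ S, W' x = W x) : Prm P S W' := by
  intro x hx
  filter_upwards [h x hx, self_mem_nhdsWithin] with y hy hyS
  rw [h' y hyS, h' x hx]
  exact hy

theorem Prm.sub_loc {P : X → X → G} {S : Set X} {W W' : X → G} (h : Prm P S W)
    (h' : Prm P S W') {x : X} (hx : x ∈ S) : ∀ᶠ y in 𝓝[S] x, W y - W' y = W x - W' x := by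
  filter_upwards [h x hx, h' x hx] with y h1 h2
  exact sub_eq_sub_iff_sub_eq_sub.1 (h1.trans h2.symm)

theorem Prm.sub_const {P : X → X → G} {S : Set X} {W W' : X → G} (h : Prm P S W)
    (h' : Prm P S W') (hS : IsPreconnected S) {x y : X} (hx : x ∈ S) (hy : y ∈ S) :
    W y - W' y = W x - W' x :=
  const_of_loc hS (F := fun z => W z - W' z) (fun _ hz => h.sub_loc h' hz) hx hy

theorem Prm.sub_of_open {P : X → X → G} {U : Set X} {p : X → G} (h : Prm P U p)
    (hU : IsOpen U) {x : X} (hx : x ∈ U) : ∀ᶠ y in 𝓝 x, p y - p x = P x y - P x x := by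
  have h1 := h x hx
  rw [hU.nhdsWithin_eq hx] at h1
  exact h1

theorem IsLS.comp {Y : Type*} [TopologicalSpace Y] {P : X → X → G} {S : Set X} (h : IsLS S P)
    {T : Set Y} {γ : Y → X} (hγ : ContinuousOn γ T) (hm : MapsTo γ T S) :
    IsLS T (fun s t => P (γ s) (γ t)) := by
  intro t ht
  filter_upwards [((hγ t ht).tendsto_nhdsWithin hm).eventually (h (γ t) (hm ht)),
    self_mem_nhdsWithin] with t' h1 ht'
  exact ((hγ t' ht').tendsto_nhdsWithin hm).eventually h1

theorem Prm.comp {Y : Type*} [TopologicalSpace Y] {P : X → X → G} {S : Set X} {W : X → G}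
    (h : Prm P S W) {T : Set Y} {γ : Y → X} (hγ : ContinuousOn γ T) (hm : MapsTo γ T S) :
    Prm (fun s t => P (γ s) (γ t)) T (fun t => W (γ t)) := by
  intro t ht
  exact ((hγ t ht).tendsto_nhdsWithin hm).eventually (h (γ t) (hm ht))

theorem IsLS.prm {P : X → X → G} {S : Set X} (h : IsLS S P) (hS : IsOpen S) {x : X}
    (hx : x ∈ S) : ∃ U ⊆ S, IsOpen U ∧ x ∈ U ∧ Prm P U (P x) := by
  have h1 := h x hx
  rw [hS.nhdsWithin_eq hx] at h1
  obtain ⟨V, hV, hVo, hxV⟩ := eventually_nhds_iff.1 h1
  refine ⟨V ∩ S, inter_subset_right, hVo.inter hS, ⟨hxV, hx⟩, ?_⟩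
  intro y hy
  refine ((hV y hy.1).filter_mono (nhdsWithin_mono y inter_subset_right)).mono fun z hz => ?_
  exact sub_eq_sub_iff_sub_eq_sub.1 hz

end Pool.Agent.MP_fe3720.NR
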