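import Pool.Agent.Work.MP_fe3720_an.NR.Rel
import Pool.Agent.Work.MP_fe3720_an.NR.PrmA

/-! # LIa: leaf differences

`LI x y` is the difference at `y` and `x` of a primitive of `P` on the leaf of `x`.

PROOFS. `LI_eq`: if `W` is any primitive on `LF x` and `y ∈ LF x`: `LI x y = W y - W x` (unfold, `Prm.sub_const`, `LF_pre`, `x ∈ LF x`).
`LI_line`: the same if `W` is a primitive on a set containing the leaf (`Prm.mono`).
`LI_self`, `LI_add` (all with `x` good; the leaf of `y ∈ LF x` is the leaf of `x`: `LF_eq`), `LI_symm`.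

`LI_loc`: `x` good, `y ∈ LF x`. Let `T y` be the statement. For `z ∈ LF x` take an open neighbourhood `U ⊆ Ω` of `z` on which `P z` is a
primitive (`IsLS.prm`) and a box `N ⊆ U` around `z`. FACT: for `q, q' ∈ N`, `f q = f q' ∉ Bad`: `LI q q' = P z q' - P z q`:
`N ∩ f ⁻¹' {f q}` is preconnected, contained in `LF q`, contains `q, q'`, and on it `P z` and a primitive of the leaf are two primitives
(`Prm.sub_const`). So `T x` holds with `z = x`: for `p` near `(x, x)`, both in `N`, `LI p.1 p.2 = P x p.2 - P x p.1`, `LI x x = 0`.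
CLAIM: for `z', z'' ∈ N ∩ LF x`: `T z' → T z''`. Let `σ` be the section of the box through `z'`. For `p` near `(x, z'')` over the
same good value put `q = σ (f p.1)`, which tends to `z'`; `q ∈ LF p.1` (`LeafSys.rel_open`), `p.2 ∈ LF q` (`Box.rel`), so
`LI p.1 p.2 = LI p.1 q + LI q p.2 = LI x z' + (P z' q - P z' z') - (P x p.1 - P x x) + (P z p.2 - P z q)` and
`LI x z'' = LI x z' + (P z z'' - P z z')`; as `P z` is a primitive at `z'` and at `z''`: `P z q - P z z' = P z' q - P z' z'`,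
`P z p.2 - P z z'' = P z'' p.2 - P z'' z''` (for `q` near `z'`, `p.2` near `z''`): this is the assertion. As in `rel_open` the set `{z ∈ LF x | T z}` is
relatively clopen, nonempty.

`REq_loc`: `p` a primitive on an open set `U ⊆ Ω` containing `x`, `y`; if `REq p x y` (`x` good) then for all `x'`, `y'` near
`x`, `y` with `f x' = f y' ∉ Bad`: `REq p x' y'` (`rel_open`, `LI_loc`, `Prm.sub_of_open`). `REq_not_loc`: if not `REq p x y`, `f x = f y` good:
then not `REq p x' y'` for all such `x'`, `y'` near: if `y ∉ LF x` use `LeafSys.haus`; if `y ∈ LF x`, `LI x y ≠ p y - p x`, the same computation: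
`LI x' y' - (p y' - p x') = LI x y - (p y - p x) ≠ 0`. `REq_refl`, `REq_symm`, `REq_trans` (for good points): from `LF_*`, `LI_*`. -/

namespace Pool.Agent.MP_fe3720.NR

open Set Topology Filter

variable {Ω : Set E2} {f : E2 → ℂ} {Q : Type} [AddCommGroup Q] {P : E2 → E2 → Q} {Bad : Set ℂ}

theorem LI_eq {x y : E2} (hx : x ∈ Ω) (hy : y ∈ LF Ω f x) {W : E2 → Q}
    (hW : Prm P (LF Ω f x) W) : LI Ω f P x y = W y - W x := by
  have h : ∃ W : E2 → Q, Prm P (LF Ω f x) W := ⟨W, hW⟩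
  unfold LI
  rw [dif_pos h]
  have h1 := Prm.sub_const h.choose_spec hW (LF_pre x) (LF_self hx) hy
  rw [sub_eq_sub_iff_add_eq_add] at h1 ⊢
  rw [h1]
  abel

theorem LI_line {x y : E2} (hx : x ∈ Ω) (hy : y ∈ LF Ω f x) {W : E2 → Q} {S : Set E2}
    (hS : LF Ω f x ⊆ S) (hW : Prm P S W) : LI Ω f P x y = W y - W x :=
  LI_eq hx hy (hW.mono hS)

theorem LI_self (hL : LeafSys Ω f Bad P) {x : E2} (hx : x ∈ Ω) (hg : f x ∉ Bad) :
    LI Ω f P x x = 0 := by
  obtain ⟨W, hW⟩ := hL.prim x hx hg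
  rw [LI_eq hx (LF_self hx) hW, sub_self]

theorem LI_add (hL : LeafSys Ω f Bad P) {x y z : E2} (hx : x ∈ Ω) (hg : f x ∉ Bad)
    (hy : y ∈ LF Ω f x) (hz : z ∈ LF Ω f x) :
    LI Ω f P x y + LI Ω f P y z = LI Ω f P x z := by
  obtain ⟨W, hW⟩ := hL.prim x hx hg
  have hW' : Prm P (LF Ω f y) W := by
    rw [LF_eq hy]
    exact hW
  have hz' : z ∈ LF Ω f y := by
    rw [LF_eq hy]
    exact hz
  rw [LI_eq hx hy hW, LI_eq (LF_val hy).1 hz' hW', LI_eq hx hz hW]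
  abel

theorem LI_symm (hL : LeafSys Ω f Bad P) {x y : E2} (hx : x ∈ Ω) (hg : f x ∉ Bad)
    (hy : y ∈ LF Ω f x) : LI Ω f P y x = - LI Ω f P x y := by
  have h1 := LI_add hL hx hg hy (LF_self hx)
  rw [LI_self hL hx hg] at h1
  exact eq_neg_of_add_eq_zero_right h1

/-- The leaf difference in a box. -/
private theorem li_box (hL : LeafSys Ω f Bad P) {N : Set E2} {z : E2} {r : ℝ}
    (hb : Box Ω f N z r) {p : E2 → Q} (hp : Prm P N p) {q q' : E2} (hq : q ∈ N) (hq' : q' ∈ N)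
    (hf : f q = f q') (hg : f q ∉ Bad) : LI Ω f P q q' = p q' - p q := by
  obtain ⟨W, hW⟩ := hL.prim q (hb.sub hq) hg
  rw [LI_eq (hb.sub hq) (hb.rel hq hq' hf) hW]
  have hS : IsPreconnected (N ∩ f ⁻¹' {f q}) :=
    hb.pre {f q} (singleton_subset_iff.2 (hb.img q hq)) isPreconnected_singleton
  have hSL : N ∩ f ⁻¹' {f q} ⊆ LF Ω f q := by
    rintro y ⟨hy, hy2⟩
    exact hb.rel hq hy hy2.symm
  have h1 := Prm.sub_const (hW.mono hSL) (hp.mono inter_subset_left) hS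
    (⟨hq, rfl⟩ : q ∈ N ∩ f ⁻¹' {f q}) (⟨hq', hf.symm⟩ : q' ∈ N ∩ f ⁻¹' {f q})
  rw [sub_eq_sub_iff_add_eq_add] at h1 ⊢
  rw [h1]
  abel

/-- A box on which `P z` is a primitive. -/
private theorem li_ex (hL : LeafSys Ω f Bad P) {z : E2} (hz : z ∈ Ω) (hg : f z ∉ Bad) :
    ∃ (N : Set E2) (r : ℝ), Box Ω f N z r ∧ Prm P N (P z) := by
  obtain ⟨U, hUΩ, hU, hzU, hP⟩ := hL.ls.prm hL.isOpen hz
  obtain ⟨N, hNU, r, -, hb⟩ := exists_box (hL.chart z hz hg) (hU.mem_nhds hzU) one_pos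
  exact ⟨N, r, hb, hP.mono hNU⟩

/-- The step in the proof of `LI_loc`. -/
private theorem li_step (hL : LeafSys Ω f Bad P) {x z : E2} (hx : x ∈ Ω) (hg : f x ∉ Bad)
    (hz : z ∈ LF Ω f x) {N : Set E2} {r : ℝ} (hb : Box Ω f N z r) (hP : Prm P N (P z))
    {z' z'' : E2} (hz' : z' ∈ N) (hz'x : z' ∈ LF Ω f x) (hz'' : z'' ∈ N)
    (hz''x : z'' ∈ LF Ω f x)
    (hT : ∀ᶠ p : E2 × E2 in 𝓝 (x, z'), f p.1 = f p.2 → f p.1 ∉ Bad →
      LI Ω f P p.1 p.2 = LI Ω f P x z' + (P z' p.2 - P z' z') - (P x p.1 - P x x)) :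
    ∀ᶠ p : E2 × E2 in 𝓝 (x, z''), f p.1 = f p.2 → f p.1 ∉ Bad →
      LI Ω f P p.1 p.2 = LI Ω f P x z'' + (P z'' p.2 - P z'' z'') - (P x p.1 - P x x) := by
  obtain ⟨σ, hσ, hσ1, hσ2⟩ := hb.sec z' hz'
  have e1 : f z' = f x := (LF_val hz'x).2
  have e2 : f z'' = f x := (LF_val hz''x).2
  have hxball : f x ∈ Metric.ball (f z) r := e1 ▸ hb.img z' hz'
  have hfx : Tendsto (fun p : E2 × E2 => f p.1) (𝓝 (x, z'')) (𝓝 (f x)) :=
    Tendsto.comp (hL.contAt hx) (continuous_fst.tendsto (x, z''))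
  have hσx : Tendsto (fun p : E2 × E2 => σ (f p.1)) (𝓝 (x, z'')) (𝓝 z') := by
    have h1 : ContinuousAt σ (f x) := hσ.continuousAt (Metric.isOpen_ball.mem_nhds hxball)
    have h2 : σ (f x) = z' := by rw [← e1]; exact hσ1
    have h3 := h1.tendsto.comp hfx
    rw [h2] at h3
    exact h3
  have hpair : Tendsto (fun p : E2 × E2 => (p.1, σ (f p.1))) (𝓝 (x, z'')) (𝓝 (x, z')) :=
    (continuous_fst.tendsto (x, z'')).prodMk_nhds hσx
  have ha := hpair.eventually hT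
  have hd := hpair.eventually (hL.rel_open hx hg hz'x)
  have hbb := hfx.eventually (Metric.isOpen_ball.mem_nhds hxball)
  have hc := (continuous_snd.tendsto (x, z'')).eventually (hb.isOpen.mem_nhds hz'')
  have he := (continuous_fst.tendsto (x, z'')).eventually (hL.isOpen.mem_nhds hx)
  have hf' := hσx.eventually (hP.sub_of_open hb.isOpen hz')
  have hg' := (continuous_snd.tendsto (x, z'')).eventually (hP.sub_of_open hb.isOpen hz'')
  filter_upwards [ha, hd, hbb, hc, he, hf', hg'] with p h1 h2 h3 h4 h5 h6 h7 hp hpg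
  obtain ⟨h8, h9⟩ := hσ2 _ h3
  have h10 := h1 h9.symm hpg
  have h11 : σ (f p.1) ∈ LF Ω f p.1 := h2 h9.symm
  have h12 : p.2 ∈ LF Ω f (σ (f p.1)) := hb.rel h8 h4 (by rw [h9, hp])
  have h13 := LI_add hL h5 hpg h11 (LF_trans h11 h12)
  have h14 : LI Ω f P (σ (f p.1)) p.2 = P z p.2 - P z (σ (f p.1)) :=
    li_box hL hb hP h8 h4 (by rw [h9, hp]) (by rw [h9]; exact hpg)
  have h15 := LI_add hL hx hg hz'x hz''x
  have h16 : LI Ω f P z' z'' = P z z'' - P z z' :=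
    li_box hL hb hP hz' hz'' (by rw [e1, e2]) (by rw [e1]; exact hg)
  rw [← h13, h14, h10, ← h15, h16, ← h6, ← h7]
  abel

theorem LI_loc (hL : LeafSys Ω f Bad P) {x y : E2} (hx : x ∈ Ω) (hg : f x ∉ Bad)
    (hy : y ∈ LF Ω f x) :
    ∀ᶠ p : E2 × E2 in 𝓝 (x, y), f p.1 = f p.2 → f p.1 ∉ Bad →
      LI Ω f P p.1 p.2 = LI Ω f P x y + (P y p.2 - P y y) - (P x p.1 - P x x) := by
  set T : E2 → Prop := fun z => ∀ᶠ p : E2 × E2 in 𝓝 (x, z), f p.1 = f p.2 → f p.1 ∉ Bad →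
      LI Ω f P p.1 p.2 = LI Ω f P x z + (P z p.2 - P z z) - (P x p.1 - P x x) with hT
  have hTx : T x := by
    obtain ⟨N, r, hb, hP⟩ := li_ex hL hx hg
    have h1 := (continuous_fst.tendsto (x, x)).eventually (hb.isOpen.mem_nhds hb.mem)
    have h2 := (continuous_snd.tendsto (x, x)).eventually (hb.isOpen.mem_nhds hb.mem)
    rw [hT]
    filter_upwards [h1, h2] with p h3 h4 hp hpg
    rw [li_box hL hb hP h3 h4 hp hpg, LI_self hL hx hg]
    abel
  have key : T y = T x := by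
    refine const_of_loc (LF_pre x) (fun z hz => ?_) (LF_self hx) hy
    have hfz : f z ∉ Bad := by
      rw [(LF_val hz).2]
      exact hg
    obtain ⟨N, r, hb, hP⟩ := li_ex hL (LF_val hz).1 hfz
    filter_upwards [self_mem_nhdsWithin, mem_nhdsWithin_of_mem_nhds (hb.isOpen.mem_nhds hb.mem)]
      with z1 h1 h2
    exact propext ⟨fun h => li_step hL hx hg hz hb hP h2 h1 hb.mem hz h,
      fun h => li_step hL hx hg hz hb hP hb.mem hz h2 h1 h⟩
  have h1 : T y := by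
    rw [key]
    exact hTx
  exact h1

/-- The difference of a primitive on an open set near two points. -/
private theorem li_two {U : Set E2} (hU : IsOpen U) {q : E2 → Q} (hq : Prm P U q) {x y : E2}
    (hx : x ∈ U) (hy : y ∈ U) : ∀ᶠ p : E2 × E2 in 𝓝 (x, y),
      q p.1 - q x = P x p.1 - P x x ∧ q p.2 - q y = P y p.2 - P y y := by
  have h1 := (continuous_fst.tendsto (x, y)).eventually (hq.sub_of_open hU hx)
  have h2 := (continuous_snd.tendsto (x, y)).eventually (hq.sub_of_open hU hy)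
  filter_upwards [h1, h2] with p h3 h4
  exact ⟨h3, h4⟩

theorem REq_loc (hL : LeafSys Ω f Bad P) {U : Set E2} (hU : IsOpen U) (hUΩ : U ⊆ Ω) {q : E2 → Q}
    (hq : Prm P U q) {x y : E2} (hx : x ∈ U) (hy : y ∈ U) (hg : f x ∉ Bad)
    (h : REq Ω f P q x y) :
    ∀ᶠ p : E2 × E2 in 𝓝 (x, y), f p.1 = f p.2 → f p.1 ∉ Bad → REq Ω f P q p.1 p.2 := by
  filter_upwards [hL.rel_open (hUΩ hx) hg h.1, LI_loc hL (hUΩ hx) hg h.1,
    li_two hU hq hx hy] with p h1 h2 h3 hp hpg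
  refine ⟨h1 hp, ?_⟩
  rw [h2 hp hpg, h.2, ← h3.1, ← h3.2]
  abel

theorem REq_not_loc (hL : LeafSys Ω f Bad P) {U : Set E2} (hU : IsOpen U) (hUΩ : U ⊆ Ω)
    {q : E2 → Q} (hq : Prm P U q) {x y : E2} (hx : x ∈ U) (hy : y ∈ U) (hg : f x ∉ Bad)
    (hxy : f x = f y) (h : ¬ REq Ω f P q x y) :
    ∀ᶠ p : E2 × E2 in 𝓝 (x, y), f p.1 = f p.2 → f p.1 ∉ Bad → ¬ REq Ω f P q p.1 p.2 := by
  by_cases hyx : y ∈ LF Ω f x
  · filter_upwards [LI_loc hL (hUΩ hx) hg hyx, li_two hU hq hx hy] with p h2 h3 hp hpg hR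
    apply h
    refine ⟨hyx, ?_⟩
    have h4 := h2 hp hpg
    rw [hR.2, ← h3.1, ← h3.2] at h4
    have h5 : LI Ω f P x y = (q p.2 - q p.1) - (q p.2 - q y) + (q p.1 - q x) := by
      rw [h4]
      abel
    rw [h5]
    abel
  · filter_upwards [hL.haus x (hUΩ hx) y (hUΩ hy) hxy hg hyx] with p h1 hp hpg hR
    exact h1 hp hpg hR.1

theorem REq_refl (hL : LeafSys Ω f Bad P) {q : E2 → Q} {x : E2} (hx : x ∈ Ω) (hg : f x ∉ Bad) :
    REq Ω f P q x x :=
  ⟨LF_self hx, by rw [LI_self hL hx hg, sub_self]⟩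

theorem REq_symm (hL : LeafSys Ω f Bad P) {q : E2 → Q} {x y : E2} (hx : x ∈ Ω)
    (hg : f x ∉ Bad) (h : REq Ω f P q x y) : REq Ω f P q y x :=
  ⟨LF_symm h.1, by rw [LI_symm hL hx hg h.1, h.2, neg_sub]⟩

theorem REq_trans (hL : LeafSys Ω f Bad P) {q : E2 → Q} {x y z : E2} (hx : x ∈ Ω)
    (hg : f x ∉ Bad) (h : REq Ω f P q x y) (h' : REq Ω f P q y z) : REq Ω f P q x z := by
  refine ⟨LF_trans h.1 h'.1, ?_⟩
  rw [← LI_add hL hx hg h.1 (LF_trans h.1 h'.1), h.2, h'.2]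
  abel

end Pool.Agent.MP_fe3720.NR
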