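import Pool.Agent.Work.MP_fe3720_an.NR.LineC
import Pool.Agent.Work.MP_fe3720_an.NR.LIa
import Pool.Agent.Work.MP_fe3720_an.NR.H1conv

/-! # PrimLine: `P` has a primitive on the part of `Ω` over a good horizontal line

PROOF. Use `LineC` with `β c = c + s I`, `τ ζ = ζ.re`, `J = univ` (`β '' univ = {ζ | ζ.im = s}`, so `Zl Ω f s = Ω ∩ f ⁻¹' (β '' univ)`).
ONE COMPONENT. Let `x ∈ Zl s`, `C = connectedComponentIn (Zl s) x = Sat p I` with a leaf path `p` on the open interval `I` (`line_comp`).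
For `t ∈ I` let `W_t` be a primitive of `P` on the leaf `LF (p t)` with `W_t (p t) = 0` (`LeafSys.prim`, `Prm.add_const`), i.e. use
`W_t y = LI (p t) y`. For `t ∈ I` define near `t` the function `ν t t' = P (p t) y - LI (p t') y` for ANY `y` near `p t` with `f y = β t'` (then
`y ∈ LF (p t')` by the definition of `LPath`): this does not depend on `y`: precisely, take a box `N` around `p t` on which `P (p t)` is a primitive and so small that
`y ∈ LF (p t')` for `t'` near `t`, `y ∈ N`, `f y = β t'`; `N ∩ f ⁻¹' {β t'}` is preconnected, `P (p t)` and `LI (p t') ·` are two primitives on it. To have a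
function use the section `σ_t` of the box through `p t`: `ν t t' = P (p t) (σ_t (β t')) - LI (p t') (σ_t (β t'))`.
`ν` is a local system on `I`: fix `t`, and `t₁ ∈ I` near `t`. Put `y = σ_t (β t₁)`, `y₁ = p t₁`, both in the good leaf `LF (p t₁)`. For `t'` near `t₁` put
`q = σ_t (β t')` near `y`, `q₁ = σ_{t₁} (β t')` near `y₁`. `ν t t' - ν t₁ t' = P (p t) q - P (p t₁) q₁ - (LI (p t') q - LI (p t') q₁)` and
`LI (p t') q - LI (p t') q₁ = LI q₁ q` (`LI_add`), `= LI y₁ y + (P y q - P y y) - (P y₁ q₁ - P y₁ y₁)` (`LI_loc` at `(y₁, y)`), and `P (p t)` is a primitive at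
`y`, so `P y q - P y y = P (p t) q - P (p t) y`. Hence `ν t t' - ν t₁ t'` is constant in `t'` near `t₁`.
By `h1triv_ord` there is `ν'` on `I` with `ν' t' - ν t t'` constant for `t'` near `t`. Put `W y = LI (p t') y + ν' t'` for `y ∈ C`, `t' = Re (f y)` (`y ∈ LF (p t')` by
`line_comp` and because the leaves `LF (p t')` have different values). CHECK `Prm` at `y ∈ C`, `t = Re (f y)`: for `z ∈ C` near `y`, `t' = Re (f z)`: let `q = σ_t (β t')` near `p t`;
`W z = LI (p t') q + LI q z + ν' t'`, `ν' t' = ν t t' + const = P (p t) q - LI (p t') q + const`, so `W z = P (p t) q + LI q z + const` and by `LI_loc` at `(p t, y)`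
`LI q z = LI (p t) y + (P y z - P y y) - (P (p t) q - P (p t) (p t))`: `W z = P y z + const'`, where the constants do not depend on `z`; at `z = y` the same
formula holds (`q = p t`), so `W z - W y = P y z - P y y`.
ALL COMPONENTS. The components of `Zl s` are relatively open (`line_open`). Choose a primitive `W_C` for every component and put
`W y = W_{C(y)} y`; near `y` in `Zl s` all points are in the same component (and the component of such a point is the same set, `connectedComponentIn_eq`). -/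

namespace Pool.Agent.MP_fe3720.NR

open Set Topology Filter

variable {Ω : Set E2} {f : E2 → ℂ} {Q : Type} [AddCommGroup Q] {P : E2 → E2 → Q} {Bad : Set ℂ}

private theorem plMB {s : ℝ} (hs : GoodL Bad s) (c : ℝ) : ((c : ℂ) + s * Complex.I) ∉ Bad := by
  intro h
  apply hs _ h
  simp

private theorem plImg (s : ℝ) :
    (fun c : ℝ => ((c : ℂ) + s * Complex.I)) '' univ = {ζ : ℂ | ζ.im = s} := by
  ext ζ
  constructor
  · rintro ⟨c, -, rfl⟩
    simp
  · intro h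
    refine ⟨ζ.re, trivial, ?_⟩
    have h' : ζ.im = s := h
    show ((ζ.re : ℂ) + s * Complex.I) = ζ
    rw [← h']
    exact Complex.re_add_im ζ

/-- sections through the points of a leaf path -/
private theorem plSec (hL : LeafSys Ω f Bad P) {x : E2} (hx : x ∈ Ω) (hg : f x ∉ Bad) :
    ∃ σ : ℂ → E2, σ (f x) = x ∧ ∀ᶠ ζ in 𝓝 (f x), ContinuousAt σ ζ ∧ f (σ ζ) = ζ := by
  obtain ⟨N, -, r, -, hb⟩ := exists_box (hL.chart x hx hg) (univ_mem : univ ∈ 𝓝 x) one_pos
  obtain ⟨σ, h1, h2, h3⟩ := hb.sec x hb.mem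
  refine ⟨σ, h2, ?_⟩
  filter_upwards [Metric.ball_mem_nhds (f x) hb.pos] with ζ hζ
  exact ⟨h1.continuousAt (Metric.isOpen_ball.mem_nhds hζ), (h3 ζ hζ).2⟩

/-- the local system at a point of `Ω` -/
private theorem plLS (hL : LeafSys Ω f Bad P) {x : E2} (hx : x ∈ Ω) :
    ∀ᶠ y in 𝓝 x, ∀ᶠ z in 𝓝 y, P x z - P y z = P x y - P y y := by
  have h1 := hL.ls x hx
  rw [hL.isOpen.nhdsWithin_eq hx] at h1
  filter_upwards [h1, hL.isOpen.mem_nhds hx] with y hy hyΩ
  rwa [hL.isOpen.nhdsWithin_eq hyΩ] at hy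

private theorem plComp (hL : LeafSys Ω f Bad P) {β : ℝ → ℂ} (hβ : Continuous β) {τ : ℂ → ℝ}
    (hτ : Continuous τ) (hi : ∀ c, τ (β c) = c) {I : Set ℝ} (hg : ∀ c ∈ I, β c ∉ Bad)
    (hI : I.OrdConnected) {p : ℝ → E2} (hp : LPath Ω f β I p) :
    ∃ W : E2 → Q, Prm P (Sat Ω f p I) W := by
  classical
  -- sections
  have hsec : ∀ t : ℝ, ∃ σ : ℂ → E2, t ∈ I →
      σ (β t) = p t ∧ ∀ᶠ ζ in 𝓝 (β t), ContinuousAt σ ζ ∧ f (σ ζ) = ζ := by
    intro t
    by_cases ht : t ∈ I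
    · obtain ⟨h1, h2, -⟩ := hp t ht
      have h3 : f (p t) ∉ Bad := by rw [h2]; exact hg t ht
      obtain ⟨σ, h4, h5⟩ := plSec hL h1 h3
      rw [h2] at h4 h5
      exact ⟨σ, fun _ => ⟨h4, h5⟩⟩
    · exact ⟨fun _ => 0, fun h => absurd h ht⟩
  choose σ hσ using hsec
  -- values
  have hpg : ∀ t ∈ I, f (p t) ∉ Bad := fun t ht => by rw [(hp t ht).2.1]; exact hg t ht
  have hA : ∀ t ∈ I, ∀ᶠ t' in 𝓝 t, ContinuousAt (σ t) (β t') ∧ f (σ t (β t')) = β t' := by
    intro t ht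
    exact (hβ.continuousAt (x := t)).eventually (hσ t ht).2
  have hcont : ∀ t ∈ I, ∀ t₁, ContinuousAt (σ t) (β t₁) →
      Tendsto (fun t' => σ t (β t')) (𝓝 t₁) (𝓝 (σ t (β t₁))) := by
    intro t _ t₁ h
    exact (h.comp (hβ.continuousAt (x := t₁)))
  have hcA : ∀ t ∈ I, ContinuousAt (σ t) (β t) := fun t ht => ((hA t ht).self_of_nhds).1
  have hB : ∀ t ∈ I, ∀ t₁ ∈ I, ContinuousAt (σ t) (β t₁) → σ t (β t₁) ∈ LF Ω f (p t₁) →
      (∀ᶠ t' in 𝓝 t₁, f (σ t (β t')) = β t') →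
      ∀ᶠ t' in 𝓝 t₁, t' ∈ I → σ t (β t') ∈ LF Ω f (p t') := by
    intro t ht t₁ ht₁ hc hm hv
    have h1 := hp.rel_nhds hL ht₁ hβ.continuousWithinAt (hg t₁ ht₁) hm
    have h2 : Tendsto (fun t' => (t', σ t (β t'))) (𝓝 t₁) (𝓝 (t₁, σ t (β t₁))) :=
      tendsto_id.prodMk_nhds (hcont t ht t₁ hc)
    filter_upwards [h2.eventually h1, hv] with t' h3 h4 h5
    exact h3 h5 h4
  have hself : ∀ t ∈ I, σ t (β t) ∈ LF Ω f (p t) := by
    intro t ht
    rw [(hσ t ht).1]
    exact LF_self (hp t ht).1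
  let M : ℝ → ℝ → Q := fun t t' => P (p t) (σ t (β t')) - LI Ω f P (p t') (σ t (β t'))
  have hMM : ∀ t ∈ I, M t t = P (p t) (p t) := by
    intro t ht
    show P (p t) (σ t (β t)) - LI Ω f P (p t) (σ t (β t)) = _
    rw [(hσ t ht).1, LI_self hL (hp t ht).1 (hpg t ht), sub_zero]
  have hM : IsLS I M := by
    intro t ht
    have hvt : ∀ᶠ t₁ in 𝓝 t, ∀ᶠ t' in 𝓝 t₁, f (σ t (β t')) = β t' :=
      ((hA t ht).mono fun _ h => h.2).eventually_nhds
    have hBt := hB t ht t ht (hcA t ht) (hself t ht) ((hA t ht).mono fun _ h => h.2)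
    have hD : ∀ᶠ t₁ in 𝓝 t, ∀ᶠ z in 𝓝 (σ t (β t₁)),
        P (p t) z - P (σ t (β t₁)) z = P (p t) (σ t (β t₁)) - P (σ t (β t₁)) (σ t (β t₁)) := by
      have h1 := hcont t ht t (hcA t ht)
      rw [(hσ t ht).1] at h1
      exact h1.eventually (plLS hL (hp t ht).1)
    filter_upwards [mem_nhdsWithin_of_mem_nhds (hA t ht), mem_nhdsWithin_of_mem_nhds hvt,
      mem_nhdsWithin_of_mem_nhds hBt, mem_nhdsWithin_of_mem_nhds hD, self_mem_nhdsWithin]
      with t₁ h1 h2 h3 h4 h5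
    have h3' := h3 h5
    -- the points near `t₁`
    have e1 := hB t ht t₁ h5 h1.1 h3' h2
    have e2 := hB t₁ h5 t₁ h5 (hcA t₁ h5) (hself t₁ h5) ((hA t₁ h5).mono fun _ h => h.2)
    have e3 : ∀ᶠ t' in 𝓝 t₁, f (σ t₁ (β t')) = β t' := (hA t₁ h5).mono fun _ h => h.2
    have e4 : ∀ᶠ t' in 𝓝 t₁, f (σ t₁ (β t')) = f (σ t (β t')) → f (σ t₁ (β t')) ∉ Bad →
        LI Ω f P (σ t₁ (β t')) (σ t (β t')) = LI Ω f P (p t₁) (σ t (β t₁)) +
          (P (σ t (β t₁)) (σ t (β t')) - P (σ t (β t₁)) (σ t (β t₁))) -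
          (P (p t₁) (σ t₁ (β t')) - P (p t₁) (p t₁)) := by
      have h6 := LI_loc hL (hp t₁ h5).1 (hpg t₁ h5) h3'
      have h7 : Tendsto (fun t' => (σ t₁ (β t'), σ t (β t'))) (𝓝 t₁)
          (𝓝 (p t₁, σ t (β t₁))) := by
        have h8 := hcont t₁ h5 t₁ (hcA t₁ h5)
        rw [(hσ t₁ h5).1] at h8
        exact h8.prodMk_nhds (hcont t ht t₁ h1.1)
      exact h7.eventually h6
    have e5 : ∀ᶠ t' in 𝓝 t₁, P (p t) (σ t (β t')) - P (σ t (β t₁)) (σ t (β t')) =
        P (p t) (σ t (β t₁)) - P (σ t (β t₁)) (σ t (β t₁)) :=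
      (hcont t ht t₁ h1.1).eventually h4
    filter_upwards [mem_nhdsWithin_of_mem_nhds e1, mem_nhdsWithin_of_mem_nhds e2,
      mem_nhdsWithin_of_mem_nhds e3, mem_nhdsWithin_of_mem_nhds e4,
      mem_nhdsWithin_of_mem_nhds e5, mem_nhdsWithin_of_mem_nhds h2, self_mem_nhdsWithin]
      with t' g1 g2 g3 g4 g5 g6 g7
    have g1' := g1 g7
    have g2' := g2 g7
    have g4' := g4 (g3.trans g6.symm) (by rw [g3]; exact hg t' g7)
    have g8 : LI Ω f P (p t') (σ t₁ (β t')) + LI Ω f P (σ t₁ (β t')) (σ t (β t')) =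
        LI Ω f P (p t') (σ t (β t')) := LI_add hL (hp t' g7).1 (hpg t' g7) g2' g1'
    rw [hMM t₁ h5]
    show (P (p t) (σ t (β t')) - LI Ω f P (p t') (σ t (β t'))) -
      (P (p t₁) (σ t₁ (β t')) - LI Ω f P (p t') (σ t₁ (β t'))) =
      (P (p t) (σ t (β t₁)) - LI Ω f P (p t₁) (σ t (β t₁))) - P (p t₁) (p t₁)
    rw [← g8, g4', sub_eq_iff_eq_add.1 g5]
    abel
  obtain ⟨ν, hν⟩ := h1triv_ord hI M hM
  refine ⟨fun y => LI Ω f P (p (τ (f y))) y + ν (τ (f y)), ?_⟩
  have hval : ∀ y ∈ Sat Ω f p I, τ (f y) ∈ I ∧ y ∈ LF Ω f (p (τ (f y))) ∧ β (τ (f y)) = f y ∧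
      y ∈ Ω := by
    rintro y ⟨t, ht, hy⟩
    have h1 := LF_val hy
    rw [(hp t ht).2.1] at h1
    rw [h1.2, hi]
    exact ⟨ht, hy, rfl, h1.1⟩
  intro y hy
  obtain ⟨h1, h2, h3, h4⟩ := hval y hy
  set t := τ (f y) with ht
  have htend : Tendsto (fun z => τ (f z)) (𝓝[Sat Ω f p I] y) (𝓝 t) :=
    ((hτ.continuousAt.comp (hL.contAt h4)).tendsto).mono_left nhdsWithin_le_nhds
  have htend' : Tendsto (fun z => τ (f z)) (𝓝[Sat Ω f p I] y) (𝓝[I] t) := by
    rw [tendsto_nhdsWithin_iff]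
    refine ⟨htend, ?_⟩
    filter_upwards [self_mem_nhdsWithin] with z hz
    exact (hval z hz).1
  have hBt := hB t h1 t h1 (hcA t h1) (hself t h1) ((hA t h1).mono fun _ h => h.2)
  have e1 := htend.eventually hBt
  have e2 := htend.eventually (hA t h1)
  have e3 := htend'.eventually (hν t h1)
  have e4 : ∀ᶠ z in 𝓝[Sat Ω f p I] y, f (σ t (β (τ (f z)))) = f z →
      f (σ t (β (τ (f z)))) ∉ Bad →
      LI Ω f P (σ t (β (τ (f z)))) z = LI Ω f P (p t) y + (P y z - P y y) -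
        (P (p t) (σ t (β (τ (f z)))) - P (p t) (p t)) := by
    have h6 := LI_loc hL (hp t h1).1 (hpg t h1) h2
    have h7 : Tendsto (fun z => (σ t (β (τ (f z))), z)) (𝓝[Sat Ω f p I] y)
        (𝓝 (p t, y)) := by
      have h8 := hcont t h1 t (hcA t h1)
      rw [(hσ t h1).1] at h8
      exact (h8.comp htend).prodMk_nhds (tendsto_id.mono_left nhdsWithin_le_nhds)
    exact h7.eventually h6
  filter_upwards [e1, e2, e3, e4, self_mem_nhdsWithin] with z g1 g2 g3 g4 g5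
  obtain ⟨k1, k2, k3, k4⟩ := hval z g5
  have g1' := g1 k1
  have g4' := g4 (g2.2.trans k3) (by rw [g2.2]; exact hg _ k1)
  have g8 : LI Ω f P (p (τ (f z))) (σ t (β (τ (f z)))) +
      LI Ω f P (σ t (β (τ (f z)))) z = LI Ω f P (p (τ (f z))) z :=
    LI_add hL (hp _ k1).1 (hpg _ k1) g1' k2
  have g3' : ν (τ (f z)) = P (p t) (σ t (β (τ (f z)))) -
      LI Ω f P (p (τ (f z))) (σ t (β (τ (f z)))) - P (p t) (p t) + ν t := by
    rw [hMM t h1] at g3
    exact sub_eq_iff_eq_add.1 g3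
  show LI Ω f P (p (τ (f z))) z + ν (τ (f z)) - (LI Ω f P (p t) y + ν t) = P y z - P y y
  rw [g3', ← g8, g4']
  abel

theorem exists_line_prim (hL : LeafSys Ω f Bad P) {s : ℝ} (hs : GoodL Bad s) :
    ∃ W : E2 → Q, Prm P (Zl Ω f s) W := by
  classical
  let β : ℝ → ℂ := fun c => (c : ℂ) + s * Complex.I
  have hβ : Continuous β := by
    show Continuous fun c : ℝ => (c : ℂ) + s * Complex.I
    fun_prop
  have hi : ∀ c, Complex.re (β c) = c := by
    intro c
    show ((c : ℂ) + s * Complex.I).re = c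
    simp
  have hg : ∀ c ∈ (univ : Set ℝ), β c ∉ Bad := fun c _ => plMB hs c
  have hZ : Zl Ω f s = Ω ∩ f ⁻¹' (β '' univ) := by
    unfold Zl
    rw [show β '' univ = {ζ : ℂ | ζ.im = s} from plImg s]
  rw [hZ]
  have hone : ∀ x ∈ Ω ∩ f ⁻¹' (β '' univ), ∃ W : E2 → Q,
      Prm P (connectedComponentIn (Ω ∩ f ⁻¹' (β '' univ)) x) W := by
    intro x hx
    obtain ⟨I, -, -, hIc, -, p, -, hp, hC⟩ :=
      line_comp hL hβ Complex.continuous_re hi isOpen_univ ordConnected_univ hg hx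
    rw [hC]
    exact plComp hL hβ Complex.continuous_re hi (fun c _ => hg c trivial) hIc hp
  let F : Set E2 → E2 → Q := fun C =>
    if h : ∃ W : E2 → Q, Prm P C W then h.choose else fun _ => 0
  have hF : ∀ x ∈ Ω ∩ f ⁻¹' (β '' univ),
      Prm P (connectedComponentIn (Ω ∩ f ⁻¹' (β '' univ)) x)
        (F (connectedComponentIn (Ω ∩ f ⁻¹' (β '' univ)) x)) := by
    intro x hx
    have h := hone x hx
    show Prm P _ (if h : ∃ W : E2 → Q, Prm P _ W then h.choose else fun _ => 0)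
    rw [dif_pos h]
    exact h.choose_spec
  refine ⟨fun y => F (connectedComponentIn (Ω ∩ f ⁻¹' (β '' univ)) y) y, ?_⟩
  intro y hy
  have h1 := line_open hL hβ Complex.continuous_re hi isOpen_univ ordConnected_univ hg hy
  have h2 := hF y hy y (mem_connectedComponentIn hy)
  rw [eventually_nhdsWithin_iff] at h2 ⊢
  filter_upwards [h1, h2] with z h3 h4 h5
  have h6 := h3 h5
  have h7 := connectedComponentIn_eq h6
  show F (connectedComponentIn (Ω ∩ f ⁻¹' (β '' univ)) z) z -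
    F (connectedComponentIn (Ω ∩ f ⁻¹' (β '' univ)) y) y = _
  rw [← h7]
  exact h4 h6

theorem exists_Ws (hL : LeafSys Ω f Bad P) : ∃ Ws : ℝ → E2 → Q, IsWs Ω f Bad P Ws := by
  classical
  refine ⟨fun s => if h : GoodL Bad s then (exists_line_prim hL h).choose else fun _ => 0, ?_⟩
  intro s hs
  show Prm P (Zl Ω f s) (if h : GoodL Bad s then (exists_line_prim hL h).choose else fun _ => 0)
  rw [dif_pos hs]
  exact (exists_line_prim hL hs).choose_spec

end Pool.Agent.MP_fe3720.NR
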