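import Pool.Agent.Work.MP_fe3720_an.NR.BoxA
import Pool.Agent.Work.MP_fe3720_an.NR.PrmA

/-! # Reach: chains of boxes as an inductive relation, connectedness

`ReachP x y q`: `x`, `y` of good level are joined by a chain of boxes, and `q` is the sum of the differences of the primitives.

PROOFS. `ReachP.trans`: induction on the second chain (`add_assoc`). `ReachP.symm`: induction: a step `(y, z)` in the box `N` with `p` gives a chain `z → y` of one step (from `refl z`, in the same box) with value `p y - p z`; use `trans`. `ReachP.good`: start and end are in `Ω` and of good level (the end of a step is in a box, `Box.sub`).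
`ReachP.chain`: induction: for `refl x` take `n = 0`, `xs = fun _ => x`. For a step: append: `xs' i = xs i` for `i ≤ n`, `xs' (n+1) = z`, `N' i = N i` for `i < n`, `N' n = N`, same for `p`; the sum over `Finset.range (n+1)` (`Finset.sum_range_succ`).
`reach_all` (`Ω` with `LeafSys`): any two points `x, y ∈ Ω` of good level are joined. Let `G = Ω ∩ f ⁻¹' Badᶜ`, preconnected (`sep` for `U = Ω`, `conn`). Every `u ∈ G` has a chart, so there is a box `N_u` around `u` contained in an open set on which `P u` is a primitive (`IsLS.prm`, `exists_box`); by `Box.good_above` every neighbourhood of a point of a box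
contains points of good level in the box, and any two points of good level in `N_u` are joined by one step. For `u ∈ G` let `F u` be the proposition that some (equivalently every) point of good level of `N_u` is joined with `x`. `F` is locally constant on `G`: for `u' ∈ N_u ∩ G` the boxes `N_u`, `N_{u'}` have a common point of good level (near `u'`). `const_of_loc` with `F : E2 → Prop`; `F x` is
true (`x ∈ N_x`, `x` of good level is in `G`), so `F y` is true and `y` is joined with `x`. -/

namespace Pool.Agent.MP_fe3720.NR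

open Set Topology Filter

variable {Ω : Set E2} {f : E2 → ℂ} {Q : Type} [AddCommGroup Q] {P : E2 → E2 → Q} {Bad : Set ℂ}

/-- `x` and `y` are joined by a chain of boxes with total `q` -/
inductive ReachP (Ω : Set E2) (f : E2 → ℂ) (Bad : Set ℂ) (P : E2 → E2 → Q) :
    E2 → E2 → Q → Prop
  | refl (x : E2) (hx : x ∈ Ω) (hg : GoodL Bad (f x).im) : ReachP Ω f Bad P x x 0
  | step (x y z : E2) (q : Q) (N : Set E2) (u : E2) (r : ℝ) (p : E2 → Q)
      (h : ReachP Ω f Bad P x y q) (hb : Box Ω f N u r) (hp : Prm P N p) (hy : y ∈ N)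
      (hz : z ∈ N) (hg : GoodL Bad (f z).im) : ReachP Ω f Bad P x z (q + (p z - p y))

theorem ReachP.good {x y : E2} {q : Q} (h : ReachP Ω f Bad P x y q) :
    (x ∈ Ω ∧ GoodL Bad (f x).im) ∧ y ∈ Ω ∧ GoodL Bad (f y).im := by
  induction h with
  | refl hx hg => exact ⟨⟨hx, hg⟩, hx, hg⟩
  | step y z q N u r p h hb hp hy hz hg ih => exact ⟨ih.1, hb.sub hz, hg⟩

theorem ReachP.trans {x y z : E2} {q q' : Q} (h : ReachP Ω f Bad P x y q)
    (h' : ReachP Ω f Bad P y z q') : ReachP Ω f Bad P x z (q + q') := by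
  induction h' with
  | refl hx hg =>
    rw [add_zero]
    exact h
  | step y' z' q' N u r p h' hb hp hy hz hg ih =>
    rw [← add_assoc]
    exact .step _ _ _ _ N u r p ih hb hp hy hz hg

theorem ReachP.symm {x y : E2} {q : Q} (h : ReachP Ω f Bad P x y q) :
    ReachP Ω f Bad P y x (-q) := by
  induction h with
  | refl hx hg =>
    rw [neg_zero]
    exact .refl x hx hg
  | step y z q N u r p h hb hp hy hz hg ih =>
    have h1 : ReachP Ω f Bad P z y (0 + (p y - p z)) :=
      .step _ _ _ _ N u r p (.refl z (hb.sub hz) hg) hb hp hz hy h.good.2.2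
    have h2 := h1.trans ih
    have e : 0 + (p y - p z) + -q = -(q + (p z - p y)) := by abel
    rwa [e] at h2

theorem ReachP.chain {x y : E2} {q : Q} (h : ReachP Ω f Bad P x y q) :
    ∃ (n : ℕ) (xs : ℕ → E2) (N : ℕ → Set E2) (p : ℕ → E2 → Q), Chain Ω f Bad P n xs N p ∧
      xs 0 = x ∧ xs n = y ∧ ∑ i ∈ Finset.range n, (p i (xs (i + 1)) - p i (xs i)) = q := by
  classical
  induction h with
  | refl hx hg =>
    refine ⟨0, fun _ => x, fun _ => ∅, fun _ _ => 0, ⟨?_, ?_, ?_, ?_, fun i _ => hg⟩, rfl, rfl, ?_⟩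
    · intro i hi
      exact absurd hi (Nat.not_lt_zero i)
    · intro i hi
      exact absurd hi (Nat.not_lt_zero i)
    · intro i hi
      exact absurd hi (Nat.not_lt_zero i)
    · intro i hi
      exact absurd hi (Nat.not_lt_zero i)
    · simp
  | step y z q N u r p h hb hp hy hz hg ih =>
    obtain ⟨n, xs, N', p', hC, h0, hn, hs⟩ := ih
    have hlt : ∀ i < n + 1, i < n ∨ i = n := fun i hi => by omega
    refine ⟨n + 1, fun i => if i ≤ n then xs i else z, fun i => if i < n then N' i else N,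
      fun i => if i < n then p' i else p, ⟨?_, ?_, ?_, ?_, ?_⟩, ?_, ?_, ?_⟩
    · intro i hi
      rcases hlt i hi with h1 | rfl
      · rw [if_pos h1]
        exact hC.box i h1
      · rw [if_neg (lt_irrefl _)]
        exact ⟨u, r, hb⟩
    · intro i hi
      rcases hlt i hi with h1 | rfl
      · rw [if_pos h1, if_pos h1]
        exact hC.prim i h1
      · rw [if_neg (lt_irrefl _), if_neg (lt_irrefl _)]
        exact hp
    · intro i hi
      rcases hlt i hi with h1 | rfl
      · rw [if_pos h1, if_pos h1.le]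
        exact hC.mem i h1
      · rw [if_neg (lt_irrefl _), if_pos le_rfl, hn]
        exact hy
    · intro i hi
      rcases hlt i hi with h1 | rfl
      · rw [if_pos h1, if_pos (Nat.succ_le_of_lt h1)]
        exact hC.mem' i h1
      · rw [if_neg (lt_irrefl _), if_neg (by omega)]
        exact hz
    · intro i _
      by_cases h1 : i ≤ n
      · simp only [if_pos h1]
        exact hC.lev i h1
      · simp only [if_neg h1]
        exact hg
    · simp only [if_pos (Nat.zero_le n)]
      exact h0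
    · simp only [if_neg (show ¬ n + 1 ≤ n by omega)]
    · rw [Finset.sum_range_succ, ← hs]
      congr 1
      · refine Finset.sum_congr rfl fun i hi => ?_
        have h1 := Finset.mem_range.1 hi
        simp only [if_pos h1, if_pos h1.le, if_pos (Nat.succ_le_of_lt h1)]
      · simp only [if_neg (lt_irrefl n), if_neg (show ¬ n + 1 ≤ n by omega), if_pos (le_refl n)]
        rw [hn]

theorem reach_all (hL : LeafSys Ω f Bad P) {x y : E2} (hx : x ∈ Ω) (hxg : GoodL Bad (f x).im)
    (hy : y ∈ Ω) (hyg : GoodL Bad (f y).im) : ∃ q, ReachP Ω f Bad P x y q := by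
  have hG : IsPreconnected (Ω ∩ f ⁻¹' Badᶜ) :=
    (hL.sep Bad hL.countable Ω Subset.rfl hL.isOpen hL.conn.isPreconnected).1
  have hbox : ∀ u ∈ Ω ∩ f ⁻¹' Badᶜ, ∃ (N : Set E2) (r : ℝ) (p : E2 → Q),
      Box Ω f N u r ∧ Prm P N p := by
    intro u hu
    obtain ⟨U, hUΩ, hU, huU, hpU⟩ := hL.ls.prm hL.isOpen hu.1
    obtain ⟨N, hNU, r, -, hb⟩ := exists_box (hL.chart u hu.1 hu.2) (hU.mem_nhds huU) one_pos
    exact ⟨N, r, P u, hb, hpU.mono hNU⟩
  choose! N r p hb hp using hbox
  have hxG : x ∈ Ω ∩ f ⁻¹' Badᶜ := ⟨hx, fun h => hxg _ h rfl⟩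
  have hyG : y ∈ Ω ∩ f ⁻¹' Badᶜ := ⟨hy, fun h => hyg _ h rfl⟩
  -- inside one box
  have hin : ∀ u ∈ Ω ∩ f ⁻¹' Badᶜ, ∀ a ∈ N u, ∀ b ∈ N u, GoodL Bad (f b).im →
      (∃ q, ReachP Ω f Bad P x a q) → ∃ q, ReachP Ω f Bad P x b q := by
    rintro u hu a ha b hbb hbg ⟨q, hq⟩
    exact ⟨_, .step _ _ _ _ (N u) u (r u) (p u) hq (hb u hu) (hp u hu) ha hbb hbg⟩
  have hF := const_of_loc hG (F := fun u => ∃ a ∈ N u, GoodL Bad (f a).im ∧
    ∃ q, ReachP Ω f Bad P x a q) (fun u hu => ?_) hxG hyG
  · have h1 : ∃ a ∈ N x, GoodL Bad (f a).im ∧ ∃ q, ReachP Ω f Bad P x a q :=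
      ⟨x, (hb x hxG).mem, hxg, 0, .refl x hx hxg⟩
    have h2 : ∃ a ∈ N y, GoodL Bad (f a).im ∧ ∃ q, ReachP Ω f Bad P x a q := by
      rw [hF]
      exact h1
    obtain ⟨a, ha, -, hq⟩ := h2
    exact hin y hyG a ha y (hb y hyG).mem hyg hq
  · have hN : N u ∈ 𝓝[Ω ∩ f ⁻¹' Badᶜ] u :=
      mem_nhdsWithin_of_mem_nhds ((hb u hu).isOpen.mem_nhds (hb u hu).mem)
    filter_upwards [hN, self_mem_nhdsWithin] with u' hu' hu'G
    obtain ⟨b, ⟨hb1, hb2⟩, hbg, -⟩ := (hb u' hu'G).good_above hL.countable (hb u' hu'G).mem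
      ((hb u hu).isOpen.mem_nhds hu') (le_refl (f u').im)
    apply propext
    constructor
    · rintro ⟨a, ha, -, hq⟩
      exact ⟨b, hb1, hbg, hin u' hu'G a ha b hb2 hbg hq⟩
    · rintro ⟨a, ha, -, hq⟩
      exact ⟨b, hb2, hbg, hin u hu a ha b hb1 hbg hq⟩

end Pool.Agent.MP_fe3720.NR
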