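import Pool.Agent.Work.MP_fe3720_an.NR.DSb
import Pool.Agent.Work.MP_fe3720_an.NR.Reach
import Pool.Agent.Work.MP_fe3720_an.NR.PrimLine

/-! # CoreMain: the local system has a primitive on `Ω`

PROOF of `prm_of_total` (all closed chains have total 0: `ReachP x x q → q = 0`). There is a point `x₀ ∈ Ω` of good level (`conn.nonempty`, `sep` nonempty, chart, `Box.good_above`). For `y ∈ Ω` of good level choose `W₀ y` with `ReachP x₀ y (W₀ y)` (`reach_all`); it is unique (`trans`, `symm`). If `y, z` of good level lie in a box `N` on which `p` is a primitive: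
`W₀ z - W₀ y = p z - p y` (`step`).
Let `x ∈ Ω`, `V` a ball around `x`, `V ⊆ Ω`, on which `P x` is a primitive (`IsLS.prm`). CLAIM: there is `c_x` with `W₀ y = P x y + c_x` for all `y ∈ V` of good level. Let `E = V ∩ f ⁻¹' Badᶜ`, preconnected, nonempty. Every `u ∈ E` has a box `N_u ⊆ V`; `W₀ - P x` is constant on the points of good level of `N_u` (which accumulate at every point of `N_u`); let `F u` be this constant. `F` is
locally constant on `E` (boxes of nearby points have common points of good level): `const_of_loc`. A point `y ∈ V` of good level is in `E`, `F y = W₀ y - P x y`.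
`c_x` is unique, as every neighbourhood of `x` contains points of good level (`off_near`-type argument: a good point near `x`, then its chart). Put `W x = P x x + c_x`. CHECK: for `y` near `x`: `y ∈ V_x`, and `P x - P y` is constant near `y`: `P x z - P y z = P x y - P y y`; for `z` near `y` of good level `W₀ z = P x z + c_x = P y z + c_y`, so `c_y = c_x + P x y - P y y` and
`W y = P y y + c_y = P x y + c_x`; so `W y - W x = P x y - P x x`.

PROOF of `core_main`: `prm_of_total` with: `ReachP x x q` gives (`ReachP.chain`) a closed chain with total `q`; `total_zero`. -/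

namespace Pool.Agent.MP_fe3720.NR

open Set Topology Filter

variable {Ω : Set E2} {f : E2 → ℂ} {Q : Type} [AddCommGroup Q] {P : E2 → E2 → Q} {Bad : Set ℂ}

private theorem cm_notBad {ζ : ℂ} (h : GoodL Bad ζ.im) : ζ ∉ Bad := fun h1 => h ζ h1 rfl

/-- every neighbourhood of a point of `Ω` contains points of good level -/
private theorem cm_good (hL : LeafSys Ω f Bad P) {x : E2} (hx : x ∈ Ω) {V : Set E2}
    (hV : V ∈ 𝓝 x) : ∃ y ∈ V ∩ Ω, GoodL Bad (f y).im := by
  have h1 : V ∩ Ω ∈ 𝓝 x := inter_mem hV (hL.isOpen.mem_nhds hx)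
  obtain ⟨ε, hε, hball⟩ := Metric.mem_nhds_iff.1 h1
  obtain ⟨z, hz, hzb⟩ := (hL.sep Bad hL.countable (Metric.ball x ε)
    (hball.trans inter_subset_right) Metric.isOpen_ball (convex_ball x ε).isPreconnected).2
    ⟨x, Metric.mem_ball_self hε⟩
  obtain ⟨N, hN, r, -, hb⟩ := exists_box (hL.chart z (hball hz).2 hzb)
    (Metric.isOpen_ball.mem_nhds hz) one_pos
  obtain ⟨y, hy, hyg, -⟩ := hb.good_above hL.countable hb.mem (V := univ) univ_mem
    (s₀ := (f z).im) le_rfl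
  exact ⟨y, hball (hN hy.2), hyg⟩

theorem prm_of_total (hL : LeafSys Ω f Bad P) (h0 : ∀ x q, ReachP Ω f Bad P x x q → q = 0) :
    ∃ W : E2 → Q, Prm P Ω W := by
  classical
  obtain ⟨x₀, hx₀, hg₀⟩ : ∃ x₀ ∈ Ω, GoodL Bad (f x₀).im := by
    obtain ⟨x, hx⟩ := hL.conn.nonempty
    obtain ⟨y, hy, hyg⟩ := cm_good hL hx univ_mem
    exact ⟨y, hy.2, hyg⟩
  have hW₀ : ∀ y, ∃ q, y ∈ Ω → GoodL Bad (f y).im → ReachP Ω f Bad P x₀ y q := by
    intro y
    by_cases h1 : y ∈ Ω ∧ GoodL Bad (f y).im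
    · obtain ⟨q, hq⟩ := reach_all hL hx₀ hg₀ h1.1 h1.2
      exact ⟨q, fun _ _ => hq⟩
    · exact ⟨0, fun h2 h3 => absurd ⟨h2, h3⟩ h1⟩
  choose W₀ hW₀ using hW₀
  have huniq : ∀ y q q', ReachP Ω f Bad P x₀ y q → ReachP Ω f Bad P x₀ y q' → q = q' := by
    intro y q q' h1 h2
    have h3 := h0 _ _ (h1.trans h2.symm)
    rwa [← sub_eq_add_neg, sub_eq_zero] at h3
  have hstep : ∀ (N : Set E2) (u : E2) (r : ℝ) (p : E2 → Q) (y z : E2), Box Ω f N u r →
      Prm P N p → y ∈ N → z ∈ N → GoodL Bad (f y).im → GoodL Bad (f z).im →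
      W₀ z - p z = W₀ y - p y := by
    intro N u r p y z hb hp hy hz hgy hgz
    have h1 := hW₀ y (hb.sub hy) hgy
    have h2 := hW₀ z (hb.sub hz) hgz
    have h3 := huniq _ _ _ h2 (ReachP.step x₀ y z _ N u r p h1 hb hp hy hz hgz)
    rw [h3]
    abel
  have hclaim : ∀ x, ∃ c : Q, x ∈ Ω →
      ∀ᶠ y in 𝓝 x, GoodL Bad (f y).im → W₀ y = P x y + c := by
    intro x
    by_cases hx : x ∈ Ω
    swap
    · exact ⟨0, fun h => absurd h hx⟩
    obtain ⟨U, hUΩ, hUo, hxU, hUp⟩ := hL.ls.prm hL.isOpen hx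
    obtain ⟨ε, hε, hball⟩ := Metric.isOpen_iff.1 hUo x hxU
    set V : Set E2 := Metric.ball x ε with hV
    have hVΩ : V ⊆ Ω := hball.trans hUΩ
    have hVp : Prm P V (P x) := hUp.mono hball
    obtain ⟨hEp, hEn⟩ := hL.sep Bad hL.countable V hVΩ Metric.isOpen_ball
      (convex_ball x ε).isPreconnected
    obtain ⟨z₀, hz₀⟩ := hEn ⟨x, Metric.mem_ball_self hε⟩
    have hbox : ∀ u, ∃ (N : Set E2) (r : ℝ) (g : E2), u ∈ V ∩ f ⁻¹' Badᶜ →
        N ⊆ V ∧ Box Ω f N u r ∧ g ∈ N ∧ GoodL Bad (f g).im := by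
      intro u
      by_cases hu : u ∈ V ∩ f ⁻¹' Badᶜ
      · obtain ⟨N, hN, r, -, hb⟩ := exists_box (hL.chart u (hVΩ hu.1) hu.2)
          (Metric.isOpen_ball.mem_nhds hu.1) one_pos
        obtain ⟨g, hg, hgg⟩ := cm_good hL (hVΩ hu.1) (hb.isOpen.mem_nhds hb.mem)
        exact ⟨N, r, g, fun _ => ⟨hN, hb, hg.1, hgg⟩⟩
      · exact ⟨∅, 0, u, fun h => absurd h hu⟩
    choose N r g hN using hbox
    have hconst : ∀ u ∈ V ∩ f ⁻¹' Badᶜ, ∀ y ∈ N u, GoodL Bad (f y).im →
        W₀ y - P x y = W₀ (g u) - P x (g u) := by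
      intro u hu y hy hyg
      obtain ⟨h1, h2, h3, h4⟩ := hN u hu
      exact hstep (N u) u (r u) (P x) (g u) y h2 (hVp.mono h1) h3 hy h4 hyg
    have hloc : ∀ u ∈ V ∩ f ⁻¹' Badᶜ, ∀ᶠ u' in 𝓝[V ∩ f ⁻¹' Badᶜ] u,
        W₀ (g u') - P x (g u') = W₀ (g u) - P x (g u) := by
      intro u hu
      obtain ⟨h1, h2, h3, h4⟩ := hN u hu
      filter_upwards [mem_nhdsWithin_of_mem_nhds (h2.isOpen.mem_nhds h2.mem),
        self_mem_nhdsWithin] with u' hu' hu''
      obtain ⟨h1', h2', h3', h4'⟩ := hN u' hu''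
      obtain ⟨y, hy, hyg⟩ := cm_good hL (hVΩ hu''.1)
        (inter_mem (h2.isOpen.mem_nhds hu') (h2'.isOpen.mem_nhds h2'.mem))
      rw [← hconst u hu y hy.1.1 hyg, ← hconst u' hu'' y hy.1.2 hyg]
    refine ⟨W₀ (g z₀) - P x (g z₀), fun _ => ?_⟩
    filter_upwards [Metric.ball_mem_nhds x hε] with y hy hyg
    have hyE : y ∈ V ∩ f ⁻¹' Badᶜ := ⟨hy, cm_notBad hyg⟩
    have h5 := const_of_loc hEp (F := fun u => W₀ (g u) - P x (g u)) hloc hz₀ hyE
    rw [← h5, ← hconst y hyE y (hN y hyE).2.1.mem hyg]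
    abel
  choose c hc using hclaim
  refine ⟨fun x => P x x + c x, fun x hx => ?_⟩
  have e1 := (hc x hx).eventually_nhds
  filter_upwards [mem_nhdsWithin_of_mem_nhds e1, hL.ls x hx, self_mem_nhdsWithin] with y h1 h2 h3
  rw [hL.isOpen.nhdsWithin_eq h3] at h2
  obtain ⟨z, ⟨⟨⟨z1, z2⟩, z3⟩, -⟩, hzg⟩ := cm_good hL h3 ((h1.and h2).and (hc y h3))
  have z1 := z1 hzg
  have z3 := z3 hzg
  have h4 : c y = c x + (P x z - P y z) := by
    have h5 : P x z + c x = P y z + c y := z1.symm.trans z3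
    have h6 : c y = P x z + c x - P y z := by
      rw [h5]
      abel
    rw [h6]
    abel
  show P y y + c y - (P x x + c x) = P x y - P x x
  rw [h4, z2]
  abel

theorem core_main (hL : LeafSys Ω f Bad P) (hD : HasDiscs Ω f)
    (hQ : NoOdd Q) (hH : ∀ (G : Type) [AddCommGroup G], DivFree2 G → H1triv Ω G)
    (hI : ∀ b ∈ Bad, ∀ b' ∈ Bad, b.im = b'.im → b = b') : ∃ W : E2 → Q, Prm P Ω W := by
  refine prm_of_total hL fun x q h => ?_
  obtain ⟨n, xs, N, p, hch, h0, h1, hq⟩ := h.chain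
  rw [← hq]
  exact total_zero hL hD hQ hH hI hch (h1.trans h0.symm)

end Pool.Agent.MP_fe3720.NR
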