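import Pool.Agent.Work.MP_fe3720_an.NR.Problem
import Pool.Agent.Work.MP_fe3720_an.NR.CoreMain
import Pool.Agent.Work.MP_fe3720_an.NR.LamQ
import Pool.Agent.Work.MP_fe3720_an.NF.Defs
import Pool.Agent.Work.MP_fe3720_an.X.Defs

/-! # NoRR4: a domain as in `X.exists_domain` does not satisfy (RR4)

The output of the foliation part enters as a hypothesis `hNF`, the analyticity of holomorphic
functions of two variables as a hypothesis `han`. -/

namespace Pool.Agent.MP_fe3720.NR

open Set Topology Filter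

/-- two functions with the same derivative near `y` differ by a constant near `y` -/
private theorem loc_const {u v : E2 → ℂ} {om : E2 → E2 →L[ℂ] ℂ} {y : E2}
    (hu : ∀ᶠ z in 𝓝 y, HasFDerivAt u (om z) z) (hv : ∀ᶠ z in 𝓝 y, HasFDerivAt v (om z) z) :
    ∀ᶠ z in 𝓝 y, u z - v z = u y - v y := by
  obtain ⟨r, hr, hb⟩ := Metric.eventually_nhds_iff_ball.1 (hu.and hv)
  filter_upwards [Metric.ball_mem_nhds y hr] with z hz
  have hd : ∀ w ∈ Metric.ball y r, HasFDerivAt (fun w => u w - v w) (0 : E2 →L[ℂ] ℂ) w := by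
    intro w hw
    have h1 := (hb w hw).1.sub (hb w hw).2
    rw [sub_self] at h1
    exact h1
  have hconv : Convex ℝ (Metric.ball y r) := convex_ball y r
  have hdiff : DifferentiableOn ℂ (fun w => u w - v w) (Metric.ball y r) :=
    fun w hw => (hd w hw).differentiableAt.differentiableWithinAt
  have hfd : ∀ w ∈ Metric.ball y r,
      fderivWithin ℂ (fun w => u w - v w) (Metric.ball y r) w = 0 := by
    intro w hw
    rw [fderivWithin_of_isOpen Metric.isOpen_ball hw]
    exact (hd w hw).fderiv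
  exact hconv.is_const_of_fderivWithin_eq_zero hdiff hfd hz (Metric.mem_ball_self hr)

/-- the class of the constant multiple of `1` -/
theorem no_RR4 {Ω : Set E2} (hO : IsOpen Ω) (hC : IsConnected Ω) (hF : X.HasForm Ω)
    (hH : ∀ (G : Type) [AddCommGroup G], DivFree2 G → H1triv Ω G)
    (han : ∀ (u : E2 → ℂ) (U : Set E2), IsOpen U → DifferentiableOn ℂ u U → ∀ x ∈ U,
      AnalyticAt ℂ u x)
    (hNF : ∀ (f : E2 → ℂ) (V : E2 → E2) (w : E2 → E2 → ℂ), NF.Fol Ω f V w →
      ∃ (A c : ℂ) (Bad : Set ℂ), ‖c‖ = 1 ∧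
        LeafSys Ω (fun x => c * f x) Bad
          (fun x y => (QuotientAddGroup.mk (w x y) : ℂ ⧸ Lam A)) ∧
        HasDiscs Ω (fun x => c * f x) ∧ ∀ b ∈ Bad, ∀ b' ∈ Bad, b.im = b'.im → b = b') :
    ¬ Dom.RR4 Ω := by
  rintro ⟨V, f, ⟨hV, hcomp⟩, hV0, hf, hfn, htan⟩
  obtain ⟨om, hom, hno⟩ := hF
  classical
  let w : E2 → E2 → ℂ := fun x => if hx : x ∈ Ω then (hom x hx).choose else fun _ => 0
  have hw : ∀ x ∈ Ω, ∀ᶠ y in 𝓝 x, HasFDerivAt (w x) (om y) y := by
    intro x hx
    have := (hom x hx).choose_spec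
    simpa only [w, dif_pos hx] using this
  have hls : IsLS Ω w := by
    intro x hx
    have h1 : ∀ᶠ y in 𝓝[Ω] x, ∀ᶠ z in 𝓝 y, HasFDerivAt (w x) (om z) z :=
      nhdsWithin_le_nhds (hw x hx).eventually_nhds
    filter_upwards [h1, self_mem_nhdsWithin] with y hy hyΩ
    exact nhdsWithin_le_nhds (loc_const hy (hw y hyΩ))
  have hwan : ∀ x ∈ Ω, AnalyticAt ℂ (w x) x := by
    intro x hx
    obtain ⟨r, hr, hb⟩ := Metric.eventually_nhds_iff_ball.1 (hw x hx)
    exact han (w x) (Metric.ball x r) Metric.isOpen_ball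
      (fun y hy => (hb y hy).differentiableAt.differentiableWithinAt) x (Metric.mem_ball_self hr)
  have hFol : NF.Fol Ω f V w :=
    { isOpen := hO
      conn := hC
      holf := hf
      nonconst := hfn
      holV := hV
      V0 := hV0
      tan := htan
      comp := fun x hx => by
        obtain ⟨γ, h0, hγ⟩ := hcomp x hx
        exact ⟨γ, h0, hγ⟩
      wls := hls
      wan := hwan }
  obtain ⟨A, c, Bad, hc, hL, hD, hI⟩ := hNF f V w hFol
  obtain ⟨W, hW⟩ := core_main hL hD (noOdd_quot A) hH hI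
  obtain ⟨w₀, hw₀⟩ := prm_lift hO A hls hW (hH _ (divFree2_Lam A))
  apply hno
  refine ⟨w₀, fun x hx => ?_⟩
  have h1 := hw₀ x hx
  rw [hO.nhdsWithin_eq hx] at h1
  have h2 : w₀ =ᶠ[𝓝 x] fun y => w x y + (w₀ x - w x x) := by
    filter_upwards [h1] with y hy
    linear_combination hy
  have h3 : HasFDerivAt (fun y => w x y + (w₀ x - w x x)) (om x) x :=
    ((hw x hx).self_of_nhds).add_const _
  exact h3.congr_of_eventuallyEq h2

end Pool.Agent.MP_fe3720.NR
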