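import Pool.Agent.Work.MP_fe3720_an.NR.Defs2

/-! # BoxA: product boxes

PROOF of `exists_box`. Let `φ` be a chart, `φ x = (f x, d)`. The set
`V = φ.source ∩ U°` is an open neighbourhood of `x`, `φ '' V` (= `φ.target ∩ φ.symm ⁻¹' V`) is open
and contains `(f x, d)`: it contains a product `ball (f x) r ×ˢ ball d r` with `0 < r < ε`. Put
`N = φ.symm '' (ball (f x) r ×ˢ ball d r)`; this is `φ.source ∩ φ ⁻¹' (ball ×ˢ ball)`, hence open
(`OpenPartialHomeomorph.isOpen_inter_preimage`). `img`: `f y = (φ y).1`. `pre`: for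
`D ⊆ ball (f x) r` one has `N ∩ f ⁻¹' D = φ.symm '' (D ×ˢ ball d r)`, the image of a preconnected set
(product of preconnected sets; a ball is convex) under a map continuous on `φ.target`.
`sec`: for `y ∈ N`, `φ y = (f y, e)`; put `σ ζ = φ.symm (ζ, e)`.

`Box.rel`: `N ∩ f ⁻¹' {f y}` is preconnected (`pre`, a singleton is preconnected, `{f y} ⊆ ball` by
`img`), contained in `Ω ∩ f ⁻¹' {f y}` and contains `y, y'`:
`IsPreconnected.subset_connectedComponentIn`.

`Box.near`: take the section `σ` through `y` (`sec`); `σ` is continuous at `f y` (ball open), so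
`σ ζ → y` as `ζ → f y`; and `σ ζ ∈ N`, `f (σ ζ) = ζ` for `ζ` in the ball (a neighbourhood of `f y`
by `img`). `Box.contOn`: `f` is continuous at the points of a box? NOT needed.

`HasChart.near`, `HasChart.eventually` (`φ.source` is open), `HasChart.rel`: from a box inside `univ`.

`Box.good_near`: `Bad` countable, `y ∈ N`, `V ∈ 𝓝 y`, `s₀ : ℝ`: there is `y' ∈ V ∩ N` with `GoodL Bad (f y').im` and `s₀ < (f y').im`
provided `s₀ ≤ (f y).im`. By `Box.near` for all `ζ` near `f y` there is such a `y'` with `f y' = ζ`; take `ζ = f y + t I`, `t > 0` small such that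
`(f y).im + t` is not the imaginary part of a bad value (the image of the countable set `Bad` under `im` is countable; a nonempty open
interval is not countable: `Set.Countable.dense_compl ℝ`). Same below. -/

namespace Pool.Agent.MP_fe3720.NR

open Set Topology Filter

theorem exists_box {Ω : Set E2} {f : E2 → ℂ} {x : E2} (h : HasChart Ω f x) {U : Set E2}
    (hU : U ∈ 𝓝 x) {ε : ℝ} (hε : 0 < ε) : ∃ N ⊆ U, ∃ r < ε, Box Ω f N x r := by
  obtain ⟨φ, hx, hΩ, hφ⟩ := h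
  have hVo : IsOpen (φ.source ∩ interior U) := φ.open_source.inter isOpen_interior
  have hTo : IsOpen (φ.target ∩ φ.symm ⁻¹' (φ.source ∩ interior U)) :=
    φ.isOpen_inter_preimage_symm hVo
  have hxT : φ x ∈ φ.target ∩ φ.symm ⁻¹' (φ.source ∩ interior U) := by
    refine ⟨φ.map_source hx, ?_⟩
    rw [mem_preimage, φ.left_inv hx]
    exact ⟨hx, mem_interior_iff_mem_nhds.2 hU⟩
  obtain ⟨δ, hδ, hball⟩ := Metric.isOpen_iff.1 hTo _ hxT
  have hr : 0 < min δ ε / 2 := half_pos (lt_min hδ hε)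
  have hrδ : min δ ε / 2 < δ := lt_of_lt_of_le (half_lt_self (lt_min hδ hε)) (min_le_left _ _)
  have hrε : min δ ε / 2 < ε := lt_of_lt_of_le (half_lt_self (lt_min hδ hε)) (min_le_right _ _)
  generalize min δ ε / 2 = r at hr hrδ hrε
  have hprod : ∀ p ∈ Metric.ball (f x) r ×ˢ Metric.ball (φ x).2 r,
      p ∈ φ.target ∩ φ.symm ⁻¹' (φ.source ∩ interior U) := by
    intro p hp
    apply hball
    rw [Metric.mem_ball, Prod.dist_eq, hφ x hx]
    exact max_lt (lt_trans hp.1 hrδ) (lt_trans hp.2 hrδ)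
  refine ⟨φ.source ∩ φ ⁻¹' (Metric.ball (f x) r ×ˢ Metric.ball (φ x).2 r), ?_, r, hrε, ?_⟩
  · rintro y ⟨hy, hy'⟩
    have h1 := (hprod _ hy').2
    rw [mem_preimage, φ.left_inv hy] at h1
    exact interior_subset h1.2
  · exact
    { isOpen := φ.isOpen_inter_preimage (Metric.isOpen_ball.prod Metric.isOpen_ball)
      mem := by
        refine ⟨hx, ?_, ?_⟩
        · rw [hφ x hx]
          exact Metric.mem_ball_self hr
        · exact Metric.mem_ball_self hr
      sub := fun y hy => hΩ hy.1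
      pos := hr
      img := by
        rintro y ⟨hy, hy', -⟩
        rw [hφ y hy] at hy'
        exact hy'
      pre := by
        intro D hD hDp
        have heq : (φ.source ∩ φ ⁻¹' (Metric.ball (f x) r ×ˢ Metric.ball (φ x).2 r)) ∩ f ⁻¹' D =
            φ.symm '' (D ×ˢ Metric.ball (φ x).2 r) := by
          apply Subset.antisymm
          · rintro y ⟨⟨hy, hy'⟩, hyD⟩
            refine ⟨φ y, ⟨?_, hy'.2⟩, φ.left_inv hy⟩
            rw [hφ y hy]
            exact hyD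
          · rintro _ ⟨p, ⟨hp1, hp2⟩, rfl⟩
            have h1 := hprod p ⟨hD hp1, hp2⟩
            have h2 : φ.symm p ∈ φ.source := φ.map_target h1.1
            refine ⟨⟨h2, ?_⟩, ?_⟩
            · rw [mem_preimage, φ.right_inv h1.1]
              exact ⟨hD hp1, hp2⟩
            · show f (φ.symm p) ∈ D
              rw [← hφ _ h2, φ.right_inv h1.1]
              exact hp1
        rw [heq]
        refine (hDp.prod (convex_ball (φ x).2 r).isPreconnected).image _
          (φ.continuousOn_symm.mono ?_)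
        exact fun p hp => (hprod p ⟨hD hp.1, hp.2⟩).1
      sec := by
        rintro y ⟨hy, hy'⟩
        refine ⟨fun ζ => φ.symm (ζ, (φ y).2), ?_, ?_, ?_⟩
        · refine φ.continuousOn_symm.comp (Continuous.continuousOn (by fun_prop)) ?_
          intro ζ hζ
          exact (hprod (ζ, (φ y).2) ⟨hζ, hy'.2⟩).1
        · show φ.symm (f y, (φ y).2) = y
          rw [← hφ y hy]
          exact φ.left_inv hy
        · intro ζ hζ
          have h1 := hprod (ζ, (φ y).2) ⟨hζ, hy'.2⟩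
          have h2 : φ.symm (ζ, (φ y).2) ∈ φ.source := φ.map_target h1.1
          refine ⟨⟨h2, ?_⟩, ?_⟩
          · show φ.symm (ζ, (φ y).2) ∈ φ ⁻¹' _
            rw [mem_preimage, φ.right_inv h1.1]
            exact ⟨hζ, hy'.2⟩
          · show f (φ.symm (ζ, (φ y).2)) = ζ
            rw [← hφ _ h2, φ.right_inv h1.1] }

theorem Box.rel {Ω : Set E2} {f : E2 → ℂ} {N : Set E2} {x : E2} {r : ℝ} (hb : Box Ω f N x r)
    {y y' : E2} (hy : y ∈ N) (hy' : y' ∈ N) (h : f y = f y') : y' ∈ LF Ω f y := by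
  have h1 : IsPreconnected (N ∩ f ⁻¹' {f y}) :=
    hb.pre {f y} (singleton_subset_iff.2 (hb.img y hy)) isPreconnected_singleton
  refine h1.subset_connectedComponentIn (x := y) ⟨hy, rfl⟩ ?_ ⟨hy', h.symm⟩
  exact fun z hz => ⟨hb.sub hz.1, hz.2⟩

theorem Box.near {Ω : Set E2} {f : E2 → ℂ} {N : Set E2} {x : E2} {r : ℝ} (hb : Box Ω f N x r)
    {y : E2} (hy : y ∈ N) {V : Set E2} (hV : V ∈ 𝓝 y) :
    ∀ᶠ ζ in 𝓝 (f y), ∃ y' ∈ V ∩ N, f y' = ζ := by
  obtain ⟨σ, hσ, hσy, hσ'⟩ := hb.sec y hy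
  have hmem : Metric.ball (f x) r ∈ 𝓝 (f y) := Metric.isOpen_ball.mem_nhds (hb.img y hy)
  have hc : ContinuousAt σ (f y) := hσ.continuousAt hmem
  have h1 : σ ⁻¹' V ∈ 𝓝 (f y) := hc (by rwa [hσy])
  filter_upwards [h1, hmem] with ζ h1 h2
  exact ⟨σ ζ, ⟨h1, (hσ' ζ h2).1⟩, (hσ' ζ h2).2⟩

/-- the part of a box over a convex set is preconnected -/
theorem Box.pre_convex {Ω : Set E2} {f : E2 → ℂ} {N : Set E2} {x : E2} {r : ℝ}
    (hb : Box Ω f N x r) {D : Set ℂ} (hD : Convex ℝ D) : IsPreconnected (N ∩ f ⁻¹' D) := by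
  have heq : N ∩ f ⁻¹' D = N ∩ f ⁻¹' (D ∩ Metric.ball (f x) r) := by
    apply Subset.antisymm
    · exact fun y hy => ⟨hy.1, hy.2, hb.img y hy.1⟩
    · exact fun y hy => ⟨hy.1, hy.2.1⟩
  rw [heq]
  exact hb.pre _ inter_subset_right (hD.inter (convex_ball (f x) r)).isPreconnected

/-- the values of a box form the whole ball -/
theorem Box.surj {Ω : Set E2} {f : E2 → ℂ} {N : Set E2} {x : E2} {r : ℝ} (hb : Box Ω f N x r)
    {ζ : ℂ} (hζ : ζ ∈ Metric.ball (f x) r) : ∃ y ∈ N, f y = ζ := by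
  obtain ⟨σ, -, -, hσ'⟩ := hb.sec x hb.mem
  exact ⟨σ ζ, (hσ' ζ hζ).1, (hσ' ζ hζ).2⟩

private theorem ba_goodL {Bad : Set ℂ} (hB : Bad.Countable) {a b : ℝ} (hab : a < b) :
    ∃ s, a < s ∧ s < b ∧ GoodL Bad s := by
  obtain ⟨s, hs, hs1, hs2⟩ :=
    ((hB.image Complex.im).dense_compl ℝ).exists_between hab
  exact ⟨s, hs1, hs2, fun b hb hbs => hs ⟨b, hb, hbs⟩⟩

/-- good points of level above `s₀` -/
theorem Box.good_above {Ω : Set E2} {f : E2 → ℂ} {N : Set E2} {x : E2} {r : ℝ}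
    (hb : Box Ω f N x r) {Bad : Set ℂ} (hB : Bad.Countable) {y : E2} (hy : y ∈ N) {V : Set E2}
    (hV : V ∈ 𝓝 y) {s₀ : ℝ} (hs : s₀ ≤ (f y).im) :
    ∃ y' ∈ V ∩ N, GoodL Bad (f y').im ∧ s₀ < (f y').im := by
  obtain ⟨ε, hε, hball⟩ := Metric.eventually_nhds_iff.1 (hb.near hy hV)
  obtain ⟨s, hs1, hs2, hgood⟩ := ba_goodL hB (show (f y).im < (f y).im + ε by linarith)
  obtain ⟨y', hy', hfy'⟩ := hball (y := (⟨(f y).re, s⟩ : ℂ)) (by
    have h1 : dist (⟨(f y).re, s⟩ : ℂ) (f y) = dist s (f y).im :=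
      Complex.dist_of_re_eq (z := (⟨(f y).re, s⟩ : ℂ)) (w := f y) rfl
    rw [h1, Real.dist_eq, abs_lt]
    constructor <;> linarith)
  refine ⟨y', hy', ?_, ?_⟩
  · rw [hfy']
    exact hgood
  · rw [hfy']
    exact lt_of_le_of_lt hs hs1

/-- good points of level below `s₀` -/
theorem Box.good_below {Ω : Set E2} {f : E2 → ℂ} {N : Set E2} {x : E2} {r : ℝ}
    (hb : Box Ω f N x r) {Bad : Set ℂ} (hB : Bad.Countable) {y : E2} (hy : y ∈ N) {V : Set E2}
    (hV : V ∈ 𝓝 y) {s₀ : ℝ} (hs : (f y).im ≤ s₀) :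
    ∃ y' ∈ V ∩ N, GoodL Bad (f y').im ∧ (f y').im < s₀ := by
  obtain ⟨ε, hε, hball⟩ := Metric.eventually_nhds_iff.1 (hb.near hy hV)
  obtain ⟨s, hs1, hs2, hgood⟩ := ba_goodL hB (show (f y).im - ε < (f y).im by linarith)
  obtain ⟨y', hy', hfy'⟩ := hball (y := (⟨(f y).re, s⟩ : ℂ)) (by
    have h1 : dist (⟨(f y).re, s⟩ : ℂ) (f y) = dist s (f y).im :=
      Complex.dist_of_re_eq (z := (⟨(f y).re, s⟩ : ℂ)) (w := f y) rfl
    rw [h1, Real.dist_eq, abs_lt]
    constructor <;> linarith)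
  refine ⟨y', hy', ?_, ?_⟩
  · rw [hfy']
    exact hgood
  · rw [hfy']
    exact lt_of_lt_of_le hs2 hs

/-- points over nearby values near a point with a chart -/
theorem HasChart.near {Ω : Set E2} {f : E2 → ℂ} {x : E2} (h : HasChart Ω f x) {V : Set E2}
    (hV : V ∈ 𝓝 x) : ∀ᶠ ζ in 𝓝 (f x), ∃ y' ∈ V ∩ Ω, f y' = ζ := by
  obtain ⟨N, -, r, -, hb⟩ := exists_box h univ_mem one_pos
  filter_upwards [hb.near hb.mem hV] with ζ ⟨y', hy', h'⟩
  exact ⟨y', ⟨hy'.1, hb.sub hy'.2⟩, h'⟩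

/-- the points with a chart form an open set -/
theorem HasChart.eventually {Ω : Set E2} {f : E2 → ℂ} {x : E2} (h : HasChart Ω f x) :
    ∀ᶠ y in 𝓝 x, HasChart Ω f y := by
  obtain ⟨φ, hx, hΩ, hφ⟩ := h
  filter_upwards [φ.open_source.mem_nhds hx] with y hy
  exact ⟨φ, hy, hΩ, hφ⟩

/-- two points near a point with a chart, over the same value, are in the same leaf -/
theorem HasChart.rel {Ω : Set E2} {f : E2 → ℂ} {x : E2} (h : HasChart Ω f x) :
    ∀ᶠ p : E2 × E2 in 𝓝 (x, x), f p.1 = f p.2 → p.2 ∈ LF Ω f p.1 := by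
  obtain ⟨N, -, r, -, hb⟩ := exists_box h univ_mem one_pos
  have hN : N ∈ 𝓝 x := hb.isOpen.mem_nhds hb.mem
  filter_upwards [prod_mem_nhds hN hN] with p hp hf
  exact hb.rel hp.1 hp.2 hf

/-- a dense set of good levels -/
theorem exists_goodL {Bad : Set ℂ} (hB : Bad.Countable) {a b : ℝ} (hab : a < b) :
    ∃ s, a < s ∧ s < b ∧ GoodL Bad s := by
  exact ba_goodL hB hab

end Pool.Agent.MP_fe3720.NR
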