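import Pool.Agent.Work.MP_fe3720_an.NR.TorA

/-! # BoxNu: crossing a level in a box

`ν` satisfies `Jm μ ν w` at all good `w ∈ Ω`; `N` is a box.

PROOFS. `box_same`: `p, q ∈ N` good, both of level `> s₀` (or both `< s₀`): `ν p = ν q`. The set `V = N ∩ f ⁻¹' {ζ | s₀ < ζ.im}` is open (`f` is continuous on the open set `Ω ⊇ N`) and preconnected (`Box.pre_convex`), so `E = V ∩ f ⁻¹' Badᶜ` is preconnected (`sep`), and `ν` is locally constant
on `E` by `Jm` (near `w ∈ E` all points have level `> s₀`): `const_of_loc`.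
`box_cross`: `p ∈ N` good of level `< s₀`, `q ∈ N` good of level `> s₀`, `z ∈ N` good of level `= s₀`: `ν q - ν p = - μ z`. Near `z` there are `q'` good above, `p'` good below, in `N` and in the neighbourhood of `Jm μ ν z` (`Box.good_above`, `Box.good_below`; `GoodL` implies `∉ Bad`):
`ν q' = c - μ z`, `ν p' = c`. Now `box_same` for `q, q'` and `p, p'`. -/

namespace Pool.Agent.MP_fe3720.NR

open Set Topology Filter

variable {Ω : Set E2} {f : E2 → ℂ} {Q : Type} [AddCommGroup Q] {P : E2 → E2 → Q} {Bad : Set ℂ}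
  {G : Type} [AddCommGroup G] {s₀ : ℝ} {μ ν : E2 → G}

private theorem bn_same (hL : LeafSys Ω f Bad P) (hν : ∀ w ∈ Ω, f w ∉ Bad → Jm f Bad s₀ μ ν w)
    {N : Set E2} {x : E2} {r : ℝ} (hb : Box Ω f N x r) {D : Set ℂ} (hDo : IsOpen D)
    (hDc : Convex ℝ D) (hD : (∀ ζ ∈ D, s₀ < ζ.im) ∨ (∀ ζ ∈ D, ζ.im < s₀)) {p q : E2} (hp : p ∈ N)
    (hq : q ∈ N) (hpB : f p ∉ Bad) (hqB : f q ∉ Bad) (hpD : f p ∈ D) (hqD : f q ∈ D) :
    ν p = ν q := by
  have hVo : IsOpen (N ∩ f ⁻¹' D) := (hL.cont.mono hb.sub).isOpen_inter_preimage hb.isOpen hDo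
  have hVc : IsPreconnected (N ∩ f ⁻¹' D) := hb.pre_convex hDc
  have hE := (hL.sep Bad hL.countable (N ∩ f ⁻¹' D) (inter_subset_left.trans hb.sub) hVo hVc).1
  refine const_of_loc hE (F := ν) ?_ ⟨⟨hq, hqD⟩, hqB⟩ ⟨⟨hp, hpD⟩, hpB⟩
  rintro w ⟨⟨hwN, hwD⟩, hwB⟩
  obtain ⟨c, hc⟩ := hν w (hb.sub hwN) hwB
  have hcw := hc.self_of_nhds
  filter_upwards [hc.filter_mono nhdsWithin_le_nhds, self_mem_nhdsWithin] with y hy hyE
  rcases hD with hD | hD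
  · have h1 := hD _ hwD
    have h2 := hD _ hyE.1.2
    rw [hy hyE.2 h2.ne', hcw hwB h1.ne', if_pos h1, if_pos h2]
  · have h1 := hD _ hwD
    have h2 := hD _ hyE.1.2
    rw [hy hyE.2 h2.ne, hcw hwB h1.ne, if_neg h1.not_gt, if_neg h2.not_gt]

theorem box_above (hL : LeafSys Ω f Bad P) (hν : ∀ w ∈ Ω, f w ∉ Bad → Jm f Bad s₀ μ ν w)
    {N : Set E2} {x : E2} {r : ℝ} (hb : Box Ω f N x r) {p q : E2} (hp : p ∈ N) (hq : q ∈ N)
    (hpB : f p ∉ Bad) (hqB : f q ∉ Bad) (hps : s₀ < (f p).im) (hqs : s₀ < (f q).im) :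
    ν p = ν q := by
  exact bn_same hL hν hb (isOpen_lt continuous_const Complex.continuous_im)
    (convex_halfSpace_im_gt s₀) (Or.inl fun ζ hζ => hζ) hp hq hpB hqB hps hqs

theorem box_below (hL : LeafSys Ω f Bad P) (hν : ∀ w ∈ Ω, f w ∉ Bad → Jm f Bad s₀ μ ν w)
    {N : Set E2} {x : E2} {r : ℝ} (hb : Box Ω f N x r) {p q : E2} (hp : p ∈ N) (hq : q ∈ N)
    (hpB : f p ∉ Bad) (hqB : f q ∉ Bad) (hps : (f p).im < s₀) (hqs : (f q).im < s₀) :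
    ν p = ν q := by
  exact bn_same hL hν hb (isOpen_lt Complex.continuous_im continuous_const)
    (convex_halfSpace_im_lt s₀) (Or.inr fun ζ hζ => hζ) hp hq hpB hqB hps hqs

theorem box_cross (hL : LeafSys Ω f Bad P) (hν : ∀ w ∈ Ω, f w ∉ Bad → Jm f Bad s₀ μ ν w)
    {N : Set E2} {x : E2} {r : ℝ} (hb : Box Ω f N x r) {p q z : E2} (hp : p ∈ N) (hq : q ∈ N)
    (hpB : f p ∉ Bad) (hqB : f q ∉ Bad) (hps : (f p).im < s₀) (hqs : s₀ < (f q).im)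
    (hz : z ∈ N) (hzB : f z ∉ Bad) (hzs : (f z).im = s₀) : ν q - ν p = - μ z := by
  obtain ⟨c, hc⟩ := hν z (hb.sub hz) hzB
  obtain ⟨q', ⟨hq'1, hq'2⟩, hq'3, hq'4⟩ := hb.good_above hL.countable hz hc hzs.ge
  obtain ⟨p', ⟨hp'1, hp'2⟩, hp'3, hp'4⟩ := hb.good_below hL.countable hz hc hzs.le
  have hq'B : f q' ∉ Bad := fun h => hq'3 _ h rfl
  have hp'B : f p' ∉ Bad := fun h => hp'3 _ h rfl
  have e1 : ν q' = c - if s₀ < (f q').im then μ z else 0 := hq'1 hq'B hq'4.ne'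
  have e2 : ν p' = c - if s₀ < (f p').im then μ z else 0 := hp'1 hp'B hp'4.ne
  rw [if_pos hq'4] at e1
  rw [if_neg hp'4.not_gt] at e2
  rw [box_above hL hν hb hq hq'2 hqB hq'B hqs hq'4, box_below hL hν hb hp hp'2 hpB hp'B hps hp'4,
    e1, e2]
  abel

end Pool.Agent.MP_fe3720.NR
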