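import Pool.Agent.Work.MP_fe3720_an.NR.LIa

/-! # Cont: continuation of leaf equivalences along families

PROOFS. `countable_removed`: a convex open set `D ⊆ ℂ` minus a countable set `B` is preconnected. Two points `p ≠ q` of `D \ B`:
for `t ∈ ℝ` let `m_t = (p + q)/2 + t I (q - p)`; for small `t` the two segments `[p, m_t]`, `[m_t, q]` lie in `D` (`(p+q)/2 ∈ D`, `D` open and convex). For
different `t` the broken lines are disjoint except for `p, q`; as `B` is countable and an interval of `t` is not, some broken line misses `B`; it is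
preconnected. So `D \ B` is preconnected (`isPreconnected_of_forall_pair`). (Mathlib may contain this: search `Countable`, `isPreconnected_compl`, `IsOpen.isConnected..countable`.)
`countable_preimage` (for the applications): if `g` is analytic and nonconstant ... NOT needed here.

`cont_REq`: let `E = D \ {t | f (v₁ t) ∈ Bad}`, preconnected. `{t ∈ E | REq q (v₁ t) (v₂ t)}` is relatively open in `E` by `REq_loc` (the map `t ↦ (v₁ t, v₂ t)` is continuous on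
`D`, `D` open), its complement in `E` is relatively open by `REq_not_loc`. Use `const_of_loc` with `F t = REq ..` (a `Prop`, `propext`).
`cont_LF`: the same with `LF` instead of `REq`: `LeafSys.rel_open` and `LeafSys.haus`. -/

namespace Pool.Agent.MP_fe3720.NR

open Set Topology Filter

variable {Ω : Set E2} {f : E2 → ℂ} {Q : Type} [AddCommGroup Q] {P : E2 → E2 → Q} {Bad : Set ℂ}

private theorem exists_joint {D : Set ℂ} (hD : IsOpen D) (hc : Convex ℝ D) {s : Set ℂ}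
    (hs : s.Countable) {a b : ℂ} (ha : a ∈ D \ s) (hb : b ∈ D \ s) :
    ∃ z, segment ℝ a z ⊆ D \ s ∧ segment ℝ b z ⊆ D \ s := by
  rcases eq_or_ne a b with rfl | hab
  · exact ⟨a, by simpa using ha, by simpa using ha⟩
  let c := (2 : ℝ)⁻¹ • (a + b)
  let x := (2 : ℝ)⁻¹ • (b - a)
  have Ia : c - x = a := by
    simp only [c, x]
    module
  have Ib : c + x = b := by
    simp only [c, x]
    module
  have hcD : c ∈ D := by
    have h1 := hc ha.1 hb.1 (a := (2 : ℝ)⁻¹) (b := (2 : ℝ)⁻¹) (by norm_num) (by norm_num)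
      (by norm_num)
    have h2 : c = (2 : ℝ)⁻¹ • a + (2 : ℝ)⁻¹ • b := by
      simp only [c]
      module
    rw [h2]
    exact h1
  have x_ne_zero : x ≠ 0 := by simpa [x] using sub_ne_zero.2 hab.symm
  have hrank : 1 < Module.rank ℝ ℂ := by
    rw [Complex.rank_real_complex]
    exact Cardinal.one_lt_two
  obtain ⟨y, hy⟩ : ∃ y, LinearIndependent ℝ ![x, y] :=
    exists_linearIndependent_pair_of_one_lt_rank hrank x_ne_zero
  have A : Set.Countable {t : ℝ | (segment ℝ (c + x) (c + t • y) ∩ s).Nonempty} := by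
    apply countable_ofPred_nonempty_of_disjoint _ (fun t ↦ inter_subset_right) hs
    intro t t' htt'
    apply disjoint_iff_inter_eq_empty.2
    have N : {c + x} ∩ s = ∅ := by
      simpa only [singleton_inter_eq_empty, mem_compl_iff, Ib] using hb.2
    rw [inter_assoc, inter_comm s, inter_assoc, inter_self, ← inter_assoc, ← subset_empty_iff, ← N]
    apply inter_subset_inter_left
    apply Eq.subset
    apply segment_inter_eq_endpoint_of_linearIndependent_of_ne hy htt'.symm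
  have B : Set.Countable {t : ℝ | (segment ℝ (c - x) (c + t • y) ∩ s).Nonempty} := by
    apply countable_ofPred_nonempty_of_disjoint _ (fun t ↦ inter_subset_right) hs
    intro t t' htt'
    apply disjoint_iff_inter_eq_empty.2
    have N : {c - x} ∩ s = ∅ := by
      simpa only [singleton_inter_eq_empty, mem_compl_iff, Ia] using ha.2
    rw [inter_assoc, inter_comm s, inter_assoc, inter_self, ← inter_assoc, ← subset_empty_iff, ← N]
    apply inter_subset_inter_left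
    rw [sub_eq_add_neg _ x]
    apply Eq.subset
    apply segment_inter_eq_endpoint_of_linearIndependent_of_ne _ htt'.symm
    convert! hy.units_smul ![-1, 1]
    simp [← List.ofFn_inj]
  have hO : IsOpen {t : ℝ | c + t • y ∈ D} :=
    hD.preimage (by fun_prop)
  have hOne : {t : ℝ | c + t • y ∈ D}.Nonempty := ⟨0, by simpa using hcD⟩
  obtain ⟨t, htD, ht⟩ := ((A.union B).dense_compl ℝ).inter_open_nonempty _ hO hOne
  simp only [compl_union, mem_inter_iff, mem_compl_iff, mem_ofPred_eq, not_nonempty_iff_eq_empty]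
    at ht htD
  refine ⟨c + t • y, fun w hw => ⟨hc.segment_subset ha.1 htD hw, fun hws => ?_⟩,
    fun w hw => ⟨hc.segment_subset hb.1 htD hw, fun hws => ?_⟩⟩
  · have : w ∈ segment ℝ (c - x) (c + t • y) ∩ s := ⟨by rw [Ia]; exact hw, hws⟩
    rw [ht.2] at this
    exact this
  · have : w ∈ segment ℝ (c + x) (c + t • y) ∩ s := ⟨by rw [Ib]; exact hw, hws⟩
    rw [ht.1] at this
    exact this

theorem countable_removed {D : Set ℂ} (hD : IsOpen D) (hc : Convex ℝ D) {B : Set ℂ}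
    (hB : B.Countable) : IsPreconnected (D \ B) := by
  refine isPreconnected_of_forall_pair fun a ha b hb => ?_
  obtain ⟨z, h1, h2⟩ := exists_joint hD hc hB ha hb
  refine ⟨segment ℝ a z ∪ segment ℝ b z, union_subset h1 h2, Or.inl (left_mem_segment ℝ a z),
    Or.inr (left_mem_segment ℝ b z), ?_⟩
  exact IsPreconnected.union z (right_mem_segment ℝ a z) (right_mem_segment ℝ b z)
    (convex_segment a z).isPreconnected (convex_segment b z).isPreconnected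

private theorem cont_gen {Ω : Set E2} {f : E2 → ℂ} {Bad : Set ℂ} {D : Set ℂ} (hD : IsOpen D)
    (hc : Convex ℝ D) {v₁ v₂ : ℂ → E2} (h₁ : ContinuousOn v₁ D) (h₂ : ContinuousOn v₂ D)
    (hf : ∀ t ∈ D, f (v₁ t) = f (v₂ t)) (hcount : {t | t ∈ D ∧ f (v₁ t) ∈ Bad}.Countable)
    {R : E2 → E2 → Prop}
    (hR : ∀ t ∈ D, f (v₁ t) ∉ Bad → R (v₁ t) (v₂ t) → ∀ᶠ p : E2 × E2 in 𝓝 (v₁ t, v₂ t),
      f p.1 = f p.2 → f p.1 ∉ Bad → R p.1 p.2)
    (hR' : ∀ t ∈ D, f (v₁ t) ∉ Bad → ¬ R (v₁ t) (v₂ t) → ∀ᶠ p : E2 × E2 in 𝓝 (v₁ t, v₂ t),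
      f p.1 = f p.2 → f p.1 ∉ Bad → ¬ R p.1 p.2)
    {t₀ : ℂ} (ht₀ : t₀ ∈ D) (hg : f (v₁ t₀) ∉ Bad) (h : R (v₁ t₀) (v₂ t₀)) :
    ∀ t ∈ D, f (v₁ t) ∉ Bad → R (v₁ t) (v₂ t) := by
  have hpre := countable_removed hD hc hcount
  set E := D \ {t | t ∈ D ∧ f (v₁ t) ∈ Bad} with hE
  have hloc : ∀ t ∈ E, ∀ᶠ t' in 𝓝[E] t, R (v₁ t') (v₂ t') = R (v₁ t) (v₂ t) := by
    intro t ht
    have htD : t ∈ D := ht.1
    have hgt : f (v₁ t) ∉ Bad := fun hb => ht.2 ⟨htD, hb⟩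
    have hEev : ∀ᶠ t' in 𝓝[E] t, t' ∈ E := self_mem_nhdsWithin
    have hDn : D ∈ 𝓝 t := hD.mem_nhds htD
    have htend : Tendsto (fun t' => (v₁ t', v₂ t')) (𝓝[E] t) (𝓝 (v₁ t, v₂ t)) :=
      (((h₁.continuousAt hDn).prodMk (h₂.continuousAt hDn)).tendsto).mono_left nhdsWithin_le_nhds
    by_cases hRt : R (v₁ t) (v₂ t)
    · filter_upwards [htend.eventually (hR t htD hgt hRt), hEev] with t' h1 h2
      have h3 : R (v₁ t') (v₂ t') := h1 (hf t' h2.1) fun hb => h2.2 ⟨h2.1, hb⟩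
      exact propext ⟨fun _ => hRt, fun _ => h3⟩
    · filter_upwards [htend.eventually (hR' t htD hgt hRt), hEev] with t' h1 h2
      have h3 : ¬ R (v₁ t') (v₂ t') := h1 (hf t' h2.1) fun hb => h2.2 ⟨h2.1, hb⟩
      exact propext ⟨fun h => absurd h h3, fun h => absurd h hRt⟩
  intro t ht hgt
  have h0E : t₀ ∈ E := ⟨ht₀, fun hb => hg hb.2⟩
  have htE : t ∈ E := ⟨ht, fun hb => hgt hb.2⟩
  have h4 := const_of_loc hpre (F := fun t => R (v₁ t) (v₂ t)) hloc h0E htE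
  have h5 : R (v₁ t) (v₂ t) = R (v₁ t₀) (v₂ t₀) := h4
  rw [h5]
  exact h

theorem cont_LF (hL : LeafSys Ω f Bad P) {D : Set ℂ} (hD : IsOpen D) (hc : Convex ℝ D)
    {v₁ v₂ : ℂ → E2} (h₁ : ContinuousOn v₁ D) (h₂ : ContinuousOn v₂ D)
    (m₁ : ∀ t ∈ D, v₁ t ∈ Ω) (m₂ : ∀ t ∈ D, v₂ t ∈ Ω) (hf : ∀ t ∈ D, f (v₁ t) = f (v₂ t))
    (hcount : {t | t ∈ D ∧ f (v₁ t) ∈ Bad}.Countable) {t₀ : ℂ} (ht₀ : t₀ ∈ D)
    (hg : f (v₁ t₀) ∉ Bad) (h : v₂ t₀ ∈ LF Ω f (v₁ t₀)) :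
    ∀ t ∈ D, f (v₁ t) ∉ Bad → v₂ t ∈ LF Ω f (v₁ t) := by
  refine cont_gen (Ω := Ω) hD hc h₁ h₂ hf hcount (R := fun x y => y ∈ LF Ω f x) ?_ ?_ ht₀ hg h
  · intro t ht hgt hR
    filter_upwards [hL.rel_open (m₁ t ht) hgt hR] with p h1 h2 _
    exact h1 h2
  · intro t ht hgt hR
    exact hL.haus _ (m₁ t ht) _ (m₂ t ht) (hf t ht) hgt hR

theorem cont_REq (hL : LeafSys Ω f Bad P) {U : Set E2} (hU : IsOpen U) (hUΩ : U ⊆ Ω)
    {q : E2 → Q} (hq : Prm P U q) {D : Set ℂ} (hD : IsOpen D) (hc : Convex ℝ D)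
    {v₁ v₂ : ℂ → E2} (h₁ : ContinuousOn v₁ D) (h₂ : ContinuousOn v₂ D)
    (m₁ : ∀ t ∈ D, v₁ t ∈ U) (m₂ : ∀ t ∈ D, v₂ t ∈ U) (hf : ∀ t ∈ D, f (v₁ t) = f (v₂ t))
    (hcount : {t | t ∈ D ∧ f (v₁ t) ∈ Bad}.Countable) {t₀ : ℂ} (ht₀ : t₀ ∈ D)
    (hg : f (v₁ t₀) ∉ Bad) (h : REq Ω f P q (v₁ t₀) (v₂ t₀)) :
    ∀ t ∈ D, f (v₁ t) ∉ Bad → REq Ω f P q (v₁ t) (v₂ t) := by
  refine cont_gen (Ω := Ω) hD hc h₁ h₂ hf hcount (R := fun x y => REq Ω f P q x y) ?_ ?_ ht₀ hg h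
  · intro t ht hgt hR
    exact REq_loc hL hU hUΩ hq (m₁ t ht) (m₂ t ht) hgt hR
  · intro t ht hgt hR
    exact REq_not_loc hL hU hUΩ hq (m₁ t ht) (m₂ t ht) hgt (hf t ht) hR

end Pool.Agent.MP_fe3720.NR
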