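import Pool.Agent.Work.MP_fe3720_an.NR.Kap

/-! # DSa: the sum `D s` of a closed chain of boxes

`κ i s = p i y - Ws s y` for the points `y ∈ N i` of good level `s`.

PROOFS. `exists_kappa`: for `i < n` and a good level `s` the set `N i ∩ f ⁻¹' {im = s}` is preconnected (`Box.pre_convex`) and contained in `Zl s`; `p i`, `Ws s` are primitives on it (`Chain.prim`, `IsWs`, `Prm.mono`): `Prm.sub_const`; `κ i s` = the constant (0 if the set is empty).

`kappa_near` (the value at a vertex): `y₀ ∈ N i`, `IsKap y₀ φ` (`φ` from `exists_kap`, the points of a box have charts? NOT needed, `φ` is given), then for `s ≠ im (f y₀)`... precisely: for all good `s` near `im (f y₀)`: `p i y₀ - κ i s = P y₀ y₀ - φ s`. Indeed by `Box.near` there is `y` near `y₀`, `y ∈ N i`,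
`f y = f y₀ + (s - im (f y₀)) I`; `p i y - p i y₀ = P y₀ y - P y₀ y₀` (`Prm.sub_of_open`), `P y₀ y - Ws s y = φ s`, `p i y - Ws s y = κ i s`. So `p i y₀ - κ i s = p i y₀ - p i y + Ws s y = P y₀ y₀ - P y₀ y + Ws s y = P y₀ y₀ - φ s`.

`DD_form`: (closed chain; `φ u` with `IsKap u (φ u)` for the vertices `u = x i`, from `exists_kap` and the hypothesis `hc` that the vertices have charts.) Let `l i = im (f (x i))`. For `s` near `s₀`, `s ≠ s₀`, and each `i ≤ n`: if `l i ≠ s₀` then `(l i < s ↔ l i < s₀)`; if `l i = s₀` then for the good `s` near `s₀`: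
`p i (x i) - κ i s = P (x i) (x i) - φ (x i) s =: e i s` (`i < n`) and `p i (x (i+1)) - κ i s = e (i+1) s` if `l (i+1) = s₀`. Let `δ i s = (if l i < s then 1 else 0) - th s₀ (x i) : ℤ` (0 if `l i ≠ s₀`). Then `DD s - (right side) = Σ_{i<n} (δ (i+1) s • (p i (x (i+1)) - κ i s) - δ i s • (p i (x i) - κ i s))
= Σ_{i<n} (δ (i+1) s • e (i+1) s - δ i s • e i s) = δ n s • e n s - δ 0 s • e 0 s = 0` (`Finset.sum_range_sub`, `x n = x 0`). Finitely many eventual conditions: `Filter.eventually_all_finset` or `eventually_all_finite`. -/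

namespace Pool.Agent.MP_fe3720.NR

open Set Topology Filter

variable {Ω : Set E2} {f : E2 → ℂ} {Q : Type} [AddCommGroup Q] {P : E2 → E2 → Q} {Bad : Set ℂ}
  {Ws : ℝ → E2 → Q} {n : ℕ} {x : ℕ → E2} {N : ℕ → Set E2} {p : ℕ → E2 → Q}

/-- `κ i s = p i y - Ws s y` for the points `y ∈ N i` of good level `s` -/
def IsKappa (f : E2 → ℂ) (Bad : Set ℂ) (Ws : ℝ → E2 → Q) (n : ℕ) (N : ℕ → Set E2)
    (p : ℕ → E2 → Q) (κ : ℕ → ℝ → Q) : Prop :=
  ∀ i < n, ∀ y ∈ N i, GoodL Bad (f y).im → p i y - Ws (f y).im y = κ i (f y).im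

/-- the part of the chain below the level `s`, closed by the level set -/
noncomputable def DD (f : E2 → ℂ) (n : ℕ) (x : ℕ → E2) (p : ℕ → E2 → Q) (κ : ℕ → ℝ → Q)
    (s : ℝ) : Q :=
  open Classical in
  ∑ i ∈ Finset.range n, ((if (f (x (i + 1))).im < s then p i (x (i + 1)) - κ i s else 0)
    - (if (f (x i)).im < s then p i (x i) - κ i s else 0))

theorem exists_kappa (hW : IsWs Ω f Bad P Ws) (h : Chain Ω f Bad P n x N p) :
    ∃ κ : ℕ → ℝ → Q, IsKappa f Bad Ws n N p κ := by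
  classical
  refine ⟨fun i s => if h : ∃ y, y ∈ N i ∧ (f y).im = s then p i h.choose - Ws s h.choose else 0,
    ?_⟩
  intro i hi y hy hg
  obtain ⟨z, r, hb⟩ := h.box i hi
  have hex : ∃ y', y' ∈ N i ∧ (f y').im = (f y).im := ⟨y, hy, rfl⟩
  show _ = dite _ _ _
  rw [dif_pos hex]
  have hy' := hex.choose_spec
  have hconv : Convex ℝ {ζ : ℂ | ζ.im = (f y).im} := by
    have h1 := (convex_singleton (𝕜 := ℝ) ((f y).im)).linear_preimage Complex.imLm
    exact h1
  have hS := hb.pre_convex hconv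
  have h1 : Prm P (N i ∩ f ⁻¹' {ζ : ℂ | ζ.im = (f y).im}) (p i) :=
    (h.prim i hi).mono fun z hz => hz.1
  have h2 : Prm P (N i ∩ f ⁻¹' {ζ : ℂ | ζ.im = (f y).im}) (Ws (f y).im) :=
    (hW _ hg).mono fun z hz => ⟨hb.sub hz.1, hz.2⟩
  exact Prm.sub_const h1 h2 hS ⟨hy'.1, hy'.2⟩ ⟨hy, rfl⟩

theorem kappa_near (h : Chain Ω f Bad P n x N p) {κ : ℕ → ℝ → Q}
    (hκ : IsKappa f Bad Ws n N p κ) {i : ℕ} (hi : i < n) {y₀ : E2} (hy : y₀ ∈ N i) {φ : ℝ → Q}
    (hφ : IsKap f Bad P Ws y₀ φ) :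
    ∀ᶠ s in 𝓝 (f y₀).im, GoodL Bad s → p i y₀ - κ i s = P y₀ y₀ - φ s := by
  obtain ⟨z, r, hb⟩ := h.box i hi
  have h0 : ∀ᶠ y in 𝓝 y₀, (GoodL Bad (f y).im → P y₀ y - Ws (f y).im y = φ (f y).im) ∧
      p i y - p i y₀ = P y₀ y - P y₀ y₀ := by
    have ha : ∀ᶠ y in 𝓝 y₀, GoodL Bad (f y).im → P y₀ y - Ws (f y).im y = φ (f y).im := hφ
    exact ha.and ((h.prim i hi).sub_of_open hb.isOpen hy)
  have h1 := hb.near hy h0
  have h2 : Tendsto (fun s : ℝ => f y₀ + ((s - (f y₀).im : ℝ) : ℂ) * Complex.I) (𝓝 (f y₀).im)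
      (𝓝 (f y₀)) := by
    have h3 : Continuous (fun s : ℝ => f y₀ + ((s - (f y₀).im : ℝ) : ℂ) * Complex.I) := by
      fun_prop
    have h4 := h3.tendsto (f y₀).im
    simpa using h4
  filter_upwards [h2.eventually h1] with s hs hg
  obtain ⟨y, ⟨⟨hy1, hy2⟩, hyN⟩, hyf⟩ := hs
  have him : (f y).im = s := by
    rw [hyf]
    simp
  have e1 := hy1 (by rw [him]; exact hg)
  have e2 := hκ i hi y hyN (by rw [him]; exact hg)
  rw [him] at e1 e2
  rw [← e1, ← e2]
  have e3 : p i y = P y₀ y - P y₀ y₀ + p i y₀ := by rw [← hy2]; abel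
  rw [e3]
  abel

open Classical in
theorem DD_form (hL : LeafSys Ω f Bad P) (hW : IsWs Ω f Bad P Ws)
    (h : Chain Ω f Bad P n x N p) (hn : x n = x 0) {κ : ℕ → ℝ → Q}
    (hκ : IsKappa f Bad Ws n N p κ) (s₀ : ℝ) :
    ∀ᶠ s in 𝓝[≠] s₀, GoodL Bad s → DD f n x p κ s =
      ∑ i ∈ Finset.range n,
        ((if (f (x (i + 1))).im < s₀ then (1 : ℤ) else 0) • (p i (x (i + 1)) - κ i s)
          - (if (f (x i)).im < s₀ then (1 : ℤ) else 0) • (p i (x i) - κ i s)) := by
  set φ' : E2 → ℝ → Q := fun u => if h : ∃ φ, IsKap f Bad P Ws u φ then h.choose else 0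
    with hφdef
  have hφ' : ∀ u ∈ Ω, GoodL Bad (f u).im → IsKap f Bad P Ws u (φ' u) := by
    intro u hu hg
    have hc : HasChart Ω f u := hL.chart u hu fun hb => hg _ hb rfl
    have hex := exists_kap hL hW hu hc
    have e : φ' u = hex.choose := by
      rw [hφdef]
      exact dif_pos hex
    rw [e]
    exact hex.choose_spec
  have hm1 : ∀ i < n, x i ∈ Ω := fun i hi => by
    obtain ⟨z, r, hb⟩ := h.box i hi
    exact hb.sub (h.mem i hi)
  have hm2 : ∀ i < n, x (i + 1) ∈ Ω := fun i hi => by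
    obtain ⟨z, r, hb⟩ := h.box i hi
    exact hb.sub (h.mem' i hi)
  have hA : ∀ᶠ s in 𝓝[≠] s₀, ∀ i ∈ Finset.range (n + 1), (f (x i)).im ≠ s₀ →
      ((f (x i)).im < s ↔ (f (x i)).im < s₀) := by
    rw [Filter.eventually_all_finset]
    intro i _
    by_cases hne : (f (x i)).im = s₀
    · exact Eventually.of_forall fun s h => absurd hne h
    · rcases lt_or_gt_of_ne hne with hlt | hgt
      · filter_upwards [nhdsWithin_le_nhds (lt_mem_nhds hlt)] with s hs _
        exact ⟨fun _ => hlt, fun _ => hs⟩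
      · filter_upwards [nhdsWithin_le_nhds (gt_mem_nhds hgt)] with s hs _
        exact ⟨fun h => absurd (h.trans hs) (lt_irrefl _), fun h => absurd (h.trans hgt) (lt_irrefl _)⟩
  have hB : ∀ᶠ s in 𝓝[≠] s₀, ∀ i ∈ Finset.range n, (f (x i)).im = s₀ → GoodL Bad s →
      p i (x i) - κ i s = P (x i) (x i) - φ' (x i) s := by
    rw [Filter.eventually_all_finset]
    intro i hi
    have hi' := Finset.mem_range.1 hi
    by_cases hne : (f (x i)).im = s₀
    · have h1 := kappa_near h hκ hi' (h.mem i hi') (hφ' _ (hm1 i hi') (h.lev i hi'.le))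
      rw [hne] at h1
      filter_upwards [nhdsWithin_le_nhds h1] with s hs _ hg
      exact hs hg
    · exact Eventually.of_forall fun s h => absurd h hne
  have hC : ∀ᶠ s in 𝓝[≠] s₀, ∀ i ∈ Finset.range n, (f (x (i + 1))).im = s₀ → GoodL Bad s →
      p i (x (i + 1)) - κ i s = P (x (i + 1)) (x (i + 1)) - φ' (x (i + 1)) s := by
    rw [Filter.eventually_all_finset]
    intro i hi
    have hi' := Finset.mem_range.1 hi
    by_cases hne : (f (x (i + 1))).im = s₀
    · have h1 := kappa_near h hκ hi' (h.mem' i hi') (hφ' _ (hm2 i hi') (h.lev (i + 1) hi'))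
      rw [hne] at h1
      filter_upwards [nhdsWithin_le_nhds h1] with s hs _ hg
      exact hs hg
    · exact Eventually.of_forall fun s h => absurd h hne
  filter_upwards [hA, hB, hC] with s hsA hsB hsC hg
  have key : ∀ i ∈ Finset.range n,
      ((if (f (x (i + 1))).im < s then p i (x (i + 1)) - κ i s else 0)
        - (if (f (x i)).im < s then p i (x i) - κ i s else 0)) -
      ((if (f (x (i + 1))).im < s₀ then (1 : ℤ) else 0) • (p i (x (i + 1)) - κ i s)
          - (if (f (x i)).im < s₀ then (1 : ℤ) else 0) • (p i (x i) - κ i s)) =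
      ((if (f (x (i + 1))).im < s then (1 : ℤ) else 0) -
          (if (f (x (i + 1))).im < s₀ then (1 : ℤ) else 0)) •
          (P (x (i + 1)) (x (i + 1)) - φ' (x (i + 1)) s) -
      ((if (f (x i)).im < s then (1 : ℤ) else 0) -
          (if (f (x i)).im < s₀ then (1 : ℤ) else 0)) • (P (x i) (x i) - φ' (x i) s) := by
    intro i hi
    have hi' := Finset.mem_range.1 hi
    have ht : ∀ (a b : Prop) (_ : Decidable a) (_ : Decidable b) (A E : Q), (¬ (a ↔ b) → A = E) →
        (if a then A else 0) - (if b then (1 : ℤ) else 0) • A =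
          ((if a then (1 : ℤ) else 0) - (if b then (1 : ℤ) else 0)) • E := by
      intro a b _ _ A E hAE
      by_cases ha : a <;> by_cases hb : b
      · simp [ha, hb]
      · rw [hAE (fun hab => hb (hab.1 ha))]
        simp [ha, hb]
      · rw [hAE (fun hab => ha (hab.2 hb))]
        simp [ha, hb]
      · simp [ha, hb]
    have t1 := ht ((f (x (i + 1))).im < s) ((f (x (i + 1))).im < s₀) inferInstance inferInstance
      (p i (x (i + 1)) - κ i s) (P (x (i + 1)) (x (i + 1)) - φ' (x (i + 1)) s) (fun hne => by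
        refine hsC i hi ?_ hg
        by_contra hne2
        exact hne (hsA (i + 1) (Finset.mem_range.2 (by omega)) hne2))
    have t2 := ht ((f (x i)).im < s) ((f (x i)).im < s₀) inferInstance inferInstance
      (p i (x i) - κ i s) (P (x i) (x i) - φ' (x i) s) (fun hne => by
        refine hsB i hi ?_ hg
        by_contra hne2
        exact hne (hsA i (Finset.mem_range.2 (by omega)) hne2))
    rw [← t1, ← t2]
    abel
  have hsum := Finset.sum_congr rfl key
  rw [Finset.sum_sub_distrib] at hsum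
  have htel := Finset.sum_range_sub (fun i =>
    ((if (f (x i)).im < s then (1 : ℤ) else 0) -
      (if (f (x i)).im < s₀ then (1 : ℤ) else 0)) • (P (x i) (x i) - φ' (x i) s)) n
  rw [htel, hn, sub_self, sub_eq_zero] at hsum
  unfold DD
  convert hsum using 3

end Pool.Agent.MP_fe3720.NR
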