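import Pool.Agent.Work.MP_fe3720_an.NR.DiscK

/-! # DiscNu: the local solution `ν` near a point over the bad value

PROOF. Let `s₀ = im (f a)`, `k, c, v, U` from `exists_VD`, `K` from `exists_K`. Let `V` be an open neighbourhood of `a`, `V ⊆ U`, on which the statement `VD.near` holds. For `y ∈ V` with `f y ∉ Bad`, `(f y).im ≠ s₀` (then `f y ≠ f a`)
choose `ζ(y)` with `ζ(y).re < c`, `exp ζ(y) = f y - f a`, `REq (P a) (v ζ(y)) y`. As `im (exp ζ(y)) = (f y).im - s₀ ≠ 0`, `ζ(y).im` is not in `π ℤ`; let `j(y) = ⌊ζ(y).im / π⌋`. Define `ν y = - mk (K (j y))` if `s₀ < (f y).im` and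
`ν y = mk (K (j y))` otherwise (and `0` for all other `y`).
FACT. Let `w ∈ V`, `f w ∉ Bad` (`f w ≠ f a`, since `f a ∈ Bad`), and `ζ₀` with `ζ₀.re < c`, `exp ζ₀ = f w - f a`, `REq (P a) (v ζ₀) w`. Let `l` be from `exp_lift` at `z₀ = f w - f a`. For `y` near `w`, `f y ∉ Bad`, `(f y).im ≠ s₀`, put
`ζ₁ = l (f y - f a)`, near `ζ₀`; `REq (P a) (v ζ₁) y` by `REq_loc` at `(v ζ₀, w)`; so `REq (P a) (v ζ₁) (v ζ(y))` (`REq_symm`, `REq_trans`), and if `ζ₁` is in the open strip `j₁` then `K j₁ = K (j y)` eventually on good levels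
(`K_inv`), i.e. `mk (K j₁) = mk (K (j y))` in `GG` (`QuotientAddGroup.eq`, the difference is in `ECs` with `c = 0`).
(i) `(f w).im ≠ s₀`: `ζ₀ = ζ(w)` is in the open strip `j₀ = j w`, so is `ζ₁`: `ν y = ν w` for `y` near `w` (same side). `Jm` holds: take `c = ν w` if `(f w).im < s₀`, `c = ν w + lam w` if `s₀ < (f w).im`.
(ii) `(f w).im = s₀`: `exp ζ₀` is real, `ζ₀.im = π j₀`, `j₀ : ℤ`. Let `{e, o} = {j₀, j₀ - 1}` with `e` even, `o` odd. For `y` near `w` above `s₀`: `im (exp ζ₁) > 0`, `ζ₁` is in the strip `e`, `ν y = - mk (K e)`; for `y` below: `ν y = mk (K o)`. By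
`K_kap` `lam (v ζ₀) = mk (K j₀ + K (j₀ - 1)) = mk (K e) + mk (K o)`, and `lam w = lam (v ζ₀)` (`lam_conn` for `S = LF Ω f (v ζ₀)`: all its points are good, hence have charts, and lie in `Zl s₀`). So `Jm` holds with `c = mk (K o)`. -/

namespace Pool.Agent.MP_fe3720.NR

open Set Topology Filter

variable {Ω : Set E2} {f : E2 → ℂ} {Q : Type} [AddCommGroup Q] {P : E2 → E2 → Q} {Bad : Set ℂ}
  {Ws : ℝ → E2 → Q}

/-- The strip of a number whose exponential is not real. -/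
private theorem dn_strip {ζ : ℂ} (h : (Complex.exp ζ).im ≠ 0) :
    ∃ j : ℤ, Real.pi * j < ζ.im ∧ ζ.im < Real.pi * (j + 1) := by
  have hπ := Real.pi_pos
  refine ⟨⌊ζ.im / Real.pi⌋, ?_, ?_⟩
  · have h1 : ((⌊ζ.im / Real.pi⌋ : ℤ) : ℝ) ≤ ζ.im / Real.pi := Int.floor_le _
    rw [le_div_iff₀ hπ] at h1
    rcases lt_or_eq_of_le h1 with h2 | h2
    · linarith
    · exfalso
      apply h
      rw [Complex.exp_im, ← h2, Real.sin_int_mul_pi, mul_zero]
  · have h1 : ζ.im / Real.pi < ((⌊ζ.im / Real.pi⌋ : ℤ) : ℝ) + 1 := Int.lt_floor_add_one _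
    rw [div_lt_iff₀ hπ] at h1
    linarith

private theorem dn_sin {x : ℝ} {j : ℤ} (h1 : Real.pi * j < x) (h2 : x < Real.pi * (j + 1)) :
    0 < (-1 : ℝ) ^ j * Real.sin x := by
  rw [← Real.sin_sub_int_mul_pi]
  apply Real.sin_pos_of_pos_of_lt_pi
  · linarith
  · linarith

private theorem dn_sign {ζ : ℂ} {j : ℤ} (h1 : Real.pi * j < ζ.im)
    (h2 : ζ.im < Real.pi * (j + 1)) : (0 < (Complex.exp ζ).im → Even j) ∧
      ((Complex.exp ζ).im < 0 → ¬ Even j) := by
  have h := dn_sin h1 h2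
  have he := Real.exp_pos ζ.re
  rw [Complex.exp_im]
  constructor
  · intro h3
    by_contra hj
    rw [Int.not_even_iff_odd] at hj
    rw [hj.neg_one_zpow] at h
    have h4 : 0 < Real.sin ζ.im := (mul_pos_iff_of_pos_left he).1 h3
    linarith
  · intro h3 hj
    rw [hj.neg_one_zpow, one_mul] at h
    have h4 := mul_pos he h
    linarith

/-- Lifting near a point. -/
private theorem dn_lift (hL : LeafSys Ω f Bad P) {a : E2} {k : ℕ} {c : ℝ}
    {v : ℂ → E2} {U : Set E2} (hV : VD Ω f Bad P a k c v U) {w : E2} (hw : w ∈ U)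
    (hg : f w ∉ Bad) {ζ : ℂ} (hζc : ζ.re < c) (hζe : Complex.exp ζ = f w - f a)
    (hζR : REq Ω f P (P a) (v ζ) w) {O : Set ℂ} (hO : O ∈ 𝓝 ζ) :
    ∀ᶠ y in 𝓝 w, f y ∉ Bad → ∃ ζ₁ ∈ O, ζ₁.re < c ∧ Complex.exp ζ₁ = f y - f a ∧
      REq Ω f P (P a) (v ζ₁) y := by
  have hopen : IsOpen {ζ : ℂ | ζ.re < c} := isOpen_lt Complex.continuous_re continuous_const
  have hfy : Tendsto (fun y => f y - f a) (𝓝 w) (𝓝 (f w - f a)) :=
    (hL.contAt (hV.sub hw)).tendsto.sub_const _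
  obtain ⟨l, hl1, hl2, hl3⟩ := exp_lift hζe
  have hltend : Tendsto (fun y => l (f y - f a)) (𝓝 w) (𝓝 ζ) := by
    have h1 := hl1.tendsto.comp hfy
    rw [hl2] at h1
    exact h1
  have e1 : ∀ᶠ y in 𝓝 w, (l (f y - f a)).re < c := hltend.eventually (hopen.mem_nhds hζc)
  have e2 : ∀ᶠ y in 𝓝 w, Complex.exp (l (f y - f a)) = f y - f a := hfy.eventually hl3
  have e4 : ∀ᶠ y in 𝓝 w, l (f y - f a) ∈ O := hltend.eventually hO
  have e3 : ∀ᶠ y in 𝓝 w, f (v (l (f y - f a))) = f y →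
      f (v (l (f y - f a))) ∉ Bad → REq Ω f P (P a) (v (l (f y - f a))) y := by
    have h2 : Tendsto (fun y => (v (l (f y - f a)), y)) (𝓝 w) (𝓝 (v ζ, w)) :=
      ((hV.cont.continuousAt (hopen.mem_nhds hζc)).tendsto.comp hltend).prodMk_nhds tendsto_id
    have h3 : f (v ζ) ∉ Bad := by
      rw [(hV.val ζ hζc).2, hζe, add_sub_cancel]
      exact hg
    exact h2.eventually (REq_loc hL hV.isOpen hV.sub hV.prim (hV.val ζ hζc).1 hw h3 hζR)
  filter_upwards [e1, e2, e3, e4] with y g1 g2 g3 g4 hy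
  have h5 : f (v (l (f y - f a))) = f y := by
    rw [(hV.val _ g1).2, g2, add_sub_cancel]
  exact ⟨_, g4, g1, g2, g3 h5 (by rw [h5]; exact hy)⟩

/-- `ζ`, `j` describe the point `y`. -/
private def dnT (Ω : Set E2) (f : E2 → ℂ) (P : E2 → E2 → Q) (a : E2) (c : ℝ) (v : ℂ → E2)
    (y : E2) (p : ℂ × ℤ) : Prop :=
  p.1.re < c ∧ Complex.exp p.1 = f y - f a ∧ REq Ω f P (P a) (v p.1) y ∧
    Real.pi * p.2 < p.1.im ∧ p.1.im < Real.pi * (p.2 + 1)

open Classical in
/-- The function `ν`. -/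
private noncomputable def dnNu (Ω : Set E2) (f : E2 → ℂ) (Bad : Set ℂ) (P : E2 → E2 → Q) (a : E2)
    (c : ℝ) (v : ℂ → E2) (K : ℤ → ℝ → Q) (y : E2) : GG Q Bad (f a).im :=
  if h : ∃ p : ℂ × ℤ, dnT Ω f P a c v y p then
    (if (f a).im < (f y).im then - QuotientAddGroup.mk (K h.choose.2)
      else QuotientAddGroup.mk (K h.choose.2)) else 0

open Classical in
private theorem dn_nu (hL : LeafSys Ω f Bad P) (hW : IsWs Ω f Bad P Ws) {a : E2} {k : ℕ} {c : ℝ}
    {v : ℂ → E2} {U : Set E2} (hV : VD Ω f Bad P a k c v U) {K : ℤ → ℝ → Q}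
    (hK : IsK f Bad P Ws a c v K) {y : E2} (hg : f y ∉ Bad) {ζ : ℂ} {j : ℤ}
    (hT : dnT Ω f P a c v y (ζ, j)) :
    dnNu Ω f Bad P a c v K y = if (f a).im < (f y).im then
      - (QuotientAddGroup.mk (K j) : GG Q Bad (f a).im) else QuotientAddGroup.mk (K j) := by
  have h : ∃ p : ℂ × ℤ, dnT Ω f P a c v y p := ⟨_, hT⟩
  have hval : ∀ p : ℂ × ℤ, dnT Ω f P a c v y p → f (v p.1) = f y := by
    intro p hp
    rw [(hV.val _ hp.1).2, hp.2.1, add_sub_cancel]
  have key : (QuotientAddGroup.mk (K h.choose.2) : GG Q Bad (f a).im) =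
      QuotientAddGroup.mk (K j) := by
    have hc := h.choose_spec
    have g1 : f (v h.choose.1) ∉ Bad := by
      rw [hval _ hc]
      exact hg
    have g2 : f (v ζ) ∉ Bad := by
      rw [hval _ hT]
      exact hg
    have hr : REq Ω f P (P a) (v h.choose.1) (v ζ) :=
      REq_trans hL (hV.sub (hV.val _ hc.1).1) g1 hc.2.2.1
        (REq_symm hL (hV.sub (hV.val _ hT.1).1) g2 hT.2.2.1)
    have hk := K_inv hL hW hV hK hc.1 hT.1 (hc.2.1.trans hT.2.1.symm) g1 hr hc.2.2.2.1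
      hc.2.2.2.2 hT.2.2.2.1 hT.2.2.2.2
    rw [QuotientAddGroup.eq]
    refine ⟨0, ?_⟩
    filter_upwards [hk] with s hs hs'
    rw [Pi.add_apply, Pi.neg_apply, hs hs', neg_add_cancel]
  unfold dnNu
  rw [dif_pos h, key]

theorem exists_nu (hL : LeafSys Ω f Bad P) (hD : HasDiscs Ω f) (hW : IsWs Ω f Bad P Ws)
    {a : E2} (ha : a ∈ Ω) (hab : f a ∈ Bad) (hb : ∀ b' ∈ Bad, b'.im = (f a).im → b' = f a) :
    ∃ ν : E2 → GG Q Bad (f a).im, ∀ᶠ w in 𝓝 a, f w ∉ Bad →
      Jm f Bad (f a).im (lam f Bad P Ws (f a).im) ν w := by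
  classical
  obtain ⟨k, c, v, U, hV⟩ := exists_VD hL hD ha
  obtain ⟨K, hK⟩ := exists_K hL hW hV
  refine ⟨dnNu Ω f Bad P a c v K, ?_⟩
  filter_upwards [hV.near, hV.isOpen.mem_nhds hV.mem] with w hw hwU hwB
  have hwa : f w ≠ f a := fun h => hwB (h ▸ hab)
  obtain ⟨ζ, hζc, hζe, hζR⟩ := hw hwB hwa
  have hwΩ : w ∈ Ω := hV.sub hwU
  have hfw : Tendsto (fun y => (f y).im) (𝓝 w) (𝓝 (f w).im) :=
    (Complex.continuous_im.tendsto _).comp (hL.contAt hwΩ).tendsto
  have him : ∀ (ζ : ℂ) (y : E2), Complex.exp ζ = f y - f a →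
      (Complex.exp ζ).im = (f y).im - (f a).im := by
    intro ζ y h
    rw [h, Complex.sub_im]
  by_cases hs : (f w).im = (f a).im
  · -- on the level
    have hsin : Real.sin ζ.im = 0 := by
      have h1 := him ζ w hζe
      rw [hs, sub_self, Complex.exp_im] at h1
      exact (mul_eq_zero.1 h1).resolve_left (Real.exp_pos _).ne'
    obtain ⟨j, hj⟩ := Real.sin_eq_zero_iff.1 hsin
    have hj' : ζ.im = Real.pi * j := by rw [← hj, mul_comm]
    obtain ⟨e, o, heo, hadd⟩ : ∃ e o : ℤ, (∀ i : ℤ, i = j ∨ i = j - 1 →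
        (Even i → i = e) ∧ (¬ Even i → i = o)) ∧ K j + K (j - 1) = K e + K o := by
      by_cases hje : Even j
      · refine ⟨j, j - 1, ?_, rfl⟩
        rintro i (rfl | rfl)
        · exact ⟨fun _ => rfl, fun h => absurd hje h⟩
        · refine ⟨fun h => ?_, fun _ => rfl⟩
          exfalso
          obtain ⟨m, hm⟩ := h
          obtain ⟨m', hm'⟩ := hje
          omega
      · refine ⟨j - 1, j, ?_, add_comm _ _⟩
        rintro i (rfl | rfl)
        · exact ⟨fun h => absurd h hje, fun _ => rfl⟩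
        · refine ⟨fun _ => rfl, fun h => ?_⟩
          exfalso
          rw [Int.not_even_iff_odd] at h hje
          obtain ⟨m, hm⟩ := h
          obtain ⟨m', hm'⟩ := hje
          omega
    have hvg : f (v ζ) ∉ Bad := by
      rw [(hV.val ζ hζc).2, hζe, add_sub_cancel]
      exact hwB
    have hvim : (f (v ζ)).im = (f a).im := by
      rw [(hV.val ζ hζc).2, hζe, add_sub_cancel]
      exact hs
    have hlam : lam f Bad P Ws (f a).im w =
        QuotientAddGroup.mk (K e) + QuotientAddGroup.mk (K o) := by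
      have h1 := K_kap hL hW hV hK hab hζc hj' hvg
      rw [hadd] at h1
      have h2 : lam f Bad P Ws (f a).im w = lam f Bad P Ws (f a).im (v ζ) := by
        refine lam_conn hL hW (S := LF Ω f (v ζ)) (LF_pre _) ?_ ?_
          (LF_self (hV.sub (hV.val ζ hζc).1)) hζR.1
        · intro x hx
          refine ⟨(LF_val hx).1, ?_⟩
          show (f x).im = (f a).im
          rw [(LF_val hx).2]
          exact hvim
        · intro x hx
          refine hL.chart x (LF_val hx).1 ?_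
          rw [(LF_val hx).2]
          exact hvg
      rw [h2, h1]
      rfl
    refine ⟨QuotientAddGroup.mk (K o), ?_⟩
    have hO : {ζ' : ℂ | Real.pi * (j - 1) < ζ'.im ∧ ζ'.im < Real.pi * (j + 1)} ∈ 𝓝 ζ := by
      have hπ := Real.pi_pos
      refine IsOpen.mem_nhds ?_ ⟨?_, ?_⟩
      · exact (isOpen_lt continuous_const Complex.continuous_im).inter
          (isOpen_lt Complex.continuous_im continuous_const)
      · rw [hj']
        nlinarith
      · rw [hj']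
        nlinarith
    filter_upwards [dn_lift hL hV hwU hwB hζc hζe hζR hO] with y hy hyB hys
    obtain ⟨ζ₁, ⟨ho1, ho2⟩, h1, h2, h3⟩ := hy hyB
    have h4 := him ζ₁ y h2
    have h5 : (Complex.exp ζ₁).im ≠ 0 := by
      rw [h4]
      exact sub_ne_zero.2 hys
    obtain ⟨i, hi1, hi2⟩ := dn_strip h5
    have hij : i = j ∨ i = j - 1 := by
      have hπ := Real.pi_pos
      have a1 : (i : ℝ) < j + 1 := lt_of_mul_lt_mul_left (hi1.trans ho2) hπ.le
      have a2 : (j : ℝ) - 1 < i + 1 := lt_of_mul_lt_mul_left (ho1.trans hi2) hπ.le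
      have a3 : i < j + 1 := by exact_mod_cast a1
      have a4 : j - 1 < i + 1 := by exact_mod_cast a2
      omega
    have hsign := dn_sign hi1 hi2
    rw [dn_nu hL hW hV hK hyB (ζ := ζ₁) (j := i) ⟨h1, h2, h3, hi1, hi2⟩, hlam]
    rcases lt_or_gt_of_ne hys with hlt | hgt
    · have h6 : i = o := (heo i hij).2 (hsign.2 (by rw [h4]; linarith))
      rw [if_neg (not_lt.2 hlt.le), if_neg (not_lt.2 hlt.le), sub_zero, h6]
    · have h6 : i = e := (heo i hij).1 (hsign.1 (by rw [h4]; linarith))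
      rw [if_pos hgt, if_pos hgt, h6]
      abel
  · -- off the level
    have h5 : (Complex.exp ζ).im ≠ 0 := by
      rw [him ζ w hζe]
      exact sub_ne_zero.2 hs
    obtain ⟨j, hj1, hj2⟩ := dn_strip h5
    have hO : {ζ' : ℂ | Real.pi * j < ζ'.im ∧ ζ'.im < Real.pi * (j + 1)} ∈ 𝓝 ζ :=
      IsOpen.mem_nhds ((isOpen_lt continuous_const Complex.continuous_im).inter
        (isOpen_lt Complex.continuous_im continuous_const)) ⟨hj1, hj2⟩
    have hlift := dn_lift hL hV hwU hwB hζc hζe hζR hO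
    rcases lt_or_gt_of_ne hs with hlt | hgt
    · refine ⟨QuotientAddGroup.mk (K j), ?_⟩
      filter_upwards [hlift, hfw.eventually (gt_mem_nhds hlt)] with y hy hy2 hyB hys
      obtain ⟨ζ₁, ⟨ho1, ho2⟩, h1, h2, h3⟩ := hy hyB
      rw [dn_nu hL hW hV hK hyB (ζ := ζ₁) (j := j) ⟨h1, h2, h3, ho1, ho2⟩,
        if_neg (not_lt.2 hy2.le), if_neg (not_lt.2 hy2.le), sub_zero]
    · refine ⟨- QuotientAddGroup.mk (K j) + lam f Bad P Ws (f a).im w, ?_⟩
      filter_upwards [hlift, hfw.eventually (lt_mem_nhds hgt)] with y hy hy2 hyB hys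
      obtain ⟨ζ₁, ⟨ho1, ho2⟩, h1, h2, h3⟩ := hy hyB
      rw [dn_nu hL hW hV hK hyB (ζ := ζ₁) (j := j) ⟨h1, h2, h3, ho1, ho2⟩,
        if_pos hy2, if_pos hy2, add_sub_cancel_right]

end Pool.Agent.MP_fe3720.NR
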