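import Pool.Agent.Work.MP_fe3720_an.NR.Defs2

/-! # FG: finitely generated groups without odd torsion; the group `GG` has no odd torsion

PROOFS. `divFree2_of_fg`: let `g k = 2 • g (k + 1)`. The subgroups `⟨g k⟩ = zmultiples (g k)` increase (`g k ∈ ⟨g (k+1)⟩`). `G` is a Noetherian `ℤ`-module
(`isNoetherian_of_fg`/`Module.Finite`), so for some `k`: `⟨g (k+1)⟩ = ⟨g k⟩` (`monotone_stabilizes_iff_noetherian`), `g (k+1) = c • g k = (2 c) • g (k+1)`, so `(2c - 1) • g (k+1) = 0` with
`2c - 1` odd (use `|2c-1|` as natural number), hence `g (k+1) = 0` by `NoOdd`, and `g 0 = 2^(k+1) • g (k+1) = 0`.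

`noOdd_GG`: let `n` be odd, `n • [φ] = 0`: `n • φ s = C` for the good `s ≠ s₀` near `s₀` (`s` in a set `T`). For `s, s' ∈ T`: `n • (φ s - φ s') = 0`, so
`φ s = φ s'` by `NoOdd Q`: `φ` is constant on `T` (if `T` is empty, i.e. no good level, any constant works). For the eventual statement: take the open set `V` on which the condition
holds; if there is a good `s ∈ V`, `s ≠ s₀`, let `c = φ s`.

`noOdd_sub`: subgroups inherit `NoOdd`. -/

namespace Pool.Agent.MP_fe3720.NR

open Set Topology Filter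

theorem divFree2_of_fg (G : Type) [AddCommGroup G] (hfg : AddGroup.FG G) (hG : NoOdd G) :
    DivFree2 G := by
  intro g hg
  have : Module.Finite ℤ G := Module.Finite.iff_addGroup_fg.2 hfg
  have : IsNoetherian ℤ G := isNoetherian_of_isNoetherianRing_of_finite ℤ G
  have hstep : ∀ k, Submodule.span ℤ {g k} ≤ Submodule.span ℤ {g (k + 1)} := by
    intro k
    rw [Submodule.span_le, Set.singleton_subset_iff, SetLike.mem_coe, hg k]
    exact Submodule.smul_of_tower_mem _ 2 (Submodule.mem_span_singleton_self _)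
  have hmono : Monotone fun k => Submodule.span ℤ {g k} := monotone_nat_of_le_succ hstep
  obtain ⟨k, hk⟩ := monotone_stabilizes_iff_noetherian.2 inferInstance
    (⟨_, hmono⟩ : ℕ →o Submodule ℤ G)
  have h1 : Submodule.span ℤ {g k} = Submodule.span ℤ {g (k + 1)} := hk (k + 1) (Nat.le_succ k)
  have h2 : g (k + 1) ∈ Submodule.span ℤ {g k} := by
    rw [h1]
    exact Submodule.mem_span_singleton_self _
  obtain ⟨c, hc⟩ := Submodule.mem_span_singleton.1 h2
  have h3 : (2 * c - 1) • g (k + 1) = 0 := by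
    have h4 : g k = (2 : ℤ) • g (k + 1) := by
      rw [hg k]
      simp [two_smul]
    rw [h4, smul_smul] at hc
    rw [sub_smul, one_smul, mul_comm, hc, sub_self]
  have h5 : (2 * c - 1).natAbs • g (k + 1) = 0 := by
    rcases Int.natAbs_eq (2 * c - 1) with h | h
    · rw [h, natCast_zsmul] at h3
      exact h3
    · rw [h, neg_smul, natCast_zsmul, neg_eq_zero] at h3
      exact h3
  have h6 : g (k + 1) = 0 := by
    refine hG _ _ ?_ h5
    rw [Int.natAbs_odd]
    exact ⟨c - 1, by ring⟩
  have h7 : ∀ m, g m = 0 → g 0 = 0 := by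
    intro m
    induction m with
    | zero => exact fun h => h
    | succ m ih =>
      intro h
      apply ih
      rw [hg m, h, smul_zero]
  exact h7 _ h6

theorem noOdd_GG (Q : Type) [AddCommGroup Q] (hQ : NoOdd Q) (Bad : Set ℂ) (s₀ : ℝ) :
    NoOdd (GG Q Bad s₀) := by
  intro n x hn hx
  obtain ⟨φ, rfl⟩ := QuotientAddGroup.mk_surjective x
  rw [← QuotientAddGroup.mk_nsmul, QuotientAddGroup.eq_zero_iff] at hx
  rw [QuotientAddGroup.eq_zero_iff]
  obtain ⟨C, hC⟩ := hx
  by_cases hT : ∃ t, GoodL Bad t ∧ n • φ t = C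
  · obtain ⟨t, ht, htC⟩ := hT
    refine ⟨φ t, ?_⟩
    filter_upwards [hC] with s hs h
    have h1 : n • φ s = C := hs h
    have h2 : n • (φ s - φ t) = 0 := by
      rw [smul_sub, h1, htC, sub_self]
    exact sub_eq_zero.1 (hQ n _ hn h2)
  · refine ⟨0, ?_⟩
    filter_upwards [hC] with s hs h
    exact absurd ⟨s, h, hs h⟩ hT

theorem noOdd_sub {G : Type} [AddCommGroup G] (hG : NoOdd G) (H : AddSubgroup G) : NoOdd H := by
  intro n g hn hg
  apply Subtype.ext
  exact hG n g.1 hn (by
    have := congrArg Subtype.val hg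
    exact this)

end Pool.Agent.MP_fe3720.NR
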