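import Pool.Agent.Work.MP_fe3720_an.NR.TorA

/-! # TorB: from local to global functions with prescribed jumps

PROOF. For every `x ∈ Ω` choose a ball `U x ⊆ Ω` around `x` and `ν_x` with `Jm μ ν_x w` for all good `w ∈ U x` (`hloc`); subtract the value at an off point `y₀ ∈ U x` (`off_near`, `Jm.congr`): then `ν_x y ∈ G₀` for all off `y ∈ U x` (`Jm.mem`).
For `x ∈ Ω` and `y ∈ U x` the function `ν_x - ν_y` is constant on the off points near `y`: take a ball `V ⊆ U x ∩ U y` around `y` and `Jm.sub_const`; let `g x y ∈ G₀` be this constant (unique, as there are off points near `y`; it is in `G₀` since both values are); `g x y = 0` if `y ∉ U x`.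
`P' x y = g x y` is a local system on `Ω` with values in `G₀`: let `y ∈ U x`. For `z` near `y` (`z ∈ U x ∩ U y`): near `z` on the off points `ν_x - ν_z = g x z`, `ν_y - ν_z = g y z`, and `ν_x - ν_y = g x y` near `y`, hence also near `z` (for `z` near `y`): so `g x z - g y z = g x y = g x y - g y y` (`g y y = 0`).
By `hH` there is `N : E2 → G₀` with `N y - N x = g x y - g x x = g x y` for `y` near `x` (`𝓝[Ω] x = 𝓝 x`). Put `ν y = ν_y y + N y`. For off `y` near `x`: `ν_x y - ν_y y = g x y` (`y` is an off point near `y`), so `ν y = ν_x y - g x y + N y = ν_x y + N x`.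
By `Jm.congr` with `d = N x` at `w = x` good: `Jm μ ν x`. -/

namespace Pool.Agent.MP_fe3720.NR

open Set Topology Filter

variable {Ω : Set E2} {f : E2 → ℂ} {Q : Type} [AddCommGroup Q] {P : E2 → E2 → Q} {Bad : Set ℂ}
  {G : Type} [AddCommGroup G] {s₀ : ℝ} {μ : E2 → G}

private theorem torB_loc (hL : LeafSys Ω f Bad P) {G₀ : AddSubgroup G} (hμ : ∀ w, μ w ∈ G₀)
    (hloc : ∀ x ∈ Ω, ∃ ν : E2 → G, ∀ᶠ w in 𝓝 x, f w ∉ Bad → Jm f Bad s₀ μ ν w) (x : E2)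
    (hx : x ∈ Ω) : ∃ (ρ : ℝ) (ν : E2 → G), 0 < ρ ∧ Metric.ball x ρ ⊆ Ω ∧
      (∀ w ∈ Metric.ball x ρ, f w ∉ Bad → Jm f Bad s₀ μ ν w) ∧
      ∀ y ∈ Metric.ball x ρ, f y ∉ Bad → (f y).im ≠ s₀ → ν y ∈ G₀ := by
  obtain ⟨ν0, h0⟩ := hloc x hx
  obtain ⟨ρ, hρ, hball⟩ := Metric.eventually_nhds_iff_ball.1
    (h0.and (hL.isOpen.mem_nhds hx))
  have hsub : Metric.ball x ρ ⊆ Ω := fun w hw => (hball w hw).2
  obtain ⟨y₀, ⟨hy1, -⟩, hy2, hy3⟩ := off_near hL s₀ hx (Metric.ball_mem_nhds x hρ)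
  refine ⟨ρ, fun y => ν0 y + -ν0 y₀, hρ, hsub, fun w hw hg => ?_, fun y hy hg hs => ?_⟩
  · exact Jm.congr ((hball w hw).1 hg) (d := -ν0 y₀) (Eventually.of_forall fun _ _ _ => rfl)
  · show ν0 y + -ν0 y₀ ∈ G₀
    rw [← sub_eq_add_neg]
    exact Jm.mem hL Metric.isOpen_ball (convex_ball x ρ).isPreconnected hsub
      (fun w hw => (hball w hw).1) hμ hy hg hs hy1 hy2 hy3

theorem exists_tor (hL : LeafSys Ω f Bad P) {G₀ : AddSubgroup G} (hμ : ∀ w, μ w ∈ G₀)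
    (hloc : ∀ x ∈ Ω, ∃ ν : E2 → G, ∀ᶠ w in 𝓝 x, f w ∉ Bad → Jm f Bad s₀ μ ν w)
    (hH : H1triv Ω G₀) :
    ∃ ν : E2 → G, ∀ w ∈ Ω, f w ∉ Bad → Jm f Bad s₀ μ ν w := by
  classical
  choose! ρ ν hρ hsub hJ hG using torB_loc hL hμ hloc
  -- uniqueness of constants
  have huniq : ∀ y ∈ Ω, ∀ (F : E2 → G) (d d' : G),
      (∀ᶠ z in 𝓝 y, f z ∉ Bad → (f z).im ≠ s₀ → F z = d) →
      (∀ᶠ z in 𝓝 y, f z ∉ Bad → (f z).im ≠ s₀ → F z = d') → d = d' := by
    intro y hy F d d' h1 h2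
    obtain ⟨z, ⟨⟨hz1, hz2⟩, -⟩, hz3, hz4⟩ := off_near hL s₀ hy (h1.and h2)
    rw [← hz1 hz3 hz4, ← hz2 hz3 hz4]
  -- the constants
  have hex : ∀ x ∈ Ω, ∀ y ∈ Metric.ball x (ρ x), ∃ d : G₀, ∀ᶠ z in 𝓝 y, f z ∉ Bad →
      (f z).im ≠ s₀ → ν x z - ν y z = (d : G) := by
    intro x hx y hy
    have hyΩ : y ∈ Ω := hsub x hx hy
    have h1 : Metric.ball x (ρ x) ∩ Metric.ball y (ρ y) ∈ 𝓝 y :=
      Filter.inter_mem (Metric.isOpen_ball.mem_nhds hy) (Metric.ball_mem_nhds y (hρ y hyΩ))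
    obtain ⟨δ, hδ, hδs⟩ := Metric.mem_nhds_iff.1 h1
    have hV : Metric.ball y δ ⊆ Ω := fun z hz => hsub x hx (hδs hz).1
    obtain ⟨d, hd⟩ := Jm.sub_const hL Metric.isOpen_ball (convex_ball y δ).isPreconnected hV
      (fun w hw => hJ x hx w (hδs hw).1) (fun w hw => hJ y hyΩ w (hδs hw).2)
    obtain ⟨z, ⟨hz1, -⟩, hz2, hz3⟩ := off_near hL s₀ hyΩ (Metric.ball_mem_nhds y hδ)
    have hdG : d ∈ G₀ := by
      rw [← hd z hz1 hz2 hz3]
      exact G₀.sub_mem (hG x hx z (hδs hz1).1 hz2 hz3) (hG y hyΩ z (hδs hz1).2 hz2 hz3)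
    refine ⟨⟨d, hdG⟩, ?_⟩
    filter_upwards [Metric.ball_mem_nhds y hδ] with z hz hz2 hz3
    exact hd z hz hz2 hz3
  let g : E2 → E2 → G₀ := fun x y =>
    if h : ∃ d : G₀, ∀ᶠ z in 𝓝 y, f z ∉ Bad → (f z).im ≠ s₀ → ν x z - ν y z = (d : G) then
      h.choose else 0
  have hg : ∀ x ∈ Ω, ∀ y ∈ Metric.ball x (ρ x), ∀ᶠ z in 𝓝 y, f z ∉ Bad →
      (f z).im ≠ s₀ → ν x z - ν y z = (g x y : G) := by
    intro x hx y hy
    have h := hex x hx y hy
    have h1 : g x y = h.choose := dif_pos h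
    rw [h1]
    exact h.choose_spec
  have hgg : ∀ y ∈ Ω, g y y = 0 := by
    intro y hy
    have h1 := hg y hy y (Metric.mem_ball_self (hρ y hy))
    have h2 := huniq y hy (fun z => ν y z - ν y z) (g y y : G) 0 h1
      (Eventually.of_forall fun z _ _ => sub_self _)
    exact_mod_cast h2
  have hLS : IsLS Ω g := by
    intro x hx
    rw [hL.isOpen.nhdsWithin_eq hx]
    filter_upwards [Metric.ball_mem_nhds x (hρ x hx)] with y hy
    have hyΩ : y ∈ Ω := hsub x hx hy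
    rw [hL.isOpen.nhdsWithin_eq hyΩ]
    filter_upwards [(hg x hx y hy).eventually_nhds, Metric.isOpen_ball.mem_nhds hy,
      Metric.ball_mem_nhds y (hρ y hyΩ)] with z hz1 hz2 hz3
    have hzΩ : z ∈ Ω := hsub x hx hz2
    have h1 := hg x hx z hz2
    have h2 := hg y hyΩ z hz3
    have h3 : (g x z : G) - (g y z : G) = g x y := by
      refine huniq z hzΩ (fun z' => ν x z' - ν y z') _ _ ?_ hz1
      filter_upwards [h1, h2] with z' a1 a2 b1 b2
      rw [← a1 b1 b2, ← a2 b1 b2]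
      abel
    rw [hgg y hyΩ, sub_zero]
    exact_mod_cast h3
  obtain ⟨N, hN⟩ := hH g hLS
  refine ⟨fun y => ν y y + (N y : G), fun w hw hgw => ?_⟩
  refine Jm.congr (hJ w hw w (Metric.mem_ball_self (hρ w hw)) hgw) (d := (N w : G)) ?_
  have h1 := hN w hw
  rw [hL.isOpen.nhdsWithin_eq hw] at h1
  filter_upwards [h1, Metric.ball_mem_nhds w (hρ w hw)] with y hy1 hy2 hy3 hy4
  have h2 := (hg w hw y hy2).self_of_nhds hy3 hy4
  rw [hgg w hw, sub_zero] at hy1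
  have h3 : (N y : G) - (N w : G) = (g w y : G) := by exact_mod_cast hy1
  have h4 : ν y y = ν w y - (g w y : G) := by
    rw [← h2]
    abel
  rw [h4, ← h3]
  abel

end Pool.Agent.MP_fe3720.NR
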