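import Pool.Agent.Work.MP_fe3720_an.NR.YSet
import Pool.Agent.Work.MP_fe3720_an.NR.DiscNu
import Pool.Agent.Work.MP_fe3720_an.NR.TorB
import Pool.Agent.Work.MP_fe3720_an.NR.BoxNu
import Pool.Agent.Work.MP_fe3720_an.NR.FG

/-! # Star: the crossing relation

`th s₀ y = 1` if `im (f y) < s₀`, else `0`.

PROOF of `exists_mu`. `s₀ = b.im`. Let `Y` be from `exists_Y` (for the finite set `C`), `μ w = lam w` if `w ∈ Y`, `w ∈ Zl s₀`, `f w ≠ b`, and `μ w = 0` otherwise. `G₀ = AddSubgroup.closure` of the finite set `lam '' {..} ∪ {0}`: finitely generated; `μ w ∈ G₀` for all `w`. `G₀` has no odd torsion (`noOdd_GG`, `noOdd_sub`), so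
`DivFree2 G₀` (`divFree2_of_fg`), and `H1triv Ω G₀`. `hloc` of `exists_tor`:
 (1) `(f x).im ≠ s₀`: `ν = 0`; for `w` near `x`: off level, `μ w = 0`: `Jm` with `c = 0`.
 (2) `(f x).im = s₀`, `f x ≠ b` (so `f x ∉ Bad`, chart): `μ w = μ x` for `w ∈ Zl s₀` near `x` (`Y` clopen, `lam_loc`). `ν y = - μ x` if `s₀ < im (f y)`, else `0`. For `w` near `x`: if `w` is in `Zl s₀`: `c = 0`, `μ w = μ x`. If not: `ν` is constant near `w` and `μ w = 0`.
 (3) `f x = b`, `x ∈ Y`: `ν` from `exists_nu`; for good `w` near `x` we have `Jm lam ν w`. If `w ∈ Zl s₀` (`f w ≠ b` since `w` is good and `b` bad), then `w ∈ Y` (clopen at `x`) and `μ w = lam w`: same statement. If `w ∉ Zl s₀`: near `w` one side only; `Jm` for `μ w = 0` follows by changing `c` (to `c - lam w` if above).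
 (4) `f x = b`, `x ∉ Y`: for `w ∈ Zl s₀` near `x`: `w ∉ Y`, `μ w = 0`: `ν = 0`, `c = 0`.
Result: `ν` with `Jm μ ν w` at all good `w`, and `μ z = lam z` for `z ∈ C`.

PROOF of `star`. `C = {z i | i < n, th (x i) ≠ th (x (i+1))}`. POINTS: for each `i ≤ n` choose `x' i` good (`∉ Bad`), `im (f (x' i)) ≠ s₀`, with `im (f (x' i)) < s₀ ↔ im (f (x i)) < s₀`, such that `x' i ∈ N i`, `x' (i+1) ∈ N i` for `i < n` and `x' n = x' 0`: all boxes containing a given point `x i` (at most `N (i-1)`, `N i`; for `x 0 = x n`: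
`N (n-1)`, `N 0`) are open, `x i` has the box `N i` or `N (n-1)`; `Box.good_below` if `im (f (x i)) < s₀` (`≤`), `Box.good_above` otherwise (`s₀ ≤ im (f (x i))`) give a point in the intersection. (If `n = 0` the sum is empty.) E.g. define `x'` as a function of the POINT: for every `u ∈ Ω` let `O u = ⋂ {N i | i < n, u ∈ N i}` (finite intersection of open sets) and choose `g u ∈ O u`
for `u ∈ {x 0, .., x n}`; `x' i = g (x i)`.
For `i < n`: `ν (x' (i+1)) - ν (x' i) = (th (x (i+1)) - th (x i)) • μ (z i)`: equal sides: `box_above` or `box_below` (0); `i` below, `i+1` above (`th = 1, 0`): `box_cross` `= - μ (z i)`; the other case: `+ μ (z i)`. Sum over `i < n`: `Finset.sum_range_sub`, total `ν (x' n) - ν (x' 0) = 0`. And `μ (z i) = lam (z i)` for crossing `i`. -/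

namespace Pool.Agent.MP_fe3720.NR

open Set Topology Filter

variable {Ω : Set E2} {f : E2 → ℂ} {Q : Type} [AddCommGroup Q] {P : E2 → E2 → Q} {Bad : Set ℂ}
  {Ws : ℝ → E2 → Q} {b : ℂ}

/-- `1` below the level `s₀`, `0` on it and above -/
noncomputable def th (f : E2 → ℂ) (s₀ : ℝ) (y : E2) : ℤ :=
  open Classical in if (f y).im < s₀ then 1 else 0

private theorem jm_const {G : Type} [AddCommGroup G] {s₀ : ℝ} {μ ν : E2 → G} {w : E2}
    (hμ : μ w = 0) {c : G}
    (h : ∀ᶠ y in 𝓝 w, f y ∉ Bad → (f y).im ≠ s₀ → ν y = c) : Jm f Bad s₀ μ ν w := by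
  refine ⟨c, ?_⟩
  filter_upwards [h] with y hy hB hs
  rw [hμ, ite_self, sub_zero]
  exact hy hB hs

private theorem jm_off (hL : LeafSys Ω f Bad P) {G : Type} [AddCommGroup G] {s₀ : ℝ}
    {μ μ' ν : E2 → G} {w : E2} (hw : w ∈ Ω) (hs : (f w).im ≠ s₀) (hμ : μ w = 0)
    (h : Jm f Bad s₀ μ' ν w) : Jm f Bad s₀ μ ν w := by
  obtain ⟨c, hc⟩ := h
  have hcont : ContinuousAt (fun y => (f y).im) w :=
    Complex.continuous_im.continuousAt.comp (hL.contAt hw)
  rcases lt_or_gt_of_ne hs with h1 | h1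
  · refine jm_const hμ (c := c) ?_
    filter_upwards [hc, hcont.eventually (gt_mem_nhds h1)] with y hy hy1 hB hs'
    rw [hy hB hs', if_neg (not_lt.2 hy1.le), sub_zero]
  · refine jm_const hμ (c := c - μ' w) ?_
    filter_upwards [hc, hcont.eventually (lt_mem_nhds h1)] with y hy hy1 hB hs'
    rw [hy hB hs', if_pos hy1]

theorem exists_mu (hL : LeafSys Ω f Bad P) (hD : HasDiscs Ω f) (hW : IsWs Ω f Bad P Ws)
    (hQ : NoOdd Q) (hH : ∀ (G : Type) [AddCommGroup G], DivFree2 G → H1triv Ω G)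
    (hbB : b ∈ Bad) (hb : ∀ b' ∈ Bad, b'.im = b.im → b' = b) (C : Set E2) (hC : C.Finite)
    (hCΩ : ∀ z ∈ C, z ∈ Ω ∧ (f z).im = b.im ∧ f z ≠ b) :
    ∃ μ ν : E2 → GG Q Bad b.im, (∀ w ∈ Ω, f w ∉ Bad → Jm f Bad b.im μ ν w) ∧
      ∀ z ∈ C, μ z = lam f Bad P Ws b.im z := by
  classical
  obtain ⟨Y, hCY, hYc, hYf⟩ := exists_Y hL hD hW hbB hb C hC hCΩ
  set μ : E2 → GG Q Bad b.im := fun w =>
    if w ∈ Y ∧ w ∈ Zl Ω f b.im ∧ f w ≠ b then lam f Bad P Ws b.im w else 0 with hμdef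
  set T : Set (GG Q Bad b.im) :=
    lam f Bad P Ws b.im '' {x | x ∈ Y ∧ x ∈ Zl Ω f b.im ∧ f x ≠ b} with hT
  set G₀ : AddSubgroup (GG Q Bad b.im) := AddSubgroup.closure T with hG₀
  have hμmem : ∀ w, μ w ∈ G₀ := by
    intro w
    simp only [hμdef]
    split_ifs with h
    · exact AddSubgroup.subset_closure ⟨w, h, rfl⟩
    · exact G₀.zero_mem
  have hfin : Finite T := hYf
  have hfg : AddGroup.FG G₀ := AddGroup.closure_finite_fg T
  have hH1 : H1triv Ω G₀ := hH G₀ (divFree2_of_fg G₀ hfg (noOdd_sub (noOdd_GG Q hQ Bad b.im) G₀))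
  have hμoff : ∀ w, (f w).im ≠ b.im → μ w = 0 := by
    intro w hw
    simp only [hμdef]
    rw [if_neg]
    exact fun h => hw h.2.1.2
  have hμY : ∀ w, w ∉ Y → μ w = 0 := by
    intro w hw
    simp only [hμdef]
    rw [if_neg]
    exact fun h => hw h.1
  have hloc : ∀ x ∈ Ω, ∃ ν : E2 → GG Q Bad b.im, ∀ᶠ w in 𝓝 x, f w ∉ Bad →
      Jm f Bad b.im μ ν w := by
    intro x hx
    have hcont : ContinuousAt f x := hL.contAt hx
    have hcim : ContinuousAt (fun y => (f y).im) x :=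
      Complex.continuous_im.continuousAt.comp hcont
    have hΩ : Ω ∈ 𝓝 x := hL.isOpen.mem_nhds hx
    by_cases h1 : (f x).im = b.im
    · by_cases h2 : f x = b
      · by_cases h3 : x ∈ Y
        · -- case 3
          obtain ⟨ν, hν⟩ : ∃ ν : E2 → GG Q Bad b.im, ∀ᶠ w in 𝓝 x, f w ∉ Bad →
              Jm f Bad b.im (lam f Bad P Ws b.im) ν w := by
            have h4 : f x ∈ Bad := by rw [h2]; exact hbB
            have h5 : ∀ b' ∈ Bad, b'.im = (f x).im → b' = f x := by rw [h2]; exact hb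
            have h6 := exists_nu hL hD hW hx h4 h5
            rwa [h2] at h6
          refine ⟨ν, ?_⟩
          filter_upwards [hν, hYc x ⟨hx, h1⟩, hΩ] with w hw hwY hwΩ hwB
          by_cases h7 : (f w).im = b.im
          · have h8 : μ w = lam f Bad P Ws b.im w := by
              simp only [hμdef]
              rw [if_pos]
              exact ⟨(hwY ⟨hwΩ, h7⟩).2 h3, ⟨hwΩ, h7⟩, fun h => hwB (by rw [h]; exact hbB)⟩
            obtain ⟨c, hc⟩ := hw hwB
            refine ⟨c, ?_⟩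
            rw [h8]
            exact hc
          · exact jm_off hL hwΩ h7 (hμoff w h7) (hw hwB)
        · -- case 4
          refine ⟨fun _ => 0, ?_⟩
          filter_upwards [hYc x ⟨hx, h1⟩, hΩ] with w hwY hwΩ hwB
          refine jm_const ?_ (c := 0) (Eventually.of_forall fun y _ _ => rfl)
          by_cases h7 : (f w).im = b.im
          · exact hμY w fun h => h3 ((hwY ⟨hwΩ, h7⟩).1 h)
          · exact hμoff w h7
      · -- case 2
        have h4 : f x ∉ Bad := fun h => h2 (hb _ h h1)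
        refine ⟨fun y => if b.im < (f y).im then - μ x else 0, ?_⟩
        filter_upwards [hYc x ⟨hx, h1⟩, hΩ, lam_loc hL hW hx (hL.chart x hx h4) h1,
          hcont.eventually (isOpen_ne.mem_nhds h2)] with w hwY hwΩ hwl hwb hwB
        by_cases h7 : (f w).im = b.im
        · have h8 : μ w = μ x := by
            by_cases h9 : x ∈ Y
            · simp only [hμdef]
              rw [if_pos ⟨(hwY ⟨hwΩ, h7⟩).2 h9, ⟨hwΩ, h7⟩, hwb⟩, if_pos ⟨h9, ⟨hx, h1⟩, h2⟩]
              exact hwl h7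
            · rw [hμY x h9, hμY w fun h => h9 ((hwY ⟨hwΩ, h7⟩).1 h)]
          refine ⟨0, Eventually.of_forall fun y _ _ => ?_⟩
          rw [h8]
          beta_reduce
          by_cases h10 : b.im < (f y).im
          · rw [if_pos h10, if_pos h10, zero_sub]
          · rw [if_neg h10, if_neg h10, sub_zero]
        · have hcw : ContinuousAt (fun y => (f y).im) w :=
            Complex.continuous_im.continuousAt.comp (hL.contAt hwΩ)
          rcases lt_or_gt_of_ne h7 with h8 | h8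
          · refine jm_const (hμoff w h7) (c := 0) ?_
            filter_upwards [hcw.eventually (gt_mem_nhds h8)] with y hy _ _
            rw [if_neg (not_lt.2 hy.le)]
          · refine jm_const (hμoff w h7) (c := - μ x) ?_
            filter_upwards [hcw.eventually (lt_mem_nhds h8)] with y hy _ _
            rw [if_pos hy]
    · -- case 1
      refine ⟨fun _ => 0, ?_⟩
      filter_upwards [hcim.eventually (isOpen_ne.mem_nhds h1)] with w hw _
      exact jm_const (hμoff w hw) (c := 0) (Eventually.of_forall fun y _ _ => rfl)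
  obtain ⟨ν, hν⟩ := exists_tor hL hμmem hloc hH1
  refine ⟨μ, ν, hν, fun z hz => ?_⟩
  simp only [hμdef]
  rw [if_pos]
  exact ⟨hCY hz, ⟨(hCΩ z hz).1, (hCΩ z hz).2.1⟩, (hCΩ z hz).2.2⟩

theorem star (hL : LeafSys Ω f Bad P) (hD : HasDiscs Ω f) (hW : IsWs Ω f Bad P Ws)
    (hQ : NoOdd Q) (hH : ∀ (G : Type) [AddCommGroup G], DivFree2 G → H1triv Ω G)
    (hbB : b ∈ Bad) (hb : ∀ b' ∈ Bad, b'.im = b.im → b' = b) {n : ℕ} {x : ℕ → E2}
    {N : ℕ → Set E2} (hN : ∀ i < n, ∃ z r, Box Ω f (N i) z r) (hx : ∀ i < n, x i ∈ N i)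
    (hx' : ∀ i < n, x (i + 1) ∈ N i) (hn : x n = x 0) (z : ℕ → E2)
    (hz : ∀ i < n, th f b.im (x i) ≠ th f b.im (x (i + 1)) →
      z i ∈ N i ∧ (f (z i)).im = b.im ∧ f (z i) ≠ b) :
    ∑ i ∈ Finset.range n, (th f b.im (x (i + 1)) - th f b.im (x i)) •
      lam f Bad P Ws b.im (z i) = 0 := by
  classical
  set C : Set E2 := z '' {i | i < n ∧ th f b.im (x i) ≠ th f b.im (x (i + 1))} with hCdef
  have hCfin : C.Finite := ((Set.finite_lt_nat n).subset fun i hi => hi.1).image z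
  have hNo : ∀ i < n, IsOpen (N i) := by
    intro i hi
    obtain ⟨z₁, r, hb'⟩ := hN i hi
    exact hb'.isOpen
  have hNΩ : ∀ i < n, N i ⊆ Ω := by
    intro i hi
    obtain ⟨z₁, r, hb'⟩ := hN i hi
    exact hb'.sub
  have hCΩ : ∀ w ∈ C, w ∈ Ω ∧ (f w).im = b.im ∧ f w ≠ b := by
    rintro w ⟨i, ⟨hi, hi'⟩, rfl⟩
    obtain ⟨h1, h2, h3⟩ := hz i hi hi'
    exact ⟨hNΩ i hi h1, h2, h3⟩
  obtain ⟨μ, ν, hν, hμ⟩ := exists_mu hL hD hW hQ hH hbB hb C hCfin hCΩ
  -- the moved points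
  have hmove : ∀ u : E2, (∃ i < n, u ∈ N i) → ∃ y : E2, (∀ i < n, u ∈ N i → y ∈ N i) ∧
      f y ∉ Bad ∧ (f y).im ≠ b.im ∧ ((f y).im < b.im ↔ (f u).im < b.im) := by
    rintro u ⟨i, hi, hu⟩
    obtain ⟨z₁, r, hb'⟩ := hN i hi
    have hO : ∀ᶠ y in 𝓝 u, ∀ i < n, u ∈ N i → y ∈ N i := by
      have h1 : ∀ᶠ y in 𝓝 u, ∀ i ∈ Finset.range n, u ∈ N i → y ∈ N i := by
        rw [Filter.eventually_all_finset]
        intro j hj
        by_cases h2 : u ∈ N j
        · filter_upwards [(hNo j (Finset.mem_range.1 hj)).mem_nhds h2] with y hy _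
          exact hy
        · exact Eventually.of_forall fun y h => absurd h h2
      exact h1.mono fun y hy i hi => hy i (Finset.mem_range.2 hi)
    by_cases h1 : (f u).im < b.im
    · obtain ⟨y, hy, hg, hlt⟩ := hb'.good_below hL.countable hu hO (s₀ := b.im) h1.le
      exact ⟨y, hy.1, fun h => hg _ h rfl, hlt.ne, ⟨fun _ => h1, fun _ => hlt⟩⟩
    · obtain ⟨y, hy, hg, hlt⟩ := hb'.good_above hL.countable hu hO (s₀ := b.im) (not_lt.1 h1)
      exact ⟨y, hy.1, fun h => hg _ h rfl, hlt.ne', ⟨fun h => absurd h hlt.not_gt,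
        fun h => absurd h h1⟩⟩
  choose! g hg using hmove
  have hth1 : ∀ y, (f y).im < b.im → th f b.im y = 1 := fun y hy => by
    unfold th
    rw [if_pos hy]
  have hth0 : ∀ y, ¬ (f y).im < b.im → th f b.im y = 0 := fun y hy => by
    unfold th
    rw [if_neg hy]
  have hstep : ∀ i ∈ Finset.range n, (th f b.im (x (i + 1)) - th f b.im (x i)) •
      lam f Bad P Ws b.im (z i) = ν (g (x (i + 1))) - ν (g (x i)) := by
    intro i hi
    have hi' := Finset.mem_range.1 hi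
    obtain ⟨z₁, r, hb'⟩ := hN i hi'
    obtain ⟨hp1, hp2, hp3, hp4⟩ := hg (x i) ⟨i, hi', hx i hi'⟩
    obtain ⟨hq1, hq2, hq3, hq4⟩ := hg (x (i + 1)) ⟨i, hi', hx' i hi'⟩
    have hp : g (x i) ∈ N i := hp1 i hi' (hx i hi')
    have hq : g (x (i + 1)) ∈ N i := hq1 i hi' (hx' i hi')
    have hzi : th f b.im (x i) ≠ th f b.im (x (i + 1)) → f (z i) ∉ Bad ∧ z i ∈ N i ∧
        (f (z i)).im = b.im ∧ μ (z i) = lam f Bad P Ws b.im (z i) := by
      intro h
      obtain ⟨h1, h2, h3⟩ := hz i hi' h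
      exact ⟨fun h4 => h3 (hb _ h4 h2), h1, h2, hμ _ ⟨i, ⟨hi', h⟩, rfl⟩⟩
    by_cases h1 : (f (x i)).im < b.im
    · by_cases h2 : (f (x (i + 1))).im < b.im
      · rw [hth1 _ h1, hth1 _ h2, box_below hL hν hb' hp hq hp2 hq2 (hp4.2 h1) (hq4.2 h2)]
        simp
      · obtain ⟨h3, h4, h5, h6⟩ := hzi (by rw [hth1 _ h1, hth0 _ h2]; exact one_ne_zero)
        have h7 : b.im < (f (g (x (i + 1)))).im :=
          lt_of_le_of_ne (not_lt.1 fun h => h2 (hq4.1 h)) hq3.symm
        have h8 := box_cross hL hν hb' hp hq hp2 hq2 (hp4.2 h1) h7 h4 h3 h5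
        rw [hth1 _ h1, hth0 _ h2, h8, h6]
        simp
    · have h7 : b.im < (f (g (x i))).im :=
        lt_of_le_of_ne (not_lt.1 fun h => h1 (hp4.1 h)) hp3.symm
      by_cases h2 : (f (x (i + 1))).im < b.im
      · obtain ⟨h3, h4, h5, h6⟩ := hzi (by rw [hth0 _ h1, hth1 _ h2]; exact zero_ne_one)
        have h8 := box_cross hL hν hb' hq hp hq2 hp2 (hq4.2 h2) h7 h4 h3 h5
        rw [hth0 _ h1, hth1 _ h2, ← neg_sub (ν (g (x i))), h8, h6]
        simp
      · have h9 : b.im < (f (g (x (i + 1)))).im :=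
          lt_of_le_of_ne (not_lt.1 fun h => h2 (hq4.1 h)) hq3.symm
        rw [hth0 _ h1, hth0 _ h2, box_above hL hν hb' hp hq hp2 hq2 h7 h9]
        simp
  rw [Finset.sum_congr rfl hstep, Finset.sum_range_sub (fun i => ν (g (x i))) n, hn, sub_self]

end Pool.Agent.MP_fe3720.NR
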