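import Pool.Agent.Work.MP_fe3720_an.NR.DSa
import Pool.Agent.Work.MP_fe3720_an.NR.Star
import Pool.Agent.Work.MP_fe3720_an.NR.PrimLine

/-! # DSb: `D` is locally constant, closed chains have total zero

PROOF of `DD_const`. Fix `s₀`. If there is a bad value of level `s₀` let `b` be this value (unique by `hI`), otherwise `b = s₀ I`. Put `Bad' = insert b Bad`: still countable, `LeafSys Ω f Bad' P` (`LeafSys.insert`: all fields are weaker or the same; `haus`: the conclusion for pairs with `f p.1 ∉ Bad'`, hypothesis `f x ∉ Bad'`), `b' ∈ Bad'`, `b'.im = s₀ → b' = b`,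
`IsWs Ω f Bad' P Ws` (`GoodL Bad' s → GoodL Bad s`), and for `s ≠ s₀`: `GoodL Bad s → GoodL Bad' s`.
For `i < n` crossing (`th (x i) ≠ th (x (i+1))`) choose `z i ∈ N i` with `im (f (z i)) = s₀`, `f (z i) ≠ b`: the values of the box `N i` form a ball containing `f (x i)` and `f (x (i+1))`, one of level `< s₀`, one of level `≥ s₀`; so the ball (open, convex) contains values of level `s₀` (a point `ζ` of the segment), and also `ζ + ε` for small real
`ε`; one of `ζ`, `ζ + ε` is `≠ b`; `Box.surj`. For the other `i` let `z i = x i`. By `star` (for `Bad'`): `Σ (th (x (i+1)) - th (x i)) • lam (z i) = 0`. For crossing `i`: `lam (z i) = mk (κ i)`: near `z i` in the open set `N i`, `p i y - Ws (im f y) y = κ i (im f y)` for `y` of good level (for `Bad'`, hence for `Bad`): `IsKap.prim` and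
`lam_eq'` (`z i` has a chart: `f (z i) ∉ Bad'`). For the other `i` the coefficient is 0. So `Σ e i • mk (κ i) = 0` with `e i = th (x (i+1)) - th (x i)`, and `sum_lam` gives `Σ e i • κ i s = C'` for the `Bad'`-good `s ≠ s₀` near `s₀`, so for all good `s ≠ s₀` near `s₀`. By `DD_form`:
`DD s = Σ th (x (i+1)) • p i (x (i+1)) - th (x i) • p i (x i) - Σ e i • κ i s`: constant.

PROOF of `total_zero`. If `n = 0` trivial. `κ` from `exists_kappa`, `exists_Ws`. For every `s₀` let `C s₀` be the constant of `DD_const`. `C` is locally constant: for `s₁ ≠ s₀` near `s₀`: near `s₁` all `s` satisfy `DD s = C s₀` (if good), and there are good `s ≠ s₁` near `s₁` (`exists_goodL`): `C s₁ = C s₀`. So `C` is constant (`const_of_loc` on `univ`).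
For `s₀` smaller than all `im (f (x i))`, `i ≤ n`: `DD s = 0` near `s₀`, so `C s₀ = 0`. For `s₀` larger than all of them: `DD s = Σ (p i (x (i+1)) - κ i s) - (p i (x i) - κ i s) = Σ (p i (x (i+1)) - p i (x i))`. -/

namespace Pool.Agent.MP_fe3720.NR

open Set Topology Filter

variable {Ω : Set E2} {f : E2 → ℂ} {Q : Type} [AddCommGroup Q] {P : E2 → E2 → Q} {Bad : Set ℂ}
  {Ws : ℝ → E2 → Q} {n : ℕ} {x : ℕ → E2} {N : ℕ → Set E2} {p : ℕ → E2 → Q}

theorem LeafSys.insert (hL : LeafSys Ω f Bad P) (b : ℂ) : LeafSys Ω f (insert b Bad) P where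
  isOpen := hL.isOpen
  conn := hL.conn
  cont := hL.cont
  ls := hL.ls
  countable := hL.countable.insert b
  chart := fun x hx hg => hL.chart x hx fun h => hg (mem_insert_of_mem _ h)
  haus := fun x hx y hy hxy hg hn => by
    filter_upwards [hL.haus x hx y hy hxy (fun h => hg (mem_insert_of_mem _ h)) hn]
      with p h1 h2 h3
    exact h1 h2 fun h => h3 (mem_insert_of_mem _ h)
  prim := fun x hx hg => hL.prim x hx fun h => hg (mem_insert_of_mem _ h)
  sep := hL.sep

/-- in a box with points on both sides of a level there is a point of this level over a value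
different from `b` -/
private theorem exists_cross {N : Set E2} {z₀ : E2} {r : ℝ} (hb : Box Ω f N z₀ r) {u v : E2}
    (hu : u ∈ N) (hv : v ∈ N) {s₀ : ℝ} (h1 : (f u).im < s₀) (h2 : s₀ ≤ (f v).im) (b : ℂ) :
    ∃ z ∈ N, (f z).im = s₀ ∧ f z ≠ b := by
  have hpos : 0 < (f v).im - (f u).im := by linarith
  set t : ℝ := (s₀ - (f u).im) / ((f v).im - (f u).im) with ht
  have ht0 : 0 ≤ t := div_nonneg (by linarith) hpos.le
  have ht1 : t ≤ 1 := by
    rw [ht, div_le_one hpos]
    linarith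
  have htm : t * ((f v).im - (f u).im) = s₀ - (f u).im := div_mul_cancel₀ _ hpos.ne'
  set ζ : ℂ := (1 - t) • f u + t • f v with hζ
  have hζB : ζ ∈ Metric.ball (f z₀) r :=
    (convex_ball (f z₀) r) (hb.img u hu) (hb.img v hv) (by linarith) ht0 (by ring)
  have hζim : ζ.im = s₀ := by
    rw [hζ]
    simp only [Complex.add_im, Complex.real_smul, Complex.mul_im, Complex.ofReal_re,
      Complex.ofReal_im, zero_mul, add_zero]
    linear_combination htm
  obtain ⟨ε, hε, hball⟩ := Metric.isOpen_iff.1 (Metric.isOpen_ball (x := f z₀) (ε := r)) ζ hζB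
  have hζ2 : ζ + ((ε / 2 : ℝ) : ℂ) ∈ Metric.ball (f z₀) r := by
    apply hball
    rw [Metric.mem_ball, dist_eq_norm, add_sub_cancel_left, Complex.norm_real, Real.norm_eq_abs,
      abs_of_pos (half_pos hε)]
    exact half_lt_self hε
  by_cases hne : ζ = b
  · obtain ⟨z, hz, hfz⟩ := hb.surj hζ2
    refine ⟨z, hz, ?_, ?_⟩
    · rw [hfz]
      simp [hζim]
    · rw [hfz, hne]
      intro h
      have h3 : ((ε / 2 : ℝ) : ℂ) = 0 := by
        have := congrArg (fun w => w - b) h
        simpa using this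
      have h4 : ε / 2 = 0 := by exact_mod_cast h3
      linarith
  · obtain ⟨z, hz, hfz⟩ := hb.surj hζB
    exact ⟨z, hz, by rw [hfz, hζim], by rw [hfz]; exact hne⟩

theorem DD_const (hL : LeafSys Ω f Bad P) (hD : HasDiscs Ω f) (hW : IsWs Ω f Bad P Ws)
    (hQ : NoOdd Q) (hH : ∀ (G : Type) [AddCommGroup G], DivFree2 G → H1triv Ω G)
    (hI : ∀ b ∈ Bad, ∀ b' ∈ Bad, b.im = b'.im → b = b') (h : Chain Ω f Bad P n x N p)
    (hn : x n = x 0) {κ : ℕ → ℝ → Q} (hκ : IsKappa f Bad Ws n N p κ) (s₀ : ℝ) :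
    ∃ C : Q, ∀ᶠ s in 𝓝[≠] s₀, GoodL Bad s → DD f n x p κ s = C := by
  classical
  obtain ⟨b, hbs, hb0⟩ : ∃ b : ℂ, b.im = s₀ ∧ ∀ b' ∈ Bad, b'.im = s₀ → b' = b := by
    by_cases hex : ∃ b ∈ Bad, b.im = s₀
    · obtain ⟨b, hb, hbs⟩ := hex
      exact ⟨b, hbs, fun b' hb' hs' => hI b' hb' b hb (hs'.trans hbs.symm)⟩
    · exact ⟨⟨0, s₀⟩, rfl, fun b' hb' hs' => absurd ⟨b', hb', hs'⟩ hex⟩
  subst hbs
  set Bad' : Set ℂ := insert b Bad with hBad'
  have hL' : LeafSys Ω f Bad' P := hL.insert b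
  have hGL : ∀ s, GoodL Bad' s → GoodL Bad s := fun s hs b' hb' =>
    hs b' (mem_insert_of_mem _ hb')
  have hGL' : ∀ s, s ≠ b.im → GoodL Bad s → GoodL Bad' s := by
    intro s hs hg b' hb'
    rcases mem_insert_iff.1 hb' with rfl | h'
    · exact hs.symm
    · exact hg b' h'
  have hW' : IsWs Ω f Bad' P Ws := fun s hs => hW s (hGL s hs)
  have hbB : b ∈ Bad' := mem_insert _ _
  have hb : ∀ b' ∈ Bad', b'.im = b.im → b' = b := by
    intro b' hb' hs'
    rcases mem_insert_iff.1 hb' with rfl | h'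
    · rfl
    · exact hb0 b' h' hs'
  -- the crossing points
  have hzex : ∀ i < n, th f b.im (x i) ≠ th f b.im (x (i + 1)) →
      ∃ z ∈ N i, (f z).im = b.im ∧ f z ≠ b := by
    intro i hi hne
    obtain ⟨z₀, r, hbox⟩ := h.box i hi
    have hxi := h.mem i hi
    have hxi' := h.mem' i hi
    by_cases h1 : (f (x i)).im < b.im
    · by_cases h2 : (f (x (i + 1))).im < b.im
      · exact absurd (by simp only [th, h1, h2]) hne
      · exact exists_cross hbox hxi hxi' h1 (not_lt.1 h2) b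
    · by_cases h2 : (f (x (i + 1))).im < b.im
      · exact exists_cross hbox hxi' hxi h2 (not_lt.1 h1) b
      · exact absurd (by simp only [th, h1, h2]) hne
  choose! z hz using hzex
  have hz' : ∀ i < n, th f b.im (x i) ≠ th f b.im (x (i + 1)) →
      z i ∈ N i ∧ (f (z i)).im = b.im ∧ f (z i) ≠ b := fun i hi hne => hz i hi hne
  have hstar := star hL' hD hW' hQ hH hbB hb h.box h.mem h.mem' hn z hz'
  -- the classes at the crossing points
  have hlam : ∀ i ∈ Finset.range n, (th f b.im (x (i + 1)) - th f b.im (x i)) •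
      lam f Bad' P Ws b.im (z i) = (th f b.im (x (i + 1)) - th f b.im (x i)) •
        (QuotientAddGroup.mk (κ i) : GG Q Bad' b.im) := by
    intro i hi
    rw [Finset.mem_range] at hi
    by_cases hne : th f b.im (x i) = th f b.im (x (i + 1))
    · rw [hne, sub_self, zero_zsmul, zero_zsmul]
    · obtain ⟨hzN, hzim, hzb⟩ := hz' i hi hne
      obtain ⟨z₀, r, hbox⟩ := h.box i hi
      have hzg : f (z i) ∉ Bad' := fun hmem => hzb (hb _ hmem hzim)
      have hchart : HasChart Ω f (z i) := hL'.chart _ (hbox.sub hzN) hzg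
      have hk : ∀ᶠ y in 𝓝 (z i), GoodL Bad' (f y).im →
          p i y - Ws (f y).im y = κ i (f y).im := by
        filter_upwards [hbox.isOpen.mem_nhds hzN] with y hy hg
        exact hκ i hi y hy (hGL _ hg)
      have hkap := IsKap.prim hbox.isOpen (h.prim i hi) hzN hk
      rw [lam_eq' hchart hzim hkap]
  rw [Finset.sum_congr rfl hlam] at hstar
  obtain ⟨C', hC'⟩ := sum_lam (fun i => th f b.im (x (i + 1)) - th f b.im (x i)) κ hstar
  refine ⟨(∑ i ∈ Finset.range n, (th f b.im (x (i + 1)) • p i (x (i + 1)) -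
    th f b.im (x i) • p i (x i))) - C', ?_⟩
  filter_upwards [hC', DD_form hL hW h hn hκ b.im, self_mem_nhdsWithin] with s h1 h2 h3 hg
  rw [h2 hg, ← h1 (hGL' s h3 hg), ← Finset.sum_sub_distrib]
  refine Finset.sum_congr rfl fun i _ => ?_
  have e1 : (if (f (x (i + 1))).im < b.im then (1 : ℤ) else 0) = th f b.im (x (i + 1)) := by
    simp only [th]
  have e2 : (if (f (x i)).im < b.im then (1 : ℤ) else 0) = th f b.im (x i) := by
    simp only [th]
  rw [e1, e2]
  module

private theorem freq_good (hB : Bad.Countable) {s₀ : ℝ} {A : ℝ → Prop}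
    (hA : ∀ᶠ s in 𝓝[≠] s₀, A s) : ∃ s, GoodL Bad s ∧ A s := by
  rw [eventually_nhdsWithin_iff, Metric.eventually_nhds_iff] at hA
  obtain ⟨ε, hε, hA⟩ := hA
  obtain ⟨s, hs1, hs2, hg⟩ := exists_goodL hB (show s₀ < s₀ + ε by linarith)
  refine ⟨s, hg, hA ?_ hs1.ne'⟩
  rw [Real.dist_eq, abs_lt]
  constructor <;> linarith

theorem total_zero (hL : LeafSys Ω f Bad P) (hD : HasDiscs Ω f)
    (hQ : NoOdd Q) (hH : ∀ (G : Type) [AddCommGroup G], DivFree2 G → H1triv Ω G)
    (hI : ∀ b ∈ Bad, ∀ b' ∈ Bad, b.im = b'.im → b = b') (h : Chain Ω f Bad P n x N p)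
    (hn : x n = x 0) : ∑ i ∈ Finset.range n, (p i (x (i + 1)) - p i (x i)) = 0 := by
  obtain ⟨Ws, hW⟩ := exists_Ws hL
  obtain ⟨κ, hκ⟩ := exists_kappa hW h
  have hC := fun s₀ => DD_const hL hD hW hQ hH hI h hn hκ s₀
  choose C hC using hC
  have hloc : ∀ s₀ ∈ (univ : Set ℝ), ∀ᶠ s₁ in 𝓝[univ] s₀, C s₁ = C s₀ := by
    intro s₀ _
    rw [nhdsWithin_univ]
    have h1 : ∀ᶠ s₁ in 𝓝 s₀, s₁ ≠ s₀ → C s₁ = C s₀ := by
      change ∀ᶠ s₁ in 𝓝 s₀, s₁ ∈ ({s₀}ᶜ : Set ℝ) → C s₁ = C s₀
      rw [← eventually_nhdsWithin_iff]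
      have h2 := eventually_eventually_nhdsWithin.2 (hC s₀)
      filter_upwards [h2, self_mem_nhdsWithin] with s₁ h3 h4
      have h5 : ∀ᶠ s in 𝓝[≠] s₁, GoodL Bad s → DD f n x p κ s = C s₀ := by
        have h6 : 𝓝[{s₀}ᶜ] s₁ = 𝓝 s₁ := isOpen_compl_singleton.nhdsWithin_eq h4
        rw [h6] at h3
        exact h3.filter_mono nhdsWithin_le_nhds
      obtain ⟨s, hg, h7, h8⟩ := freq_good hL.countable (h5.and (hC s₁))
      rw [← h7 hg, ← h8 hg]
    filter_upwards [h1] with s₁ h2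
    by_cases h3 : s₁ = s₀
    · rw [h3]
    · exact h2 h3
  have hconst : ∀ s s', C s = C s' := fun s s' =>
    const_of_loc isPreconnected_univ (F := C) hloc (mem_univ _) (mem_univ _)
  obtain ⟨A, hA⟩ : ∃ A : ℝ, ∀ i ≤ n, |(f (x i)).im| < A := by
    refine ⟨(∑ i ∈ Finset.range (n + 1), |(f (x i)).im|) + 1, fun i hi => ?_⟩
    have := Finset.single_le_sum (f := fun i => |(f (x i)).im|) (s := Finset.range (n + 1))
      (fun j _ => abs_nonneg _) (Finset.mem_range.2 (Nat.lt_succ_of_le hi))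
    linarith
  have hlow : C (-A - 1) = 0 := by
    have h1 : ∀ᶠ s in 𝓝[≠] (-A - 1), s < -A :=
      nhdsWithin_le_nhds (Iio_mem_nhds (by linarith))
    obtain ⟨s, hg, h2, h3⟩ := freq_good hL.countable (h1.and (hC (-A - 1)))
    rw [← h3 hg, DD]
    refine Finset.sum_eq_zero fun i hi => ?_
    rw [Finset.mem_range] at hi
    have h4 := abs_lt.1 (hA i hi.le)
    have h5 := abs_lt.1 (hA (i + 1) hi)
    rw [if_neg (by linarith [h5.1]), if_neg (by linarith [h4.1]), sub_zero]
  have hhigh : C (A + 1) = ∑ i ∈ Finset.range n, (p i (x (i + 1)) - p i (x i)) := by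
    have h1 : ∀ᶠ s in 𝓝[≠] (A + 1), A < s :=
      nhdsWithin_le_nhds (Ioi_mem_nhds (by linarith))
    obtain ⟨s, hg, h2, h3⟩ := freq_good hL.countable (h1.and (hC (A + 1)))
    rw [← h3 hg, DD]
    refine Finset.sum_congr rfl fun i hi => ?_
    rw [Finset.mem_range] at hi
    have h4 := abs_lt.1 (hA i hi.le)
    have h5 := abs_lt.1 (hA (i + 1) hi)
    rw [if_pos (by linarith [h5.2]), if_pos (by linarith [h4.2])]
    abel
  rw [← hhigh, hconst (A + 1) (-A - 1), hlow]

end Pool.Agent.MP_fe3720.NR
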