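import Mathlib

/-! # A domain with the density property which is not an RR-space: definitions (FIXED FILE)

Everything lives in `E2 = ℂ × ℂ`. `Ω` is a connected open set, `f : E2 → ℂ` a function on `Ω`
(a first integral of a complete field).

LOCAL SYSTEMS. `P : X → X → G` (`G` an abelian group): `P x` is a function near `x`, and two such
functions differ locally by constants (`IsLS`). A primitive on a set `S` is a function `W` which
differs from `P x` by a constant near every `x ∈ S` (`Prm`). `H1triv S G`: every local system on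
`S` with values in `G` has a primitive on `S` (that is `H¹(S, G) = 0`).
For a closed form `om` and a subgroup `Λ` of `ℂ` one takes `G = ℂ ⧸ Λ`, `P x` = class of a
primitive of `om` near `x`.

LEAVES. The leaf of `x` is the connected component of the level set of `f` (in `Ω`) through `x`. -/

namespace Pool.Agent.MP_fe3720.NR

open Set Topology Filter

/-- the space `ℂ²` -/
abbrev E2 : Type := ℂ × ℂ

section LocalSystems

variable {X : Type*} [TopologicalSpace X] {G : Type*} [AddCommGroup G]

/-- `P` is a local system on `S`: for `y ∈ S` near `x ∈ S` the function `P x - P y` is constant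
near `y` (on `S`). -/
def IsLS (S : Set X) (P : X → X → G) : Prop :=
  ∀ x ∈ S, ∀ᶠ y in 𝓝[S] x, ∀ᶠ z in 𝓝[S] y, P x z - P y z = P x y - P y y

/-- `W` is a primitive of `P` on `S`: `W - P x` is constant near `x` on `S`. -/
def Prm (P : X → X → G) (S : Set X) (W : X → G) : Prop :=
  ∀ x ∈ S, ∀ᶠ y in 𝓝[S] x, W y - W x = P x y - P x x

/-- every local system on `S` with values in `G` has a primitive -/
def H1triv (S : Set X) (G : Type*) [AddCommGroup G] : Prop :=
  ∀ P : X → X → G, IsLS S P → ∃ W : X → G, Prm P S W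

end LocalSystems

/-- there is no nontrivial infinite chain of divisions by `2` in `G` -/
def DivFree2 (G : Type*) [AddCommGroup G] : Prop :=
  ∀ g : ℕ → G, (∀ k, g k = 2 • g (k + 1)) → g 0 = 0

/-- there is no odd torsion in `G` -/
def NoOdd (G : Type*) [AddCommGroup G] : Prop :=
  ∀ (n : ℕ) (g : G), Odd n → n • g = 0 → g = 0

/-- the leaf through `x`: the connected component of `x` in the level set (empty if `x ∉ Ω`) -/
def LF (Ω : Set E2) (f : E2 → ℂ) (x : E2) : Set E2 :=
  connectedComponentIn (Ω ∩ f ⁻¹' {f x}) x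

/-- near `x` the function `f` is (topologically) the first coordinate of a local chart -/
def HasChart (Ω : Set E2) (f : E2 → ℂ) (x : E2) : Prop :=
  ∃ φ : OpenPartialHomeomorph E2 E2, x ∈ φ.source ∧ φ.source ⊆ Ω ∧ ∀ y ∈ φ.source, (φ y).1 = f y

/-- The system of leaves of `f`, with the countable set `Bad` of bad values, and a local system `P`
which has primitives on the good leaves. A point `x` of `Ω` is good if `f x ∉ Bad`. -/
structure LeafSys {Q : Type} [AddCommGroup Q] (Ω : Set E2) (f : E2 → ℂ) (Bad : Set ℂ)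
    (P : E2 → E2 → Q) : Prop where
  isOpen : IsOpen Ω
  conn : IsConnected Ω
  cont : ContinuousOn f Ω
  ls : IsLS Ω P
  countable : Bad.Countable
  /-- `f` has charts at the good points -/
  chart : ∀ x ∈ Ω, f x ∉ Bad → HasChart Ω f x
  /-- the space of good leaves is Hausdorff -/
  haus : ∀ x ∈ Ω, ∀ y ∈ Ω, f x = f y → f x ∉ Bad → y ∉ LF Ω f x →
    ∀ᶠ p : E2 × E2 in 𝓝 (x, y), f p.1 = f p.2 → f p.1 ∉ Bad → p.2 ∉ LF Ω f p.1
  /-- the local system has primitives on the good leaves -/
  prim : ∀ x ∈ Ω, f x ∉ Bad → ∃ W : E2 → Q, Prm P (LF Ω f x) W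
  /-- level sets of countable sets of values do not separate connected open sets -/
  sep : ∀ B : Set ℂ, B.Countable → ∀ U ⊆ Ω, IsOpen U → IsPreconnected U →
    IsPreconnected (U ∩ f ⁻¹' Bᶜ) ∧ (U.Nonempty → (U ∩ f ⁻¹' Bᶜ).Nonempty)

/-- through every point `a` of `Ω` there is a small disc on which `f` is `f a + z ^ k` -/
def HasDiscs (Ω : Set E2) (f : E2 → ℂ) : Prop :=
  ∀ a ∈ Ω, ∃ k : ℕ, 1 ≤ k ∧ ∃ r : ℝ, 0 < r ∧ ∃ h : ℂ → E2, ContinuousOn h (Metric.ball 0 r) ∧
    h 0 = a ∧ ∀ z ∈ Metric.ball (0 : ℂ) r, h z ∈ Ω ∧ f (h z) = f a + z ^ k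

end Pool.Agent.MP_fe3720.NR
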