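import Pool.Agent.Work.MP_fe3720_an.NR.Defs

/-! # Definitions for the core (FIXED FILE)

`GoodL Bad s`: there is no bad value on the horizontal line `im = s`. `Zl Ω f s`: the part of `Ω` over
this line. `LI x y`: difference of a leaf primitive. `REq p x y`: `x`, `y` are in the same leaf and the
leaf difference equals `p y - p x`. `GG`: functions `ℝ → Q` modulo those which are constant on the
good `s ≠ s₀` near `s₀`. `lam s₀ x`: the class of `φ`, where `P x y - Ws s y = φ s` for the points `y`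
near `x` of good level `s = im (f y)`. `Jm μ ν w`: near `w` the function `ν` is constant on the good
points of level `> s₀`, resp. `< s₀`, with the jump `- μ w` from below to above. -/

namespace Pool.Agent.MP_fe3720.NR

open Set Topology Filter

/-- A leaf path over `β` on `I`: a point `s c` over `β c` for `c ∈ I` such that the leaf of `s c`
depends continuously on `c`. -/
def LPath (Ω : Set E2) (f : E2 → ℂ) (β : ℝ → ℂ) (I : Set ℝ) (s : ℝ → E2) : Prop :=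
  ∀ c ∈ I, s c ∈ Ω ∧ f (s c) = β c ∧
    ∀ᶠ p : ℝ × E2 in 𝓝 (c, s c), p.1 ∈ I → f p.2 = β p.1 → p.2 ∈ LF Ω f (s p.1)

/-- the union of the leaves of a leaf path -/
def Sat (Ω : Set E2) (f : E2 → ℂ) (s : ℝ → E2) (I : Set ℝ) : Set E2 :=
  {y | ∃ c ∈ I, y ∈ LF Ω f (s c)}

/-- `N` is a product box around `x`, over the disc of radius `r` around `f x` -/
structure Box (Ω : Set E2) (f : E2 → ℂ) (N : Set E2) (x : E2) (r : ℝ) : Prop where
  isOpen : IsOpen N
  mem : x ∈ N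
  sub : N ⊆ Ω
  pos : 0 < r
  img : ∀ y ∈ N, f y ∈ Metric.ball (f x) r
  pre : ∀ D ⊆ Metric.ball (f x) r, IsPreconnected D → IsPreconnected (N ∩ f ⁻¹' D)
  sec : ∀ y ∈ N, ∃ σ : ℂ → E2, ContinuousOn σ (Metric.ball (f x) r) ∧ σ (f y) = y ∧
    ∀ ζ ∈ Metric.ball (f x) r, σ ζ ∈ N ∧ f (σ ζ) = ζ

/-- no bad value on the horizontal line at height `s` -/
def GoodL (Bad : Set ℂ) (s : ℝ) : Prop := ∀ b ∈ Bad, b.im ≠ s

/-- the part of `Ω` over the horizontal line at height `s` -/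
def Zl (Ω : Set E2) (f : E2 → ℂ) (s : ℝ) : Set E2 := Ω ∩ f ⁻¹' {ζ | ζ.im = s}

/-- the connected component of `x` in the part of `Ω` over the horizontal line through `b` minus
`b` -/
def RY (Ω : Set E2) (f : E2 → ℂ) (b : ℂ) (x : E2) : Set E2 :=
  connectedComponentIn (Ω ∩ f ⁻¹' {ζ | ζ.im = b.im ∧ ζ ≠ b}) x

variable {Q : Type} [AddCommGroup Q]

/-- the difference at `y` and `x` of a primitive of `P` on the leaf of `x` -/
noncomputable def LI (Ω : Set E2) (f : E2 → ℂ) (P : E2 → E2 → Q) (x y : E2) : Q :=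
  open Classical in
  if h : ∃ W : E2 → Q, Prm P (LF Ω f x) W then h.choose y - h.choose x else 0

/-- same leaf, and the leaf difference is the difference of `p` -/
def REq (Ω : Set E2) (f : E2 → ℂ) (P : E2 → E2 → Q) (p : E2 → Q) (x y : E2) : Prop :=
  y ∈ LF Ω f x ∧ LI Ω f P x y = p y - p x

/-- `Ws s` is a primitive of `P` on the level set, for all good levels `s` -/
def IsWs (Ω : Set E2) (f : E2 → ℂ) (Bad : Set ℂ) (P : E2 → E2 → Q) (Ws : ℝ → E2 → Q) : Prop :=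
  ∀ s, GoodL Bad s → Prm P (Zl Ω f s) (Ws s)

/-- the functions which are constant on the good levels `s ≠ s₀` near `s₀` -/
def ECs (Q : Type) [AddCommGroup Q] (Bad : Set ℂ) (s₀ : ℝ) : AddSubgroup (ℝ → Q) where
  carrier := {φ | ∃ c, ∀ᶠ s in 𝓝[≠] s₀, GoodL Bad s → φ s = c}
  add_mem' := by
    rintro a b ⟨c, hc⟩ ⟨d, hd⟩
    refine ⟨c + d, ?_⟩
    filter_upwards [hc, hd] with s h1 h2 h
    simp [h1 h, h2 h]
  zero_mem' := ⟨0, Eventually.of_forall fun s _ => rfl⟩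
  neg_mem' := by
    rintro a ⟨c, hc⟩
    refine ⟨-c, ?_⟩
    filter_upwards [hc] with s h1 h
    simp [h1 h]

/-- functions of the level modulo `ECs` -/
abbrev GG (Q : Type) [AddCommGroup Q] (Bad : Set ℂ) (s₀ : ℝ) : Type := (ℝ → Q) ⧸ ECs Q Bad s₀

/-- `P x y - Ws (im (f y)) y = φ (im (f y))` for the points `y` near `x` of good level -/
def IsKap (f : E2 → ℂ) (Bad : Set ℂ) (P : E2 → E2 → Q) (Ws : ℝ → E2 → Q) (x : E2)
    (φ : ℝ → Q) : Prop :=
  ∀ᶠ y in 𝓝 x, GoodL Bad (f y).im → P x y - Ws (f y).im y = φ (f y).im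

/-- the class of `φ` with `IsKap x φ` -/
noncomputable def lam (f : E2 → ℂ) (Bad : Set ℂ) (P : E2 → E2 → Q) (Ws : ℝ → E2 → Q) (s₀ : ℝ)
    (x : E2) : GG Q Bad s₀ :=
  open Classical in
  if h : ∃ φ : ℝ → Q, IsKap f Bad P Ws x φ then QuotientAddGroup.mk h.choose else 0

/-- near `w` the function `ν` is constant on the good points of level `> s₀`, resp. `< s₀`, with the
jump `- μ w` from below to above -/
def Jm {G : Type} [AddCommGroup G] (f : E2 → ℂ) (Bad : Set ℂ) (s₀ : ℝ) (μ ν : E2 → G)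
    (w : E2) : Prop :=
  open Classical in
  ∃ c : G, ∀ᶠ y in 𝓝 w, f y ∉ Bad → (f y).im ≠ s₀ → ν y = c - if s₀ < (f y).im then μ w else 0

/-- `v` parametrises (by the logarithm) the leaves near `a`: `f (v ζ) = f a + exp ζ`; `U` is a
neighbourhood of `a` on which `P a` is a primitive -/
structure VD (Ω : Set E2) (f : E2 → ℂ) (Bad : Set ℂ) (P : E2 → E2 → Q) (a : E2) (k : ℕ) (c : ℝ)
    (v : ℂ → E2) (U : Set E2) : Prop where
  one_le : 1 ≤ k
  cont : ContinuousOn v {ζ | ζ.re < c}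
  val : ∀ ζ : ℂ, ζ.re < c → v ζ ∈ U ∧ f (v ζ) = f a + Complex.exp ζ
  per : ∀ ζ : ℂ, ζ.re < c → v (ζ + 2 * Real.pi * Complex.I * k) = v ζ
  tend : ∀ V ∈ 𝓝 a, ∃ c' : ℝ, ∀ ζ : ℂ, ζ.re < c' → v ζ ∈ V
  isOpen : IsOpen U
  mem : a ∈ U
  sub : U ⊆ Ω
  prim : Prm P U (P a)
  near : ∀ᶠ y in 𝓝 a, f y ∉ Bad → f y ≠ f a →
    ∃ ζ : ℂ, ζ.re < c ∧ Complex.exp ζ = f y - f a ∧ REq Ω f P (P a) (v ζ) y

/-- a chain of boxes: `x i`, `x (i+1)` are in the box `N i`, on which `p i` is a primitive -/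
structure Chain (Ω : Set E2) (f : E2 → ℂ) (Bad : Set ℂ) (P : E2 → E2 → Q) (n : ℕ) (x : ℕ → E2)
    (N : ℕ → Set E2) (p : ℕ → E2 → Q) : Prop where
  box : ∀ i < n, ∃ z r, Box Ω f (N i) z r
  prim : ∀ i < n, Prm P (N i) (p i)
  mem : ∀ i < n, x i ∈ N i
  mem' : ∀ i < n, x (i + 1) ∈ N i
  lev : ∀ i ≤ n, GoodL Bad (f (x i)).im

end Pool.Agent.MP_fe3720.NR
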