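import Pool.Agent.Work.MP_fe3720_an.NR.LIa

/-! # Kap: the functions `φ` with `IsKap x φ` and the class `lam`

`Ws` is a family of primitives on the good levels (`IsWs`).

PROOFS.
`exists_kap` (`x ∈ Ω` with a chart): take an open neighbourhood `U` of `x` on which `P x` is a primitive (`IsLS.prm`) and a box `N ⊆ U` around `x`. For a good level
`s` the set `N ∩ f ⁻¹' {ζ | ζ.im = s}` is preconnected (`Box.pre_convex`, the line is convex), contained in `Zl s`, so `P x y - Ws s y` is constant on it (`Prm.sub_const` for the two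
primitives `P x`, `Ws s`); let `φ s` be this constant (the value at a chosen point if there is one, else `0`).
`IsKap.unique`: by `HasChart.near` for all `ζ` near `f x` there is `y` near `x` with `f y = ζ`; take `ζ = f x + (s - im (f x)) I`: then `φ s = P x y - Ws s y = φ' s`.
`IsKap.near`: for `y` near `x` one has `P y z = P x z - P x y + P y y` for all `z` near `y`, and the condition of `IsKap x φ` holds near `y` (`eventually_eventually_nhds`).
`IsKap.prim`: if `p` is a primitive on an open set `U ∋ y` and `p z - Ws (im f z) z = φ (im f z)` for the points `z ∈ U` of good level near `y` then `IsKap y (φ + const)`, with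
`const = P y y - p y` (`Prm.sub_of_open`).
`lam_eq`: unfold `lam`; the chosen function and `φ` agree near `(f x).im = s₀` on good levels (`IsKap.unique`), so their difference is in `ECs` (with `c = 0`): `QuotientAddGroup.eq` or
`QuotientAddGroup.mk_eq_mk..`. `lam_eq'`: the same if `IsKap x (φ + const)`: constants are in `ECs`.
`lam_loc`: `exists_kap` at `x`, `IsKap.near`, `lam_eq`; note that `y` near `x` has a chart (`HasChart.eventually`).
`lam_conn`: `const_of_loc`.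
`sum_lam`: if the classes of finitely many functions satisfy a relation in `GG` then the functions satisfy it up to a constant: `mk` is additive, `QuotientAddGroup.eq_zero_iff`. -/

namespace Pool.Agent.MP_fe3720.NR

open Set Topology Filter

variable {Ω : Set E2} {f : E2 → ℂ} {Q : Type} [AddCommGroup Q] {P : E2 → E2 → Q} {Bad : Set ℂ}
  {Ws : ℝ → E2 → Q}

theorem exists_kap (hL : LeafSys Ω f Bad P) (hW : IsWs Ω f Bad P Ws) {x : E2}
    (hx : x ∈ Ω) (hc : HasChart Ω f x) : ∃ φ : ℝ → Q, IsKap f Bad P Ws x φ := by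
  classical
  obtain ⟨U, hUΩ, hUo, hxU, hPU⟩ := hL.ls.prm hL.isOpen hx
  obtain ⟨N, hNU, r, hr, hb⟩ := exists_box hc (hUo.mem_nhds hxU) one_pos
  refine ⟨fun s => if h : ∃ y, y ∈ N ∧ (f y).im = s then P x h.choose - Ws s h.choose else 0, ?_⟩
  unfold IsKap
  filter_upwards [hb.isOpen.mem_nhds hb.mem] with y hy hg
  have h : ∃ y', y' ∈ N ∧ (f y').im = (f y).im := ⟨y, hy, rfl⟩
  rw [dif_pos h]
  have hy' := h.choose_spec
  have hconv : Convex ℝ {ζ : ℂ | ζ.im = (f y).im} := by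
    have h1 := (convex_singleton (𝕜 := ℝ) ((f y).im)).linear_preimage Complex.imLm
    exact h1
  have hS := hb.pre_convex hconv
  have h1 : Prm P (N ∩ f ⁻¹' {ζ : ℂ | ζ.im = (f y).im}) (P x) :=
    hPU.mono fun z hz => hNU hz.1
  have h2 : Prm P (N ∩ f ⁻¹' {ζ : ℂ | ζ.im = (f y).im}) (Ws (f y).im) :=
    (hW _ hg).mono fun z hz => ⟨hb.sub hz.1, hz.2⟩
  exact Prm.sub_const h1 h2 hS ⟨hy'.1, hy'.2⟩ ⟨hy, rfl⟩

theorem IsKap.unique {x : E2} (hc : HasChart Ω f x) {φ φ' : ℝ → Q}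
    (h : IsKap f Bad P Ws x φ) (h' : IsKap f Bad P Ws x φ') :
    ∀ᶠ s in 𝓝 (f x).im, GoodL Bad s → φ s = φ' s := by
  have h1 := hc.near (Filter.inter_mem h h')
  have h2 : Tendsto (fun s : ℝ => f x + ((s - (f x).im : ℝ) : ℂ) * Complex.I) (𝓝 (f x).im)
      (𝓝 (f x)) := by
    have h3 : Continuous (fun s : ℝ => f x + ((s - (f x).im : ℝ) : ℂ) * Complex.I) := by
      fun_prop
    have h4 := h3.tendsto (f x).im
    simpa using h4
  filter_upwards [h2.eventually h1] with s hs hg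
  obtain ⟨y, ⟨⟨hy1, hy2⟩, -⟩, hy⟩ := hs
  have him : (f y).im = s := by
    rw [hy]
    simp
  have e1 := hy1 (by rw [him]; exact hg)
  have e2 := hy2 (by rw [him]; exact hg)
  rw [← him, ← e1, ← e2]

theorem IsKap.near (hL : LeafSys Ω f Bad P) {x : E2} (hx : x ∈ Ω) {φ : ℝ → Q}
    (h : IsKap f Bad P Ws x φ) :
    ∀ᶠ y in 𝓝 x, IsKap f Bad P Ws y (fun s => φ s + (P y y - P x y)) := by
  have h1 := hL.ls x hx
  rw [hL.isOpen.nhdsWithin_eq hx] at h1
  filter_upwards [h1, h.eventually_nhds, hL.isOpen.mem_nhds hx] with y hy1 hy2 hyΩ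
  rw [hL.isOpen.nhdsWithin_eq hyΩ] at hy1
  unfold IsKap
  filter_upwards [hy1, hy2] with z hz1 hz2 hg
  rw [← hz2 hg]
  have e : P y z = P x z - (P x y - P y y) := by rw [← hz1]; abel
  rw [e]
  abel

theorem IsKap.prim {U : Set E2} (hU : IsOpen U) {p : E2 → Q} (hp : Prm P U p) {y : E2}
    (hy : y ∈ U) {φ : ℝ → Q}
    (h : ∀ᶠ z in 𝓝 y, GoodL Bad (f z).im → p z - Ws (f z).im z = φ (f z).im) :
    IsKap f Bad P Ws y (fun s => φ s + (P y y - p y)) := by
  unfold IsKap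
  filter_upwards [h, hp.sub_of_open hU hy] with z hz1 hz2 hg
  rw [← hz1 hg]
  have e : P y z = (p z - p y) + P y y := by rw [hz2]; abel
  rw [e]
  abel

theorem lam_eq {x : E2} (hc : HasChart Ω f x) {s₀ : ℝ} (hs : (f x).im = s₀) {φ : ℝ → Q}
    (h : IsKap f Bad P Ws x φ) : lam f Bad P Ws s₀ x = QuotientAddGroup.mk φ := by
  have hex : ∃ φ : ℝ → Q, IsKap f Bad P Ws x φ := ⟨φ, h⟩
  have e : lam f Bad P Ws s₀ x = QuotientAddGroup.mk hex.choose := by
    unfold lam
    exact dif_pos hex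
  rw [e, QuotientAddGroup.eq]
  refine ⟨0, ?_⟩
  have h1 := IsKap.unique hc hex.choose_spec h
  rw [hs] at h1
  filter_upwards [nhdsWithin_le_nhds h1] with s hs1 hg
  rw [Pi.add_apply, Pi.neg_apply, hs1 hg, neg_add_cancel]

theorem lam_eq' {x : E2} (hc : HasChart Ω f x) {s₀ : ℝ} (hs : (f x).im = s₀) {φ : ℝ → Q} {c : Q}
    (h : IsKap f Bad P Ws x (fun s => φ s + c)) :
    lam f Bad P Ws s₀ x = QuotientAddGroup.mk φ := by
  rw [lam_eq hc hs h, QuotientAddGroup.eq]
  refine ⟨-c, Eventually.of_forall fun s _ => ?_⟩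
  rw [Pi.add_apply, Pi.neg_apply]
  abel

theorem lam_loc (hL : LeafSys Ω f Bad P) (hW : IsWs Ω f Bad P Ws) {x : E2}
    (hx : x ∈ Ω) (hc : HasChart Ω f x) {s₀ : ℝ} (hs : (f x).im = s₀) :
    ∀ᶠ y in 𝓝 x, (f y).im = s₀ → lam f Bad P Ws s₀ y = lam f Bad P Ws s₀ x := by
  obtain ⟨φ, hφ⟩ := exists_kap hL hW hx hc
  filter_upwards [hφ.near hL hx, hc.eventually] with y hy hyc hys
  rw [lam_eq' hyc hys hy, lam_eq hc hs hφ]

theorem lam_conn (hL : LeafSys Ω f Bad P) (hW : IsWs Ω f Bad P Ws) {s₀ : ℝ} {S : Set E2}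
    (hS : IsPreconnected S) (hSΩ : S ⊆ Zl Ω f s₀) (hSc : ∀ x ∈ S, HasChart Ω f x) {x y : E2}
    (hx : x ∈ S) (hy : y ∈ S) : lam f Bad P Ws s₀ y = lam f Bad P Ws s₀ x := by
  refine const_of_loc hS (F := lam f Bad P Ws s₀) (fun z hz => ?_) hx hy
  filter_upwards [nhdsWithin_le_nhds (lam_loc hL hW (hSΩ hz).1 (hSc z hz) (hSΩ hz).2),
    self_mem_nhdsWithin] with w hw hwS
  exact hw (hSΩ hwS).2

theorem sum_lam {s₀ : ℝ} {n : ℕ} (e : ℕ → ℤ) (φ : ℕ → ℝ → Q)
    (h : ∑ i ∈ Finset.range n, e i • (QuotientAddGroup.mk (φ i) : GG Q Bad s₀) = 0) :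
    ∃ C : Q, ∀ᶠ s in 𝓝[≠] s₀, GoodL Bad s → ∑ i ∈ Finset.range n, e i • φ i s = C := by
  have h1 : (QuotientAddGroup.mk' (ECs Q Bad s₀)) (∑ i ∈ Finset.range n, e i • φ i) = 0 := by
    rw [map_sum]
    rw [← h]
    exact Finset.sum_congr rfl fun i _ => map_zsmul _ _ _
  have h2 : ∑ i ∈ Finset.range n, e i • φ i ∈ ECs Q Bad s₀ :=
    (QuotientAddGroup.eq_zero_iff _).1 h1
  obtain ⟨C, hC⟩ := h2
  refine ⟨C, ?_⟩
  filter_upwards [hC] with s hs hg
  rw [← hs hg, Finset.sum_apply]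
  rfl

end Pool.Agent.MP_fe3720.NR
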