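import Pool.Agent.Work.MP_fe3720_an.NR.DiscV
import Pool.Agent.Work.MP_fe3720_an.NR.Kap

/-! # DiscK: the functions `K j` of the sectors

`VD Ω f Bad P a k c v U`. The strip `j` is `{ζ | π j < ζ.im < π (j + 1)}`. `IsK K`: for `ζ` in the strip `j` of good level `s = im (f (v ζ))`: `P a (v ζ) - Ws s (v ζ) = K j s`, and `K j s = 0` if `s` is not on
the side of the strip (`im (f (v ζ)) - im (f a) = im (exp ζ)` has the sign `(-1)^j` on the strip `j`).

PROOFS. `exists_K`: fix `j` and a good level `s`, `t = s - im (f a)`. Let `C` be the set of `ζ` in the strip `j`, `ζ.re < c`, with `im (exp ζ) = t`. `C` is preconnected: for `(-1)^j t > 0` the map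
`exp` is injective on the strip with a continuous inverse `l_j` on the half plane `{w | (-1)^j im w > 0}` (`l_j w = log ((-1)^j w) + π i j`: for `(-1)^j im w > 0` the number `(-1)^j w` is in the upper half plane, its `log` has imaginary part in
`(0, π)`); `C = l_j '' {w | im w = t, |w| < exp c}` and this set is convex. Otherwise `C = ∅`. `v '' C` is preconnected and contained in `Zl s ∩ U`, on which `P a` and `Ws s` are primitives: `Prm.sub_const`. Let `K j s` be the constant value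
(0 if `C = ∅` or if `s` is not good).

`K_inv`: put `s₀ = im (f a)`, `τ = im (exp ζ₁) = im (exp ζ₂) ≠ 0`; it has the sign `(-1)^j₁ = (-1)^j₂`. For `s` with `(-1)^j₁ (s - s₀) ≤ 0` both are `0`. Otherwise let `t = log ((s - s₀) / τ)` (real), `ζᵢ' = ζᵢ + t`: same strips, `im (exp ζᵢ') = s - s₀`,
and `Re ζᵢ' < c` for `s` near `s₀`. `cont_REq` with `D = {t : ℂ | (ζ₁ + t).re < c ∧ (ζ₂ + t).re < c}` (convex, open), `v₁ t = v (ζ₁ + t)`, `v₂ t = v (ζ₂ + t)`, `t₀ = 0`, `hcount` from `VD.countable`: so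
`REq (P a) (v ζ₁') (v ζ₂')` if `s` is good (then the value is good). By `LI_line` (the leaf of `v ζ₁'` is contained in `Zl s`) `LI = Ws s (v ζ₂') - Ws s (v ζ₁') = P a (v ζ₂') - P a (v ζ₁')`, hence `K j₁ s = K j₂ s`.

`K_kap` (`f a ∈ Bad`, so good levels are `≠ s₀`; `ζ.im = π j`; `x = v ζ` is a good point): `exp ζ` is real. Take a box `N ⊆ U` around `x`, and `l` from `exp_lift` at `z₀ = f x - f a`, `ζ₀ = ζ`. For `y` near `x` with good level `s`
let `ζ' = l (f y - f a)`: near `ζ`, `f (v ζ') = f y`, `v ζ' ∈ N` and `y ∈ N`; `P a - Ws s` is constant on the preconnected set `N ∩ f ⁻¹' {im = s} ⊆ Zl s`: so `P a y - Ws s y = P a (v ζ') - Ws s (v ζ')`. As `s ≠ s₀`, `ζ'.im ≠ π j`, so `ζ'` is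
in the strip `j` or `j - 1`, and this number is `K j s` or `K (j-1) s`, the other one being `0` (its side is the other one). So it is `(K j + K (j-1)) s`. Now `IsKap.prim` and `lam_eq'`. -/

namespace Pool.Agent.MP_fe3720.NR

open Set Topology Filter

variable {Ω : Set E2} {f : E2 → ℂ} {Q : Type} [AddCommGroup Q] {P : E2 → E2 → Q} {Bad : Set ℂ}
  {Ws : ℝ → E2 → Q}

/-- the functions `K j` -/
structure IsK (f : E2 → ℂ) (Bad : Set ℂ) (P : E2 → E2 → Q) (Ws : ℝ → E2 → Q) (a : E2) (c : ℝ)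
    (v : ℂ → E2) (K : ℤ → ℝ → Q) : Prop where
  val : ∀ (j : ℤ) (ζ : ℂ), ζ.re < c → Real.pi * j < ζ.im → ζ.im < Real.pi * (j + 1) →
    GoodL Bad (f (v ζ)).im → P a (v ζ) - Ws (f (v ζ)).im (v ζ) = K j (f (v ζ)).im
  zero : ∀ (j : ℤ) (s : ℝ), ¬ (0 < (-1 : ℝ) ^ j * (s - (f a).im)) → K j s = 0

private theorem dk_exp (j : ℤ) : Complex.exp (((Real.pi * j : ℝ) : ℂ) * Complex.I) =
    (((-1 : ℝ) ^ j : ℝ) : ℂ) := by
  have h : (((Real.pi * j : ℝ) : ℂ) * Complex.I) = (j : ℂ) * (Real.pi * Complex.I) := by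
    push_cast
    ring
  rw [h, Complex.exp_int_mul, Complex.exp_pi_mul_I]
  push_cast
  rfl

private theorem dk_sq (j : ℤ) : ((-1 : ℝ) ^ j) * ((-1 : ℝ) ^ j) = 1 := by
  rw [← mul_zpow]
  norm_num

private theorem dk_split (j : ℤ) (ζ : ℂ) :
    Complex.exp (ζ - ((Real.pi * j : ℝ) : ℂ) * Complex.I) =
      (((-1 : ℝ) ^ j : ℝ) : ℂ) * Complex.exp ζ := by
  have h : Complex.exp ζ = Complex.exp (ζ - ((Real.pi * j : ℝ) : ℂ) * Complex.I) *
      (((-1 : ℝ) ^ j : ℝ) : ℂ) := by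
    rw [← dk_exp, ← Complex.exp_add]
    congr 1
    ring
  rw [h, mul_comm (Complex.exp _), ← mul_assoc, ← Complex.ofReal_mul, dk_sq, Complex.ofReal_one,
    one_mul]

private theorem dk_im (j : ℤ) (ζ : ℂ) :
    (ζ - ((Real.pi * j : ℝ) : ℂ) * Complex.I).im = ζ.im - Real.pi * j := by
  rw [Complex.sub_im, Complex.im_ofReal_mul, Complex.I_im, mul_one]

private theorem dk_sign {j : ℤ} {ζ : ℂ} (h1 : Real.pi * j < ζ.im)
    (h2 : ζ.im < Real.pi * (j + 1)) : 0 < (-1 : ℝ) ^ j * (Complex.exp ζ).im := by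
  have e : (-1 : ℝ) ^ j * (Complex.exp ζ).im =
      (Complex.exp (ζ - ((Real.pi * j : ℝ) : ℂ) * Complex.I)).im := by
    rw [dk_split, Complex.im_ofReal_mul]
  rw [e, Complex.exp_im]
  refine mul_pos (Real.exp_pos _) (Real.sin_pos_of_pos_of_lt_pi ?_ ?_)
  · rw [dk_im]
    linarith
  · rw [dk_im]
    linarith

private theorem dk_pre (j : ℤ) (c t : ℝ) :
    IsPreconnected {ζ : ℂ | ζ.re < c ∧ Real.pi * j < ζ.im ∧ ζ.im < Real.pi * (j + 1) ∧
      (Complex.exp ζ).im = t} := by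
  by_cases ht : 0 < (-1 : ℝ) ^ j * t
  swap
  · have h0 : {ζ : ℂ | ζ.re < c ∧ Real.pi * j < ζ.im ∧ ζ.im < Real.pi * (j + 1) ∧
      (Complex.exp ζ).im = t} = ∅ := by
      rw [eq_empty_iff_forall_notMem]
      rintro ζ ⟨-, h2, h3, h4⟩
      apply ht
      rw [← h4]
      exact dk_sign h2 h3
    rw [h0]
    exact isPreconnected_empty
  have hsq := dk_sq j
  have hsplit := dk_split j
  have hexp := dk_exp j
  generalize (-1 : ℝ) ^ j = ε at ht hsq hsplit hexp
  have hε : ε ≠ 0 := by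
    rintro rfl
    simp at hsq
  have hsqC : (ε : ℂ) * ε = 1 := by
    rw [← Complex.ofReal_mul, hsq, Complex.ofReal_one]
  have hnorm : ‖(ε : ℂ)‖ = 1 := by
    rw [Complex.norm_real, Real.norm_eq_abs]
    have h1 : |ε| * |ε| = 1 := by rw [← abs_mul, hsq, abs_one]
    nlinarith [abs_nonneg ε]
  have himg : {ζ : ℂ | ζ.re < c ∧ Real.pi * j < ζ.im ∧ ζ.im < Real.pi * (j + 1) ∧
      (Complex.exp ζ).im = t} =
      (fun w : ℂ => Complex.log ((ε : ℂ) * w) + ((Real.pi * j : ℝ) : ℂ) * Complex.I) ''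
        ({w : ℂ | w.im = t} ∩ Metric.ball 0 (Real.exp c)) := by
    apply Subset.antisymm
    · rintro ζ ⟨h1, h2, h3, h4⟩
      refine ⟨Complex.exp ζ, ⟨h4, ?_⟩, ?_⟩
      · rw [Metric.mem_ball, dist_zero_right, Complex.norm_exp]
        exact Real.exp_lt_exp.2 h1
      · show Complex.log ((ε : ℂ) * Complex.exp ζ) + ((Real.pi * j : ℝ) : ℂ) * Complex.I = ζ
        rw [← hsplit, Complex.log_exp, sub_add_cancel]
        · rw [dk_im]
          linarith [Real.pi_pos]
        · rw [dk_im]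
          linarith
    · rintro _ ⟨w, ⟨h1, h2⟩, rfl⟩
      have h1' : w.im = t := h1
      have hwim : 0 < ((ε : ℂ) * w).im := by
        rw [Complex.im_ofReal_mul, h1']
        exact ht
      have hw0 : w ≠ 0 := by
        rintro rfl
        simp at hwim
      have him : (((Real.pi * j : ℝ) : ℂ) * Complex.I).im = Real.pi * j := by
        rw [Complex.im_ofReal_mul, Complex.I_im, mul_one]
      have hre : (((Real.pi * j : ℝ) : ℂ) * Complex.I).re = 0 := by
        rw [Complex.re_ofReal_mul, Complex.I_re, mul_zero]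
      have harg0 : 0 < ((ε : ℂ) * w).arg := by
        refine lt_of_le_of_ne (Complex.arg_nonneg_iff.2 hwim.le) fun h => ?_
        exact hwim.ne' (Complex.arg_eq_zero_iff.1 h.symm).2
      have hargpi : ((ε : ℂ) * w).arg < Real.pi :=
        Complex.arg_lt_pi_iff.2 (Or.inr hwim.ne')
      refine ⟨?_, ?_, ?_, ?_⟩
      · rw [Complex.add_re, hre, add_zero, Complex.log_re, norm_mul, hnorm, one_mul,
          Real.log_lt_iff_lt_exp (norm_pos_iff.2 hw0)]
        rwa [Metric.mem_ball, dist_zero_right] at h2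
      · rw [Complex.add_im, him, Complex.log_im]
        linarith
      · rw [Complex.add_im, him, Complex.log_im]
        linarith
      · rw [Complex.exp_add, Complex.exp_log (mul_ne_zero (by exact_mod_cast hε) hw0), hexp]
        have h3 : (ε : ℂ) * w * ε = w := by
          linear_combination w * hsqC
        rw [h3]
        exact h1'
  rw [himg]
  have hconv : Convex ℝ ({w : ℂ | w.im = t} ∩ Metric.ball 0 (Real.exp c)) := by
    refine Convex.inter ?_ (convex_ball _ _)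
    exact (convex_singleton (𝕜 := ℝ) t).linear_preimage Complex.imLm
  refine hconv.isPreconnected.image _ fun w hw => ContinuousAt.continuousWithinAt ?_
  have hwim : 0 < ((ε : ℂ) * w).im := by
    have h1 : w.im = t := hw.1
    rw [Complex.im_ofReal_mul, h1]
    exact ht
  have h1 : ContinuousAt (fun w : ℂ => (ε : ℂ) * w) w := continuousAt_const.mul continuousAt_id
  have h2 : ContinuousAt Complex.log ((ε : ℂ) * w) :=
    continuousAt_clog (Complex.mem_slitPlane_iff.2 (Or.inr hwim.ne'))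
  exact (ContinuousAt.comp (f := fun w : ℂ => (ε : ℂ) * w) h2 h1).add continuousAt_const

theorem exists_K (hL : LeafSys Ω f Bad P) (hW : IsWs Ω f Bad P Ws) {a : E2} {k : ℕ} {c : ℝ}
    {v : ℂ → E2} {U : Set E2} (hV : VD Ω f Bad P a k c v U) :
    ∃ K : ℤ → ℝ → Q, IsK f Bad P Ws a c v K := by
  classical
  let C : ℤ → ℝ → Set ℂ := fun j s => {ζ : ℂ | ζ.re < c ∧ Real.pi * j < ζ.im ∧
    ζ.im < Real.pi * (j + 1) ∧ (Complex.exp ζ).im = s - (f a).im}
  refine ⟨fun j s => if h : (C j s).Nonempty then P a (v h.choose) - Ws s (v h.choose) else 0,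
    ?_, ?_⟩
  · intro j ζ h1 h2 h3 hg
    have hmem : ζ ∈ C j (f (v ζ)).im := by
      refine ⟨h1, h2, h3, ?_⟩
      rw [(hV.val ζ h1).2, Complex.add_im, add_sub_cancel_left]
    have hne : (C j (f (v ζ)).im).Nonempty := ⟨ζ, hmem⟩
    show _ = dite _ _ _
    rw [dif_pos hne]
    have hpre : IsPreconnected (v '' C j (f (v ζ)).im) :=
      (dk_pre j c ((f (v ζ)).im - (f a).im)).image v (hV.cont.mono fun ξ hξ => hξ.1)
    have hp1 : Prm P (v '' C j (f (v ζ)).im) (P a) := by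
      refine hV.prim.mono ?_
      rintro _ ⟨ξ, hξ, rfl⟩
      exact (hV.val ξ hξ.1).1
    have hp2 : Prm P (v '' C j (f (v ζ)).im) (Ws (f (v ζ)).im) := by
      refine (hW _ hg).mono ?_
      rintro _ ⟨ξ, hξ, rfl⟩
      refine ⟨hV.sub (hV.val ξ hξ.1).1, ?_⟩
      show (f (v ξ)).im = (f (v ζ)).im
      rw [(hV.val ξ hξ.1).2, Complex.add_im, hξ.2.2.2]
      ring
    exact Prm.sub_const hp1 hp2 hpre (mem_image_of_mem v hne.choose_spec)
      (mem_image_of_mem v hmem)
  · intro j s hs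
    have hne : ¬ (C j s).Nonempty := by
      rintro ⟨ζ, -, h2, h3, h4⟩
      apply hs
      rw [← h4]
      exact dk_sign h2 h3
    show dite _ _ _ = _
    rw [dif_neg hne]

theorem K_inv (hL : LeafSys Ω f Bad P) (hW : IsWs Ω f Bad P Ws) {a : E2} {k : ℕ} {c : ℝ}
    {v : ℂ → E2} {U : Set E2} (hV : VD Ω f Bad P a k c v U) {K : ℤ → ℝ → Q}
    (hK : IsK f Bad P Ws a c v K) {ζ₁ ζ₂ : ℂ} {j₁ j₂ : ℤ} (h₁ : ζ₁.re < c) (h₂ : ζ₂.re < c)
    (he : Complex.exp ζ₁ = Complex.exp ζ₂) (hg : f (v ζ₁) ∉ Bad)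
    (hr : REq Ω f P (P a) (v ζ₁) (v ζ₂)) (a₁ : Real.pi * j₁ < ζ₁.im)
    (b₁ : ζ₁.im < Real.pi * (j₁ + 1)) (a₂ : Real.pi * j₂ < ζ₂.im)
    (b₂ : ζ₂.im < Real.pi * (j₂ + 1)) :
    ∀ᶠ s in 𝓝[≠] (f a).im, GoodL Bad s → K j₁ s = K j₂ s := by
  have s₁ := dk_sign a₁ b₁
  have s₂ := dk_sign a₂ b₂
  rw [← he] at s₂
  have q₁ := dk_sq j₁
  have q₂ := dk_sq j₂
  set τ : ℝ := (Complex.exp ζ₁).im with hτ
  have hττ : 0 < τ * τ := by
    have h1 : τ ≠ 0 := by
      intro h
      rw [h, mul_zero] at s₁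
      exact lt_irrefl _ s₁
    exact mul_self_pos.2 h1
  have hτ0 : τ ≠ 0 := by
    rintro h
    rw [h] at hττ
    simp at hττ
  -- the two signs are equal
  have hε : (-1 : ℝ) ^ j₁ = (-1 : ℝ) ^ j₂ := by
    have h1 : ((-1 : ℝ) ^ j₁ - (-1 : ℝ) ^ j₂) * ((-1 : ℝ) ^ j₁ + (-1 : ℝ) ^ j₂) = 0 := by
      linear_combination q₁ - q₂
    rcases mul_eq_zero.1 h1 with h2 | h2
    · linarith
    · exfalso
      have h3 : (-1 : ℝ) ^ j₁ * τ + (-1 : ℝ) ^ j₂ * τ = 0 := by
        linear_combination τ * h2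
      linarith
  have htend : Tendsto (fun s : ℝ => (s - (f a).im) / τ) (𝓝 (f a).im) (𝓝 0) := by
    have h1 : Continuous (fun s : ℝ => (s - (f a).im) / τ) := by fun_prop
    have h2 := h1.tendsto (f a).im
    rwa [sub_self, zero_div] at h2
  have e1 := htend.eventually (gt_mem_nhds (Real.exp_pos (c - ζ₁.re)))
  have e2 := htend.eventually (gt_mem_nhds (Real.exp_pos (c - ζ₂.re)))
  filter_upwards [nhdsWithin_le_nhds e1, nhdsWithin_le_nhds e2] with s hs1 hs2 hgs
  by_cases hside : 0 < (-1 : ℝ) ^ j₁ * (s - (f a).im)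
  swap
  · rw [hK.zero j₁ s hside, hK.zero j₂ s (by rw [← hε]; exact hside)]
  have hratio : 0 < (s - (f a).im) / τ := by
    have h1 : 0 < ((-1 : ℝ) ^ j₁ * (s - (f a).im)) * ((-1 : ℝ) ^ j₁ * τ) := mul_pos hside s₁
    have h2 : ((-1 : ℝ) ^ j₁ * (s - (f a).im)) * ((-1 : ℝ) ^ j₁ * τ) = (s - (f a).im) * τ := by
      linear_combination ((s - (f a).im) * τ) * q₁
    rw [h2] at h1
    have h3 : (s - (f a).im) / τ = ((s - (f a).im) * τ) / (τ * τ) := by
      field_simp
    rw [h3]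
    exact div_pos h1 hττ
  set T : ℝ := Real.log ((s - (f a).im) / τ) with hT
  have hexpT : Real.exp T = (s - (f a).im) / τ := Real.exp_log hratio
  have hT1 : ζ₁.re + T < c := by
    have : T < c - ζ₁.re := by rw [hT, Real.log_lt_iff_lt_exp hratio]; exact hs1
    linarith
  have hT2 : ζ₂.re + T < c := by
    have : T < c - ζ₂.re := by rw [hT, Real.log_lt_iff_lt_exp hratio]; exact hs2
    linarith
  have hre : ∀ ζ : ℂ, (ζ + (T : ℂ)).re = ζ.re + T := fun ζ => by
    rw [Complex.add_re, Complex.ofReal_re]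
  have him : ∀ ζ : ℂ, (ζ + (T : ℂ)).im = ζ.im := fun ζ => by
    rw [Complex.add_im, Complex.ofReal_im, add_zero]
  -- continuation
  set D : Set ℂ := {t : ℂ | (ζ₁ + t).re < c ∧ (ζ₂ + t).re < c} with hD
  have hDo : IsOpen D := by
    have o1 : IsOpen {t : ℂ | (ζ₁ + t).re < c} :=
      isOpen_lt (Complex.continuous_re.comp (continuous_const.add continuous_id)) continuous_const
    have o2 : IsOpen {t : ℂ | (ζ₂ + t).re < c} :=
      isOpen_lt (Complex.continuous_re.comp (continuous_const.add continuous_id)) continuous_const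
    exact o1.inter o2
  have hDc : Convex ℝ D := by
    have h1 : D = {t : ℂ | t.re < c - ζ₁.re} ∩ {t : ℂ | t.re < c - ζ₂.re} := by
      ext t
      simp only [hD, mem_ofPred_eq, mem_inter_iff, Complex.add_re]
      constructor
      · rintro ⟨h1, h2⟩
        constructor <;> linarith
      · rintro ⟨h1, h2⟩
        constructor <;> linarith
    rw [h1]
    exact (convex_halfSpace_re_lt _).inter (convex_halfSpace_re_lt _)
  have hc1 : ContinuousOn (fun t => v (ζ₁ + t)) D :=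
    hV.cont.comp (Continuous.continuousOn (by fun_prop)) fun t ht => ht.1
  have hc2 : ContinuousOn (fun t => v (ζ₂ + t)) D :=
    hV.cont.comp (Continuous.continuousOn (by fun_prop)) fun t ht => ht.2
  have hcount : {t | t ∈ D ∧ f (v (ζ₁ + t)) ∈ Bad}.Countable := by
    have h1 : ((fun t : ℂ => ζ₁ + t) ⁻¹' {ζ : ℂ | ζ.re < c ∧ f (v ζ) ∈ Bad}).Countable :=
      (hV.countable hL.countable).preimage (add_right_injective ζ₁)
    refine h1.mono fun t ht => ?_
    show (ζ₁ + t).re < c ∧ f (v (ζ₁ + t)) ∈ Bad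
    exact ⟨ht.1.1, ht.2⟩
  have h0D : (0 : ℂ) ∈ D := by
    constructor
    · rw [add_zero]
      exact h₁
    · rw [add_zero]
      exact h₂
  have hcont := cont_REq hL hV.isOpen hV.sub hV.prim hDo hDc hc1 hc2
    (fun t ht => (hV.val _ ht.1).1) (fun t ht => (hV.val _ ht.2).1)
    (fun t ht => by
      show f (v (ζ₁ + t)) = f (v (ζ₂ + t))
      rw [(hV.val _ ht.1).2, (hV.val _ ht.2).2, Complex.exp_add, Complex.exp_add, he])
    hcount h0D
    (by
      show f (v (ζ₁ + 0)) ∉ Bad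
      rw [add_zero]
      exact hg)
    (by
      show REq Ω f P (P a) (v (ζ₁ + 0)) (v (ζ₂ + 0))
      rw [add_zero, add_zero]
      exact hr)
  have hTD : (T : ℂ) ∈ D := ⟨by rw [hre]; exact hT1, by rw [hre]; exact hT2⟩
  have hv1 := hV.val (ζ₁ + T) hTD.1
  have hv2 := hV.val (ζ₂ + T) hTD.2
  have hexpim : ∀ ζ : ℂ, (Complex.exp (ζ + T)).im = (Complex.exp ζ).im * Real.exp T := by
    intro ζ
    rw [Complex.exp_add, ← Complex.ofReal_exp, Complex.im_mul_ofReal]
  have hlev1 : (f (v (ζ₁ + T))).im = s := by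
    rw [hv1.2, Complex.add_im, hexpim, hexpT, ← hτ, mul_div_cancel₀ _ hτ0]
    ring
  have hlev2 : (f (v (ζ₂ + T))).im = s := by
    rw [hv2.2, Complex.add_im, hexpim, hexpT, ← he, ← hτ, mul_div_cancel₀ _ hτ0]
    ring
  have hgv : f (v (ζ₁ + T)) ∉ Bad := fun hb => hgs _ hb hlev1
  have hR := hcont T hTD hgv
  have hR1 : v (ζ₂ + T) ∈ LF Ω f (v (ζ₁ + T)) := hR.1
  have hR2 : LI Ω f P (v (ζ₁ + T)) (v (ζ₂ + T)) =
      P a (v (ζ₂ + T)) - P a (v (ζ₁ + T)) := hR.2
  have hline := LI_line (P := P) (hV.sub hv1.1) hR1 (W := Ws s) (S := Zl Ω f s)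
    (fun y hy => ⟨(LF_val hy).1, by
      show (f y).im = s
      rw [(LF_val hy).2, hlev1]⟩) (hW s hgs)
  have k1 := hK.val j₁ (ζ₁ + T) hTD.1 (by rw [him]; exact a₁) (by rw [him]; exact b₁)
    (by rw [hlev1]; exact hgs)
  have k2 := hK.val j₂ (ζ₂ + T) hTD.2 (by rw [him]; exact a₂) (by rw [him]; exact b₂)
    (by rw [hlev2]; exact hgs)
  rw [hlev1] at k1
  rw [hlev2] at k2
  rw [← k1, ← k2]
  have h5 : Ws s (v (ζ₂ + T)) - Ws s (v (ζ₁ + T)) =
      P a (v (ζ₂ + T)) - P a (v (ζ₁ + T)) := hline.symm.trans hR2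
  have h6 := sub_eq_sub_iff_add_eq_add.1 h5
  rw [sub_eq_sub_iff_add_eq_add, add_comm, h6, add_comm]

theorem K_kap (hL : LeafSys Ω f Bad P) (hW : IsWs Ω f Bad P Ws) {a : E2} {k : ℕ} {c : ℝ}
    {v : ℂ → E2} {U : Set E2} (hV : VD Ω f Bad P a k c v U) {K : ℤ → ℝ → Q}
    (hK : IsK f Bad P Ws a c v K) (ha : f a ∈ Bad) {ζ : ℂ} {j : ℤ} (hc : ζ.re < c)
    (hj : ζ.im = Real.pi * j) (hg : f (v ζ) ∉ Bad) :
    lam f Bad P Ws (f a).im (v ζ) = QuotientAddGroup.mk (K j + K (j - 1)) := by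
  obtain ⟨hvU, hvf⟩ := hV.val ζ hc
  have hvΩ := hV.sub hvU
  have hchart : HasChart Ω f (v ζ) := hL.chart _ hvΩ hg
  have hexp0 : (Complex.exp ζ).im = 0 := by
    rw [Complex.exp_im, hj, mul_comm Real.pi, Real.sin_int_mul_pi, mul_zero]
  have hlev : (f (v ζ)).im = (f a).im := by
    rw [hvf, Complex.add_im, hexp0, add_zero]
  have hopen : IsOpen {ζ : ℂ | ζ.re < c} := isOpen_lt Complex.continuous_re continuous_const
  have hvat : ContinuousAt v ζ := hV.cont.continuousAt (hopen.mem_nhds hc)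
  obtain ⟨N, hNU, r, hr, hb⟩ := exists_box hchart (hV.isOpen.mem_nhds hvU) one_pos
  have hz0 : Complex.exp ζ = f (v ζ) - f a := by rw [hvf]; ring
  obtain ⟨l, hl1, hl2, hl3⟩ := exp_lift hz0
  have hfy : Tendsto (fun y => f y - f a) (𝓝 (v ζ)) (𝓝 (f (v ζ) - f a)) :=
    (hL.contAt hvΩ).tendsto.sub_const _
  have hltend : Tendsto (fun y => l (f y - f a)) (𝓝 (v ζ)) (𝓝 ζ) := by
    have h1 := hl1.tendsto.comp hfy
    rw [hl2] at h1
    exact h1
  have e1 : ∀ᶠ y in 𝓝 (v ζ), (l (f y - f a)).re < c := hltend.eventually (hopen.mem_nhds hc)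
  have e2 : ∀ᶠ y in 𝓝 (v ζ), Complex.exp (l (f y - f a)) = f y - f a := hfy.eventually hl3
  have e3 : ∀ᶠ y in 𝓝 (v ζ), v (l (f y - f a)) ∈ N :=
    (hvat.tendsto.comp hltend).eventually (hb.isOpen.mem_nhds hb.mem)
  have himt : Tendsto (fun y => (l (f y - f a)).im) (𝓝 (v ζ)) (𝓝 ζ.im) :=
    (Complex.continuous_im.tendsto ζ).comp hltend
  have e4 : ∀ᶠ y in 𝓝 (v ζ), Real.pi * (j - 1) < (l (f y - f a)).im := by
    refine himt.eventually (lt_mem_nhds ?_)
    rw [hj]
    have := Real.pi_pos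
    nlinarith
  have e5 : ∀ᶠ y in 𝓝 (v ζ), (l (f y - f a)).im < Real.pi * (j + 1) := by
    refine himt.eventually (gt_mem_nhds ?_)
    rw [hj]
    have := Real.pi_pos
    nlinarith
  have hkey : ∀ᶠ y in 𝓝 (v ζ), GoodL Bad (f y).im →
      P a y - Ws (f y).im y = (K j + K (j - 1)) (f y).im := by
    filter_upwards [e1, e2, e3, e4, e5, hb.isOpen.mem_nhds hb.mem] with y g1 g2 g3 g4 g5 g6 hgl
    have hfv : f (v (l (f y - f a))) = f y := by
      rw [(hV.val _ g1).2, g2, add_sub_cancel]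
    have hconv : Convex ℝ {w : ℂ | w.im = (f y).im} :=
      (convex_singleton (𝕜 := ℝ) ((f y).im)).linear_preimage Complex.imLm
    have hS := hb.pre_convex hconv
    have hp1 : Prm P (N ∩ f ⁻¹' {w : ℂ | w.im = (f y).im}) (P a) :=
      hV.prim.mono fun z hz => hNU hz.1
    have hp2 : Prm P (N ∩ f ⁻¹' {w : ℂ | w.im = (f y).im}) (Ws (f y).im) :=
      (hW _ hgl).mono fun z hz => ⟨hb.sub hz.1, hz.2⟩
    have hmem : v (l (f y - f a)) ∈ N ∩ f ⁻¹' {w : ℂ | w.im = (f y).im} := by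
      refine ⟨g3, ?_⟩
      show (f (v (l (f y - f a)))).im = (f y).im
      rw [hfv]
    rw [Prm.sub_const hp1 hp2 hS hmem ⟨g6, rfl⟩]
    have hne : (f y).im ≠ (f a).im := (hgl _ ha).symm
    have hexpim : (Complex.exp (l (f y - f a))).im = (f y).im - (f a).im := by
      rw [g2, Complex.sub_im]
    have hgl' : GoodL Bad (f (v (l (f y - f a)))).im := by
      rw [hfv]
      exact hgl
    rcases lt_trichotomy (l (f y - f a)).im (Real.pi * j) with hlt | heq | hgt
    · -- strip j - 1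
      have hs1 : Real.pi * ((j - 1 : ℤ) : ℝ) < (l (f y - f a)).im := by
        push_cast
        exact g4
      have hs2 : (l (f y - f a)).im < Real.pi * (((j - 1 : ℤ) : ℝ) + 1) := by
        push_cast
        rw [sub_add_cancel]
        exact hlt
      have hv := hK.val (j - 1) _ g1 hs1 hs2 hgl'
      rw [hfv] at hv
      have hsg := dk_sign hs1 hs2
      rw [hexpim] at hsg
      have hz : K j (f y).im = 0 := by
        refine hK.zero j _ fun h => ?_
        have h1 : (-1 : ℝ) ^ j = - (-1 : ℝ) ^ (j - 1) := by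
          have h2 : (-1 : ℝ) ^ j = (-1 : ℝ) ^ (j - 1) * (-1) := by
            rw [← zpow_add_one₀ (by norm_num : (-1 : ℝ) ≠ 0), sub_add_cancel]
          rw [h2, mul_neg_one]
        rw [h1, neg_mul] at h
        linarith
      rw [hv, Pi.add_apply, hz, zero_add]
    · exfalso
      apply hne
      have h1 : (Complex.exp (l (f y - f a))).im = 0 := by
        rw [Complex.exp_im, heq, mul_comm Real.pi, Real.sin_int_mul_pi, mul_zero]
      rw [hexpim] at h1
      linarith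
    · have hv := hK.val j _ g1 hgt g5 hgl'
      rw [hfv] at hv
      have hsg := dk_sign hgt g5
      rw [hexpim] at hsg
      have hz : K (j - 1) (f y).im = 0 := by
        refine hK.zero (j - 1) _ fun h => ?_
        have h1 : (-1 : ℝ) ^ j = - (-1 : ℝ) ^ (j - 1) := by
          have h2 : (-1 : ℝ) ^ j = (-1 : ℝ) ^ (j - 1) * (-1) := by
            rw [← zpow_add_one₀ (by norm_num : (-1 : ℝ) ≠ 0), sub_add_cancel]
          rw [h2, mul_neg_one]
        rw [h1, neg_mul] at hsg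
        linarith
      rw [hv, Pi.add_apply, hz, add_zero]
  have hkap := IsKap.prim hV.isOpen hV.prim hvU hkey
  exact lam_eq' hchart hlev hkap

end Pool.Agent.MP_fe3720.NR
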