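import Pool.Agent.Work.MP_fe3720_an.NR.Cont

/-! # DiscV: the families `v` near a point `a`

PROOF of `exists_VD`. Let `k, r, h` be the disc at `a` (`HasDiscs`), `U ⊆ Ω` an open neighbourhood of `a` on which `P a` is a primitive (`IsLS.prm`). As `h` is continuous at `0`, after
shrinking `r` we may assume `h z ∈ U` for `|z| < r`. Put `c = k log r` and `v ζ = h (exp (ζ / k))`: `|exp (ζ / k)| = exp (Re ζ / k) < r` for `Re ζ < c`. `val`: `exp (ζ / k) ^ k = exp ζ`. `per`: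
`exp ((ζ + 2 π i k) / k) = exp (ζ / k)`. `tend`: `exp (ζ / k) → 0` as `Re ζ → -∞`.
`near`: let `B' = insert (f a) Bad` (countable), `V ⊆ U` a ball around `a` such that `|f y - f a| < exp c` for `y ∈ V`. `E = V ∩ f ⁻¹' B'ᶜ` is preconnected (`LeafSys.sep`). Let `T y` be the statement
`∃ ζ, ζ.re < c ∧ exp ζ = f y - f a ∧ REq (P a) (v ζ) y`. We show `T y` for all `y ∈ E` by `const_of_loc`.
 (1) `T` holds at some point of `E`: choose `c'` with `v ζ ∈ V` for `Re ζ < c'` (`tend`), and `ζ` with `Re ζ < c'`, `Re ζ < c`, `f a + exp ζ ∉ Bad` (the set of `ζ` with `f a + exp ζ ∈ Bad` is countable, a half plane is not);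
 `y = v ζ`, `REq_refl`.
 (2) `T` is open: `y ∈ E`, `ζ` as in `T y`. For `y' ∈ E` near `y` put `ζ' = ζ + log ((f y' - f a) / (f y - f a))`: near `ζ`, `exp ζ' = f y' - f a`; `REq_loc` at `(v ζ, y)` (`v ζ, y ∈ U`).
 (3) the complement is open: let `y ∈ E`, `¬ T y`. Fix `ζ₀` with `exp ζ₀ = f y - f a` (`ζ₀ = log`; `Re ζ₀ = log |f y - f a| < c`). For `j = 0, .., k - 1` put `ζ_j = ζ₀ + 2 π i j`; `¬ REq (P a) (v ζ_j) y`, `f (v ζ_j) = f y` good, so by
 `REq_not_loc` there are neighbourhoods. For `y' ∈ E` near `y`: if `T y'` with `ζ'`, then `exp ζ' = f y' - f a = exp (ζ₀ + l)`, `l = log ((f y' - f a) / (f y - f a))` small; so `ζ' = ζ₀ + l + 2 π i m`, `m : ℤ`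
 (`Complex.exp_eq_exp_iff_exists_int`); by periodicity (`VD.per` iterated, also for negative multiples) we may replace `m` by `j = m % k`: `v ζ' = v (ζ_j + l)`, which is near `v ζ_j`: contradiction with `¬ REq` near.

`VD.per_int`: induction on `m`. `VD.countable`: `{ζ | ζ.re < c ∧ f (v ζ) ∈ B}` is contained in `⋃ β ∈ B, {ζ | exp ζ = β - f a}`, and each of these sets is countable (contained in
`{ζ₀ + 2 π i m | m : ℤ}`). -/

namespace Pool.Agent.MP_fe3720.NR

open Set Topology Filter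

variable {Ω : Set E2} {f : E2 → ℂ} {Q : Type} [AddCommGroup Q] {P : E2 → E2 → Q} {Bad : Set ℂ}

private theorem dvLift {z₀ : ℂ} {ζ₀ : ℂ} (h : Complex.exp ζ₀ = z₀) :
    ∃ l : ℂ → ℂ, ContinuousAt l z₀ ∧ l z₀ = ζ₀ ∧ ∀ᶠ z in 𝓝 z₀, Complex.exp (l z) = z := by
  have hz : z₀ ≠ 0 := by
    rw [← h]
    exact Complex.exp_ne_zero _
  refine ⟨fun z => ζ₀ + Complex.log (z / z₀), ?_, ?_, ?_⟩
  · have h1 : ContinuousAt (fun z : ℂ => z / z₀) z₀ := continuousAt_id.div_const z₀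
    have h2 : ContinuousAt Complex.log (z₀ / z₀) := by
      rw [div_self hz]
      exact continuousAt_clog Complex.one_mem_slitPlane
    exact continuousAt_const.add (ContinuousAt.comp (f := fun z : ℂ => z / z₀) h2 h1)
  · show ζ₀ + Complex.log (z₀ / z₀) = ζ₀
    rw [div_self hz, Complex.log_one, add_zero]
  · have h3 : ∀ᶠ z in 𝓝 z₀, z ≠ 0 := eventually_ne_nhds hz
    filter_upwards [h3] with z h4
    show Complex.exp (ζ₀ + Complex.log (z / z₀)) = z
    rw [Complex.exp_add, h, Complex.exp_log (div_ne_zero h4 hz)]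
    field_simp

private theorem dvRe (k : ℕ) (m : ℤ) (ζ : ℂ) :
    (ζ + 2 * Real.pi * Complex.I * k * m).re = ζ.re := by
  have h : (2 * Real.pi * Complex.I * k * m : ℂ) = ((2 * Real.pi * k * m : ℝ) : ℂ) * Complex.I := by
    push_cast
    ring
  rw [Complex.add_re, h, Complex.re_ofReal_mul, Complex.I_re, mul_zero, add_zero]

private theorem dvPer {k : ℕ} {c : ℝ} {v : ℂ → E2}
    (h : ∀ ζ : ℂ, ζ.re < c → v (ζ + 2 * Real.pi * Complex.I * k) = v ζ) (m : ℤ) :
    ∀ ζ : ℂ, ζ.re < c → v (ζ + 2 * Real.pi * Complex.I * k * m) = v ζ := by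
  induction m using Int.induction_on with
  | zero =>
    intro ζ _
    rw [Int.cast_zero, mul_zero, add_zero]
  | succ m ih =>
    intro ζ hζ
    rw [← ih ζ hζ, ← h (ζ + 2 * Real.pi * Complex.I * k * (m : ℤ)) (by rw [dvRe]; exact hζ)]
    congr 1
    push_cast
    ring
  | pred m ih =>
    intro ζ hζ
    rw [← ih ζ hζ]
    have h2 := h (ζ + 2 * Real.pi * Complex.I * k * (-(m : ℤ) - 1 : ℤ)) (by rw [dvRe]; exact hζ)
    rw [← h2]
    congr 1
    push_cast
    ring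

private theorem dvCountExp (w : ℂ) : {ζ : ℂ | Complex.exp ζ = w}.Countable := by
  by_cases hw : ∃ ζ₀, Complex.exp ζ₀ = w
  · obtain ⟨ζ₀, h₀⟩ := hw
    refine (countable_range fun m : ℤ => ζ₀ + m * (2 * Real.pi * Complex.I)).mono ?_
    intro ζ hζ
    have h1 : Complex.exp ζ = Complex.exp ζ₀ := by
      rw [h₀]
      exact hζ
    obtain ⟨m, hm⟩ := Complex.exp_eq_exp_iff_exists_int.1 h1
    exact ⟨m, hm.symm⟩
  · refine countable_empty.mono ?_
    intro ζ hζ
    exact hw ⟨ζ, hζ⟩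

private theorem dvNear (hL : LeafSys Ω f Bad P) {a : E2} (ha : a ∈ Ω) {k : ℕ} {c : ℝ}
    {v : ℂ → E2} {U : Set E2} (hk : 1 ≤ k) (hcont : ContinuousOn v {ζ | ζ.re < c})
    (hval : ∀ ζ : ℂ, ζ.re < c → v ζ ∈ U ∧ f (v ζ) = f a + Complex.exp ζ)
    (hper : ∀ ζ : ℂ, ζ.re < c → v (ζ + 2 * Real.pi * Complex.I * k) = v ζ)
    (htend : ∀ V ∈ 𝓝 a, ∃ c' : ℝ, ∀ ζ : ℂ, ζ.re < c' → v ζ ∈ V)
    (hU : IsOpen U) (haU : a ∈ U) (hsub : U ⊆ Ω) (hprim : Prm P U (P a)) :
    ∀ᶠ y in 𝓝 a, f y ∉ Bad → f y ≠ f a →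
      ∃ ζ : ℂ, ζ.re < c ∧ Complex.exp ζ = f y - f a ∧ REq Ω f P (P a) (v ζ) y := by
  have hopen : IsOpen {ζ : ℂ | ζ.re < c} := isOpen_lt Complex.continuous_re continuous_const
  have hvat : ∀ ζ : ℂ, ζ.re < c → ContinuousAt v ζ := fun ζ hζ =>
    hcont.continuousAt (hopen.mem_nhds hζ)
  have hfa := hL.contAt ha
  -- a small ball
  have hn1 : ∀ᶠ y in 𝓝 a, ‖f y - f a‖ < Real.exp c := by
    have h1 : Tendsto (fun y => ‖f y - f a‖) (𝓝 a) (𝓝 ‖f a - f a‖) :=
      (hfa.tendsto.sub_const _).norm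
    rw [sub_self, norm_zero] at h1
    exact h1.eventually (gt_mem_nhds (Real.exp_pos c))
  obtain ⟨ρ, hρ, hball⟩ := Metric.mem_nhds_iff.1 (inter_mem hn1 (hU.mem_nhds haU))
  set V : Set E2 := Metric.ball a ρ with hV
  have hVU : V ⊆ U := fun y hy => (hball hy).2
  have hVn : ∀ y ∈ V, ‖f y - f a‖ < Real.exp c := fun y hy => (hball hy).1
  have hB : (insert (f a) Bad).Countable := hL.countable.insert _
  have hE := (hL.sep _ hB V (hVU.trans hsub) Metric.isOpen_ball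
    (convex_ball a ρ).isPreconnected).1
  set E : Set E2 := V ∩ f ⁻¹' (insert (f a) Bad)ᶜ with hEdef
  have hE1 : ∀ y ∈ E, y ∈ V ∧ f y ≠ f a ∧ f y ∉ Bad := by
    rintro y ⟨h1, h2⟩
    have h3 : ¬ (f y = f a ∨ f y ∈ Bad) := h2
    push Not at h3
    exact ⟨h1, h3.1, h3.2⟩
  let T : E2 → Prop := fun y =>
    ∃ ζ : ℂ, ζ.re < c ∧ Complex.exp ζ = f y - f a ∧ REq Ω f P (P a) (v ζ) y
  -- (1)
  obtain ⟨y₀, hy₀, hT₀⟩ : ∃ y ∈ E, T y := by
    obtain ⟨c', hc'⟩ := htend V (Metric.ball_mem_nhds a hρ)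
    have hcount : {t : ℝ | f a + Complex.exp (t : ℂ) ∈ Bad}.Countable := by
      refine hL.countable.preimage_of_injOn (f := fun t : ℝ => f a + Complex.exp (t : ℂ)) ?_
      intro s _ t _ hst
      have h1 : Complex.exp (s : ℂ) = Complex.exp (t : ℂ) := add_left_cancel hst
      rw [← Complex.ofReal_exp, ← Complex.ofReal_exp, Complex.ofReal_inj] at h1
      exact Real.exp_injective h1
    obtain ⟨t, ht1, ht2⟩ := (hcount.dense_compl ℝ).inter_open_nonempty (Iio (min c c'))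
      isOpen_Iio nonempty_Iio
    have htc : ((t : ℂ)).re < c := by
      rw [Complex.ofReal_re]
      exact lt_of_lt_of_le ht1 (min_le_left _ _)
    have htc' : ((t : ℂ)).re < c' := by
      rw [Complex.ofReal_re]
      exact lt_of_lt_of_le ht1 (min_le_right _ _)
    obtain ⟨h1, h2⟩ := hval t htc
    have h3 : f (v t) ∉ Bad := by
      rw [h2]
      exact ht2
    refine ⟨v t, ⟨hc' _ htc', ?_⟩, t, htc, by rw [h2]; ring, REq_refl hL (hsub h1) h3⟩
    show ¬ (f (v t) = f a ∨ f (v t) ∈ Bad)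
    rintro (h4 | h4)
    · rw [h2] at h4
      exact Complex.exp_ne_zero (t : ℂ) (by linear_combination h4)
    · exact h3 h4
  -- local constancy
  have hloc : ∀ y ∈ E, ∀ᶠ y' in 𝓝[E] y, T y' = T y := by
    intro y hy
    obtain ⟨hyV, hyne, hyB⟩ := hE1 y hy
    have hyΩ : y ∈ Ω := hsub (hVU hyV)
    have hfy : Tendsto (fun y' => f y' - f a) (𝓝 y) (𝓝 (f y - f a)) :=
      (hL.contAt hyΩ).tendsto.sub_const _
    have hne : f y - f a ≠ 0 := sub_ne_zero.2 hyne
    by_cases hTy : T y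
    · -- (2)
      obtain ⟨ζ, hζc, hζe, hζR⟩ := hTy
      obtain ⟨l, hl1, hl2, hl3⟩ := dvLift hζe
      have hltend : Tendsto (fun y' => l (f y' - f a)) (𝓝 y) (𝓝 ζ) := by
        have h1 := hl1.tendsto.comp hfy
        rw [hl2] at h1
        exact h1
      have e1 : ∀ᶠ y' in 𝓝 y, (l (f y' - f a)).re < c :=
        hltend.eventually (hopen.mem_nhds hζc)
      have e2 : ∀ᶠ y' in 𝓝 y, Complex.exp (l (f y' - f a)) = f y' - f a := hfy.eventually hl3
      have e3 : ∀ᶠ y' in 𝓝 y, f (v (l (f y' - f a))) = f y' →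
          f (v (l (f y' - f a))) ∉ Bad → REq Ω f P (P a) (v (l (f y' - f a))) y' := by
        have h2 : Tendsto (fun y' => (v (l (f y' - f a)), y')) (𝓝 y) (𝓝 (v ζ, y)) :=
          ((hvat ζ hζc).tendsto.comp hltend).prodMk_nhds tendsto_id
        have h3 : f (v ζ) ∉ Bad := by
          rw [(hval ζ hζc).2, hζe, add_sub_cancel]
          exact hyB
        exact h2.eventually (REq_loc hL hU hsub hprim (hval ζ hζc).1 (hVU hyV) h3 hζR)
      have hTy' : T y := ⟨ζ, hζc, hζe, hζR⟩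
      filter_upwards [mem_nhdsWithin_of_mem_nhds e1, mem_nhdsWithin_of_mem_nhds e2,
        mem_nhdsWithin_of_mem_nhds e3, self_mem_nhdsWithin] with y' g1 g2 g3 g4
      have h5 : f (v (l (f y' - f a))) = f y' := by
        rw [(hval _ g1).2, g2, add_sub_cancel]
      have h6 : T y' := ⟨_, g1, g2, g3 h5 (by rw [h5]; exact (hE1 y' g4).2.2)⟩
      exact propext ⟨fun _ => hTy', fun _ => h6⟩
    · -- (3)
      have hζe : Complex.exp (Complex.log (f y - f a)) = f y - f a := Complex.exp_log hne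
      set ζ₀ := Complex.log (f y - f a) with hζ₀
      have hζc : ζ₀.re < c := by
        rw [hζ₀, Complex.log_re]
        exact (Real.log_lt_iff_lt_exp (norm_pos_iff.2 hne)).2 (hVn y hyV)
      obtain ⟨l, hl1, hl2, hl3⟩ := dvLift hζe
      have hre : ∀ (ζ : ℂ) (j : ℕ), (ζ + 2 * Real.pi * Complex.I * j).re = ζ.re := by
        intro ζ j
        have h1 := dvRe j 1 ζ
        rw [Int.cast_one, mul_one] at h1
        exact h1
      have hexp : ∀ (ζ : ℂ) (j : ℕ),
          Complex.exp (ζ + 2 * Real.pi * Complex.I * j) = Complex.exp ζ := by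
        intro ζ j
        rw [Complex.exp_eq_exp_iff_exists_int]
        exact ⟨j, by push_cast; ring⟩
      have hltend : ∀ j : ℕ, Tendsto (fun y' => l (f y' - f a) + 2 * Real.pi * Complex.I * j)
          (𝓝 y) (𝓝 (ζ₀ + 2 * Real.pi * Complex.I * j)) := by
        intro j
        have h1 := hl1.tendsto.comp hfy
        rw [hl2] at h1
        exact h1.add_const _
      have e1 : ∀ᶠ y' in 𝓝 y, (l (f y' - f a)).re < c := by
        have h1 := hltend 0
        rw [Nat.cast_zero, mul_zero, add_zero] at h1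
        simp only [add_zero] at h1
        exact h1.eventually (hopen.mem_nhds hζc)
      have e2 : ∀ᶠ y' in 𝓝 y, Complex.exp (l (f y' - f a)) = f y' - f a := hfy.eventually hl3
      have e3 : ∀ᶠ y' in 𝓝 y, ∀ j ∈ Finset.range k,
          f (v (l (f y' - f a) + 2 * Real.pi * Complex.I * j)) = f y' →
          f (v (l (f y' - f a) + 2 * Real.pi * Complex.I * j)) ∉ Bad →
          ¬ REq Ω f P (P a) (v (l (f y' - f a) + 2 * Real.pi * Complex.I * j)) y' := by
        rw [eventually_all_finset]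
        intro j _
        have hjc : (ζ₀ + 2 * Real.pi * Complex.I * j).re < c := by
          rw [hre]
          exact hζc
        have hje : Complex.exp (ζ₀ + 2 * Real.pi * Complex.I * j) = f y - f a := by
          rw [hexp]
          exact hζe
        have h2 : Tendsto (fun y' => (v (l (f y' - f a) + 2 * Real.pi * Complex.I * j), y'))
            (𝓝 y) (𝓝 (v (ζ₀ + 2 * Real.pi * Complex.I * j), y)) :=
          ((hvat _ hjc).tendsto.comp (hltend j)).prodMk_nhds tendsto_id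
        have h3 : f (v (ζ₀ + 2 * Real.pi * Complex.I * j)) = f y := by
          rw [(hval _ hjc).2, hje, add_sub_cancel]
        have h4 : ¬ REq Ω f P (P a) (v (ζ₀ + 2 * Real.pi * Complex.I * j)) y := fun h =>
          hTy ⟨_, hjc, hje, h⟩
        exact h2.eventually (REq_not_loc hL hU hsub hprim (hval _ hjc).1 (hVU hyV)
          (by rw [h3]; exact hyB) h3 h4)
      filter_upwards [mem_nhdsWithin_of_mem_nhds e1, mem_nhdsWithin_of_mem_nhds e2,
        mem_nhdsWithin_of_mem_nhds e3, self_mem_nhdsWithin] with y' g1 g2 g3 g4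
      have h5 : ¬ T y' := by
        rintro ⟨ζ', hc', he', hR'⟩
        have h6 : Complex.exp ζ' = Complex.exp (l (f y' - f a)) := by rw [he', g2]
        obtain ⟨m, hm⟩ := Complex.exp_eq_exp_iff_exists_int.1 h6
        have hk0 : (0 : ℤ) < k := by exact_mod_cast hk
        obtain ⟨j, hj⟩ := Int.eq_ofNat_of_zero_le (Int.emod_nonneg m hk0.ne')
        have hjk : j < k := by
          have h7 := Int.emod_lt_of_pos m hk0
          rw [hj] at h7
          exact_mod_cast h7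
        have hmj : (m : ℂ) = j + k * ((m / (k : ℤ) : ℤ) : ℂ) := by
          have h8 := Int.emod_add_mul_ediv m (k : ℤ)
          rw [hj] at h8
          exact_mod_cast h8.symm
        have hjc : (l (f y' - f a) + 2 * Real.pi * Complex.I * j).re < c := by
          rw [hre]
          exact g1
        have h9 : v ζ' = v (l (f y' - f a) + 2 * Real.pi * Complex.I * j) := by
          rw [← dvPer hper (m / (k : ℤ)) _ hjc, hm, hmj]
          congr 1
          ring
        have h10 : f (v (l (f y' - f a) + 2 * Real.pi * Complex.I * j)) = f y' := by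
          rw [(hval _ hjc).2, hexp, g2, add_sub_cancel]
        rw [h9] at hR'
        exact g3 j (Finset.mem_range.2 hjk) h10 (by rw [h10]; exact (hE1 y' g4).2.2) hR'
      exact propext ⟨fun h => absurd h h5, fun h => absurd h hTy⟩
  filter_upwards [Metric.ball_mem_nhds a hρ] with y hyV hyB hyne
  have hyE : y ∈ E := by
    refine ⟨hyV, ?_⟩
    show ¬ (f y = f a ∨ f y ∈ Bad)
    rintro (h | h)
    · exact hyne h
    · exact hyB h
  have h := const_of_loc hE hloc hy₀ hyE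
  show T y
  rw [h]
  exact hT₀

theorem exists_VD (hL : LeafSys Ω f Bad P) (hD : HasDiscs Ω f) {a : E2} (ha : a ∈ Ω) :
    ∃ (k : ℕ) (c : ℝ) (v : ℂ → E2) (U : Set E2), VD Ω f Bad P a k c v U := by
  obtain ⟨k, hk, r, hr, h, hh1, hh2, hh3⟩ := hD a ha
  obtain ⟨U, hUΩ, hUo, haU, hUp⟩ := hL.ls.prm hL.isOpen ha
  have hkR : (0 : ℝ) < k := by exact_mod_cast hk
  have hkC : (k : ℂ) ≠ 0 := by
    have : k ≠ 0 := by omega
    exact_mod_cast this
  -- small discs
  have hsmall : ∀ V ∈ 𝓝 a, ∃ r' : ℝ, 0 < r' ∧ r' ≤ r ∧ ∀ z : ℂ, ‖z‖ < r' → h z ∈ V := by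
    intro V hV
    have h1 : ContinuousAt h 0 := hh1.continuousAt (Metric.ball_mem_nhds 0 hr)
    have h2 : h ⁻¹' V ∈ 𝓝 (0 : ℂ) := h1 (by rw [hh2]; exact hV)
    obtain ⟨δ, hδ, hδ'⟩ := Metric.mem_nhds_iff.1 h2
    refine ⟨min δ r, lt_min hδ hr, min_le_right _ _, fun z hz => hδ' ?_⟩
    rw [Metric.mem_ball, dist_zero_right]
    exact hz.trans_le (min_le_left _ _)
  obtain ⟨r₁, hr₁, hr₁r, hr₁U⟩ := hsmall U (hUo.mem_nhds haU)
  have hlog : ∀ (ζ : ℂ) (ρ : ℝ), 0 < ρ → ζ.re < k * Real.log ρ →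
      ‖Complex.exp (ζ / k)‖ < ρ := by
    intro ζ ρ hρ hζ
    have h1 : (ζ / k).re = ζ.re / k := by
      rw [show (k : ℂ) = ((k : ℝ) : ℂ) by push_cast; rfl, Complex.div_ofReal_re]
    rw [Complex.norm_exp, h1, ← Real.lt_log_iff_exp_lt hρ, div_lt_iff₀ hkR]
    linarith
  have hpow : ∀ ζ : ℂ, Complex.exp (ζ / k) ^ k = Complex.exp ζ := by
    intro ζ
    rw [← Complex.exp_nat_mul]
    congr 1
    field_simp
  set c : ℝ := k * Real.log r₁ with hc
  have hmem : ∀ ζ : ℂ, ζ.re < c → Complex.exp (ζ / k) ∈ Metric.ball (0 : ℂ) r := by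
    intro ζ hζ
    rw [Metric.mem_ball, dist_zero_right]
    exact (hlog ζ r₁ hr₁ hζ).trans_le hr₁r
  have hcont : ContinuousOn (fun ζ : ℂ => h (Complex.exp (ζ / k))) {ζ | ζ.re < c} := by
    refine hh1.comp ?_ fun ζ hζ => hmem ζ hζ
    exact (Complex.continuous_exp.comp (continuous_id.div_const _)).continuousOn
  have hval : ∀ ζ : ℂ, ζ.re < c → h (Complex.exp (ζ / k)) ∈ U ∧
      f (h (Complex.exp (ζ / k))) = f a + Complex.exp ζ := by
    intro ζ hζ
    refine ⟨hr₁U _ (hlog ζ r₁ hr₁ hζ), ?_⟩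
    rw [(hh3 _ (hmem ζ hζ)).2, hpow]
  have hper : ∀ ζ : ℂ, ζ.re < c → h (Complex.exp ((ζ + 2 * Real.pi * Complex.I * k) / k)) =
      h (Complex.exp (ζ / k)) := by
    intro ζ _
    congr 1
    rw [Complex.exp_eq_exp_iff_exists_int]
    refine ⟨1, ?_⟩
    field_simp
    push_cast
    ring
  have htend : ∀ V ∈ 𝓝 a, ∃ c' : ℝ, ∀ ζ : ℂ, ζ.re < c' → h (Complex.exp (ζ / k)) ∈ V := by
    intro V hV
    obtain ⟨r', hr', -, h1⟩ := hsmall V hV
    exact ⟨k * Real.log r', fun ζ hζ => h1 _ (hlog ζ r' hr' hζ)⟩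
  exact ⟨k, c, fun ζ => h (Complex.exp (ζ / k)), U,
    { one_le := hk
      cont := hcont
      val := hval
      per := hper
      tend := htend
      isOpen := hUo
      mem := haU
      sub := hUΩ
      prim := hUp
      near := dvNear hL ha hk hcont hval hper htend hUo haU hUΩ hUp }⟩

theorem VD.per_int {a : E2} {k : ℕ} {c : ℝ} {v : ℂ → E2} {U : Set E2}
    (h : VD Ω f Bad P a k c v U) (m : ℤ) {ζ : ℂ} (hζ : ζ.re < c) :
    v (ζ + 2 * Real.pi * Complex.I * k * m) = v ζ :=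
  dvPer h.per m ζ hζ

theorem VD.countable {a : E2} {k : ℕ} {c : ℝ} {v : ℂ → E2} {U : Set E2}
    (h : VD Ω f Bad P a k c v U) {B : Set ℂ} (hB : B.Countable) :
    {ζ : ℂ | ζ.re < c ∧ f (v ζ) ∈ B}.Countable := by
  refine (hB.biUnion fun β _ => dvCountExp (β - f a)).mono ?_
  rintro ζ ⟨h1, h2⟩
  rw [mem_iUnion₂]
  refine ⟨_, h2, ?_⟩
  show Complex.exp ζ = f (v ζ) - f a
  rw [(h.val ζ h1).2]
  ring

/-- solutions of `exp ζ' = f y - f a` near a given one -/
theorem exp_lift {z₀ : ℂ} {ζ₀ : ℂ} (h : Complex.exp ζ₀ = z₀) :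
    ∃ l : ℂ → ℂ, ContinuousAt l z₀ ∧ l z₀ = ζ₀ ∧ ∀ᶠ z in 𝓝 z₀, Complex.exp (l z) = z :=
  dvLift h

end Pool.Agent.MP_fe3720.NR
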