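import Pool.Agent.Work.MP_fe3720_an.NR.Problem
import Pool.Agent.Work.MP_fe3720_an.X.Defs

/-! # Final: translation of the results of `X` in the notions of the problem -/

namespace Pool.Agent.MP_fe3720.NR

open Set Topology Filter

theorem holConvex_of {Ω : Set (ℂ × ℂ)} (h : X.HolConvex Ω) :
    Dom.HolomorphicallyConvex Ω := by
  intro K hK hKc
  obtain ⟨C, hC, hCc, hx⟩ := h K hK hKc
  have hsub : Dom.hull Ω K ⊆ C := by
    intro x hxh
    by_contra hxC
    obtain ⟨g, hg, hg1, hg2⟩ := hx x ⟨hxh.1, hxC⟩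
    exact absurd (hxh.2 g hg 1 hg1) (not_le.mpr hg2)
  have hcl : IsClosed (Dom.hull Ω K) := by
    have hEq : Dom.hull Ω K = ⋂ (p : {q : (ℂ × ℂ → ℂ) × ℝ // DifferentiableOn ℂ q.1 Ω ∧
        ∀ y ∈ K, ‖q.1 y‖ ≤ q.2}), {x | x ∈ C ∧ ‖p.1.1 x‖ ≤ p.1.2} := by
      ext x
      simp only [mem_iInter]
      constructor
      · intro hx' p
        exact ⟨hsub hx', hx'.2 p.1.1 p.2.1 p.1.2 p.2.2⟩
      · intro hx'
        have h0 := hx' ⟨(fun _ => 0, 0), differentiableOn_const _, by simp⟩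
        refine ⟨hC h0.1, fun g hg M hM => ?_⟩
        exact (hx' ⟨(g, M), hg, hM⟩).2
    rw [hEq]
    refine isClosed_iInter fun p => ?_
    have hco : ContinuousOn (fun x => ‖p.1.1 x‖) C := ((p.2.1.continuousOn).mono hC).norm
    have := hco.preimage_isClosed_of_isClosed hCc.isClosed (isClosed_Iic (a := p.1.2))
    exact this
  exact hCc.of_isClosed_subset hcl hsub

theorem sum_mem {Ω : Set (ℂ × ℂ)} : ∀ (m : ℕ) (c : Fin m → ℂ) (W : Fin m → ℂ × ℂ → ℂ × ℂ),
    (∀ i, Dom.IsCompleteField Ω (W i)) → Dom.InLieAlgebra Ω (fun x => ∑ i, c i • W i x) := by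
  intro m
  induction m with
  | zero =>
    intro c W _
    have h0 : Dom.IsCompleteField Ω (fun _ => 0) := by
      refine ⟨differentiableOn_const _, fun x hx => ⟨fun _ => x, rfl, fun t => ⟨hx, ?_⟩⟩⟩
      exact hasDerivAt_const t x
    simpa using Dom.InLieAlgebra.complete _ h0
  | succ m ih =>
    intro c W hW
    have h1 := ih (fun i => c (Fin.succ i)) (fun i => W (Fin.succ i)) fun i => hW _
    have h2 := Dom.InLieAlgebra.smul (c 0) (W 0) (Dom.InLieAlgebra.complete _ (hW 0))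
    have h3 := Dom.InLieAlgebra.add _ _ h2 h1
    simpa [Fin.sum_univ_succ] using h3

theorem density_of {Ω : Set (ℂ × ℂ)} (h : X.SpanDense Ω) : Dom.DensityProperty Ω := by
  intro v hv K hK hKc ε hε
  obtain ⟨m, c, W, hW, hx⟩ := h v hv K hK hKc ε hε
  exact ⟨_, sum_mem m c W hW, hx⟩

end Pool.Agent.MP_fe3720.NR
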