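import Pool.Agent.Work.MP_fe3720_an.NR.Rel

/-! # Lift: leaf paths

PROOFS. `LPath.mono`: the eventual condition for `I` implies the one for `I' ⊆ I`.

`LPath.near`: (`β` continuous within `I` at `c`, `c ∈ I`, `β c ∉ Bad`) for `V ∈ 𝓝 (s c)`: for `c' ∈ I` near `c` there is
`y ∈ V` with `f y = β c'` and `y ∈ LF (s c')`. Indeed `s c ∈ Ω` has a chart, `f (s c) = β c`; take a box `N ⊆ V` around
`s c` with its section `σ` through `s c`; `y = σ (β c')` tends to `s c` as `c' → c` in `I`; the defining property of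
`LPath` at the point `(c', y)` near `(c, s c)` gives `y ∈ LF (s c')`.

`LPath.rel_nhds`: the same data, `y ∈ LF (s c)`: `∀ᶠ p in 𝓝 (c, y), p.1 ∈ I → f p.2 = β p.1 → p.2 ∈ LF (s p.1)`. Proof: by
`LeafSys.rel_open` at `(s c, y)` choose neighbourhoods `V` of `s c` and `V'` of `y`; for `p` near `(c, y)`, `p.1 ∈ I`,
take `y'' ∈ V`, `f y'' = β p.1`, `y'' ∈ LF (s p.1)` (`LPath.near`), `p.2 ∈ V'`: `p.2 ∈ LF y'' = LF (s p.1)`.

`LPath.unique`: let `T = {c ∈ I | s' c ∈ LF (s c)}`. `T` is relatively open in `I`: let `c ∈ T`. For `c' ∈ I` near `c` take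
(`LPath.near` for `s'`) `y` near `s' c` with `f y = β c'`, `y ∈ LF (s' c')`; as `s' c ∈ LF (s c)`, `LPath.rel_nhds` for `s` at `(c, s' c)`
gives `y ∈ LF (s c')`; so `LF (s c') = LF y = LF (s' c')` and `s' c' ∈ LF (s c')`. `I \ T` is relatively open: let `c ∈ I \ T`;
`LeafSys.haus` at `(s c, s' c)` (`f (s c) = f (s' c) = β c ∉ Bad`): pairs near `(s c, s' c)` over the same good value are in different leaves; for
`c' ∈ I` near `c` choose `y` near `s c` in `LF (s c')` and `y'` near `s' c` in `LF (s' c')` over `β c'`; if `s' c' ∈ LF (s c')`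
then `y' ∈ LF y`, contradiction. `I` is preconnected and `c₀ ∈ T`.

`LPath.sat_pre`: `Sat Ω f s I` is preconnected for preconnected `I`. Let `u, v` be open, disjoint on `Sat`, covering it, with
`Sat ∩ u`, `Sat ∩ v` nonempty. Every leaf `LF (s c)`, `c ∈ I`, is preconnected and contained in `Sat`, so it lies in `u` or in `v`
(exactly one: it is nonempty). `{c ∈ I | LF (s c) ⊆ u}` is relatively open: `s c ∈ u`, by `LPath.near` for `c'` near `c` there is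
`y ∈ u`, `y ∈ LF (s c')`, so `LF (s c') ⊆ u`. Same for `v`. This contradicts the preconnectedness of `I`.

`LPath.of_section`: if `σ` is continuous on an open set `D ⊆ ℂ` with `σ ζ ∈ Ω`, `f (σ ζ) = ζ` there, all `ζ ∈ β '' I ⊆ D` good, then
`σ ∘ β` is a leaf path over `β` on `I` if `β` is continuous on `I`: at `c`, `HasChart.rel` at `x = σ (β c)`: for `p` near `(c, x)`, `p.1 ∈ I`, the points `σ (β p.1)` and
`p.2` are near `x` and over the same value. -/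

namespace Pool.Agent.MP_fe3720.NR

open Set Topology Filter

variable {Ω : Set E2} {f : E2 → ℂ} {Q : Type} [AddCommGroup Q] {P : E2 → E2 → Q} {Bad : Set ℂ}
  {β : ℝ → ℂ} {I : Set ℝ} {s s' : ℝ → E2}

private theorem lift_const {X : Type*} [TopologicalSpace X] {I : Set X} (hI : IsPreconnected I)
    (T : X → Prop) (h : ∀ c ∈ I, ∀ᶠ c' in 𝓝[I] c, (T c' ↔ T c)) {c₀ : X} (h0 : c₀ ∈ I)
    (hT : T c₀) : ∀ c ∈ I, T c := by
  intro c hc
  by_contra hcon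
  have hop : ∀ S : X → Prop, IsOpen {x | ∃ O, IsOpen O ∧ x ∈ O ∧ ∀ z ∈ O ∩ I, S z} := by
    intro S
    rw [isOpen_iff_forall_mem_open]
    rintro x ⟨O, hO, hxO, hz⟩
    exact ⟨O, fun y hy => ⟨O, hO, hy, hz⟩, hO, hxO⟩
  have hcov : I ⊆ {x | ∃ O, IsOpen O ∧ x ∈ O ∧ ∀ z ∈ O ∩ I, T z} ∪
      {x | ∃ O, IsOpen O ∧ x ∈ O ∧ ∀ z ∈ O ∩ I, ¬ T z} := by
    intro x hx
    obtain ⟨O, hO, hxO, hsub⟩ := mem_nhdsWithin.1 (h x hx)
    by_cases hTx : T x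
    · exact Or.inl ⟨O, hO, hxO, fun z hz => (hsub hz).2 hTx⟩
    · exact Or.inr ⟨O, hO, hxO, fun z hz h1 => hTx ((hsub hz).1 h1)⟩
  have h1 : (I ∩ {x | ∃ O, IsOpen O ∧ x ∈ O ∧ ∀ z ∈ O ∩ I, T z}).Nonempty := by
    refine ⟨c₀, h0, ?_⟩
    rcases hcov h0 with h2 | ⟨O, hO, hxO, hz⟩
    · exact h2
    · exact absurd hT (hz c₀ ⟨hxO, h0⟩)
  have h2 : (I ∩ {x | ∃ O, IsOpen O ∧ x ∈ O ∧ ∀ z ∈ O ∩ I, ¬ T z}).Nonempty := by
    refine ⟨c, hc, ?_⟩
    rcases hcov hc with ⟨O, hO, hxO, hz⟩ | h3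
    · exact absurd (hz c ⟨hxO, hc⟩) hcon
    · exact h3
  obtain ⟨z, hz, ⟨O, -, hzO, h3⟩, O', -, hzO', h4⟩ := hI _ _ (hop _) (hop _) hcov h1 h2
  exact h4 z ⟨hzO', hz⟩ (h3 z ⟨hzO, hz⟩)

theorem LPath.mono {I' : Set ℝ} (h : LPath Ω f β I s) (hI : I' ⊆ I) : LPath Ω f β I' s := by
  intro c hc
  obtain ⟨h1, h2, h3⟩ := h c (hI hc)
  exact ⟨h1, h2, h3.mono fun p hp hpI => hp (hI hpI)⟩

theorem LPath.near (hL : LeafSys Ω f Bad P) (h : LPath Ω f β I s) {c : ℝ} (hc : c ∈ I)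
    (hβ : ContinuousWithinAt β I c) (hg : β c ∉ Bad) {V : Set E2} (hV : V ∈ 𝓝 (s c)) :
    ∀ᶠ c' in 𝓝[I] c, ∃ y ∈ V, f y = β c' ∧ y ∈ LF Ω f (s c') := by
  obtain ⟨h1, h2, h3⟩ := h c hc
  obtain ⟨N, hNV, r, -, hb⟩ := exists_box (hL.chart (s c) h1 (by rw [h2]; exact hg)) hV one_pos
  obtain ⟨σ, hσ, hσ0, hσN⟩ := hb.sec (s c) hb.mem
  have hball : Metric.ball (f (s c)) r ∈ 𝓝 (β c) := by
    rw [← h2]
    exact Metric.ball_mem_nhds _ hb.pos
  have hσc : ContinuousAt σ (β c) := hσ.continuousAt hball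
  have hβ' : Tendsto β (𝓝[I] c) (𝓝 (β c)) := hβ
  have hσ1 : σ (β c) = s c := by rw [← h2]; exact hσ0
  have hs : Tendsto (fun c' => σ (β c')) (𝓝[I] c) (𝓝 (s c)) := by
    rw [← hσ1]
    exact hσc.tendsto.comp hβ'
  have hp : Tendsto (fun c' => (c', σ (β c'))) (𝓝[I] c) (𝓝 (c, s c)) := by
    rw [nhds_prod_eq]
    exact (tendsto_id.mono_left nhdsWithin_le_nhds).prodMk hs
  filter_upwards [hp.eventually h3, hβ'.eventually hball, self_mem_nhdsWithin] with c' e1 e2 e3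
  obtain ⟨a1, a2⟩ := hσN _ e2
  exact ⟨σ (β c'), hNV a1, a2, e1 e3 a2⟩

theorem LPath.rel_nhds (hL : LeafSys Ω f Bad P) (h : LPath Ω f β I s) {c : ℝ} (hc : c ∈ I)
    (hβ : ContinuousWithinAt β I c) (hg : β c ∉ Bad) {y : E2} (hy : y ∈ LF Ω f (s c)) :
    ∀ᶠ p : ℝ × E2 in 𝓝 (c, y), p.1 ∈ I → f p.2 = β p.1 → p.2 ∈ LF Ω f (s p.1) := by
  obtain ⟨h1, h2, h3⟩ := h c hc
  have hr := hL.rel_open h1 (by rw [h2]; exact hg) hy
  rw [nhds_prod_eq, Filter.eventually_prod_iff] at hr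
  obtain ⟨pa, hpa, pb, hpb, hab⟩ := hr
  have hn := eventually_nhdsWithin_iff.1 (h.near hL hc hβ hg (V := {x | pa x}) hpa)
  rw [nhds_prod_eq]
  filter_upwards [hn.prod_inl _, hpb.prod_inr _] with p e1 e2 hpI hf
  obtain ⟨y'', hV, hy1, hy2⟩ := e1 hpI
  have h5 : p.2 ∈ LF Ω f y'' := hab hV e2 (by rw [hy1, hf])
  exact LF_trans hy2 h5

theorem LPath.unique (hL : LeafSys Ω f Bad P) (h : LPath Ω f β I s) (h' : LPath Ω f β I s')
    (hβ : ContinuousOn β I) (hg : ∀ c ∈ I, β c ∉ Bad) (hI : IsPreconnected I) {c₀ : ℝ}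
    (hc₀ : c₀ ∈ I) (h₀ : s' c₀ ∈ LF Ω f (s c₀)) : ∀ c ∈ I, s' c ∈ LF Ω f (s c) := by
  refine lift_const hI (fun c => s' c ∈ LF Ω f (s c)) ?_ hc₀ h₀
  intro c hc
  by_cases hT : s' c ∈ LF Ω f (s c)
  · have hr := h.rel_nhds hL hc (hβ c hc) (hg c hc) hT
    rw [nhds_prod_eq, Filter.eventually_prod_iff] at hr
    obtain ⟨pa, hpa, pb, hpb, hab⟩ := hr
    have hn := h'.near hL hc (hβ c hc) (hg c hc) (V := {x | pb x}) hpb
    filter_upwards [hn, hpa.filter_mono nhdsWithin_le_nhds, self_mem_nhdsWithin] with c' e1 e2 e3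
    obtain ⟨y, hV, hy1, hy2⟩ := e1
    have h5 : y ∈ LF Ω f (s c') := hab e2 hV e3 hy1
    exact ⟨fun _ => hT, fun _ => LF_trans h5 (LF_symm hy2)⟩
  · obtain ⟨h1, h2, -⟩ := h c hc
    obtain ⟨h1', h2', -⟩ := h' c hc
    have hr := hL.haus (s c) h1 (s' c) h1' (h2.trans h2'.symm) (by rw [h2]; exact hg c hc) hT
    rw [nhds_prod_eq, Filter.eventually_prod_iff] at hr
    obtain ⟨pa, hpa, pb, hpb, hab⟩ := hr
    have hn := h.near hL hc (hβ c hc) (hg c hc) (V := {x | pa x}) hpa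
    have hn' := h'.near hL hc (hβ c hc) (hg c hc) (V := {x | pb x}) hpb
    filter_upwards [hn, hn', self_mem_nhdsWithin] with c' e1 e2 e3
    obtain ⟨y, hV, hy1, hy2⟩ := e1
    obtain ⟨y', hV', hy1', hy2'⟩ := e2
    have h5 : y' ∉ LF Ω f y := hab hV hV' (hy1.trans hy1'.symm) (by
      show f y ∉ Bad
      rw [hy1]
      exact hg c' e3)
    refine ⟨fun h6 => absurd ?_ h5, fun h6 => absurd h6 hT⟩
    exact LF_trans (LF_symm hy2) (LF_trans h6 hy2')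

theorem LPath.sat_pre (hL : LeafSys Ω f Bad P) (h : LPath Ω f β I s)
    (hβ : ContinuousOn β I) (hg : ∀ c ∈ I, β c ∉ Bad) (hI : IsPreconnected I) :
    IsPreconnected (Sat Ω f s I) := by
  intro u v hu hv hcov hSu hSv
  by_contra hne
  have hno : ∀ z ∈ Sat Ω f s I, z ∈ u → z ∈ v → False := fun z hz h1 h2 =>
    hne ⟨z, hz, h1, h2⟩
  have hsub : ∀ c ∈ I, LF Ω f (s c) ⊆ Sat Ω f s I := fun c hc y hy => ⟨c, hc, hy⟩
  have hor : ∀ c ∈ I, LF Ω f (s c) ⊆ u ∨ LF Ω f (s c) ⊆ v := by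
    intro c hc
    refine isPreconnected_iff_subset_of_disjoint.1 (LF_pre (s c)) u v hu hv
      ((hsub c hc).trans hcov) ?_
    rw [Set.eq_empty_iff_forall_notMem]
    rintro z ⟨h1, h2, h3⟩
    exact hno z (hsub c hc h1) h2 h3
  have hself : ∀ c ∈ I, s c ∈ LF Ω f (s c) := fun c hc => LF_self (h c hc).1
  have hmu : ∀ c ∈ I, ∀ y ∈ LF Ω f (s c), y ∈ u → LF Ω f (s c) ⊆ u := by
    intro c hc y hy hyu
    rcases hor c hc with h1 | h1
    · exact h1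
    · exact (hno y (hsub c hc hy) hyu (h1 hy)).elim
  have hmv : ∀ c ∈ I, ∀ y ∈ LF Ω f (s c), y ∈ v → LF Ω f (s c) ⊆ v := by
    intro c hc y hy hyv
    rcases hor c hc with h1 | h1
    · exact (hno y (hsub c hc hy) (h1 hy) hyv).elim
    · exact h1
  obtain ⟨y, ⟨c1, hc1, hy⟩, hyu⟩ := hSu
  obtain ⟨y', ⟨c2, hc2, hy'⟩, hyv⟩ := hSv
  have hT1 : s c1 ∈ u := hmu c1 hc1 y hy hyu (hself c1 hc1)
  have key := lift_const hI (fun c => s c ∈ u) (by
    intro c hc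
    by_cases hT : s c ∈ u
    · have hn := h.near hL hc (hβ c hc) (hg c hc) (hu.mem_nhds hT)
      filter_upwards [hn, self_mem_nhdsWithin] with c' e1 e3
      obtain ⟨z, hz, -, hz2⟩ := e1
      exact ⟨fun _ => hT, fun _ => hmu c' e3 z hz2 hz (hself c' e3)⟩
    · have hsv : s c ∈ v := by
        rcases hor c hc with h1 | h1
        · exact absurd (h1 (hself c hc)) hT
        · exact h1 (hself c hc)
      have hn := h.near hL hc (hβ c hc) (hg c hc) (hv.mem_nhds hsv)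
      filter_upwards [hn, self_mem_nhdsWithin] with c' e1 e3
      obtain ⟨z, hz, -, hz2⟩ := e1
      refine ⟨fun h6 => ?_, fun h6 => absurd h6 hT⟩
      have h7 := hmv c' e3 z hz2 hz (hself c' e3)
      exact (hno (s c') (hsub c' e3 (hself c' e3)) h6 h7).elim) hc1 hT1 c2 hc2
  exact hno y' (hsub c2 hc2 hy') (hmu c2 hc2 (s c2) (hself c2 hc2) key hy') hyv

theorem LPath.of_section (hL : LeafSys Ω f Bad P) {D : Set ℂ} (hD : IsOpen D) {σ : ℂ → E2}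
    (hσ : ContinuousOn σ D) (hv : ∀ ζ ∈ D, σ ζ ∈ Ω ∧ f (σ ζ) = ζ) (hβ : ContinuousOn β I)
    (hI : ∀ c ∈ I, β c ∈ D ∧ β c ∉ Bad) : LPath Ω f β I (fun c => σ (β c)) := by
  intro c hc
  obtain ⟨hcD, hcg⟩ := hI c hc
  obtain ⟨h1, h2⟩ := hv (β c) hcD
  refine ⟨h1, h2, ?_⟩
  have hr := (hL.chart (σ (β c)) h1 (by rw [h2]; exact hcg)).rel
  rw [nhds_prod_eq, Filter.eventually_prod_iff] at hr
  obtain ⟨pa, hpa, pb, hpb, hab⟩ := hr
  have hσc : ContinuousAt σ (β c) := hσ.continuousAt (hD.mem_nhds hcD)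
  have hβ' : Tendsto β (𝓝[I] c) (𝓝 (β c)) := hβ c hc
  have hn := eventually_nhdsWithin_iff.1 ((hσc.tendsto.comp hβ').eventually hpa)
  rw [nhds_prod_eq]
  filter_upwards [hn.prod_inl _, hpb.prod_inr _] with p e1 e2 hpI hf
  refine hab (e1 hpI) e2 ?_
  show f (σ (β p.1)) = f p.2
  rw [(hv (β p.1) (hI p.1 hpI).1).2, hf]

end Pool.Agent.MP_fe3720.NR
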