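import Pool.Agent.Work.MP_fe3720_an.NR.MaxL

/-! # LineC: the components of `Ω` over a line or a ray

`β : ℝ → ℂ` is continuous with a continuous left inverse `τ` (`τ (β c) = c`), `J ⊆ ℝ` is open and order-connected, the
values `β c`, `c ∈ J`, are good. `Z = Ω ∩ f ⁻¹' (β '' J)`.

`line_open`: for `x ∈ Z`, all `z ∈ Z` near `x` are in `connectedComponentIn Z x`. Let `N` be a box around `x`, radius `r`, `f x = β c`;
choose `δ > 0` with `I' = (c - δ, c + δ) ⊆ J`, `β '' I' ⊆ ball (f x) r`. The set `N ∩ f ⁻¹' (β '' I')` is preconnected (`Box.pre`), it is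
contained in `Z` and contains `x`. If `z ∈ Z` is near `x` then `z ∈ N`, `f z = β c'`, `c' ∈ J` and `c' = τ (f z) → c`, so
`c' ∈ I'`. Use `IsPreconnected.subset_connectedComponentIn`.

`line_comp`: for `x ∈ Z`, `f x = β c₀` (`c₀ = τ (f x)`), take `I`, `s` from `exists_max`. Then
`connectedComponentIn Z x = Sat s I`. `⊇`: `Sat s I` is preconnected (`LPath.sat_pre`, `I` is order-connected), contained in `Z`, contains `x`.
`⊆`: `Sat s I ∩ Z = Sat s I` is relatively clopen in `Z`. Open: `y ∈ LF (s c)`, `c ∈ I`: by `LPath.rel_nhds`, the points `z ∈ Z` near `y` have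
`f z = β c'`, `c' = τ (f z) → c`, so `c' ∈ I` and `z ∈ LF (s c')`. Closed in `Z`: let `y ∈ Z`, `f y = β c₁`, `c₁ ∈ J`, be a limit of points
`z ∈ LF (s c_z)`, `c_z = τ (f z) ∈ I`, `c_z → c₁`; so `c₁ ∈ closure I`; if `c₁ ∉ I` this contradicts the last clause of
`exists_max`; so `c₁ ∈ I`, and `y ∈ LF (s c₁)` by `LeafSys.rel_closed` at `(s c₁, y)`: for `z` near `y` take
(`LPath.near`) `y'` near `s c₁`, `f y' = β c_z`, `y' ∈ LF (s c_z)`; then `z ∈ LF y'`. A preconnected set (the component) meeting a relatively clopen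
subset of `Z` is contained in it.

The corollaries: `line_inj`: `y ∈ comp x`, `f y = f x` gives `y ∈ LF (s c)`, `β c = f y = f x = β c₀`, `c = c₀`, `s c₀ = x`.
`line_pre`: `comp x ∩ f ⁻¹' (β '' J') = Sat s (I ∩ J')`, `I ∩ J'` is order-connected. `line_sat`: leaves of points of the component are contained in it.
`line_lpath`: `comp x = Sat s I`. -/

namespace Pool.Agent.MP_fe3720.NR

open Set Topology Filter

variable {Ω : Set E2} {f : E2 → ℂ} {Q : Type} [AddCommGroup Q] {P : E2 → E2 → Q} {Bad : Set ℂ}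
  {β : ℝ → ℂ} {τ : ℂ → ℝ} {J : Set ℝ}

theorem line_open (hL : LeafSys Ω f Bad P) (hβ : Continuous β) (hτ : Continuous τ)
    (hi : ∀ c, τ (β c) = c) (hJ : IsOpen J) (hJc : J.OrdConnected) (hg : ∀ c ∈ J, β c ∉ Bad)
    {x : E2} (hx : x ∈ Ω ∩ f ⁻¹' (β '' J)) :
    ∀ᶠ z in 𝓝 x, z ∈ Ω ∩ f ⁻¹' (β '' J) →
      z ∈ connectedComponentIn (Ω ∩ f ⁻¹' (β '' J)) x := by
  obtain ⟨hxΩ, c, hc, hcx⟩ := id hx
  have hch : HasChart Ω f x := hL.chart x hxΩ (by rw [← hcx]; exact hg c hc)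
  obtain ⟨N, -, r, -, hb⟩ := exists_box hch (U := univ) univ_mem one_pos
  have h1 : {c' | c' ∈ J ∧ β c' ∈ Metric.ball (f x) r} ∈ 𝓝 c := by
    refine Filter.inter_mem (hJ.mem_nhds hc) ?_
    have h0 : Metric.ball (f x) r ∈ 𝓝 (β c) := by
      rw [hcx]
      exact Metric.ball_mem_nhds _ hb.pos
    exact hβ.continuousAt.preimage_mem_nhds h0
  obtain ⟨δ, hδ, hδJ⟩ := Metric.mem_nhds_iff.1 h1
  have hsub : β '' Metric.ball c δ ⊆ Metric.ball (f x) r := by
    rintro _ ⟨c', hc', rfl⟩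
    exact (hδJ hc').2
  have hpre : IsPreconnected (N ∩ f ⁻¹' (β '' Metric.ball c δ)) := by
    refine hb.pre _ hsub ?_
    exact (convex_ball c δ).isPreconnected.image _ hβ.continuousOn
  have hsubZ : N ∩ f ⁻¹' (β '' Metric.ball c δ) ⊆ Ω ∩ f ⁻¹' (β '' J) := by
    rintro z ⟨hz, c', hc', hz'⟩
    exact ⟨hb.sub hz, c', (hδJ hc').1, hz'⟩
  have hxm : x ∈ N ∩ f ⁻¹' (β '' Metric.ball c δ) :=
    ⟨hb.mem, c, Metric.mem_ball_self hδ, hcx⟩
  have h2 : ∀ᶠ z in 𝓝 x, τ (f z) ∈ Metric.ball c δ := by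
    have h3 : ContinuousAt (fun z => τ (f z)) x :=
      (hτ.continuousAt).comp (hL.contAt hxΩ)
    refine h3 ?_
    have h4 : τ (f x) = c := by rw [← hcx, hi]
    change Metric.ball c δ ∈ 𝓝 (τ (f x))
    rw [h4]
    exact Metric.ball_mem_nhds _ hδ
  filter_upwards [h2, hb.isOpen.mem_nhds hb.mem] with z hz hzN hzZ
  obtain ⟨hzΩ, c', hc', hcz⟩ := hzZ
  have h5 : τ (f z) = c' := by rw [← hcz, hi]
  rw [h5] at hz
  exact hpre.subset_connectedComponentIn hxm hsubZ ⟨hzN, c', hz, hcz⟩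

theorem line_sat (hL : LeafSys Ω f Bad P) {Z : Set ℂ} {x y : E2}
    (hy : y ∈ connectedComponentIn (Ω ∩ f ⁻¹' Z) x) :
    LF Ω f y ⊆ connectedComponentIn (Ω ∩ f ⁻¹' Z) x := by
  have hyZ := connectedComponentIn_subset _ _ hy
  rw [connectedComponentIn_eq hy]
  refine (LF_pre y).subset_connectedComponentIn (LF_self hyZ.1) ?_
  intro z hz
  obtain ⟨hzΩ, hzf⟩ := LF_val hz
  exact ⟨hzΩ, by rw [mem_preimage, hzf]; exact hyZ.2⟩

theorem line_comp (hL : LeafSys Ω f Bad P) (hβ : Continuous β) (hτ : Continuous τ)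
    (hi : ∀ c, τ (β c) = c) (hJ : IsOpen J) (hJc : J.OrdConnected) (hg : ∀ c ∈ J, β c ∉ Bad)
    {x : E2} (hx : x ∈ Ω ∩ f ⁻¹' (β '' J)) :
    ∃ I ⊆ J, IsOpen I ∧ I.OrdConnected ∧ τ (f x) ∈ I ∧ ∃ s : ℝ → E2, s (τ (f x)) = x ∧
      LPath Ω f β I s ∧ connectedComponentIn (Ω ∩ f ⁻¹' (β '' J)) x = Sat Ω f s I := by
  obtain ⟨hxΩ, c₀, hc₀, hcx⟩ := id hx
  have hτx : τ (f x) = c₀ := by rw [← hcx, hi]
  obtain ⟨I, hIJ, hIo, hIc, hcI, s, hs, hsp, hlast⟩ :=
    exists_max hL hJ hJc hβ.continuousOn hg hxΩ hc₀ hcx.symm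
  have hgI : ∀ c ∈ I, β c ∉ Bad := fun c hc => hg c (hIJ hc)
  refine ⟨I, hIJ, hIo, hIc, by rw [hτx]; exact hcI, s, by rw [hτx]; exact hs, hsp, ?_⟩
  have hsubZ : Sat Ω f s I ⊆ Ω ∩ f ⁻¹' (β '' J) := by
    rintro y ⟨c, hc, hy⟩
    obtain ⟨h1, h2⟩ := LF_val hy
    exact ⟨h1, c, hIJ hc, by rw [h2]; exact (hsp c hc).2.1.symm⟩
  have hxS : x ∈ Sat Ω f s I := ⟨c₀, hcI, by rw [hs]; exact LF_self hxΩ⟩
  have hfy : ∀ {c : ℝ}, c ∈ I → ∀ {y : E2}, y ∈ LF Ω f (s c) → f y = β c := by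
    intro c hc y hy
    rw [(LF_val hy).2, (hsp c hc).2.1]
  -- relatively open
  have hopen : ∀ y ∈ Sat Ω f s I, ∀ᶠ z in 𝓝 y, z ∈ Ω ∩ f ⁻¹' (β '' J) → z ∈ Sat Ω f s I := by
    rintro y ⟨c, hc, hy⟩
    have hrel := LPath.rel_nhds hL hsp hc hβ.continuousWithinAt (hgI c hc) hy
    have hyΩ : y ∈ Ω := (LF_val hy).1
    have hcont : ContinuousAt (fun z => (τ (f z), z)) y :=
      ((hτ.continuousAt).comp (hL.contAt hyΩ)).prodMk continuousAt_id
    have hval : τ (f y) = c := by rw [hfy hc hy, hi]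
    have h1 : ∀ᶠ z in 𝓝 y, (τ (f z) ∈ I → f z = β (τ (f z)) → z ∈ LF Ω f (s (τ (f z)))) := by
      have := hcont.eventually (p := fun p : ℝ × E2 => p.1 ∈ I → f p.2 = β p.1 →
        p.2 ∈ LF Ω f (s p.1)) (by simpa only [hval] using hrel)
      exact this
    have h2 : ∀ᶠ z in 𝓝 y, τ (f z) ∈ I := by
      have h3 : ContinuousAt (fun z => τ (f z)) y := (hτ.continuousAt).comp (hL.contAt hyΩ)
      refine h3 ?_
      change I ∈ 𝓝 (τ (f y))
      rw [hval]
      exact hIo.mem_nhds hc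
    filter_upwards [h1, h2] with z hz1 hz2 hzZ
    obtain ⟨hzΩ, c', hc', hcz⟩ := hzZ
    have h5 : τ (f z) = c' := by rw [← hcz, hi]
    exact ⟨τ (f z), hz2, hz1 hz2 (by rw [h5, hcz])⟩
  -- relatively closed
  have hclosed : ∀ y ∈ Ω ∩ f ⁻¹' (β '' J), y ∉ Sat Ω f s I →
      ∀ᶠ z in 𝓝 y, z ∈ Ω ∩ f ⁻¹' (β '' J) → z ∉ Sat Ω f s I := by
    intro y hyZ hyS
    obtain ⟨hyΩ, c₁, hc₁, hcy⟩ := id hyZ
    have hval : τ (f y) = c₁ := by rw [← hcy, hi]
    have hcont : ContinuousAt (fun z => τ (f z)) y := (hτ.continuousAt).comp (hL.contAt hyΩ)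
    by_cases hcl : c₁ ∈ closure I
    · by_cases hcI1 : c₁ ∈ I
      · -- the point lies over I
        by_contra hcon
        rw [Filter.not_eventually] at hcon
        apply hyS
        refine ⟨c₁, hcI1, ?_⟩
        have hsc := hsp c₁ hcI1
        refine hL.rel_closed hsc.1 hyΩ (by rw [hsc.2.1]; exact hgI c₁ hcI1)
          (by rw [hsc.2.1, hcy]) ?_
        rw [Filter.frequently_iff]
        intro U hU
        obtain ⟨V, hV, V', hV', hVV⟩ := mem_nhds_prod_iff.1 hU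
        have hnear := LPath.near hL hsp hcI1 hβ.continuousWithinAt (hgI c₁ hcI1) hV
        rw [eventually_nhdsWithin_iff] at hnear
        have h6 : ∀ᶠ z in 𝓝 y, τ (f z) ∈ I → ∃ y ∈ V, f y = β (τ (f z)) ∧
            y ∈ LF Ω f (s (τ (f z))) := by
          have := hcont.eventually (p := fun c' : ℝ => c' ∈ I → ∃ y ∈ V, f y = β c' ∧
            y ∈ LF Ω f (s c')) (by simpa only [hval] using hnear)
          exact this
        obtain ⟨z, hz1, hz2, hz3⟩ := (hcon.and_eventually (h6.and hV')).exists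
        push Not at hz1
        obtain ⟨hzZ, c', hc', hzc⟩ := hz1
        have h7 : τ (f z) = c' := by rw [hfy hc' hzc, hi]
        rw [h7] at hz2
        obtain ⟨w, hwV, hw1, hw2⟩ := hz2 hc'
        refine ⟨(w, z), hVV ⟨hwV, hz3⟩, ?_, ?_, ?_⟩
        · rw [hfy hc' hzc]; exact hw1
        · rw [hw1]; exact hgI c' hc'
        · rw [LF_eq hw2]; exact hzc
      · have hl := hlast c₁ hc₁ hcl hcI1 y hyΩ hcy.symm
        have hcont2 : ContinuousAt (fun z => (τ (f z), z)) y := hcont.prodMk continuousAt_id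
        have h1 : ∀ᶠ z in 𝓝 y, (τ (f z) ∈ I → z ∉ LF Ω f (s (τ (f z)))) := by
          have := hcont2.eventually (p := fun p : ℝ × E2 => p.1 ∈ I →
            p.2 ∉ LF Ω f (s p.1)) (by simpa only [hval] using hl)
          exact this
        filter_upwards [h1] with z hz _ hzS
        obtain ⟨c', hc', hzc⟩ := hzS
        have h7 : τ (f z) = c' := by rw [hfy hc' hzc, hi]
        rw [h7] at hz
        exact hz hc' hzc
    · have h1 : ∀ᶠ z in 𝓝 y, τ (f z) ∉ I := by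
        have h2 : ∀ᶠ z in 𝓝 y, τ (f z) ∈ (closure I)ᶜ := by
          refine hcont ?_
          change (closure I)ᶜ ∈ 𝓝 (τ (f y))
          rw [hval]
          exact isClosed_closure.isOpen_compl.mem_nhds hcl
        filter_upwards [h2] with z hz h
        exact hz (subset_closure h)
      filter_upwards [h1] with z hz _ hzS
      obtain ⟨c', hc', hzc⟩ := hzS
      have h7 : τ (f z) = c' := by rw [hfy hc' hzc, hi]
      rw [h7] at hz
      exact hz hc'
  apply Subset.antisymm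
  · -- component contained in Sat
    set C := connectedComponentIn (Ω ∩ f ⁻¹' (β '' J)) x with hC
    have hCpre : IsPreconnected C := isPreconnected_connectedComponentIn
    have hCZ : C ⊆ Ω ∩ f ⁻¹' (β '' J) := connectedComponentIn_subset _ _
    have hxC : x ∈ C := mem_connectedComponentIn hx
    by_contra hnot
    obtain ⟨y, hyC, hyS⟩ := Set.not_subset.1 hnot
    set u : Set E2 := {z | ∀ᶠ w in 𝓝 z, w ∈ Ω ∩ f ⁻¹' (β '' J) → w ∈ Sat Ω f s I} with hu
    set v : Set E2 := {z | ∀ᶠ w in 𝓝 z, w ∈ Ω ∩ f ⁻¹' (β '' J) → w ∉ Sat Ω f s I} with hv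
    have huo : IsOpen u := isOpen_setOfPred_eventually_nhds
    have hvo : IsOpen v := isOpen_setOfPred_eventually_nhds
    obtain ⟨z, hzC, hzu, hzv⟩ := hCpre u v huo hvo (by
      intro z hz
      by_cases hzS : z ∈ Sat Ω f s I
      · exact Or.inl (hopen z hzS)
      · exact Or.inr (hclosed z (hCZ hz) hzS)) ⟨x, hxC, hopen x hxS⟩
      ⟨y, hyC, hclosed y (hCZ hyC) hyS⟩
    exact (hzv.self_of_nhds (hCZ hzC)) (hzu.self_of_nhds (hCZ hzC))
  · exact (LPath.sat_pre hL hsp hβ.continuousOn hgI hIc.isPreconnected).subset_connectedComponentIn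
      hxS hsubZ

theorem line_inj (hL : LeafSys Ω f Bad P) (hβ : Continuous β) (hτ : Continuous τ)
    (hi : ∀ c, τ (β c) = c) (hJ : IsOpen J) (hJc : J.OrdConnected) (hg : ∀ c ∈ J, β c ∉ Bad)
    {x y : E2} (hy : y ∈ connectedComponentIn (Ω ∩ f ⁻¹' (β '' J)) x) (hxy : f y = f x) :
    y ∈ LF Ω f x := by
  have hx : x ∈ Ω ∩ f ⁻¹' (β '' J) := by
    by_contra h
    rw [connectedComponentIn_eq_empty h] at hy
    exact hy
  obtain ⟨I, hIJ, hIo, hIc, hcI, s, hs, hsp, hcomp⟩ := line_comp hL hβ hτ hi hJ hJc hg hx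
  rw [hcomp] at hy
  obtain ⟨c, hc, hyc⟩ := hy
  have h1 : f y = β c := by rw [(LF_val hyc).2, (hsp c hc).2.1]
  have h2 : c = τ (f x) := by rw [← hxy, h1, hi]
  rw [h2, hs] at hyc
  exact hyc

theorem line_pre (hL : LeafSys Ω f Bad P) (hβ : Continuous β) (hτ : Continuous τ)
    (hi : ∀ c, τ (β c) = c) (hJ : IsOpen J) (hJc : J.OrdConnected) (hg : ∀ c ∈ J, β c ∉ Bad)
    (x : E2) {J' : Set ℝ} (hJ' : J'.OrdConnected) :
    IsPreconnected (connectedComponentIn (Ω ∩ f ⁻¹' (β '' J)) x ∩ f ⁻¹' (β '' J')) := by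
  by_cases hx : x ∈ Ω ∩ f ⁻¹' (β '' J)
  · obtain ⟨I, hIJ, hIo, hIc, hcI, s, hs, hsp, hcomp⟩ := line_comp hL hβ hτ hi hJ hJc hg hx
    have h1 : connectedComponentIn (Ω ∩ f ⁻¹' (β '' J)) x ∩ f ⁻¹' (β '' J') =
        Sat Ω f s (I ∩ J') := by
      rw [hcomp]
      ext y
      constructor
      · rintro ⟨⟨c, hc, hyc⟩, c', hc', hy'⟩
        have h2 : f y = β c := by rw [(LF_val hyc).2, (hsp c hc).2.1]
        have h3 : c = c' := by rw [← hi c, ← h2, ← hy', hi]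
        exact ⟨c, ⟨hc, h3 ▸ hc'⟩, hyc⟩
      · rintro ⟨c, ⟨hc, hc'⟩, hyc⟩
        have h2 : f y = β c := by rw [(LF_val hyc).2, (hsp c hc).2.1]
        exact ⟨⟨c, hc, hyc⟩, c, hc', h2.symm⟩
    rw [h1]
    exact LPath.sat_pre hL (hsp.mono inter_subset_left) hβ.continuousOn
      (fun c hc => hg c (hIJ hc.1)) (hIc.inter hJ').isPreconnected
  · rw [connectedComponentIn_eq_empty hx, empty_inter]
    exact isPreconnected_empty

end Pool.Agent.MP_fe3720.NR
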