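import Pool.Agent.Work.MP_fe3720_an.NR.Lift

/-! # MaxL: maximal leaf paths

PROOF of `exists_max`. `J ⊆ ℝ` open and order-connected, `β` continuous on `J` with good values, `x ∈ Ω`, `f x = β c₀`, `c₀ ∈ J`.
Consider all pairs `(I', s')`: `I' ⊆ J` open, order-connected, `c₀ ∈ I'`, `s'` a leaf path over `β` on `I'` with `x ∈ LF (s' c₀)`. Such
pairs exist: a box around `x` with its section `σ` through `x` and `I' = (c₀ - δ, c₀ + δ)` with `β '' I' ⊆ ball (β c₀) r`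
(`LPath.of_section`). Two pairs agree up to `LF` on `I' ∩ I''` (`LPath.unique`, order-connected). Let `I` be the union of all `I'` (open,
order-connected: all contain `c₀`), and `s c = s' c` for a chosen pair with `c ∈ I'`, but `s c₀ = x`. `s` is a leaf path
on `I`: at `c ∈ I` with the chosen pair `(I', s')`, near `c` all `c'` are in `I'` (open), `LF (s c') = LF (s' c')` by uniqueness, and
`LPath.rel_nhds` for `s'` at `(c, s c)`, `s c ∈ LF (s' c)`.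
LAST CLAUSE. Let `c₁ ∈ J`, `c₁ ∈ closure I`, `c₁ ∉ I`, `y ∈ Ω`, `f y = β c₁`, and suppose that for `p` arbitrarily near `(c₁, y)` one has `p.1 ∈ I`,
`p.2 ∈ LF (s p.1)`. Take a box `N` around `y` of radius `r`, `δ > 0` with `(c₁ - δ, c₁ + δ) ⊆ J` and `β` maps it in
`ball (β c₁) r`, and such a `p` with `|p.1 - c₁| < δ`, `p.2 ∈ N`. Let `σ` be the section of the box through `p.2` (its value is
`f p.2 = β p.1`, by `LF_val`). Then `σ ∘ β` is a leaf path on `I'' = (c₁ - δ, c₁ + δ)` and `σ (β p.1) = p.2 ∈ LF (s p.1)`. By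
uniqueness `s` and `σ ∘ β` agree on `I ∩ I''` (order-connected, contains `p.1`). The glued path (`s` on `I`, `σ ∘ β` on `I'' \ I`) on `I ∪ I''`
is a leaf path (use `LPath.rel_nhds` of `σ ∘ β` at points of `I''`), `I ∪ I''` is open and order-connected: so `I'' ⊆ I`,
and `c₁ ∈ I`, contradiction. -/

namespace Pool.Agent.MP_fe3720.NR

open Set Topology Filter

variable {Ω : Set E2} {f : E2 → ℂ} {Q : Type} [AddCommGroup Q] {P : E2 → E2 → Q} {Bad : Set ℂ}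
  {β : ℝ → ℂ}

private theorem maxl_glue (hL : LeafSys Ω f Bad P) {A : Type} (I : A → Set ℝ)
    (S : A → ℝ → E2) (hIo : ∀ a, IsOpen (I a)) (hβ : ∀ a, ContinuousOn β (I a))
    (hg : ∀ a, ∀ c ∈ I a, β c ∉ Bad) (hP : ∀ a, LPath Ω f β (I a) (S a))
    (hc : ∀ a b c, c ∈ I a → c ∈ I b → S b c ∈ LF Ω f (S a c)) {s : ℝ → E2}
    (hs : ∀ c ∈ ⋃ a, I a, ∃ a, c ∈ I a ∧ s c ∈ LF Ω f (S a c)) :
    LPath Ω f β (⋃ a, I a) s := by
  intro c hcI
  obtain ⟨a, ha, hsa⟩ := hs c hcI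
  obtain ⟨h1, h2⟩ := LF_val hsa
  refine ⟨h1, h2.trans (hP a c ha).2.1, ?_⟩
  have h3 := (hP a).rel_nhds hL ha (hβ a c ha) (hg a c ha) hsa
  have h4 : ∀ᶠ p : ℝ × E2 in 𝓝 (c, s c), p.1 ∈ I a :=
    continuousAt_fst.eventually ((hIo a).mem_nhds ha)
  filter_upwards [h3, h4] with p h5 h6 h7 h8
  obtain ⟨b, hb, hsb⟩ := hs p.1 h7
  have h9 := h5 h6 h8
  have h10 : s p.1 ∈ LF Ω f (S a p.1) := LF_trans (hc a b p.1 h6 hb) hsb
  exact LF_trans (LF_symm h10) h9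

theorem exists_max (hL : LeafSys Ω f Bad P) {J : Set ℝ} (hJ : IsOpen J) (hJc : J.OrdConnected)
    (hβ : ContinuousOn β J) (hg : ∀ c ∈ J, β c ∉ Bad) {x : E2} (hx : x ∈ Ω) {c₀ : ℝ}
    (hc₀ : c₀ ∈ J) (hx₀ : f x = β c₀) :
    ∃ I ⊆ J, IsOpen I ∧ I.OrdConnected ∧ c₀ ∈ I ∧ ∃ s : ℝ → E2, s c₀ = x ∧ LPath Ω f β I s ∧
      ∀ c₁ ∈ J, c₁ ∈ closure I → c₁ ∉ I → ∀ y ∈ Ω, f y = β c₁ →
        ∀ᶠ p : ℝ × E2 in 𝓝 (c₁, y), p.1 ∈ I → p.2 ∉ LF Ω f (s p.1) := by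
  classical
  let A : Type := {q : Set ℝ × (ℝ → E2) // q.1 ⊆ J ∧ IsOpen q.1 ∧ q.1.OrdConnected ∧ c₀ ∈ q.1 ∧
    LPath Ω f β q.1 q.2 ∧ x ∈ LF Ω f (q.2 c₀)}
  have hc : ∀ (a b : A) (c : ℝ), c ∈ a.1.1 → c ∈ b.1.1 → b.1.2 c ∈ LF Ω f (a.1.2 c) := by
    intro a b c ha hb
    obtain ⟨a1, a2, a3, a4, a5, a6⟩ := a.2
    obtain ⟨b1, b2, b3, b4, b5, b6⟩ := b.2
    have hord : (a.1.1 ∩ b.1.1).OrdConnected := a3.inter b3
    refine (a5.mono inter_subset_left).unique hL (b5.mono inter_subset_right)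
      (hβ.mono (inter_subset_left.trans a1)) (fun c hc => hg c (a1 hc.1)) hord.isPreconnected
      (c₀ := c₀) ⟨a4, b4⟩ ?_ c ⟨ha, hb⟩
    exact LF_trans a6 (LF_symm b6)
  have hne : Nonempty A := by
    obtain ⟨N, -, r, -, hb⟩ := exists_box (hL.chart x hx (by rw [hx₀]; exact hg c₀ hc₀))
      (U := univ) univ_mem one_pos
    obtain ⟨σ, hσ, hσx, hσN⟩ := hb.sec x hb.mem
    have hβc : ContinuousAt β c₀ := hβ.continuousAt (hJ.mem_nhds hc₀)
    have h1 : ∀ᶠ c in 𝓝 c₀, c ∈ J ∧ β c ∈ Metric.ball (f x) r := by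
      have h2 : Metric.ball (f x) r ∈ 𝓝 (β c₀) := by
        rw [← hx₀]
        exact Metric.ball_mem_nhds _ hb.pos
      have h0 : ∀ᶠ c in 𝓝 c₀, c ∈ J := hJ.mem_nhds hc₀
      exact h0.and (hβc.eventually_mem h2)
    obtain ⟨δ, hδ, hball⟩ := Metric.eventually_nhds_iff_ball.1 h1
    rw [Real.ball_eq_Ioo] at hball
    refine ⟨⟨(Ioo (c₀ - δ) (c₀ + δ), fun c => σ (β c)), fun c hc => (hball c hc).1, isOpen_Ioo,
      ordConnected_Ioo, ⟨by linarith, by linarith⟩, ?_, ?_⟩⟩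
    · exact LPath.of_section hL Metric.isOpen_ball hσ (fun ζ hζ => ⟨hb.sub (hσN ζ hζ).1,
        (hσN ζ hζ).2⟩) (hβ.mono fun c hc => (hball c hc).1)
        (fun c hc => ⟨(hball c hc).2, hg c (hball c hc).1⟩)
    · show x ∈ LF Ω f (σ (β c₀))
      rw [← hx₀, hσx]
      exact LF_self hx
  obtain ⟨a0⟩ := hne
  let I : Set ℝ := ⋃ a : A, a.1.1
  have hIJ : I ⊆ J := iUnion_subset fun a => a.2.1
  have hIo : IsOpen I := isOpen_iUnion fun a => a.2.2.1
  have hc0 : ∀ a : A, c₀ ∈ a.1.1 := fun a => a.2.2.2.2.1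
  have hIp : IsPreconnected I := isPreconnected_iUnion ⟨c₀, mem_iInter.2 hc0⟩
    fun a => a.2.2.2.1.isPreconnected
  have hcI : c₀ ∈ I := mem_iUnion.2 ⟨a0, hc0 a0⟩
  let s : ℝ → E2 := fun c => if c = c₀ then x else
    if h : ∃ a : A, c ∈ a.1.1 then h.choose.1.2 c else x
  have hs0 : s c₀ = x := by simp [s]
  have hs : ∀ c ∈ I, ∃ a : A, c ∈ a.1.1 ∧ s c ∈ LF Ω f (a.1.2 c) := by
    intro c hc
    by_cases h1 : c = c₀
    · subst h1
      refine ⟨a0, hc0 a0, ?_⟩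
      rw [hs0]
      exact a0.2.2.2.2.2.2
    · have h2 : ∃ a : A, c ∈ a.1.1 := mem_iUnion.1 hc
      refine ⟨h2.choose, h2.choose_spec, ?_⟩
      have h3 : s c = h2.choose.1.2 c := by
        simp only [s, if_neg h1, dif_pos h2]
      rw [h3]
      exact LF_self (h2.choose.2.2.2.2.2.1 c h2.choose_spec).1
  have hP : LPath Ω f β I s := maxl_glue hL (fun a : A => a.1.1) (fun a : A => a.1.2)
    (fun a => a.2.2.1) (fun a => hβ.mono a.2.1) (fun a c hc => hg c (a.2.1 hc))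
    (fun a => a.2.2.2.2.2.1) hc hs
  refine ⟨I, hIJ, hIo, hIp.ordConnected, hcI, s, hs0, hP, ?_⟩
  intro c₁ hc₁ _ hcn y hy hfy
  by_contra hcon
  rw [Filter.not_eventually] at hcon
  obtain ⟨N, -, r, -, hb⟩ := exists_box (hL.chart y hy (by rw [hfy]; exact hg c₁ hc₁))
    (U := univ) univ_mem one_pos
  have hβc : ContinuousAt β c₁ := hβ.continuousAt (hJ.mem_nhds hc₁)
  have h1 : ∀ᶠ c in 𝓝 c₁, c ∈ J ∧ β c ∈ Metric.ball (f y) r := by
    have h2 : Metric.ball (f y) r ∈ 𝓝 (β c₁) := by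
      rw [← hfy]
      exact Metric.ball_mem_nhds _ hb.pos
    have h0 : ∀ᶠ c in 𝓝 c₁, c ∈ J := hJ.mem_nhds hc₁
    exact h0.and (hβc.eventually_mem h2)
  obtain ⟨δ, hδ, hball⟩ := Metric.eventually_nhds_iff_ball.1 h1
  rw [Real.ball_eq_Ioo] at hball
  have e1 : ∀ᶠ p : ℝ × E2 in 𝓝 (c₁, y), p.1 ∈ Ioo (c₁ - δ) (c₁ + δ) :=
    continuousAt_fst.eventually (Ioo_mem_nhds (by linarith) (by linarith))
  have e2 : ∀ᶠ p : ℝ × E2 in 𝓝 (c₁, y), p.2 ∈ N :=
    continuousAt_snd.eventually (hb.isOpen.mem_nhds hb.mem)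
  obtain ⟨p, hp, hp1, hp2⟩ := (hcon.and_eventually (e1.and e2)).exists
  rw [Classical.not_imp, not_not] at hp
  obtain ⟨hpI, hpL⟩ := hp
  obtain ⟨σ, hσ, hσp, hσN⟩ := hb.sec p.2 hp2
  have hfp : f p.2 = β p.1 := (LF_val hpL).2.trans (hP p.1 hpI).2.1
  have hP2 : LPath Ω f β (Ioo (c₁ - δ) (c₁ + δ)) (fun c => σ (β c)) :=
    LPath.of_section hL Metric.isOpen_ball hσ (fun ζ hζ => ⟨hb.sub (hσN ζ hζ).1,
      (hσN ζ hζ).2⟩) (hβ.mono fun c hc => (hball c hc).1)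
      (fun c hc => ⟨(hball c hc).2, hg c (hball c hc).1⟩)
  have hord : (I ∩ Ioo (c₁ - δ) (c₁ + δ)).OrdConnected := hIp.ordConnected.inter ordConnected_Ioo
  have hu := (hP.mono (inter_subset_left (t := Ioo (c₁ - δ) (c₁ + δ)))).unique hL
    (hP2.mono (inter_subset_right (s := I)))
    (hβ.mono (inter_subset_left.trans hIJ)) (fun c hc => hg c (hIJ hc.1)) hord.isPreconnected
    (c₀ := p.1) ⟨hpI, hp1⟩ (by
      show σ (β p.1) ∈ LF Ω f (s p.1)
      rw [← hfp, hσp]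
      exact hpL)
  have hglue := maxl_glue hL (fun b : Bool => cond b I (Ioo (c₁ - δ) (c₁ + δ)))
    (fun b : Bool => cond b s (fun c => σ (β c)))
    (fun b => by cases b <;> simp [hIo, isOpen_Ioo])
    (fun b => by
      cases b
      · exact hβ.mono fun c hc => (hball c hc).1
      · exact hβ.mono hIJ)
    (fun b c hc => by
      cases b
      · exact hg c (hball c hc).1
      · exact hg c (hIJ hc))
    (fun b => by
      cases b
      · exact hP2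
      · exact hP)
    (fun b b' c hc hc' => by
      cases b <;> cases b'
      · exact LF_self (hP2 c hc).1
      · exact LF_symm (hu c ⟨hc', hc⟩)
      · exact hu c ⟨hc, hc'⟩
      · exact LF_self (hP c hc).1)
    (s := fun c => if c ∈ I then s c else σ (β c))
    (fun c hc => by
      by_cases h3 : c ∈ I
      · refine ⟨true, h3, ?_⟩
        show (if c ∈ I then s c else σ (β c)) ∈ LF Ω f (s c)
        rw [if_pos h3]
        exact LF_self (hP c h3).1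
      · rw [← union_eq_iUnion] at hc
        have h4 : c ∈ Ioo (c₁ - δ) (c₁ + δ) := hc.resolve_left h3
        refine ⟨false, h4, ?_⟩
        show (if c ∈ I then s c else σ (β c)) ∈ LF Ω f (σ (β c))
        rw [if_neg h3]
        exact LF_self (hP2 c h4).1)
  rw [← union_eq_iUnion] at hglue
  have hmem : c₁ ∈ I := by
    refine mem_iUnion.2 ⟨⟨(I ∪ Ioo (c₁ - δ) (c₁ + δ), fun c => if c ∈ I then s c else σ (β c)),
      union_subset hIJ fun c hc => (hball c hc).1, hIo.union isOpen_Ioo,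
      (hIp.union p.1 hpI hp1 ordConnected_Ioo.isPreconnected).ordConnected, Or.inl hcI, hglue, ?_⟩,
      Or.inr ⟨by linarith, by linarith⟩⟩
    show x ∈ LF Ω f (if c₀ ∈ I then s c₀ else σ (β c₀))
    rw [if_pos hcI, hs0]
    exact LF_self hx
  exact hcn hmem

end Pool.Agent.MP_fe3720.NR
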