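import Mathlib

/-! # The notions of the problem, for open subsets of `ℂ²` (FIXED FILE)

A holomorphic function on `Ω` is a function `h : ℂ × ℂ → ℂ` which is complex differentiable on `Ω`
(its values off `Ω` play no role), a holomorphic vector field on `Ω` is a function
`v : ℂ × ℂ → ℂ × ℂ` with the same property. -/

namespace Pool.Agent.MP_fe3720.Dom

open Set Topology Filter

/-- The hull of `K` with respect to the holomorphic functions on `Ω`. -/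
def hull (Ω K : Set (ℂ × ℂ)) : Set (ℂ × ℂ) :=
  {x ∈ Ω | ∀ h : ℂ × ℂ → ℂ, DifferentiableOn ℂ h Ω → ∀ M : ℝ, (∀ y ∈ K, ‖h y‖ ≤ M) → ‖h x‖ ≤ M}

/-- `Ω` is holomorphically convex: the hull of every compact subset of `Ω` is compact. -/
def HolomorphicallyConvex (Ω : Set (ℂ × ℂ)) : Prop :=
  ∀ K ⊆ Ω, IsCompact K → IsCompact (hull Ω K)

/-- `v` is a complete holomorphic vector field on `Ω`: through every point of `Ω` there is an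
integral curve defined on all of `ℂ`, with values in `Ω`. -/
def IsCompleteField (Ω : Set (ℂ × ℂ)) (v : ℂ × ℂ → ℂ × ℂ) : Prop :=
  DifferentiableOn ℂ v Ω ∧ ∀ x ∈ Ω, ∃ γ : ℂ → ℂ × ℂ, γ 0 = x ∧
    ∀ t : ℂ, γ t ∈ Ω ∧ HasDerivAt γ (v (γ t)) t

/-- The Lie algebra generated by the complete holomorphic vector fields on `Ω`, with the Lie bracket
`[v, w] = Dw(v) - Dv(w)`. -/
inductive InLieAlgebra (Ω : Set (ℂ × ℂ)) : (ℂ × ℂ → ℂ × ℂ) → Prop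
  | complete (v : ℂ × ℂ → ℂ × ℂ) (hv : IsCompleteField Ω v) : InLieAlgebra Ω v
  | add (v w : ℂ × ℂ → ℂ × ℂ) (hv : InLieAlgebra Ω v) (hw : InLieAlgebra Ω w) :
      InLieAlgebra Ω (fun x => v x + w x)
  | smul (c : ℂ) (v : ℂ × ℂ → ℂ × ℂ) (hv : InLieAlgebra Ω v) : InLieAlgebra Ω (fun x => c • v x)
  | bracket (v w : ℂ × ℂ → ℂ × ℂ) (hv : InLieAlgebra Ω v) (hw : InLieAlgebra Ω w) :
      InLieAlgebra Ω (fun x => fderiv ℂ w x (v x) - fderiv ℂ v x (w x))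

/-- The density property: every holomorphic vector field on `Ω` is, uniformly on compact subsets of
`Ω`, a limit of elements of the Lie algebra generated by the complete fields. -/
def DensityProperty (Ω : Set (ℂ × ℂ)) : Prop :=
  ∀ v : ℂ × ℂ → ℂ × ℂ, DifferentiableOn ℂ v Ω → ∀ K ⊆ Ω, IsCompact K → ∀ ε : ℝ, 0 < ε →
    ∃ u : ℂ × ℂ → ℂ × ℂ, InLieAlgebra Ω u ∧ ∀ x ∈ K, ‖v x - u x‖ < ε

/-- `φ` restricts to a holomorphic automorphism of `Ω`. -/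
def IsAut (Ω : Set (ℂ × ℂ)) (φ : ℂ × ℂ → ℂ × ℂ) : Prop :=
  DifferentiableOn ℂ φ Ω ∧ MapsTo φ Ω Ω ∧ ∃ ψ : ℂ × ℂ → ℂ × ℂ, DifferentiableOn ℂ ψ Ω ∧
    MapsTo ψ Ω Ω ∧ (∀ x ∈ Ω, ψ (φ x) = x) ∧ ∀ x ∈ Ω, φ (ψ x) = x

/-- `D` is an infinite closed discrete subset of `Ω`. -/
def InfDiscrete (Ω D : Set (ℂ × ℂ)) : Prop :=
  D ⊆ Ω ∧ D.Infinite ∧ ∀ x ∈ Ω, ∃ U ∈ 𝓝 x, (U ∩ D).Finite

/-- (RR1) -/
def RR1 (Ω : Set (ℂ × ℂ)) (T : Set (Set (ℂ × ℂ))) : Prop :=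
  ∀ D ∈ T, ∀ D' ∈ T, ∀ g : ℂ × ℂ → ℂ × ℂ, MapsTo g D D' → InjOn g D →
    ∃ φ : ℂ × ℂ → ℂ × ℂ, IsAut Ω φ ∧ ∀ x ∈ D, φ x = g x

/-- (RR2): `ρ` is an exhaustion function of `Ω` and `R` an unbounded sequence of positive reals. -/
def RR2 (Ω : Set (ℂ × ℂ)) (T : Set (Set (ℂ × ℂ))) : Prop :=
  ∃ ρ : ℂ × ℂ → ℝ, ContinuousOn ρ Ω ∧ (∀ x ∈ Ω, 0 ≤ ρ x) ∧
    (∀ c : ℝ, IsCompact {x ∈ Ω | ρ x ≤ c}) ∧
    ∃ R : ℕ → ℝ, (∀ n, 0 < R n) ∧ (∀ C : ℝ, ∃ n, C < R n) ∧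
      ∀ D ⊆ Ω, D.Infinite →
        (∀ n, {x ∈ D | ρ x ≤ R n}.Finite ∧ {x ∈ D | ρ x ≤ R n}.ncard ≤ n) → D ∈ T

/-- (RR3) -/
def RR3 (Ω : Set (ℂ × ℂ)) (T : Set (Set (ℂ × ℂ))) : Prop :=
  ∀ D ∈ T, ∀ φ : ℂ × ℂ → ℂ × ℂ, IsAut Ω φ → φ '' D ∈ T

/-- (RR4): there are a nonzero complete holomorphic vector field `v` on `Ω` and a nonconstant
holomorphic function `f` on `Ω` with `v(f) = 0`. -/
def RR4 (Ω : Set (ℂ × ℂ)) : Prop :=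
  ∃ (v : ℂ × ℂ → ℂ × ℂ) (f : ℂ × ℂ → ℂ), IsCompleteField Ω v ∧ (∃ x ∈ Ω, v x ≠ 0) ∧
    DifferentiableOn ℂ f Ω ∧ (∃ x ∈ Ω, ∃ y ∈ Ω, f x ≠ f y) ∧ ∀ x ∈ Ω, fderiv ℂ f x (v x) = 0

/-- `Ω` is an RR-space. -/
def IsRR (Ω : Set (ℂ × ℂ)) : Prop :=
  ∃ T : Set (Set (ℂ × ℂ)), (∀ D ∈ T, InfDiscrete Ω D) ∧ RR1 Ω T ∧ RR2 Ω T ∧ RR3 Ω T ∧ RR4 Ω

end Pool.Agent.MP_fe3720.Dom
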