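import Pool.Agent.Work.MP_fe3720_an.NR.LineC

/-! # Ray: the components over a horizontal line minus one point

Assume that `b` is the only bad value on the line `im = b.im` (if there is any). `RY b x` is the component of `x` in
`Z' = Ω ∩ f ⁻¹' {ζ | ζ.im = b.im ∧ ζ ≠ b}`.

PROOFS. Apply `LineC` with `β c = c + b.im I`, `τ ζ = ζ.re` and `J = Ioi b.re` or `J = Iio b.re`. `{ζ | ζ.im = b.im ∧ ζ ≠ b} = β '' (Iio b.re) ∪ β '' (Ioi b.re)`.
`ray_side`: the image `re ∘ f` of the preconnected set `RY x` (`f` is continuous on `Ω`) is a preconnected subset of `ℝ` not containing `b.re`; so it is on one side.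
Hence, if `b.re < (f x).re`, `RY x = connectedComponentIn (Ω ∩ f ⁻¹' (β '' Ioi b.re)) x` (each of the two sets is preconnected, contained in the
other ambient set and contains `x`: `IsPreconnected.subset_connectedComponentIn`); same on the left.
Now `ray_open`, `ray_inj`, `ray_sat` are `line_open`, `line_inj`, `line_sat`. In `ray_open` note that for `z` near `x` with `(f z).im = b.im` the value is automatically on the same side
and `≠ b`. -/

namespace Pool.Agent.MP_fe3720.NR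

open Set Topology Filter

variable {Ω : Set E2} {f : E2 → ℂ} {Q : Type} [AddCommGroup Q] {P : E2 → E2 → Q} {Bad : Set ℂ}
  {b : ℂ}

private theorem ray_mem_aux {x y : E2} (hy : y ∈ RY Ω f b x) :
    y ∈ Ω ∧ (f y).im = b.im ∧ f y ≠ b := by
  have h := connectedComponentIn_subset _ _ hy
  exact ⟨h.1, h.2.1, h.2.2⟩

private theorem ray_base {x y : E2} (hy : y ∈ RY Ω f b x) :
    x ∈ Ω ∩ f ⁻¹' {ζ | ζ.im = b.im ∧ ζ ≠ b} := by
  by_contra h
  rw [RY, connectedComponentIn_eq_empty h] at hy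
  exact hy

private theorem re_ne {z : ℂ} (h : z.im = b.im) (hn : z ≠ b) : z.re ≠ b.re := fun h' =>
  hn (Complex.ext h' h)

theorem ray_side (hL : LeafSys Ω f Bad P) {x y : E2} (hy : y ∈ RY Ω f b x) :
    (b.re < (f x).re ∧ b.re < (f y).re) ∨ ((f x).re < b.re ∧ (f y).re < b.re) := by
  have hx := ray_base hy
  have hxR : x ∈ RY Ω f b x := mem_connectedComponentIn hx
  have hpre : IsPreconnected (RY Ω f b x) := isPreconnected_connectedComponentIn
  have hcont : ContinuousOn (fun z => (f z).re) (RY Ω f b x) :=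
    Complex.continuous_re.comp_continuousOn (hL.cont.mono fun z hz => (ray_mem_aux hz).1)
  have hno : ∀ z ∈ RY Ω f b x, (f z).re ≠ b.re := fun z hz =>
    re_ne (ray_mem_aux hz).2.1 (ray_mem_aux hz).2.2
  rcases lt_or_gt_of_ne (hno x hxR) with h1 | h1 <;> rcases lt_or_gt_of_ne (hno y hy) with h2 | h2
  · exact Or.inr ⟨h1, h2⟩
  · exfalso
    obtain ⟨z, hz, hzb⟩ := hpre.intermediate_value hxR hy hcont ⟨h1.le, h2.le⟩
    exact hno z hz hzb
  · exfalso
    obtain ⟨z, hz, hzb⟩ := hpre.intermediate_value hy hxR hcont ⟨h2.le, h1.le⟩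
    exact hno z hz hzb
  · exact Or.inl ⟨h1, h2⟩

private noncomputable def bt (b : ℂ) (c : ℝ) : ℂ := (c : ℂ) + (b.im : ℂ) * Complex.I

private theorem bt_re (b : ℂ) (c : ℝ) : (bt b c).re = c := by simp [bt]
private theorem bt_im (b : ℂ) (c : ℝ) : (bt b c).im = b.im := by simp [bt]
private theorem bt_cont (b : ℂ) : Continuous (bt b) := by
  unfold bt
  fun_prop

private theorem bt_eq {z : ℂ} (h : z.im = b.im) : bt b z.re = z :=
  Complex.ext (bt_re _ _) ((bt_im _ _).trans h.symm)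

private theorem good_bt (hb : ∀ b' ∈ Bad, b'.im = b.im → b' = b) {c : ℝ} (hc : c ≠ b.re) :
    bt b c ∉ Bad := by
  intro h
  have := hb _ h (bt_im _ _)
  exact hc (by rw [← bt_re b c, this])

private theorem sub_J {J : Set ℝ} (hJ : b.re ∉ J) :
    Ω ∩ f ⁻¹' (bt b '' J) ⊆ Ω ∩ f ⁻¹' {ζ | ζ.im = b.im ∧ ζ ≠ b} := by
  rintro z ⟨hz, c, hc, hcz⟩
  refine ⟨hz, ?_, ?_⟩
  · rw [← hcz, bt_im]
  · intro h
    apply hJ
    have : (bt b c).re = b.re := by rw [hcz, h]
    rw [bt_re] at this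
    rwa [← this]

/-- the two ray components agree -/
private theorem side_exists (hL : LeafSys Ω f Bad P)
    (hb : ∀ b' ∈ Bad, b'.im = b.im → b' = b) {x : E2}
    (hx : x ∈ Ω ∩ f ⁻¹' {ζ | ζ.im = b.im ∧ ζ ≠ b}) :
    ∃ J : Set ℝ, IsOpen J ∧ J.OrdConnected ∧ b.re ∉ J ∧ (∀ c ∈ J, bt b c ∉ Bad) ∧
      x ∈ Ω ∩ f ⁻¹' (bt b '' J) ∧ RY Ω f b x ⊆ connectedComponentIn (Ω ∩ f ⁻¹' (bt b '' J)) x := by
  have hx1 : (f x).im = b.im := hx.2.1
  have hx2 : f x ≠ b := hx.2.2
  have main : ∀ J : Set ℝ, (f x).re ∈ J → (∀ y ∈ RY Ω f b x, (f y).re ∈ J) →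
      x ∈ Ω ∩ f ⁻¹' (bt b '' J) ∧
        RY Ω f b x ⊆ connectedComponentIn (Ω ∩ f ⁻¹' (bt b '' J)) x := by
    intro J hxJ hyJ
    refine ⟨⟨hx.1, (f x).re, hxJ, bt_eq hx1⟩, ?_⟩
    refine IsPreconnected.subset_connectedComponentIn isPreconnected_connectedComponentIn
      (mem_connectedComponentIn hx) ?_
    intro y hy
    obtain ⟨h1, h2, h3⟩ := ray_mem_aux hy
    exact ⟨h1, (f y).re, hyJ y hy, bt_eq h2⟩
  rcases lt_or_gt_of_ne (re_ne hx1 hx2) with h | h
  · refine ⟨Iio b.re, isOpen_Iio, ordConnected_Iio, by simp, ?_, ?_⟩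
    · intro c hc
      exact good_bt hb (ne_of_lt hc)
    · refine main _ h fun y hy => ?_
      rcases ray_side hL hy with h' | h'
      · exact absurd h'.1 (not_lt.2 h.le)
      · exact h'.2
  · refine ⟨Ioi b.re, isOpen_Ioi, ordConnected_Ioi, by simp, ?_, ?_⟩
    · intro c hc
      exact good_bt hb (ne_of_gt hc)
    · refine main _ h fun y hy => ?_
      rcases ray_side hL hy with h' | h'
      · exact h'.2
      · exact absurd h'.1 (not_lt.2 h.le)

theorem ray_open (hL : LeafSys Ω f Bad P) (hb : ∀ b' ∈ Bad, b'.im = b.im → b' = b) {x : E2}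
    (hx : x ∈ Ω) (hi : (f x).im = b.im) (hn : f x ≠ b) :
    ∀ᶠ z in 𝓝 x, (f z).im = b.im → z ∈ RY Ω f b x := by
  obtain ⟨J, hJo, hJc, hbJ, hg, hxJ, -⟩ := side_exists hL hb ⟨hx, hi, hn⟩
  have h1 := line_open hL (bt_cont b) Complex.continuous_re (bt_re b) hJo hJc hg hxJ
  have hfc : ContinuousAt f x := hL.contAt hx
  have hxJ' : (f x).re ∈ J := by
    obtain ⟨c, hc, hcx⟩ := hxJ.2
    rw [← hcx, bt_re]
    exact hc
  have h2 : ∀ᶠ z in 𝓝 x, (f z).re ∈ J :=
    (Complex.continuous_re.continuousAt.comp hfc).eventually (hJo.mem_nhds hxJ')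
  filter_upwards [h1, h2, hL.isOpen.mem_nhds hx] with z hz hzJ hzΩ him
  exact connectedComponentIn_mono x (sub_J hbJ) (hz ⟨hzΩ, (f z).re, hzJ, bt_eq him⟩)

theorem ray_inj (hL : LeafSys Ω f Bad P) (hb : ∀ b' ∈ Bad, b'.im = b.im → b' = b) {x y : E2}
    (hy : y ∈ RY Ω f b x) (hxy : f y = f x) : y ∈ LF Ω f x := by
  obtain ⟨J, hJo, hJc, hbJ, hg, hxJ, hsub⟩ := side_exists hL hb (ray_base hy)
  exact line_inj hL (bt_cont b) Complex.continuous_re (bt_re b) hJo hJc hg (hsub hy) hxy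

theorem ray_sat {x y : E2} (hy : y ∈ RY Ω f b x) : LF Ω f y ⊆ RY Ω f b x := by
  have h1 := ray_mem_aux hy
  have h2 : RY Ω f b x = connectedComponentIn (Ω ∩ f ⁻¹' {ζ | ζ.im = b.im ∧ ζ ≠ b}) y :=
    connectedComponentIn_eq hy
  rw [h2]
  refine IsPreconnected.subset_connectedComponentIn isPreconnected_connectedComponentIn
    (mem_connectedComponentIn ⟨h1.1, rfl⟩) ?_
  intro z hz
  have h3 := connectedComponentIn_subset _ _ hz
  refine ⟨h3.1, ?_⟩
  have h4 : f z = f y := h3.2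
  exact ⟨by rw [h4]; exact h1.2.1, by rw [h4]; exact h1.2.2⟩

theorem ray_self {x : E2} (hx : x ∈ Ω) (hi : (f x).im = b.im) (hn : f x ≠ b) :
    x ∈ RY Ω f b x := mem_connectedComponentIn ⟨hx, hi, hn⟩

theorem ray_mem {x y : E2} (hy : y ∈ RY Ω f b x) :
    y ∈ Ω ∧ (f y).im = b.im ∧ f y ≠ b := ray_mem_aux hy

theorem ray_eq {x y : E2} (hy : y ∈ RY Ω f b x) : RY Ω f b y = RY Ω f b x :=
  (connectedComponentIn_eq hy).symm

/-- two points of one component over the same value are in the same leaf -/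
theorem ray_inj' (hL : LeafSys Ω f Bad P) (hb : ∀ b' ∈ Bad, b'.im = b.im → b' = b) {x y z : E2}
    (hy : y ∈ RY Ω f b x) (hz : z ∈ RY Ω f b x) (hyz : f z = f y) : z ∈ LF Ω f y := by
  rw [← ray_eq hy] at hz
  exact ray_inj hL hb hz hyz

end Pool.Agent.MP_fe3720.NR
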