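import Pool.Agent.Work.MP_fe3720_an.NR.DiscK
import Pool.Agent.Work.MP_fe3720_an.NR.Ray

/-! # RayAdh: which components over the line minus `b` are adherent to a point `a` over `b`

`b ∈ Bad` is the only bad value of its level, `f a = b`, `VD Ω f Bad P a k c v U`. *`x` is adherent to `a`* means `a ∈ closure (RY b x)`.

PROOFS. `mem_ray_shift`: if `v ζ ∈ RY b x` then `exp ζ` is real; for `t ≥ 0` real `v (ζ - t) ∈ RY b x`: the set `{v (ζ - t) | t ≥ 0}` is preconnected, contained in `Ω ∩ f ⁻¹' {ζ | ζ.im = b.im ∧ ζ ≠ b}` (`f = b + exp (ζ - t)`, a nonzero real multiple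
`exp(-t)` of `exp ζ`), contains `v ζ`: `IsPreconnected.subset_connectedComponentIn` and `ray_eq`.
`adh_iff`: `←`: `v (ζ - t) → a` as `t → ∞` (`VD.tend`), `mem_ray_shift`. `→`: there is `y ∈ RY b x` near `a` (so that `VD.near` applies; `f y ≠ b = f a`, `f y ∉ Bad` by `hb`): `REq (v ζ) y`, so `y ∈ LF (v ζ)`, `v ζ ∈ LF y ⊆ RY b y = RY b x` (`ray_sat`, `ray_eq`).
`adh_near`: for `y` near `a` of level `b.im`, `f y ≠ b`: `VD.near` gives `ζ`, `v ζ ∈ LF y ⊆ RY b y`, so `adh_iff`.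
`adh_fin`: if `x` is adherent to `a`, choose `ζ` with `v ζ ∈ RY b x`; `exp ζ` is real: `ζ.im = π j`; `lam x = lam (v ζ)` (`lam_conn` on `RY b x`, all points good). For fixed `j` the points `v ζ`, `ζ.re < c`, `ζ.im = π j` form a preconnected set of good points of `Zl b.im`, so `lam (v ζ)` depends only
on `j`, and by `VD.per` only on `j mod 2k`: finitely many values.
`adh_trans`: let `x` be adherent to `a` and to `a'`: `v ζ ∈ RY b x`, `v' ζ' ∈ RY b x`. By `mem_ray_shift` we may decrease the real parts so that `|exp ζ| = |exp ζ'|`, i.e. `ζ.re = ζ'.re`; by `ray_side` the real numbers `exp ζ`, `exp ζ'` have the same sign (both values are on the side of `f x`), so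
`exp ζ = exp ζ'`, `f (v ζ) = f (v' ζ')` and `v' ζ' ∈ LF (v ζ)` (`ray_inj'`). By `cont_LF` with `D = {t | (ζ + t).re < c ∧ (ζ' + t).re < c'}`: `v' (ζ' + t) ∈ LF (v (ζ + t))` for all `t ∈ D` with good value. Now let `y` be adherent to `a`: `v η ∈ RY b y`, `exp η` real; after decreasing `η.re` (`mem_ray_shift`)
`t = η - ζ ∈ D`; the value `b + exp η` is good (level `b.im`, `≠ b`); so `v' (ζ' + t) ∈ LF (v η) ⊆ RY b y`, and `y` is adherent to `a'` by `adh_iff`. -/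

namespace Pool.Agent.MP_fe3720.NR

open Set Topology Filter

variable {Ω : Set E2} {f : E2 → ℂ} {Q : Type} [AddCommGroup Q] {P : E2 → E2 → Q} {Bad : Set ℂ}
  {Ws : ℝ → E2 → Q} {b : ℂ}

private theorem radh_bad (hb : ∀ b' ∈ Bad, b'.im = b.im → b' = b) {x y : E2}
    (hy : y ∈ RY Ω f b x) : f y ∉ Bad := by
  obtain ⟨-, h1, h2⟩ := ray_mem hy
  exact fun h => h2 (hb _ h h1)

theorem mem_ray_shift {a : E2} {k : ℕ} {c : ℝ} {v : ℂ → E2} {U : Set E2}
    (hV : VD Ω f Bad P a k c v U) (hab : f a = b) {x : E2} {ζ : ℂ} (hζ : ζ.re < c)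
    (h : v ζ ∈ RY Ω f b x) {t : ℝ} (ht : 0 ≤ t) : v (ζ - t) ∈ RY Ω f b x := by
  have hre : ∀ s : ℝ, 0 ≤ s → (ζ - s).re < c := by
    intro s hs
    rw [Complex.sub_re, Complex.ofReal_re]
    linarith
  obtain ⟨h1, h2, h3⟩ := ray_mem h
  have h4 : (Complex.exp ζ).im = 0 := by
    rw [(hV.val ζ hζ).2, hab, Complex.add_im] at h2
    linarith
  have hS : IsPreconnected ((fun s : ℝ => v (ζ - s)) '' Ici (0 : ℝ)) := by
    refine (convex_Ici (𝕜 := ℝ) (0 : ℝ)).isPreconnected.image _ ?_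
    refine hV.cont.comp (by fun_prop) fun s hs => hre s hs
  have hsub : (fun s : ℝ => v (ζ - s)) '' Ici (0 : ℝ) ⊆
      Ω ∩ f ⁻¹' {ζ | ζ.im = b.im ∧ ζ ≠ b} := by
    rintro _ ⟨s, hs, rfl⟩
    have hv := hV.val (ζ - s) (hre s hs)
    refine ⟨hV.sub hv.1, ?_, ?_⟩
    · show (f (v (ζ - s))).im = b.im
      rw [hv.2, hab, Complex.add_im, Complex.exp_sub, ← Complex.ofReal_exp, Complex.div_ofReal_im,
        h4, zero_div, add_zero]
    · show f (v (ζ - s)) ≠ b
      rw [hv.2, hab]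
      intro h0
      exact Complex.exp_ne_zero _ (add_eq_left.1 h0)
  have h5 := hS.subset_connectedComponentIn (x := v ζ) ⟨0, self_mem_Ici, by simp⟩ hsub
  rw [← ray_eq h]
  exact h5 ⟨t, ht, rfl⟩

theorem adh_iff (hL : LeafSys Ω f Bad P) (hbB : b ∈ Bad)
    (hb : ∀ b' ∈ Bad, b'.im = b.im → b' = b) {a : E2} {k : ℕ} {c : ℝ} {v : ℂ → E2} {U : Set E2}
    (hV : VD Ω f Bad P a k c v U) (hab : f a = b) {x : E2} :
    a ∈ closure (RY Ω f b x) ↔ ∃ ζ : ℂ, ζ.re < c ∧ v ζ ∈ RY Ω f b x := by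
  constructor
  · intro h
    obtain ⟨y, hy, hnear⟩ := ((mem_closure_iff_frequently.1 h).and_eventually hV.near).exists
    obtain ⟨h1, h2, h3⟩ := ray_mem hy
    obtain ⟨ζ, hζ, -, hr⟩ := hnear (radh_bad hb hy) (by rw [hab]; exact h3)
    exact ⟨ζ, hζ, ray_sat hy (LF_symm hr.1)⟩
  · rintro ⟨ζ, hζ, h⟩
    rw [mem_closure_iff_nhds]
    intro V hVa
    obtain ⟨c', hc'⟩ := hV.tend V hVa
    refine ⟨v (ζ - (max 0 (ζ.re - c' + 1) : ℝ)), hc' _ ?_,
      mem_ray_shift hV hab hζ h (le_max_left _ _)⟩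
    rw [Complex.sub_re, Complex.ofReal_re]
    have := le_max_right 0 (ζ.re - c' + 1)
    linarith

theorem adh_near (hL : LeafSys Ω f Bad P) (hD : HasDiscs Ω f) (hbB : b ∈ Bad)
    (hb : ∀ b' ∈ Bad, b'.im = b.im → b' = b) {a : E2} (ha : a ∈ Ω) (hab : f a = b) :
    ∀ᶠ y in 𝓝 a, (f y).im = b.im → f y ≠ b → a ∈ closure (RY Ω f b y) := by
  obtain ⟨k, c, v, U, hV⟩ := exists_VD hL hD ha
  filter_upwards [hV.near, hL.isOpen.mem_nhds ha] with y hy hyΩ him hne
  rw [adh_iff hL hbB hb hV hab]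
  obtain ⟨ζ, hζ, -, hr⟩ := hy (fun h => hne (hb _ h him)) (by rw [hab]; exact hne)
  exact ⟨ζ, hζ, ray_sat (ray_self hyΩ him hne) (LF_symm hr.1)⟩

private theorem radh_pi {ζ : ℂ} (h : (Complex.exp ζ).im = 0) : ∃ j : ℤ, ζ.im = Real.pi * j := by
  rw [Complex.exp_im] at h
  have h1 : Real.sin ζ.im = 0 := by
    rcases mul_eq_zero.1 h with h2 | h2
    · exact absurd h2 (Real.exp_pos _).ne'
    · exact h2
  obtain ⟨j, hj⟩ := Real.sin_eq_zero_iff.1 h1
  exact ⟨j, by rw [← hj, mul_comm]⟩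

theorem adh_fin (hL : LeafSys Ω f Bad P) (hD : HasDiscs Ω f) (hW : IsWs Ω f Bad P Ws)
    (hbB : b ∈ Bad) (hb : ∀ b' ∈ Bad, b'.im = b.im → b' = b) {a : E2} (ha : a ∈ Ω)
    (hab : f a = b) :
    (lam f Bad P Ws b.im '' {x | x ∈ Ω ∧ (f x).im = b.im ∧ f x ≠ b ∧
      a ∈ closure (RY Ω f b x)}).Finite := by
  obtain ⟨k, c, v, U, hV⟩ := exists_VD hL hD ha
  let ζ₀ : ℤ → ℂ := fun j => ⟨c - 1, Real.pi * j⟩
  have hcomp : ∀ (j : ℤ) (ζ : ℂ), ζ.re < c → ζ.im = Real.pi * j → ∀ (ζ' : ℂ), ζ'.re < c →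
      ζ'.im = Real.pi * j → lam f Bad P Ws b.im (v ζ') = lam f Bad P Ws b.im (v ζ) := by
    intro j ζ hζ hj ζ' hζ' hj'
    have hS : IsPreconnected (v '' {ζ | ζ.re < c ∧ ζ.im = Real.pi * j}) := by
      refine IsPreconnected.image ?_ _ (hV.cont.mono fun ζ h => h.1)
      have h1 : Convex ℝ ({ζ : ℂ | ζ.re < c} ∩ {ζ : ℂ | ζ.im = Real.pi * j}) :=
        (convex_halfSpace_re_lt c).inter
          ((convex_singleton (𝕜 := ℝ) (Real.pi * j)).linear_preimage Complex.imLm)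
      exact h1.isPreconnected
    have him : ∀ ζ : ℂ, ζ.im = Real.pi * j → (Complex.exp ζ).im = 0 := by
      intro ζ h
      rw [Complex.exp_im, h, mul_comm Real.pi, Real.sin_int_mul_pi, mul_zero]
    have hval : ∀ x ∈ v '' {ζ | ζ.re < c ∧ ζ.im = Real.pi * j},
        x ∈ Ω ∧ (f x).im = b.im ∧ f x ≠ b := by
      rintro _ ⟨η, ⟨hη, hη'⟩, rfl⟩
      have h1 := hV.val η hη
      refine ⟨hV.sub h1.1, ?_, ?_⟩
      · rw [h1.2, hab, Complex.add_im, him η hη', add_zero]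
      · rw [h1.2, hab]
        intro h0
        exact Complex.exp_ne_zero _ (add_eq_left.1 h0)
    refine lam_conn hL hW hS (fun x hx => ⟨(hval x hx).1, (hval x hx).2.1⟩) (fun x hx => ?_)
      ⟨ζ, ⟨hζ, hj⟩, rfl⟩ ⟨ζ', ⟨hζ', hj'⟩, rfl⟩
    obtain ⟨h1, h2, h3⟩ := hval x hx
    exact hL.chart x h1 fun h => h3 (hb _ h h2)
  refine ((Finset.range (2 * k)).finite_toSet.image
    fun j : ℕ => lam f Bad P Ws b.im (v (ζ₀ j))).subset ?_
  rintro _ ⟨x, ⟨hx1, hx2, hx3, hx4⟩, rfl⟩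
  obtain ⟨ζ, hζ, hζx⟩ := (adh_iff hL hbB hb hV hab).1 hx4
  have h1 : lam f Bad P Ws b.im x = lam f Bad P Ws b.im (v ζ) := by
    refine lam_conn hL hW (S := RY Ω f b x) isPreconnected_connectedComponentIn (fun y hy => ?_)
      (fun y hy => ?_) hζx (ray_self hx1 hx2 hx3)
    · exact ⟨(ray_mem hy).1, (ray_mem hy).2.1⟩
    · exact hL.chart y (ray_mem hy).1 (radh_bad hb hy)
  obtain ⟨j, hj⟩ : ∃ j : ℤ, ζ.im = Real.pi * j := by
    apply radh_pi
    have h2 := (ray_mem hζx).2.1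
    rw [(hV.val ζ hζ).2, hab, Complex.add_im] at h2
    linarith
  have hk : (0 : ℤ) < 2 * k := by
    have := hV.one_le
    omega
  obtain ⟨m, r, hr0, hr1, hjr⟩ : ∃ (m : ℤ) (r : ℤ), 0 ≤ r ∧ r < 2 * k ∧ j = r + 2 * k * m :=
    ⟨j / (2 * k), j % (2 * k), Int.emod_nonneg _ hk.ne', Int.emod_lt_of_pos _ hk,
      (Int.emod_add_mul_ediv j (2 * k)).symm⟩
  obtain ⟨r, rfl⟩ := Int.eq_ofNat_of_zero_le hr0
  refine ⟨r, ?_, ?_⟩
  · rw [Finset.mem_coe, Finset.mem_range]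
    exact_mod_cast hr1
  · show lam f Bad P Ws b.im (v (ζ₀ (r : ℤ))) = lam f Bad P Ws b.im x
    rw [h1]
    have h2 := hV.per_int (-m) hζ
    rw [← h2]
    refine hcomp r _ ?_ ?_ _ ?_ rfl
    · simpa using hζ
    · simp only [Complex.add_im, Complex.mul_im, Complex.mul_re, Complex.re_ofNat, Complex.im_ofNat,
        Complex.ofReal_re, Complex.ofReal_im, Complex.I_re, Complex.I_im, Complex.natCast_re,
        Complex.natCast_im, Complex.intCast_re, Complex.intCast_im, hj, hjr]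
      push_cast
      ring
    · show c - 1 < c
      linarith

theorem adh_trans (hL : LeafSys Ω f Bad P) (hD : HasDiscs Ω f) (hbB : b ∈ Bad)
    (hb : ∀ b' ∈ Bad, b'.im = b.im → b' = b) {a a' : E2} (ha : a ∈ Ω) (ha' : a' ∈ Ω)
    (hab : f a = b) (hab' : f a' = b) {x y : E2} (hx : a ∈ closure (RY Ω f b x))
    (hx' : a' ∈ closure (RY Ω f b x)) (hy : a ∈ closure (RY Ω f b y)) :
    a' ∈ closure (RY Ω f b y) := by
  obtain ⟨k, c, v, U, hV⟩ := exists_VD hL hD ha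
  obtain ⟨k', c', v', U', hV'⟩ := exists_VD hL hD ha'
  rw [adh_iff hL hbB hb hV hab] at hx hy
  rw [adh_iff hL hbB hb hV' hab'] at hx' ⊢
  obtain ⟨ζ, hζ, hζx⟩ := hx
  obtain ⟨ζ', hζ', hζx'⟩ := hx'
  obtain ⟨η, hη, hηy⟩ := hy
  set m : ℝ := min ζ.re ζ'.re with hm
  -- equal real parts
  have h1 := mem_ray_shift hV hab hζ hζx (t := ζ.re - m) (sub_nonneg.2 (min_le_left _ _))
  have h1' := mem_ray_shift hV' hab' hζ' hζx' (t := ζ'.re - m) (sub_nonneg.2 (min_le_right _ _))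
  set ζ₁ : ℂ := ζ - ((ζ.re - m : ℝ) : ℂ) with hζ₁
  set ζ₁' : ℂ := ζ' - ((ζ'.re - m : ℝ) : ℂ) with hζ₁'
  have hre : ζ₁.re = m := by
    rw [hζ₁, Complex.sub_re, Complex.ofReal_re]
    ring
  have hre' : ζ₁'.re = m := by
    rw [hζ₁', Complex.sub_re, Complex.ofReal_re]
    ring
  have hmc : m < c := lt_of_le_of_lt (min_le_left _ _) hζ
  have hmc' : m < c' := lt_of_le_of_lt (min_le_right _ _) hζ'
  have hv1 := hV.val ζ₁ (by rw [hre]; exact hmc)
  have hv1' := hV'.val ζ₁' (by rw [hre']; exact hmc')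
  have him : (Complex.exp ζ₁).im = 0 := by
    have h2 := (ray_mem h1).2.1
    rw [hv1.2, hab, Complex.add_im] at h2
    linarith
  have him' : (Complex.exp ζ₁').im = 0 := by
    have h2 := (ray_mem h1').2.1
    rw [hv1'.2, hab', Complex.add_im] at h2
    linarith
  have hnorm : |(Complex.exp ζ₁).re| = Real.exp m := by
    rw [← hre, ← Complex.norm_exp, ← Complex.re_add_im (Complex.exp ζ₁), him]
    simp
  have hnorm' : |(Complex.exp ζ₁').re| = Real.exp m := by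
    rw [← hre', ← Complex.norm_exp, ← Complex.re_add_im (Complex.exp ζ₁'), him']
    simp
  have hexp : Complex.exp ζ₁ = Complex.exp ζ₁' := by
    apply Complex.ext _ (by rw [him, him'])
    have s1 := ray_side hL h1
    have s2 := ray_side hL h1'
    rw [hv1.2, hab, Complex.add_re] at s1
    rw [hv1'.2, hab', Complex.add_re] at s2
    rcases s1 with ⟨s1, s1'⟩ | ⟨s1, s1'⟩ <;> rcases s2 with ⟨s2, s2'⟩ | ⟨s2, s2'⟩
    · rw [abs_of_pos (by linarith)] at hnorm
      rw [abs_of_pos (by linarith)] at hnorm'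
      linarith
    · linarith
    · linarith
    · rw [abs_of_neg (by linarith)] at hnorm
      rw [abs_of_neg (by linarith)] at hnorm'
      linarith
  have hLF : v' ζ₁' ∈ LF Ω f (v ζ₁) :=
    ray_inj' hL hb h1 h1' (by rw [hv1.2, hv1'.2, hab, hab', hexp])
  -- the domain
  set D : Set ℂ := {t | t.re < c - m ∧ t.re < c' - m} with hDdef
  have hDo : IsOpen D :=
    (isOpen_lt Complex.continuous_re continuous_const).inter
      (isOpen_lt Complex.continuous_re continuous_const)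
  have hDc : Convex ℝ D := (convex_halfSpace_re_lt _).inter (convex_halfSpace_re_lt _)
  have r1 : ∀ t ∈ D, (ζ₁ + t).re < c := fun t ht => by
    rw [Complex.add_re, hre]
    linarith [ht.1]
  have r2 : ∀ t ∈ D, (ζ₁' + t).re < c' := fun t ht => by
    rw [Complex.add_re, hre']
    linarith [ht.2]
  have hcount : {t | t ∈ D ∧ f (v (ζ₁ + t)) ∈ Bad}.Countable := by
    have h2 := hV.countable hL.countable
    refine (h2.preimage (add_right_injective ζ₁)).mono ?_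
    rintro t ⟨ht, ht'⟩
    exact ⟨r1 t ht, ht'⟩
  have hcl := cont_LF hL hDo hDc (v₁ := fun t => v (ζ₁ + t)) (v₂ := fun t => v' (ζ₁' + t))
    (hV.cont.comp (by fun_prop) fun t ht => r1 t ht)
    (hV'.cont.comp (by fun_prop) fun t ht => r2 t ht)
    (fun t ht => hV.sub (hV.val _ (r1 t ht)).1) (fun t ht => hV'.sub (hV'.val _ (r2 t ht)).1)
    (fun t ht => by
      rw [(hV.val _ (r1 t ht)).2, (hV'.val _ (r2 t ht)).2, hab, hab', Complex.exp_add,
        Complex.exp_add, hexp]) hcount (t₀ := 0)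
    (by
      show (0 : ℂ).re < c - m ∧ (0 : ℂ).re < c' - m
      rw [Complex.zero_re]
      constructor <;> linarith)
    (by
      rw [add_zero]
      exact radh_bad hb h1)
    (by
      rw [add_zero, add_zero]
      exact hLF)
  -- the other component
  set T : ℝ := max 0 (η.re - c' + 1) with hT
  have h2 := mem_ray_shift hV hab hη hηy (t := T) (le_max_left _ _)
  have hT1 : 0 ≤ T := le_max_left _ _
  have hT2 : η.re - c' + 1 ≤ T := le_max_right _ _
  have htD : (η - (T : ℂ)) - ζ₁ ∈ D := by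
    constructor
    · rw [Complex.sub_re, Complex.sub_re, Complex.ofReal_re, hre]
      linarith
    · rw [Complex.sub_re, Complex.sub_re, Complex.ofReal_re, hre]
      linarith
  have h3 := hcl _ htD (by
    rw [add_sub_cancel]
    exact radh_bad hb h2)
  rw [add_sub_cancel] at h3
  exact ⟨_, r2 _ htD, ray_sat h2 h3⟩

end Pool.Agent.MP_fe3720.NR
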