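import Pool.Agent.Work.MP_fe3720_an.NR.BoxA

/-! # Rel: the relation of being in the same leaf

PROOFS. `LF_self`: `mem_connectedComponentIn`. `LF_val`: `connectedComponentIn_subset`.
`LF_eq`: if `y ∈ LF Ω f x` then `f y = f x`, so `LF Ω f y` is the component of `y` in the same set:
`connectedComponentIn_eq`. `LF_symm`, `LF_trans` follow. `LF_pre`: `isPreconnected_connectedComponentIn`.

`rel_open` (`x` good, `y ∈ LF x`; then `p.2 ∈ LF p.1` for all `p` near `(x, y)` with `f p.1 = f p.2`).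
For `z ∈ LF x` let `T z` be the statement at `(x, z)`. `T x` is `HasChart.rel`. Let `z ∈ LF x`; `f z = f x` is good,
so there is a box `N` around `z` (`exists_box`). CLAIM: for `z', z'' ∈ N ∩ LF x`, `T z' → T z''`. Let `σ` be the section of
the box through `z'` (`Box.sec`), `σ (f z') = z'`, `f z' = f x`. The map `p ↦ (p.1, σ (f p.1))` is continuous at
`(x, z'')` with value `(x, z')` (`f` is continuous at `x`: `hL.cont`, `hL.isOpen`; `f x = f z'`; `σ` is continuous at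
`f z'`, as `f z' ∈ ball` by `Box.img`). So for `p` near `(x, z'')` with `f p.1 = f p.2`: `T z'` gives
`σ (f p.1) ∈ LF p.1` (its value is `f p.1`, as `f p.1` is in the ball), and `Box.rel` (both `σ (f p.1)` and `p.2` are in `N`, same value) gives
`p.2 ∈ LF (σ (f p.1)) = LF p.1`. Hence `{z ∈ LF x | T z}` and its complement in `LF x` are relatively open in the
preconnected set `LF x`; the first one contains `x`, so it is everything.

`rel_closed`: contrapositive of `LeafSys.haus`: if frequently for `p → (x, y)` one has `f p.1 = f p.2`, `f p.1 ∉ Bad`,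
`p.2 ∈ LF p.1`, then `y ∈ LF x`. -/

namespace Pool.Agent.MP_fe3720.NR

open Set Topology Filter

variable {Ω : Set E2} {f : E2 → ℂ} {Q : Type} [AddCommGroup Q] {P : E2 → E2 → Q} {Bad : Set ℂ}

theorem LF_self {x : E2} (hx : x ∈ Ω) : x ∈ LF Ω f x :=
  mem_connectedComponentIn ⟨hx, rfl⟩

theorem LF_val {x y : E2} (h : y ∈ LF Ω f x) : y ∈ Ω ∧ f y = f x :=
  connectedComponentIn_subset (Ω ∩ f ⁻¹' {f x}) x h

theorem LF_eq {x y : E2} (h : y ∈ LF Ω f x) : LF Ω f y = LF Ω f x := by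
  have h1 : LF Ω f y = connectedComponentIn (Ω ∩ f ⁻¹' {f x}) y := by
    unfold LF
    rw [(LF_val h).2]
  rw [h1]
  exact (connectedComponentIn_eq h).symm

theorem LF_mem {x y : E2} (h : y ∈ LF Ω f x) : x ∈ Ω :=
  (connectedComponentIn_nonempty_iff.1 ⟨y, h⟩).1

theorem LF_symm {x y : E2} (h : y ∈ LF Ω f x) : x ∈ LF Ω f y := by
  rw [LF_eq h]
  exact LF_self (LF_mem h)

theorem LF_trans {x y z : E2} (h : y ∈ LF Ω f x) (h' : z ∈ LF Ω f y) : z ∈ LF Ω f x := by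
  rw [← LF_eq h]
  exact h'

theorem LF_pre (x : E2) : IsPreconnected (LF Ω f x) :=
  isPreconnected_connectedComponentIn

/-- `f` is continuous at the points of `Ω` -/
theorem LeafSys.contAt (hL : LeafSys Ω f Bad P) {x : E2} (hx : x ∈ Ω) : ContinuousAt f x :=
  hL.cont.continuousAt (hL.isOpen.mem_nhds hx)

theorem LeafSys.rel_open (hL : LeafSys Ω f Bad P) {x y : E2} (hx : x ∈ Ω) (hg : f x ∉ Bad)
    (hy : y ∈ LF Ω f x) :
    ∀ᶠ p : E2 × E2 in 𝓝 (x, y), f p.1 = f p.2 → p.2 ∈ LF Ω f p.1 := by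
  have hcx : ContinuousAt f x := hL.contAt hx
  have key : ∀ z ∈ LF Ω f x, ∃ N : Set E2, IsOpen N ∧ z ∈ N ∧ ∀ z' ∈ N, ∀ z'' ∈ N,
      z' ∈ LF Ω f x →
      (∀ᶠ p : E2 × E2 in 𝓝 (x, z'), f p.1 = f p.2 → p.2 ∈ LF Ω f p.1) →
      ∀ᶠ p : E2 × E2 in 𝓝 (x, z''), f p.1 = f p.2 → p.2 ∈ LF Ω f p.1 := by
    intro z hz
    have hzv := LF_val hz
    obtain ⟨N, -, r, -, hb⟩ := exists_box (hL.chart z hzv.1 (by rw [hzv.2]; exact hg))
      (U := univ) univ_mem one_pos
    refine ⟨N, hb.isOpen, hb.mem, fun z' hz' z'' hz'' hL' hT => ?_⟩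
    obtain ⟨σ, hσ, hσz, hσN⟩ := hb.sec z' hz'
    have hv' := (LF_val hL').2
    have hball : f x ∈ Metric.ball (f z) r := by
      rw [← hv']
      exact hb.img z' hz'
    have hσx : ContinuousAt σ (f x) := hσ.continuousAt (Metric.isOpen_ball.mem_nhds hball)
    have hf1 : ContinuousAt (fun p : E2 × E2 => f p.1) (x, z'') :=
      ContinuousAt.comp (f := Prod.fst) (g := f) (x := (x, z'')) hcx continuousAt_fst
    have hσ1 : ContinuousAt (fun p : E2 × E2 => σ (f p.1)) (x, z'') :=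
      ContinuousAt.comp (f := fun p : E2 × E2 => f p.1) (g := σ) (x := (x, z'')) hσx hf1
    have hgc : Tendsto (fun p : E2 × E2 => (p.1, σ (f p.1))) (𝓝 (x, z'')) (𝓝 (x, z')) := by
      have h1 : ContinuousAt (fun p : E2 × E2 => (p.1, σ (f p.1))) (x, z'') :=
        continuousAt_fst.prodMk hσ1
      have h2 : (x, σ (f x)) = (x, z') := by
        rw [← hv', hσz]
      have h3 := h1.tendsto
      simp only at h3
      rwa [h2] at h3
    have e1 := hgc.eventually hT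
    have e2 : ∀ᶠ p : E2 × E2 in 𝓝 (x, z''), f p.1 ∈ Metric.ball (f z) r :=
      hf1.eventually (Metric.isOpen_ball.mem_nhds hball)
    have e3 : ∀ᶠ p : E2 × E2 in 𝓝 (x, z''), p.2 ∈ N :=
      continuousAt_snd.eventually (hb.isOpen.mem_nhds hz'')
    filter_upwards [e1, e2, e3] with p h1 h2 h3 h4
    obtain ⟨h5, h6⟩ := hσN _ h2
    exact LF_trans (h1 h6.symm) (hb.rel h5 h3 (h6.trans h4))
  have hind := (LF_pre (Ω := Ω) (f := f) x).induction₂'
    (fun z' z'' => (∀ᶠ p : E2 × E2 in 𝓝 (x, z'), f p.1 = f p.2 → p.2 ∈ LF Ω f p.1) →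
      ∀ᶠ p : E2 × E2 in 𝓝 (x, z''), f p.1 = f p.2 → p.2 ∈ LF Ω f p.1) ?_ ?_ (LF_self hx) hy
  · exact hind (hL.chart x hx hg).rel
  · intro z hz
    obtain ⟨N, hN, hzN, hk⟩ := key z hz
    filter_upwards [mem_nhdsWithin_of_mem_nhds (hN.mem_nhds hzN), self_mem_nhdsWithin]
      with z' h1 h2
    exact ⟨hk z hzN z' h1 hz, hk z' h1 z hzN h2⟩
  · intro u v w _ _ _ h1 h2 h3
    exact h2 (h1 h3)

theorem LeafSys.rel_closed (hL : LeafSys Ω f Bad P) {x y : E2} (hx : x ∈ Ω) (hy : y ∈ Ω)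
    (hg : f x ∉ Bad) (hxy : f x = f y)
    (h : ∃ᶠ p : E2 × E2 in 𝓝 (x, y), f p.1 = f p.2 ∧ f p.1 ∉ Bad ∧ p.2 ∈ LF Ω f p.1) :
    y ∈ LF Ω f x := by
  by_contra hn
  obtain ⟨p, ⟨h1, h2, h3⟩, h4⟩ := (h.and_eventually (hL.haus x hx y hy hxy hg hn)).exists
  exact h4 h1 h2 h3

end Pool.Agent.MP_fe3720.NR
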