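import Pool.Agent.Work.MP_fe3720_an.NR.BoxA
import Pool.Agent.Work.MP_fe3720_an.NR.PrmA

/-! # TorA: functions with prescribed jumps: uniqueness

Call a point `y` off if `f y ∉ Bad` and `(f y).im ≠ s₀`.

PROOFS. `off_near`: near every `w ∈ Ω`, in every neighbourhood `V`, there is an off point: first a good point `w' ∈ V` (`LeafSys.sep` with `B = Bad` for a small ball around `w`: nonempty), it has a chart; then `HasChart.near` at `w'`: all values near `f w'` are attained near `w'`; choose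
a value not in `Bad`, with imaginary part `≠ s₀` (`Bad` is countable; e.g. a value on a line `im = s`, `s ≠ s₀` good).

`Jm.sub_loc`: if `Jm μ ν w` and `Jm μ ν' w` (same `μ w`): `ν y - ν' y = c - c'` for all off `y` near `w`.
`Jm.sub_const` (`V ⊆ Ω` open preconnected, both `Jm` at all good `w ∈ V`): there is `d` with `ν y - ν' y = d` for all off `y ∈ V`. Put `E = V ∩ f ⁻¹' Badᶜ` (preconnected by `sep`). For `w ∈ E` let `F w` be the constant `c_w - c'_w` of `sub_loc` (a choice; it is the value of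
`ν - ν'` at the off points near `w`, and there are such points, so it is unique). `F` is locally constant on `E`: for `w' ∈ E` near `w`, off points near `w'` are near `w`. `const_of_loc`. For an off `y ∈ V`: `y ∈ E` and `F y = ν y - ν' y` (`y` itself is an off point near `y`: `Eventually.self_of_nhds`). If `E` is empty take `d = 0`.
`Jm.mem`: (`μ w ∈ G₀` for all `w`): for off `y, y' ∈ V`: `ν y - ν y' ∈ G₀`. Same proof with `F w = ` class of `ν` mod `G₀` at the off points near `w`: `ν y = c - (0 or μ w)`, all in the class of `c`.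
`Jm.congr`: if `ν' = ν + d` on the off points near `w` then `Jm μ ν w → Jm μ ν' w`. -/

namespace Pool.Agent.MP_fe3720.NR

open Set Topology Filter

variable {Ω : Set E2} {f : E2 → ℂ} {Q : Type} [AddCommGroup Q] {P : E2 → E2 → Q} {Bad : Set ℂ}
  {G : Type} [AddCommGroup G] {s₀ : ℝ} {μ ν ν' : E2 → G}

theorem off_near (hL : LeafSys Ω f Bad P) (s₀ : ℝ) {w : E2} (hw : w ∈ Ω) {V : Set E2}
    (hV : V ∈ 𝓝 w) : ∃ y ∈ V ∩ Ω, f y ∉ Bad ∧ (f y).im ≠ s₀ := by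
  obtain ⟨ρ, hρ, hball⟩ := Metric.mem_nhds_iff.1 (inter_mem hV (hL.isOpen.mem_nhds hw))
  obtain ⟨w', hw', hB⟩ := (hL.sep Bad hL.countable (Metric.ball w ρ)
    (fun y hy => (hball hy).2) Metric.isOpen_ball (convex_ball w ρ).isPreconnected).2
    ⟨w, Metric.mem_ball_self hρ⟩
  have h1 := (hL.chart w' (hball hw').2 hB).near (Metric.isOpen_ball.mem_nhds hw')
  obtain ⟨δ, hδ, hδ'⟩ := Metric.mem_nhds_iff.1 h1
  have hB' : (insert ((s₀ : ℂ) * Complex.I) Bad).Countable := hL.countable.insert _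
  obtain ⟨s, hs1, hs2, hs3⟩ := exists_goodL hB' (show (f w').im < (f w').im + δ by linarith)
  set ζ : ℂ := ⟨(f w').re, s⟩ with hζ
  have hζδ : ζ ∈ Metric.ball (f w') δ := by
    rw [Metric.mem_ball, Complex.dist_of_re_eq (by rw [hζ]), hζ, Real.dist_eq, abs_lt]
    constructor <;> linarith
  obtain ⟨y, hy, hyζ⟩ := hδ' hζδ
  refine ⟨y, ⟨(hball hy.1).1, hy.2⟩, ?_, ?_⟩
  · rw [hyζ]
    intro h
    exact hs3 ζ (mem_insert_of_mem _ h) rfl
  · rw [hyζ]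
    intro h
    apply hs3 _ (mem_insert _ _)
    have h2 : ((s₀ : ℂ) * Complex.I).im = s₀ := by simp
    rw [h2, ← h]

private theorem torGen (hL : LeafSys Ω f Bad P) {α : Type} {N : E2 → α} {V : Set E2}
    (hV : IsOpen V) (hVc : IsPreconnected V) (hVΩ : V ⊆ Ω)
    (h : ∀ w ∈ V, f w ∉ Bad → ∃ d : α, ∀ᶠ y in 𝓝 w, f y ∉ Bad → (f y).im ≠ s₀ → N y = d)
    {y y' : E2} (hy : y ∈ V) (hyB : f y ∉ Bad)
    (hys : (f y).im ≠ s₀) (hy' : y' ∈ V) (hyB' : f y' ∉ Bad) (hys' : (f y').im ≠ s₀) :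
    N y = N y' := by
  classical
  have hE := (hL.sep Bad hL.countable V hVΩ hV hVc).1
  have hFex : ∀ w : E2, ∃ d : α, w ∈ V ∩ f ⁻¹' Badᶜ →
      ∀ᶠ y in 𝓝 w, f y ∉ Bad → (f y).im ≠ s₀ → N y = d := by
    intro w
    by_cases hw : w ∈ V ∩ f ⁻¹' Badᶜ
    · obtain ⟨d, hd⟩ := h w hw.1 hw.2
      exact ⟨d, fun _ => hd⟩
    · exact ⟨N y, fun h => absurd h hw⟩
  choose F hF using hFex
  have hloc : ∀ w ∈ V ∩ f ⁻¹' Badᶜ, ∀ᶠ w' in 𝓝[V ∩ f ⁻¹' Badᶜ] w, F w' = F w := by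
    intro w hw
    filter_upwards [mem_nhdsWithin_of_mem_nhds (hF w hw).eventually_nhds, self_mem_nhdsWithin]
      with w' h1 h2
    obtain ⟨z, ⟨hz, -⟩, hzB, hzs⟩ := off_near hL s₀ (hVΩ h2.1) (inter_mem h1 (hF w' h2))
    exact (hz.2 hzB hzs).symm.trans (hz.1 hzB hzs)
  have h1 : F y = F y' := const_of_loc hE hloc ⟨hy', hyB'⟩ ⟨hy, hyB⟩
  have h2 := (hF y ⟨hy, hyB⟩).self_of_nhds hyB hys
  have h3 := (hF y' ⟨hy', hyB'⟩).self_of_nhds hyB' hys'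
  rw [h2, h3, h1]

theorem Jm.sub_loc {w : E2} (h : Jm f Bad s₀ μ ν w) (h' : Jm f Bad s₀ μ ν' w) :
    ∃ d : G, ∀ᶠ y in 𝓝 w, f y ∉ Bad → (f y).im ≠ s₀ → ν y - ν' y = d := by
  obtain ⟨c, hc⟩ := h
  obtain ⟨c', hc'⟩ := h'
  refine ⟨c - c', ?_⟩
  filter_upwards [hc, hc'] with y h1 h2 h3 h4
  rw [h1 h3 h4, h2 h3 h4]
  abel

theorem Jm.sub_const (hL : LeafSys Ω f Bad P) {V : Set E2} (hV : IsOpen V)
    (hVc : IsPreconnected V) (hVΩ : V ⊆ Ω) (h : ∀ w ∈ V, f w ∉ Bad → Jm f Bad s₀ μ ν w)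
    (h' : ∀ w ∈ V, f w ∉ Bad → Jm f Bad s₀ μ ν' w) :
    ∃ d : G, ∀ y ∈ V, f y ∉ Bad → (f y).im ≠ s₀ → ν y - ν' y = d := by
  by_cases hex : ∃ y ∈ V, f y ∉ Bad ∧ (f y).im ≠ s₀
  · obtain ⟨y₀, hy₀, hB₀, hs₀⟩ := hex
    refine ⟨ν y₀ - ν' y₀, fun y hy hB hs => ?_⟩
    exact torGen hL (N := fun y => ν y - ν' y) hV hVc hVΩ
      (fun w hw hwB => (h w hw hwB).sub_loc (h' w hw hwB)) hy hB hs hy₀ hB₀ hs₀
  · exact ⟨0, fun y hy hB hs => absurd ⟨y, hy, hB, hs⟩ hex⟩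

theorem Jm.mem (hL : LeafSys Ω f Bad P) {V : Set E2} (hV : IsOpen V)
    (hVc : IsPreconnected V) (hVΩ : V ⊆ Ω) (h : ∀ w ∈ V, f w ∉ Bad → Jm f Bad s₀ μ ν w)
    {G₀ : AddSubgroup G} (hμ : ∀ w, μ w ∈ G₀) {y y' : E2} (hy : y ∈ V) (hyB : f y ∉ Bad)
    (hys : (f y).im ≠ s₀) (hy' : y' ∈ V) (hyB' : f y' ∉ Bad) (hys' : (f y').im ≠ s₀) :
    ν y - ν y' ∈ G₀ := by
  have h1 : ((ν y : G) : G ⧸ G₀) = ((ν y' : G) : G ⧸ G₀) := by
    refine torGen hL (N := fun y => ((ν y : G) : G ⧸ G₀)) (s₀ := s₀) hV hVc hVΩ ?_ hy hyB hys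
      hy' hyB' hys'
    intro w hw hwB
    obtain ⟨c, hc⟩ := h w hw hwB
    refine ⟨(c : G ⧸ G₀), ?_⟩
    filter_upwards [hc] with z h2 h3 h4
    show ((ν z : G) : G ⧸ G₀) = (c : G ⧸ G₀)
    rw [h2 h3 h4, QuotientAddGroup.eq_iff_sub_mem]
    split_ifs
    · rw [show c - μ w - c = -μ w by abel]
      exact G₀.neg_mem (hμ w)
    · rw [show c - 0 - c = (0 : G) by abel]
      exact G₀.zero_mem
  exact QuotientAddGroup.eq_iff_sub_mem.1 h1

theorem Jm.congr {w : E2} (h : Jm f Bad s₀ μ ν w) {d : G}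
    (h' : ∀ᶠ y in 𝓝 w, f y ∉ Bad → (f y).im ≠ s₀ → ν' y = ν y + d) : Jm f Bad s₀ μ ν' w := by
  obtain ⟨c, hc⟩ := h
  refine ⟨c + d, ?_⟩
  filter_upwards [hc, h'] with y h1 h2 h3 h4
  rw [h2 h3 h4, h1 h3 h4]
  abel

end Pool.Agent.MP_fe3720.NR
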