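import Pool.Agent.Work.MP_fe3720_an.NR.RayAdh

/-! # YSet: the relevant part of the level set

PROOF. Let `Z = Zl b.im`. For `c ∈ Z`, `f c ≠ b`, put
`Y_c = {x ∈ Z | f x ≠ b ∧ (x ∈ RY b c ∨ ∃ a ∈ Ω, f a = b ∧ a ∈ closure (RY b x) ∧ a ∈ closure (RY b c))} ∪ {a ∈ Ω | f a = b ∧ a ∈ closure (RY b c)}`.
`c ∈ Y_c` (`ray_self`).
CLOPEN: for `x ∈ Z` with `f x ≠ b`: for `y ∈ Z` near `x`: `f y ≠ b` and `y ∈ RY b x` (`ray_open`), so `RY b y = RY b x` (`ray_eq`) and the condition is the same for `x` and `y` (`x ∈ RY b c ↔ y ∈ RY b c`: if `x ∈ RY b c` then `RY b x = RY b c ∋ y`; conversely too).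
For `x = a` over `b`: let `O` be the open neighbourhood of `a` on which `adh_near` holds (`eventually_nhds_iff`). First let `a ∈ Y_c`, i.e. `a ∈ closure (RY b c)`. For `y ∈ O ∩ Z`, `f y ≠ b`: `a ∈ closure (RY b y)`, so `y ∈ Y_c`. For `y ∈ O ∩ Z`, `f y = b`: there is `y' ∈ O` of level `b.im`, `f y' ≠ b`, near `y`
(`VD.tend` and `VD.val` at `y`: `y' = v ζ` with `ζ` real and very negative), so near that also `adh_near` at `y` applies: `y ∈ closure (RY b y')`, and `a ∈ closure (RY b y')` since `y' ∈ O`; by `adh_trans` (common `y'`) `a ∈ closure (RY b c)` gives `y ∈ closure (RY b c)`: `y ∈ Y_c`. Now let `a ∉ Y_c`. For `y ∈ O ∩ Z`, `f y ≠ b`,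
suppose `y ∈ Y_c`. If `y ∈ RY b c` then `RY b y = RY b c` and `a ∈ closure (RY b y)`: contradiction. If `a' ∈ closure (RY b y) ∩ closure (RY b c)`: as `a ∈ closure (RY b y)` too, `adh_trans` (with common `y`, from `a'` to `a`) gives `a ∈ closure (RY b c)`: contradiction. For `y ∈ O`, `f y = b`, `y ∈ Y_c`: with `y'` as above
`y, a ∈ closure (RY b y')`, `y ∈ closure (RY b c)`, so `a ∈ closure (RY b c)`: contradiction.
FINITE: `lam` is constant on `RY b c` (`lam_conn`; all points of level `b.im` with value `≠ b` are good: `hb`). If there is no `a` over `b` adherent to `RY b c` then the good part of `Y_c` is `RY b c`: one value. If `a₀` is one such point: all `x` in `Y_c`, `f x ≠ b`, are adherent to `a₀` (if `x ∈ RY b c` clear;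
otherwise `a ∈ closure (RY b x) ∩ closure (RY b c)` and `adh_trans` from `a` to `a₀` via `c`): `adh_fin` for `a₀`.
Finally `Y = ⋃ i < n, Y_{c i}`: finite unions of clopen sets; finite unions of finite sets. -/

namespace Pool.Agent.MP_fe3720.NR

open Set Topology Filter

variable {Ω : Set E2} {f : E2 → ℂ} {Q : Type} [AddCommGroup Q] {P : E2 → E2 → Q} {Bad : Set ℂ}
  {Ws : ℝ → E2 → Q} {b : ℂ}

private def Yc (Ω : Set E2) (f : E2 → ℂ) (b : ℂ) (c : E2) : Set E2 :=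
  {x | (f x ≠ b ∧ (x ∈ RY Ω f b c ∨ ∃ a ∈ Ω, f a = b ∧ a ∈ closure (RY Ω f b x) ∧
    a ∈ closure (RY Ω f b c))) ∨ (f x = b ∧ x ∈ closure (RY Ω f b c))}

private theorem yc_freq (hL : LeafSys Ω f Bad P) (hD : HasDiscs Ω f) {y : E2} (hy : y ∈ Ω)
    (hyb : f y = b) : ∃ᶠ z in 𝓝 y, (f z).im = b.im ∧ f z ≠ b := by
  obtain ⟨k, c, v, U, hV⟩ := exists_VD hL hD hy
  rw [Filter.frequently_iff]
  intro V hVy
  obtain ⟨c', hc'⟩ := hV.tend V hVy
  set r : ℝ := min c c' - 1 with hr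
  have h1 : r < c := by
    have := min_le_left c c'
    linarith
  have h2 : r < c' := by
    have := min_le_right c c'
    linarith
  have h3 := hV.val (r : ℂ) (by rw [Complex.ofReal_re]; exact h1)
  refine ⟨v (r : ℂ), hc' _ (by rw [Complex.ofReal_re]; exact h2), ?_, ?_⟩
  · rw [h3.2, hyb, ← Complex.ofReal_exp, Complex.add_im, Complex.ofReal_im, add_zero]
  · rw [h3.2, hyb]
    intro h0
    exact Complex.exp_ne_zero _ (add_eq_left.1 h0)

private theorem yc_loc (hL : LeafSys Ω f Bad P) (hD : HasDiscs Ω f)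
    (hbB : b ∈ Bad) (hb : ∀ b' ∈ Bad, b'.im = b.im → b' = b) (c x : E2)
    (hx : x ∈ Zl Ω f b.im) :
    ∀ᶠ y in 𝓝 x, y ∈ Zl Ω f b.im → (y ∈ Yc Ω f b c ↔ x ∈ Yc Ω f b c) := by
  have hxim : (f x).im = b.im := hx.2
  by_cases hxb : f x = b
  · -- `x` lies over `b`
    have hnear := adh_near hL hD hbB hb hx.1 hxb
    have hxY : x ∈ Yc Ω f b c ↔ x ∈ closure (RY Ω f b c) := by
      constructor
      · rintro (⟨h, -⟩ | ⟨-, h⟩)
        · exact absurd hxb h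
        · exact h
      · exact fun h => Or.inr ⟨hxb, h⟩
    rw [hxY]
    filter_upwards [hnear, hnear.eventually_nhds] with y h1 h2 hy
    have hyim : (f y).im = b.im := hy.2
    by_cases hyb : f y = b
    · obtain ⟨z, ⟨hz1, hz2⟩, hz3, hz4⟩ := ((yc_freq hL hD hy.1 hyb).and_eventually
        ((adh_near hL hD hbB hb hy.1 hyb).and h2)).exists
      have hyz := hz3 hz1 hz2
      have hxz := hz4 hz1 hz2
      have hyY : y ∈ Yc Ω f b c ↔ y ∈ closure (RY Ω f b c) := by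
        constructor
        · rintro (⟨h, -⟩ | ⟨-, h⟩)
          · exact absurd hyb h
          · exact h
        · exact fun h => Or.inr ⟨hyb, h⟩
      rw [hyY]
      exact ⟨fun h => adh_trans hL hD hbB hb hy.1 hx.1 hyb hxb hyz hxz h,
        fun h => adh_trans hL hD hbB hb hx.1 hy.1 hxb hyb hxz hyz h⟩
    · have hxy := h1 hyim hyb
      constructor
      · rintro (⟨-, h | ⟨a, ha, hab, h3, h4⟩⟩ | ⟨h, -⟩)
        · rw [← ray_eq h]
          exact hxy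
        · exact adh_trans hL hD hbB hb ha hx.1 hab hxb h3 hxy h4
        · exact absurd h hyb
      · exact fun h => Or.inl ⟨hyb, Or.inr ⟨x, hx.1, hxb, hxy, h⟩⟩
  · filter_upwards [ray_open hL hb hx.1 hxim hxb] with y h1 hy
    have hyx := h1 hy.2
    have he := ray_eq hyx
    have hyb := (ray_mem hyx).2.2
    have hr : y ∈ RY Ω f b c ↔ x ∈ RY Ω f b c := by
      constructor
      · intro h
        rw [← ray_eq h, he]
        exact ray_self hx.1 hxim hxb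
      · intro h
        rw [← ray_eq h]
        exact hyx
    constructor
    · rintro (⟨-, h⟩ | ⟨h, -⟩)
      · refine Or.inl ⟨hxb, ?_⟩
        rwa [hr, he] at h
      · exact absurd h hyb
    · rintro (⟨-, h⟩ | ⟨h, -⟩)
      · refine Or.inl ⟨hyb, ?_⟩
        rwa [hr, he]
      · exact absurd h hxb

private theorem yc_fin (hL : LeafSys Ω f Bad P) (hD : HasDiscs Ω f) (hW : IsWs Ω f Bad P Ws)
    (hbB : b ∈ Bad) (hb : ∀ b' ∈ Bad, b'.im = b.im → b' = b) (c : E2) (hc : c ∈ Ω)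
    (hci : (f c).im = b.im) (hcb : f c ≠ b) :
    (lam f Bad P Ws b.im '' {x | x ∈ Yc Ω f b c ∧ x ∈ Zl Ω f b.im ∧ f x ≠ b}).Finite := by
  by_cases h : ∃ a ∈ Ω, f a = b ∧ a ∈ closure (RY Ω f b c)
  · obtain ⟨a, ha, hab, hac⟩ := h
    refine (adh_fin hL hD hW hbB hb ha hab).subset (image_mono ?_)
    rintro x ⟨h1, h2, h3⟩
    refine ⟨h2.1, h2.2, h3, ?_⟩
    rcases h1 with ⟨-, h | ⟨a', ha', hab', h4, h5⟩⟩ | ⟨h, -⟩
    · rw [ray_eq h]
      exact hac
    · exact adh_trans hL hD hbB hb ha' ha hab' hab h5 hac h4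
    · exact absurd h h3
  · refine (finite_singleton (lam f Bad P Ws b.im c)).subset ?_
    rintro _ ⟨x, ⟨h1, h2, h3⟩, rfl⟩
    rcases h1 with ⟨-, h' | ⟨a', ha', hab', h4, h5⟩⟩ | ⟨h', -⟩
    · refine lam_conn hL hW (S := RY Ω f b c) isPreconnected_connectedComponentIn (fun y hy => ?_)
        (fun y hy => ?_) (ray_self hc hci hcb) h'
      · exact ⟨(ray_mem hy).1, (ray_mem hy).2.1⟩
      · exact hL.chart y (ray_mem hy).1 fun hB => (ray_mem hy).2.2 (hb _ hB (ray_mem hy).2.1)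
    · exact absurd ⟨a', ha', hab', h5⟩ h
    · exact absurd h' h3

theorem exists_Y (hL : LeafSys Ω f Bad P) (hD : HasDiscs Ω f) (hW : IsWs Ω f Bad P Ws)
    (hbB : b ∈ Bad) (hb : ∀ b' ∈ Bad, b'.im = b.im → b' = b) (C : Set E2) (hC : C.Finite)
    (hCΩ : ∀ c ∈ C, c ∈ Ω ∧ (f c).im = b.im ∧ f c ≠ b) :
    ∃ Y : Set E2, C ⊆ Y ∧
      (∀ x ∈ Zl Ω f b.im, ∀ᶠ y in 𝓝 x, y ∈ Zl Ω f b.im → (y ∈ Y ↔ x ∈ Y)) ∧
      (lam f Bad P Ws b.im '' {x | x ∈ Y ∧ x ∈ Zl Ω f b.im ∧ f x ≠ b}).Finite := by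
  refine ⟨⋃ c ∈ C, Yc Ω f b c, ?_, ?_, ?_⟩
  · intro c hc
    obtain ⟨h1, h2, h3⟩ := hCΩ c hc
    exact mem_biUnion hc (Or.inl ⟨h3, Or.inl (ray_self h1 h2 h3)⟩)
  · intro x hx
    have h1 : ∀ᶠ y in 𝓝 x, ∀ c ∈ C, y ∈ Zl Ω f b.im → (y ∈ Yc Ω f b c ↔ x ∈ Yc Ω f b c) :=
      (Filter.eventually_all_finite hC).2 fun c _ => yc_loc hL hD hbB hb c x hx
    filter_upwards [h1] with y hy hyZ
    simp only [mem_iUnion]
    constructor
    · rintro ⟨c, hc, h⟩
      exact ⟨c, hc, (hy c hc hyZ).1 h⟩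
    · rintro ⟨c, hc, h⟩
      exact ⟨c, hc, (hy c hc hyZ).2 h⟩
  · refine (hC.biUnion fun c hc => yc_fin hL hD hW hbB hb c (hCΩ c hc).1 (hCΩ c hc).2.1
      (hCΩ c hc).2.2).subset ?_
    rintro _ ⟨x, ⟨h1, h2⟩, rfl⟩
    obtain ⟨c, hc, h⟩ := mem_iUnion₂.1 h1
    exact mem_biUnion hc ⟨x, ⟨h, h2⟩, rfl⟩

end Pool.Agent.MP_fe3720.NR
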